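import Pool.Agent.X333.DC.Lin
import Pool.Agent.Y221.BD.Mv

/-!
Openness: the generic point of a variety which is not moved by linear motions has specialisations
which are not moved by linear motions.
-/

set_option autoImplicit false
set_option maxHeartbeats 400000
set_option linter.overlappingInstances false
set_option linter.unusedSectionVars false

open FF Pool.Agent.W603.LV

namespace Pool.Agent.X333.DC

open Pool.Agent.W602.GT Pool.Agent.TH466.QG Pool.Agent.Y221.BD Pool.Agent.TH710.ND

variable {k : Type} [Field k] {n : ℕ} {ι : Type}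

/-- a projector to the space of solutions of linear equations -/
theorem proj_exists {K : Type} [Field K] {m : ℕ} {I : Type} (φ : I → (Fin m → K) →ₗ[K] K) :
    ∃ P : (Fin m → K) →ₗ[K] (Fin m → K), (∀ x a, φ a (P x) = 0) ∧
      ∀ v, (∀ a, φ a v = 0) → P v = v := by
  let W : Submodule K (Fin m → K) := ⨅ a, LinearMap.ker (φ a)
  obtain ⟨g, hg⟩ := W.subtype.exists_leftInverse_of_injective (Submodule.ker_subtype W)
  refine ⟨W.subtype ∘ₗ g, fun x a => ?_, fun v hv => ?_⟩
  · have h : (g x : Fin m → K) ∈ W := (g x).2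
    rw [Submodule.mem_iInf] at h
    exact h a
  · have h1 : v ∈ W := by
      rw [Submodule.mem_iInf]
      exact fun a => hv a
    have h2 : g (W.subtype ⟨v, h1⟩) = ⟨v, h1⟩ := LinearMap.congr_fun hg ⟨v, h1⟩
    change W.subtype (g v) = v
    have h3 : W.subtype ⟨v, h1⟩ = v := rfl
    rw [h3] at h2
    rw [h2]
    rfl

/-- the value of a functional at a point over an extension -/
noncomputable def ex {K M : Type} [Field K] [Field M] [Algebra K M] {m : ℕ}
    (φ : (Fin m → K) →ₗ[K] K) (x : Fin m → M) : M :=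
  ∑ q, x q * algebraMap K M (φ (Pi.single q 1))

section ex

variable {K M : Type} [Field K] [Field M] [Algebra K M] {m : ℕ}

theorem ex_sum {I : Type} [Fintype I] (c : I → K) (φ : I → (Fin m → K) →ₗ[K] K)
    (x : Fin m → M) : ex (∑ a, c a • φ a) x = ∑ a, algebraMap K M (c a) * ex (φ a) x := by
  unfold ex
  simp only [LinearMap.sum_apply, LinearMap.smul_apply, smul_eq_mul, map_sum, map_mul,
    Finset.mul_sum]
  rw [Finset.sum_comm]
  exact Finset.sum_congr rfl fun a _ => Finset.sum_congr rfl fun q _ => by ring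

theorem ex_sub (φ ψ : (Fin m → K) →ₗ[K] K) (x : Fin m → M) :
    ex (φ - ψ) x = ex φ x - ex ψ x := by
  unfold ex
  simp only [LinearMap.sub_apply, map_sub, mul_sub, Finset.sum_sub_distrib]

theorem ex_smul (c : K) (φ : (Fin m → K) →ₗ[K] K) (x : Fin m → M) :
    ex (c • φ) x = algebraMap K M c * ex φ x := by
  unfold ex
  simp only [LinearMap.smul_apply, smul_eq_mul, map_mul, Finset.mul_sum]
  exact Finset.sum_congr rfl fun q _ => by ring

theorem ex_zero (x : Fin m → M) : ex (0 : (Fin m → K) →ₗ[K] K) x = 0 := by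
  unfold ex
  simp

theorem ex_proj (i : Fin m) (x : Fin m → M) :
    ex (LinearMap.proj i : (Fin m → K) →ₗ[K] K) x = x i := by
  classical
  unfold ex
  simp only [LinearMap.proj_apply, Pi.single_apply]
  rw [Finset.sum_eq_single i]
  · simp
  · intro q _ hq
    simp [hq.symm]
  · intro h
    exact absurd (Finset.mem_univ i) h

theorem ex_self (φ : (Fin m → K) →ₗ[K] K) (x : Fin m → K) : ex φ x = φ x := by
  classical
  unfold ex
  conv_rhs => rw [← Finset.univ_sum_single x]
  rw [map_sum]
  refine Finset.sum_congr rfl fun q _ => ?_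
  have h1 : (Pi.single q (x q) : Fin m → K) = x q • Pi.single q (1 : K) := by
    rw [← Pi.single_smul, smul_eq_mul, mul_one]
  rw [h1, map_smul, smul_eq_mul]
  rfl

end ex

theorem ex_lin {K M : Type} [Field K] [Field M] [Algebra k K]
    [Algebra k M] [Algebra K M] [IsScalarTower k K M] (l : Fin (n + 1) → k)
    (x : Fin (n + 1) → M) : ex (linL K l) x = lin l x := by
  unfold ex lin
  refine Finset.sum_congr rfl fun q _ => ?_
  rw [linL_apply]
  have h1 : lin l (Pi.single q 1 : Fin (n + 1) → K) = algebraMap k K (l q) := by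
    unfold lin
    rw [Finset.sum_eq_single q]
    · rw [Pi.single_eq_same, mul_one]
    · intro i _ hi
      rw [Pi.single_eq_of_ne hi, mul_zero]
    · intro h
      exact absurd (Finset.mem_univ q) h
  rw [h1, ← IsScalarTower.algebraMap_apply, mul_comm]

/-- a test point for the vanishing of a polynomial on a linear space -/
theorem test_point [Infinite k] {K : Type} [Field K] [Algebra k K] (p : Fin (n + 1) → Fin (n + 1) → K)
    (F : MvPolynomial (Fin (n + 1)) k) : ∃ x0 : Fin (n + 1) → k,
      val (fun m => ∑ q, algebraMap k K (x0 q) * p m q) F = 0 →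
      ∀ (M : Type) [Field M] [Algebra k M] [Algebra K M] [IsScalarTower k K M]
        (x : Fin (n + 1) → M), val (fun m => ∑ q, x q * algebraMap K M (p m q)) F = 0 := by
  let G : MvPolynomial (Fin (n + 1)) K := MvPolynomial.aeval
    (fun m => ∑ q, MvPolynomial.C (p m q) * MvPolynomial.X q : Fin (n + 1) →
      MvPolynomial (Fin (n + 1)) K) F
  have hG : ∀ (M : Type) [Field M] [Algebra k M] [Algebra K M] [IsScalarTower k K M]
      (x : Fin (n + 1) → M), val (fun m => ∑ q, x q * algebraMap K M (p m q)) F =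
        MvPolynomial.aeval x G := by
    intro M _ _ _ _ x
    let ψ : MvPolynomial (Fin (n + 1)) K →ₐ[k] M := (MvPolynomial.aeval x).restrictScalars k
    have h1 : MvPolynomial.aeval x G = ψ G := rfl
    rw [h1]
    change _ = ψ (MvPolynomial.aeval _ F)
    rw [MvPolynomial.comp_aeval_apply]
    unfold Pool.Agent.W602.GT.val
    congr 2
    funext m
    change _ = MvPolynomial.aeval x (∑ q, MvPolynomial.C (p m q) * MvPolynomial.X q)
    rw [map_sum]
    refine Finset.sum_congr rfl fun q _ => ?_
    rw [map_mul, MvPolynomial.aeval_C, MvPolynomial.aeval_X, mul_comm]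
  by_cases h0 : G = 0
  · refine ⟨0, fun _ M _ _ _ _ x => ?_⟩
    rw [hG, h0, map_zero]
  · obtain ⟨x0, hx0⟩ : ∃ x0 : Fin (n + 1) → k,
        MvPolynomial.eval (fun q => algebraMap k K (x0 q)) G ≠ 0 := by
      by_contra hcon
      push Not at hcon
      apply h0
      refine MvPolynomial.funext_set (fun _ => Set.range (algebraMap k K))
        (fun _ => Set.infinite_range_of_injective (algebraMap k K).injective) ?_
      intro x hx
      rw [map_zero]
      choose x0 hx0 using fun i => hx i (Set.mem_univ i)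
      have h1 := hcon x0
      have h2 : (fun q => algebraMap k K (x0 q)) = x := funext hx0
      rw [h2] at h1
      exact h1
    refine ⟨x0, fun h => absurd ?_ hx0⟩
    have h1 := hG K (fun q => algebraMap k K (x0 q))
    simp only [Algebra.algebraMap_self, RingHom.id_apply] at h1
    rw [h] at h1
    exact h1.symm

variable [CharZero k] [IsAlgClosed k]

/-- **Openness.** -/
theorem open_nest [Finite ι] {F : ι → MvPolynomial (Fin (n + 1)) k}
    (S0 : Finset (Fin (n + 1) → k)) {K : Type} [Field K] [Algebra k K] {y : Fin (n + 1) → K}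
    (hyF : ∀ e, val y (F e) = 0) {i0 : Fin (n + 1)} (hi0 : y i0 ≠ 0) (hR : ¬ LinMv F y) :
    ∃ Θ : Set K, Θ.Finite ∧ ∀ (K'' : Type) [Field K''] [Algebra k K''] (S : Sp k K K''),
      (∀ ϑ ∈ Θ, ∃ z, S.T ϑ z) → ∀ y' : Fin (n + 1) → K'', (∀ i, S.T (y i) (y' i)) →
      y' i0 ≠ 0 ∧ (∀ e, val y' (F e) = 0) ∧ ¬ LinT S0 F i0 y' := by
  classical
  have hinf : Infinite k := IsAlgClosed.instInfinite
  let r : Unit → ℕ := fun _ => S0.card
  let l : ∀ e : Unit, Fin (r e) → Fin (n + 1) → k := fun _ j => (S0.equivFin.symm j).1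
  have hlS : ∀ j, l () j ∈ S0 := fun j => (S0.equivFin.symm j).2
  have hSl : ∀ a ∈ S0, ∃ j, l () j = a := fun a ha => ⟨S0.equivFin ⟨a, ha⟩, by
    simp only [l, Equiv.symm_apply_apply]⟩
  let Ty : Type := ∀ e : Unit, Fin (r e) × Fin (r e) → Prop
  choose P hP1 hP2 using fun τ : Ty => proj_exists (phiL l τ y)
  let p : Ty → Fin (n + 1) → Fin (n + 1) → K := fun τ m q => P τ (Pi.single q 1) m
  let χ : Ty → Fin (n + 1) → (Fin (n + 1) → K) →ₗ[K] K := fun τ m =>
    LinearMap.proj m - (LinearMap.proj m).comp (P τ)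
  have hχ : ∀ τ m v, (∀ a, phiL l τ y a v = 0) → χ τ m v = 0 := by
    intro τ m v hv
    change v m - P τ v m = 0
    rw [hP2 τ v hv, sub_self]
  choose c hc using fun (τ : Ty) (m : Fin (n + 1)) => span_of_ker (phiL l τ y) (χ τ m) (hχ τ m)
  choose x0 hx0 using fun (τ : Ty) (e : ι) => test_point (p τ) (F e)
  let g : Ty → ι → K := fun τ e =>
    val (fun m => ∑ q, algebraMap k K (x0 τ e q) * p τ m q) (F e)
  have hexp : ∀ (τ : Ty) (m : Fin (n + 1)) (M : Type) [Field M] [Algebra K M]
      (x : Fin (n + 1) → M), ex (χ τ m) x = x m - ∑ q, x q * algebraMap K M (p τ m q) := by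
    intro τ m M _ _ x
    rw [ex_sub, ex_proj]
    rfl
  refine ⟨(⋃ τ : Ty, ⋃ m : Fin (n + 1), Set.range (c τ m)) ∪
    ((⋃ τ : Ty, ⋃ m : Fin (n + 1), Set.range (p τ m)) ∪
    ((⋃ τ : Ty, Set.range fun e => (g τ e)⁻¹) ∪
    ((Set.range fun j => (lin (l () j) y)⁻¹) ∪ {(y i0)⁻¹}))), ?_, ?_⟩
  · refine Set.Finite.union ?_ (Set.Finite.union ?_ (Set.Finite.union ?_
      (Set.Finite.union ?_ (Set.finite_singleton _))))
    · exact Set.finite_iUnion fun τ => Set.finite_iUnion fun m => Set.finite_range _
    · exact Set.finite_iUnion fun τ => Set.finite_iUnion fun m => Set.finite_range _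
    · exact Set.finite_iUnion fun τ => Set.finite_range _
    · exact Set.finite_range _
  intro K'' _ _ S hS y' hyS
  have hS1 : ∀ (τ : Ty) m a, ∃ z, S.T (c τ m a) z := fun τ m a =>
    hS _ (Or.inl (Set.mem_iUnion.2 ⟨τ, Set.mem_iUnion.2 ⟨m, a, rfl⟩⟩))
  have hS2 : ∀ (τ : Ty) m q, ∃ z, S.T (p τ m q) z := fun τ m q =>
    hS _ (Or.inr (Or.inl (Set.mem_iUnion.2 ⟨τ, Set.mem_iUnion.2 ⟨m, q, rfl⟩⟩)))
  have hS3 : ∀ (τ : Ty) e, ∃ z, S.T (g τ e)⁻¹ z := fun τ e =>
    hS _ (Or.inr (Or.inr (Or.inl (Set.mem_iUnion.2 ⟨τ, e, rfl⟩))))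
  have hS4 : ∀ j, ∃ z, S.T (lin (l () j) y)⁻¹ z := fun j =>
    hS _ (Or.inr (Or.inr (Or.inr (Or.inl ⟨j, rfl⟩))))
  have hS5 : ∃ z, S.T (y i0)⁻¹ z := hS _ (Or.inr (Or.inr (Or.inr (Or.inr rfl))))
  have hi0' : y' i0 ≠ 0 := S.ne_zero (hyS i0) hS5 hi0
  have hback : ∀ j, lin (l () j) y' = 0 → lin (l () j) y = 0 := fun j h =>
    S.back (S.lin hyS _) (hS4 j) h
  have hforw : ∀ a : Fin (n + 1) → k, lin a y' ≠ 0 → lin a y ≠ 0 := fun a h h0 =>
    h (S.eq_zero (S.lin hyS _) h0)
  refine ⟨hi0', fun e => S.eq_zero (S.val hyS _) (hyF e), ?_⟩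
  rintro ⟨Q, v, hQ, hv0, hv, hs, hx⟩
  let τ : Ty := fun e p => (p.1 = p.2 ∧ lin (l e p.1) y' ≠ 0) ∨
    (p.1 ≠ p.2 ∧ (l e p.1, l e p.2) ∈ Q)
  have hτd : ∀ j, τ () (j, j) ↔ lin (l () j) y' ≠ 0 := fun j =>
    ⟨fun h => h.elim (fun h => h.2) fun h => absurd rfl h.1, fun h => Or.inl ⟨rfl, h⟩⟩
  -- the equations
  have hSol : ∀ x : Fin (n + 1) → K'', (∀ a, phiL l τ y' a x = 0) ↔ Sol S0 Q y' x := by
    intro x
    constructor
    · intro h
      refine ⟨fun a ha h0 => ?_, fun q hq => ?_⟩
      · obtain ⟨j, rfl⟩ := hSl a ha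
        have h1 := h (Sum.inl ⟨(), j⟩)
        simp only [phiL] at h1
        rw [if_neg (fun h2 => (hτd j).1 h2 h0), linL_apply] at h1
        exact h1
      · obtain ⟨a, b⟩ := q
        obtain ⟨ha, hb, -, -⟩ := hQ _ hq
        obtain ⟨i, rfl⟩ := hSl a ha
        obtain ⟨j, rfl⟩ := hSl b hb
        by_cases hij : i = j
        · subst hij
          simp only
          ring
        · have h1 := h (Sum.inr ⟨(), (i, j)⟩)
          simp only [phiL] at h1
          rw [if_pos (Or.inr ⟨hij, hq⟩)] at h1
          simp only [LinearMap.sub_apply, LinearMap.smul_apply, smul_eq_mul, linL_apply] at h1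
          simp only
          linear_combination h1
    · rintro ⟨h1, h2⟩ (⟨e, j⟩ | ⟨e, i, j⟩)
      · simp only [phiL]
        split_ifs with h
        · rfl
        · rw [linL_apply]
          exact h1 _ (hlS j) (not_not.1 fun h0 => h ((hτd j).2 h0))
      · simp only [phiL]
        split_ifs with h
        · simp only [LinearMap.sub_apply, LinearMap.smul_apply, smul_eq_mul, linL_apply]
          rcases h with ⟨h3, -⟩ | ⟨-, h3⟩
          · simp only at h3
            subst h3
            ring
          · have h4 := h2 _ h3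
            simp only at h4
            linear_combination h4
        · rfl
  choose p' hp' using hS2 τ
  -- the forms vanish on the linear space
  have hvan : ∀ e (M : Type) [Field M] [Algebra k M] [Algebra K M] [IsScalarTower k K M]
      (x : Fin (n + 1) → M), val (fun m => ∑ q, x q * algebraMap K M (p τ m q)) (F e) = 0 := by
    intro e
    apply hx0 τ e
    have h1 : ∀ m, S.T (∑ q, algebraMap k K (x0 τ e q) * p τ m q)
        (∑ q, algebraMap k K'' (x0 τ e q) * p' m q) := fun m =>
      S.sum _ fun q _ => S.mul (S.const _) (hp' m q)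
    refine S.back (S.val h1 (F e)) (hS3 τ e) ?_
    refine hx _ ((hSol _).1 fun a => ?_) e
    have h2 : phiL l τ y' a (fun m => ∑ q, algebraMap k K'' (x0 τ e q) * p' m q) =
        ∑ m, (∑ q, algebraMap k K'' (x0 τ e q) * p' m q) * phiL l τ y' a (Pi.single m 1) :=
      (ex_self _ _).symm
    have h3 : phiL l τ y a (fun m => ∑ q, algebraMap k K (x0 τ e q) * p τ m q) =
        ∑ m, (∑ q, algebraMap k K (x0 τ e q) * p τ m q) * phiL l τ y a (Pi.single m 1) :=
      (ex_self _ _).symm
    have h4 : (fun m => ∑ q, algebraMap k K (x0 τ e q) * p τ m q) =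
        P τ (fun q => algebraMap k K (x0 τ e q)) := by
      funext m
      exact ex_self ((LinearMap.proj m).comp (P τ)) (fun q => algebraMap k K (x0 τ e q))
    rw [h2]
    refine S.eq_zero (S.sum _ fun m _ => S.mul (h1 m) (phi_spec S l τ hyS a m)) ?_
    rw [← h3, h4]
    exact hP1 τ _ a
  -- some column is not proportional to the point
  obtain ⟨q, m, hqm⟩ : ∃ q m, p τ m q * y i0 ≠ p τ i0 q * y m := by
    by_contra hcon
    push Not at hcon
    apply hv
    have h1 : ∀ q m, p' m q * y' i0 = p' i0 q * y' m := by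
      intro q m
      have h2 := S.mul (hp' m q) (hyS i0)
      rw [hcon q m] at h2
      exact S.ext h2 (S.mul (hp' i0 q) (hyS m))
    let χ' : Fin (n + 1) → (Fin (n + 1) → K'') →ₗ[K''] K'' := fun m =>
      LinearMap.proj m - ∑ q, p' m q • LinearMap.proj q
    have h2 : ∀ m, v m = ∑ q, p' m q * v q := by
      intro m
      have h3 := comb_spec S (phiL l τ y) (χ τ m) (phiL l τ y') (χ' m) (phi_spec S l τ hyS)
        (fun q => by
          have h4 : χ' m (Pi.single q 1) = (Pi.single q 1 : Fin (n + 1) → K'') m - p' m q := by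
            simp only [χ', LinearMap.sub_apply, LinearMap.sum_apply, LinearMap.smul_apply,
              LinearMap.proj_apply, smul_eq_mul]
            congr 1
            rw [Finset.sum_eq_single q]
            · rw [Pi.single_eq_same, mul_one]
            · intro i _ hi
              rw [Pi.single_eq_of_ne hi, mul_zero]
            · intro h
              exact absurd (Finset.mem_univ q) h
          have h5 : χ τ m (Pi.single q 1) = (Pi.single q 1 : Fin (n + 1) → K) m - p τ m q := rfl
          rw [h4, h5]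
          refine S.sub ?_ (hp' m q)
          by_cases h6 : m = q
          · subst h6
            rw [Pi.single_eq_same, Pi.single_eq_same]
            exact S.one
          · rw [Pi.single_eq_of_ne h6, Pi.single_eq_of_ne h6]
            exact S.zero) (hc τ m) (hS1 τ m) (v := v) ((hSol v).2 hs)
      simp only [χ', LinearMap.sub_apply, LinearMap.sum_apply, LinearMap.smul_apply,
        LinearMap.proj_apply, smul_eq_mul] at h3
      exact sub_eq_zero.1 h3
    funext m
    have h3 : v m * y' i0 = y' m * v i0 := by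
      rw [h2 m, h2 i0, Finset.sum_mul, Finset.mul_sum]
      refine Finset.sum_congr rfl fun q _ => ?_
      have := h1 q m
      linear_combination (v q) * this
    rw [hv0, mul_zero] at h3
    exact (mul_eq_zero.1 h3).resolve_right hi0'
  -- the motion
  apply hR
  let u : Fin (n + 1) → K := P τ (Pi.single q 1)
  have hu : ∀ a, phiL l τ y a u = 0 := hP1 τ _
  have huZ : ∀ j, lin (l () j) y' = 0 → lin (l () j) u = 0 := by
    intro j hj
    have h1 := hu (Sum.inl ⟨(), j⟩)
    simp only [phiL] at h1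
    rw [if_neg (fun h => (hτd j).1 h hj), linL_apply] at h1
    exact h1
  have huQ : ∀ z ∈ Q, lin z.2 y * lin z.1 u = lin z.1 y * lin z.2 u := by
    rintro ⟨a, b⟩ hz
    obtain ⟨ha, hb, -, -⟩ := hQ _ hz
    obtain ⟨i, rfl⟩ := hSl a ha
    obtain ⟨j, rfl⟩ := hSl b hb
    by_cases hij : i = j
    · subst hij
      rfl
    · have h1 := hu (Sum.inr ⟨(), (i, j)⟩)
      simp only [phiL] at h1
      rw [if_pos (Or.inr ⟨hij, hz⟩)] at h1
      simp only [LinearMap.sub_apply, LinearMap.smul_apply, smul_eq_mul, linL_apply] at h1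
      exact sub_eq_zero.1 h1
  let v0 : Fin (n + 1) → K := fun i => 1 * u i + (-(u i0 / y i0)) * y i
  have hv0l : ∀ L : Fin (n + 1) → k, lin L v0 = lin L u - u i0 / y i0 * lin L y := by
    intro L
    simp only [v0]
    rw [lin_add_smul]
    ring
  refine ⟨i0, m, v0, {z | z ∈ S0 ∧ lin z y' = 0}, Q, hi0, ?_, ?_, ?_, ?_, ?_, ?_, ?_⟩
  · simp only [v0]
    field_simp
    ring
  · intro h0
    apply hqm
    simp only [v0] at h0
    field_simp at h0
    change u m * y i0 = u i0 * y m
    linear_combination h0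
  · rintro z ⟨hz, hz0⟩
    obtain ⟨j, rfl⟩ := hSl z hz
    exact hback j hz0
  · rintro z ⟨hz, hz0⟩
    obtain ⟨j, rfl⟩ := hSl z hz
    rw [hv0l, huZ j hz0, hback j hz0]
    ring
  · rintro z hz
    obtain ⟨-, -, h1, h2⟩ := hQ z hz
    exact ⟨hforw _ h1, hforw _ h2⟩
  · rintro z hz
    obtain ⟨-, -, h1', h2'⟩ := hQ z hz
    have h1 := hforw _ h1'
    have h2 := hforw _ h2'
    have h3 := huQ z hz
    rw [hv0l, hv0l]
    field_simp
    linear_combination (y i0) * h3
  · intro M _ _ _ _ x hxZ hxQ e
    have h1 : ∀ a, ex (phiL l τ y a) x = 0 := by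
      rintro (⟨e', j⟩ | ⟨e', i, j⟩)
      · simp only [phiL]
        split_ifs with h
        · exact ex_zero x
        · rw [ex_lin]
          exact hxZ _ ⟨hlS j, not_not.1 fun h0 => h ((hτd j).2 h0)⟩
      · simp only [phiL]
        split_ifs with h
        · rw [ex_sub, ex_smul, ex_smul, ex_lin, ex_lin]
          rcases h with ⟨h3, -⟩ | ⟨-, h3⟩
          · simp only at h3
            subst h3
            ring
          · have h4 := hxQ _ h3
            obtain ⟨-, -, -, h5'⟩ := hQ _ h3
            have h5 : algebraMap K M (lin (l () j) y) ≠ 0 := by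
              rw [Ne, map_eq_zero]
              exact hforw _ h5'
            simp only at h4
            rw [map_div₀] at h4
            change algebraMap K M (lin (l () j) y) * lin (l () i) x -
              algebraMap K M (lin (l () i) y) * lin (l () j) x = 0
            rw [h4]
            field_simp
            ring
        · exact ex_zero x
    have h2 : ∀ m, x m = ∑ q, x q * algebraMap K M (p τ m q) := by
      intro m
      have h3 := hexp τ m M x
      rw [← hc τ m, ex_sum, Finset.sum_eq_zero fun a _ => by rw [h1 a, mul_zero]] at h3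
      exact (sub_eq_zero.1 h3.symm)
    have h3 := hvan e M x
    rw [← funext h2] at h3
    exact h3

end Pool.Agent.X333.DC
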