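import Pool.Agent.X333.DC.Dom
import Pool.Agent.X333.DC.Opn

/-!
Varieties dominated by varieties given by nested sums of high powers of linear forms or of
monomials: the degrees of the curves and of the coverings of curves.
-/

set_option autoImplicit false
set_option maxHeartbeats 400000
set_option linter.overlappingInstances false
set_option linter.unusedSectionVars false

open FF IntermediateField Pool.Agent.W603.LV

namespace Pool.Agent.X333.DC

open Pool.Agent.W602.GT Pool.Agent.TH466.QG Pool.Agent.Y221.BD Pool.Agent.Y221.AH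
  Pool.Agent.Y221.PB Pool.Agent.TH710.ND Pool.Agent.X333.DN
open Pool.Agent.W603.PV (pht pht_le)
open Pool.Agent.Y216 (OnVar CurveBound pointed_of_bound)
open Pool.Agent.W602.RG (PseudoGeomHyp)
open Pool.Agent.W619.PQ (IsUniruled)

variable {k : Type} [Field k] [IsAlgClosed k] [CharZero k] {n : ℕ} {ι : Type} [Finite ι]
  {F : ι → MvPolynomial (Fin (n + 1)) k} {s N h r ρ w : ℕ}

/-- **The key bound.** -/
theorem key_high {R : ℕ} (hN2 : 2 ≤ N)
    (hN : 8 * (R * ((h + 1) * (2 * s * (2 * s)) * ((2 * s + 1) * tn (2 * s - 1)))) ≤ N)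
    (hF : HighTowers s N h F) {K : Type} [Field K] [Algebra k K]
    {y : Fin (n + 1) → K} (hyF : ∀ e, val y (F e) = 0) {i0 : Fin (n + 1)} (hi0 : y i0 ≠ 0)
    (hL : ¬ LinMv F y) (hW : ¬ WtMv F y) : KeyB k R y := by
  rcases hF with h' | h'
  · obtain ⟨S0, hS0⟩ := nested_finL' (F := F) (s := s) (N := N) (m := h) fun i => h' i
    obtain ⟨A, hA⟩ := lin_dich hN2 hN F hS0
    obtain ⟨Θ, hΘ, hopen⟩ := open_nest S0 hyF hi0 hL
    refine ⟨Θ, A, hΘ, ?_⟩
    intro K0 K'' _ _ _ _ _ _ _ _ _ hrk S hS y' hy'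
    obtain ⟨h1, h2, h3⟩ := hopen K'' S hS y' hy'
    exact hA K0 K'' hrk y' i0 h1 h2 h3
  · exact key_mono hN2 hN h' hyF hi0 hW

theorem no_mv (hF : HighTowers s N h F) {K : Type} [Field K]
    [Algebra k K] {y : Fin (n + 1) → K} (hy : SubVar F K w y)
    (h0 : ¬ RatCurve F y ∨ IsComponent F y ∧ ¬ Ruled k K) : ¬ LinMv F y ∧ ¬ WtMv F y := by
  refine ⟨fun hW => ?_, fun hW => ?_⟩
  · rcases h0 with h | ⟨h1, h2⟩
    · exact h hW.curve
    · exact h2 (hW.ruled hy h1)
  · rcases h0 with h | ⟨h1, h2⟩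
    · exact h (hW.curve fun e => hF.form e)
    · exact h2 (hW.ruled hy h1)

/-- **Dominated varieties.** -/
theorem dom_allH (hF : HighTowers s N h F) (hw : 1 ≤ w)
    (hρ : 1 ≤ ρ) (hN : 8 * (ρ * r * ((n + 1) * ((h + 1) * (2 * s + 1) ^ 5))) ≤ N)
    {K : Type} [Field K] [Algebra k K]
    {y : Fin (n + 1) → K} (hy : SubVar F K w y)
    (h0 : ¬ RatCurve F y ∨ IsComponent F y ∧ ¬ Ruled k K)
    {K' L : Type} [Field K'] [Field L] [Algebra k K'] [Algebra k L]
    [Algebra K K'] [Algebra L K'] [IsScalarTower k K K'] [IsScalarTower k L K']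
    [FiniteDimensional K K'] [FiniteDimensional L K'] (hr : Module.finrank L K' ≤ r)
    {M : ℕ} {x : Fin (M + 1) → L} (hx : x ≠ 0) (hgen : coords k x = ⊤) :
    GeneralType k L w ∧ CoverBound k ρ x ∧ PseudoGeomHyp k x := by
  have hgen' : Algebra.IsAlgebraic (coords k y) K := by
    rw [hy.gen]
    infer_instance
  have hwn := dim_le hy.ne hgen' hy.dim
  have hr1 : 1 ≤ r := one_le_rank hr
  obtain ⟨hN1, hN2, hN3⟩ := bound_key hr1 hρ hw hwn hN
  obtain ⟨i0, hi0'⟩ := Function.ne_iff.1 hy.ne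
  have hi0 : y i0 ≠ 0 := hi0'
  have h1 : GeneralType k L w := by
    rcases h0 with h | ⟨h1, h2⟩
    · exact (abu_curve' (K := K) (K' := K') hF hw hN3 hy h hr).1
    · exact (abu_corr' (K := K) (K' := K') hF hw hN3 hy h1 h2 hr).1
  obtain ⟨hL, hW⟩ := no_mv hF hy h0
  have h2 : CoverBound k ρ x :=
    cover_of_key (K' := K') hy.gen hi0 (key_high hN2 hN1 hF hy.mem hi0 hL hW) hr hx hgen
  exact ⟨h1, h2, pointed_of_bound (h2.curve hρ)⟩

/-- **The equivalences.** -/
theorem dom_tfaeH (hF : HighTowers s N h F) (hw : 1 ≤ w)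
    (hρ : 1 ≤ ρ) (hN : 8 * (ρ * r * ((n + 1) * ((h + 1) * (2 * s + 1) ^ 5))) ≤ N)
    {K : Type} [Field K] [Algebra k K]
    {y : Fin (n + 1) → K} (hy : SubVar F K w y) (hcomp : IsComponent F y)
    {L : Type} [Field L] [Algebra k L] [Algebra L K] [IsScalarTower k L K]
    [FiniteDimensional L K] (hr : Module.finrank L K ≤ r) {M : ℕ} {x : Fin (M + 1) → L}
    (hx : x ≠ 0) (hgen : coords k x = ⊤) :
    [GeneralType k L w, PseudoGeomHyp k x, PseudoBounded k x, CurveBound k x, CoverBound k ρ x,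
      ¬ IsUniruled k L w, ¬ Ruled k K].TFAE := by
  have hgen' : Algebra.IsAlgebraic (coords k y) K := by
    rw [hy.gen]
    infer_instance
  have hwn := dim_le hy.ne hgen' hy.dim
  obtain ⟨hN1, hN2, hN3⟩ := bound_key (one_le_rank hr) hρ hw hwn hN
  obtain ⟨h1, -⟩ := abu_comp' hF hw hN3 hy hcomp hr
  have hall : ¬ Ruled k K → GeneralType k L w ∧ CoverBound k ρ x ∧ PseudoGeomHyp k x := fun h =>
    dom_allH (K' := K) hF hw hρ hN hy (Or.inr ⟨hcomp, h⟩) hr hx hgen
  tfae_have 1 ↔ 6 := h1.out 2 3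
  tfae_have 1 ↔ 7 := h1.out 2 4
  tfae_have 7 → 5 := fun h => (hall h).2.1
  tfae_have 5 → 4 := fun h => h.curve hρ
  tfae_have 4 → 2 := fun h => pointed_of_bound h
  tfae_have 4 → 3 := fun h => bounded_of_curve h
  tfae_have 2 → 7 := fun h hR => not_geom (fun G hG hGx => rat_of_ruled hR hx hgen hG hGx) h
  tfae_have 3 → 7 := fun h hR => not_bdd (fun G hG hGx => rat_of_ruled hR hx hgen hG hGx) h
  tfae_finish

end Pool.Agent.X333.DC
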