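import Pool.Agent.X333.DC.Ptd

/-!
Entire curves in the complements of hypersurfaces in the images of projective varieties given by
nested sums of high powers of monomials.
-/

set_option autoImplicit false
set_option maxHeartbeats 400000
set_option linter.overlappingInstances false
set_option linter.unusedSectionVars false

open FF IntermediateField Pool.Agent.W603.LV Filter

namespace Pool.Agent.X333.DC

open Pool.Agent.W602.GT Pool.Agent.TH466.QG Pool.Agent.TH710.ND Pool.Agent.Y221.FQ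
open Pool.Agent.Y221.AB Pool.Agent.TH143.EL Pool.Agent.Y221.BD Pool.Agent.X333.DN
open Pool.Agent.W603.GR (OffQ)
open Pool.Agent.TH710.NU (zeroInf)

section ana

variable {E : Type} [Field E] [Algebra MK E] [Algebra ℂ E] [IsScalarTower ℂ MK E]
  [FiniteDimensional MK E] {n : ℕ} {ι : Type} {F : ι → MvPolynomial (Fin (n + 1)) ℂ}

/-- **Algebroid points.** -/
theorem ana_mono {r s N h : ℕ} (hfin : Module.finrank MK E ≤ r) (hN : NB r (2 * s) ≤ N)
    (hF : ∀ i, IsForm (F i) ∧ NestedIn IsMono s N h (F i)) {y : Fin (n + 1) → E}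
    {i0 : Fin (n + 1)} (hi0 : y i0 ≠ 0) (hyF : ∀ e, val y (F e) = 0) : Pool.Agent.Y221.BD.Cst i0 y ∨ WtMv F y := by
  by_cases hc : Pool.Agent.Y221.BD.Cst i0 y
  · exact Or.inl hc
  right
  obtain ⟨D, i1, hi1⟩ := exists_vec hi0 hc
  refine torus_of_env (D := D) ⟨i0, i1, fun h0 => hi1 ?_⟩ fun x hx i => ?_
  · rw [D.leibniz_div]
    simp only [smul_eq_mul]
    rw [h0, mul_zero]
  · exact nested_w (bor_bot hfin hN) ((one_le_NB r _).trans hN) (Lf := IsMono) (hF i).2 (hyF i)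
      (Env.mono' bot_le hx)

end ana

variable {n M : ℕ} {ι μ : Type} {F : ι → MvPolynomial (Fin (n + 1)) ℂ}
  {Φ : μ → MvPolynomial (Fin (M + 1)) ℂ} {G : Fin (M + 1) → MvPolynomial (Fin (n + 1)) ℂ}
  {Q : MvPolynomial (Fin (M + 1)) ℂ} {q : ℕ} {U : Set (Fin (n + 1))}

section defs

variable (Φ : μ → MvPolynomial (Fin (M + 1)) ℂ) (Q : MvPolynomial (Fin (M + 1)) ℂ)
  (T : Set (MvPolynomial (Fin (M + 1)) ℂ))

/-- All nonconstant entire curves in `X = {Φ = 0, Q ≠ 0}` are contained in the subset where all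
forms in `T` vanish. -/
def EntQ : Prop :=
  ∀ f, Entire Φ f → (∀ t, val (f t) Q ≠ 0) → ∀ t, ∀ H ∈ T, val (f t) H = 0

/-- All nonconstant entire curves in the projective variety `{Φ = 0}` which are not contained in the
hypersurface `Q = 0` are contained in the subset where all forms in `T` vanish. -/
def EntC : Prop :=
  ∀ f, Entire Φ f → (∃ t, val (f t) Q ≠ 0) → ∀ t, ∀ H ∈ T, val (f t) H = 0

end defs

/-- **Entire curves.** -/
theorem opi_ent (hG : Mor F Φ G) (hon : Onto F Φ G) {r s N h : ℕ} (hfib : FibresLe F G r)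
    (hF : ∀ i, IsForm (F i) ∧ NestedIn IsMono s N h (F i)) (hN : NB r (2 * s) ≤ N)
    (hQf : IsForm Q) (hU : ∀ x ∈ Cone F, val (im G x) Q ≠ 0 → ∀ j ∈ U, x j ≠ 0)
    {T : Set (MvPolynomial (Fin (M + 1)) ℂ)} (hTf : ∀ H ∈ T, IsForm H)
    (hT : ∀ x b, DiagCurve U F x b → ∀ H ∈ T, val (im G x) H = 0) : EntC Φ Q T := by
  classical
  rintro f hf ⟨t0, hfQ⟩ t1 H hH
  by_contra hne
  obtain ⟨f', hf'⟩ : ∃ f' : Fin (M + 1) → ℂ → ℂ, ∀ i t, f' i t = f t i := ⟨_, fun _ _ => rfl⟩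
  have hff : ∀ t, (fun i => f' i t) = f t := fun t => funext fun i => hf' i t
  have hhol : ∀ i, Differentiable ℂ (f' i) := by
    intro i
    have : f' i = fun t => f t i := funext (hf' i)
    rw [this]
    exact hf.hol i
  have hmer : ∀ i, Meromorphic (f' i) := fun i t =>
    ((hhol i).analyticAt t).meromorphicAt
  obtain ⟨z, hzdef⟩ : ∃ z : Fin (M + 1) → MK, z = fun i => cl (f' i) (hmer i) := ⟨_, rfl⟩
  have hcont : ∀ T : MvPolynomial (Fin (M + 1)) ℂ,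
      Continuous fun t => MvPolynomial.eval (fun i => f' i t) T := fun T =>
    (MvPolynomial.continuous_eval T).comp (continuous_pi fun i => (hhol i).continuous)
  have hvz : ∀ T : MvPolynomial (Fin (M + 1)) ℂ, val z T = 0 ↔ ∀ t, val (f t) T = 0 := by
    intro T
    rw [hzdef, val_cl hmer T, cl_eq_zero]
    have h1 : ∀ t, MvPolynomial.eval (fun i => f' i t) T = val (f t) T := by
      intro t
      rw [hff]
      unfold Pool.Agent.W602.GT.val
      rw [MvPolynomial.aeval_eq_eval]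
    constructor
    · intro h t
      rw [← h1]
      exact eq_of_codis (g := fun _ => 0) h (hcont T).continuousAt continuousAt_const
    · intro h
      exact Eventually.of_forall fun t => (h1 t).trans (h t)
  have hzj : ∀ (a : ℂ) i j, z i = algebraMap ℂ MK a * z j → ∀ t, f t i = a * f t j := by
    intro a i j h t
    have h1 := (hvz (MvPolynomial.X i - MvPolynomial.C a * MvPolynomial.X j)).1 (by
      unfold Pool.Agent.W602.GT.val
      rw [map_sub, map_mul, MvPolynomial.aeval_X, MvPolynomial.aeval_X, MvPolynomial.aeval_C, h,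
        sub_self]) t
    unfold Pool.Agent.W602.GT.val at h1
    rw [map_sub, map_mul, MvPolynomial.aeval_X, MvPolynomial.aeval_X, MvPolynomial.aeval_C,
      sub_eq_zero] at h1
    exact h1
  have hz : z ≠ 0 := by
    intro h0
    apply (hf.mem 0).1
    funext i
    have h1 := hzj 0 i i (by rw [h0]; simp) 0
    rw [h1, zero_mul]
    rfl
  have hzΦ : ∀ e, val z (Φ e) = 0 := fun e => (hvz _).2 fun t => (hf.mem t).2 e
  have hFf : ∀ e, IsForm (F e) := fun e => (hF e).1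
  obtain ⟨E, i1, i2, i3, i4, i5, u, i0, c, hrk, hu0, huF, hc0, hcz, -⟩ :=
    lift_point hFf hG hon hfib hz hzΦ
  have hu : u ≠ 0 := by
    intro h0
    rw [h0] at hu0
    exact zero_ne_one hu0
  have hi0 : u i0 ≠ 0 := by
    rw [hu0]
    exact one_ne_zero
  -- the constant case
  have hcst : ¬ Pool.Agent.Y221.BD.Cst i0 u := by
    intro hc
    have h2 : ∀ i, ∃ a : ℂ, algebraMap ℂ E a = u i := by
      intro i
      obtain ⟨a, ha⟩ := hc i
      refine ⟨a, ?_⟩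
      rw [ha, hu0, mul_one]
    choose a ha using h2
    have h3 : ∀ j, im G u j = algebraMap ℂ E (im G a j) := by
      intro j
      have h4 := val_map (Algebra.ofId ℂ E) (G j) a
      have h5 : (fun i => (Algebra.ofId ℂ E) (a i)) = u := funext ha
      rw [h5] at h4
      exact h4.symm
    obtain ⟨b, hb'⟩ := Function.ne_iff.1 hz
    have hb : z b ≠ 0 := hb'
    have hbE : algebraMap MK E (z b) ≠ 0 := by
      rw [Ne, map_eq_zero]
      exact hb
    have hub : im G a b ≠ 0 := by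
      intro h0
      have h4 := hcz b
      rw [h3, h0, map_zero, mul_zero] at h4
      exact hbE h4
    have h4 : ∀ j, z j = algebraMap ℂ MK (im G a j / im G a b) * z b := by
      intro j
      apply (algebraMap MK E).injective
      have hub' : algebraMap ℂ E (im G a b) ≠ 0 := by
        rw [Ne, map_eq_zero]
        exact hub
      rw [map_mul, ← IsScalarTower.algebraMap_apply ℂ MK E, hcz, hcz, h3, h3, map_div₀]
      field_simp
    obtain ⟨t1, t2, hli⟩ := hf.nonconst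
    rw [LinearIndependent.pair_iff] at hli
    have h5 : ∀ t i, f t i = im G a i / im G a b * f t b := fun t i => hzj _ _ _ (h4 i) t
    have h6 := hli (f t2 b) (-(f t1 b)) (by
      funext i
      simp only [Pi.add_apply, Pi.smul_apply, smul_eq_mul, Pi.zero_apply]
      rw [h5 t1 i, h5 t2 i]
      ring)
    apply (hf.mem t2).1
    funext i
    rw [h5 t2 i, h6.1, mul_zero]
    rfl
  have hQu : val (im G u) Q ≠ 0 := fun h0 => hfQ ((hvz Q).1 (val_prop hcz hQf h0) t0)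
  have hHu : val (im G u) H ≠ 0 := fun h0 => hne ((hvz H).1 (val_prop hcz (hTf H hH) h0) t1)
  have hW : WtMv F u := (ana_mono hrk hN hF hi0 huF).resolve_left hcst
  obtain ⟨x, b, hd, hx⟩ := orb_of_wt hU huF hW hQu hHu
  exact hx (hT x b hd H hH)

/-- **Modulo a closed subset.** -/
theorem opc_tfae [Finite ι] (hΦ : ∀ e, IsForm (Φ e)) (hG : Mor F Φ G) (hon : Onto F Φ G)
    {r s N h : ℕ} (hfib : FibresLe F G r)
    (hF : ∀ i, IsForm (F i) ∧ NestedIn IsMono s N h (F i)) (hr : 1 ≤ r)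
    (hN : (n + 1) * ((h + 1) * (4 * 10 ^ (2 * s) * (r + 1) ^ 7)) ≤ N) (hQ : Q.IsHomogeneous q)
    (hU : ∀ x ∈ Cone F, val (im G x) Q ≠ 0 ↔ ∀ j ∈ U, x j ≠ 0)
    {T : Set (MvPolynomial (Fin (M + 1)) ℂ)} (hT : ∀ H ∈ T, IsForm H) :
    [EntQ Φ Q T, EntC Φ Q T, PtdQ Φ Q T, LgtQ Φ Q q T, GenQ Φ Q T, EachQ Φ Q q T, LinQ Φ Q q T,
      CovQ Φ Q T 1, GmQ Φ Q T, ∀ x b, DiagCurve U F x b → ∀ H ∈ T, val (im G x) H = 0].TFAE := by
  have hN' : 8 * (1 * r * ((n + 1) * ((h + 1) * (2 * s + 1) ^ 5))) ≤ N := by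
    rw [one_mul]
    exact bound_alg hN
  have hunc := Pool.Agent.W602.RG.uncountable_complex
  have h0 := opi_tfae hΦ hG hon hfib hF hr le_rfl hN' hQ hU hT
  have hFf : ∀ e, IsForm (F e) := fun e => (hF e).1
  tfae_have 10 → 2 := fun h =>
    opi_ent hG hon hfib hF (nb_le hN) ⟨q, hQ⟩ (fun x hx => (hU x hx).1) hT h
  tfae_have 2 → 1 := fun h f hf hfQ => h f hf ⟨0, hfQ 0⟩
  tfae_have 1 → 9 := by
    intro h P hP hPQ t ht H hH
    have h1 := h _ (entire_of_gm hP) (fun t => hPQ _ (Complex.exp_ne_zero t)) (Complex.log t) H hH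
    rwa [Complex.exp_log ht] at h1
  tfae_have 8 → 3 := fun h => ptd_of_cov hΦ ⟨q, hQ⟩ hT le_rfl h
  tfae_have 3 → 10 := fun h x b hx H hH =>
    ptd_orb hFf hG hfib (fun x hx => (hU x hx).2) h hx hH
  tfae_have 10 ↔ 4 := h0.out 8 6
  tfae_have 10 ↔ 5 := h0.out 8 7
  tfae_have 10 ↔ 6 := h0.out 8 3
  tfae_have 10 ↔ 7 := h0.out 8 1
  tfae_have 10 ↔ 8 := h0.out 8 0
  tfae_have 10 ↔ 9 := h0.out 8 5
  tfae_finish

/-- **The components.** -/
theorem opc_comp [Finite ι] (hΦ : ∀ e, IsForm (Φ e)) (hG : Mor F Φ G) (hon : Onto F Φ G)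
    {r s N h : ℕ} (hfib : FibresLe F G r)
    (hF : ∀ i, IsForm (F i) ∧ NestedIn IsMono s N h (F i)) (hr : 1 ≤ r)
    (hN : (n + 1) * ((h + 1) * (4 * 10 ^ (2 * s) * (r + 1) ^ 7)) ≤ N) (hQ : Q.IsHomogeneous q)
    (hU : ∀ x ∈ Cone F, val (im G x) Q ≠ 0 ↔ ∀ j ∈ U, x j ≠ 0) {K : Type} [Field K]
    [Algebra ℂ K] {w : ℕ} {z : Fin (M + 1) → K} (hw : 1 ≤ w) (hz : SubVar Φ K w z)
    (hzQ : val z Q ≠ 0) (hc : IsComponent Φ z) :
    [∃ H : MvPolynomial (Fin (M + 1)) ℂ, IsForm H ∧ val z H ≠ 0 ∧ EntQ Φ Q {H},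
      ∃ H : MvPolynomial (Fin (M + 1)) ℂ, IsForm H ∧ val z H ≠ 0 ∧ EntC Φ Q {H},
      ∃ H : MvPolynomial (Fin (M + 1)) ℂ, IsForm H ∧ val z H ≠ 0 ∧ PtdQ Φ Q {H},
      LogGeneralType ℂ K w (OffQ Q q z), GeneralType ℂ K w,
      ∃ H : MvPolynomial (Fin (M + 1)) ℂ, IsForm H ∧ val z H ≠ 0 ∧ EachQ Φ Q q {H},
      ∃ H : MvPolynomial (Fin (M + 1)) ℂ, IsForm H ∧ val z H ≠ 0 ∧ LinQ Φ Q q {H},
      ∃ H : MvPolynomial (Fin (M + 1)) ℂ, IsForm H ∧ val z H ≠ 0 ∧ GmQ Φ Q {H}].TFAE := by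
  have hN' : 8 * (1 * r * ((n + 1) * ((h + 1) * (2 * s + 1) ^ 5))) ≤ N := by
    rw [one_mul]
    exact bound_alg hN
  have hunc := Pool.Agent.W602.RG.uncountable_complex
  have h0 := opi_comp hΦ hG hon hfib hF hr le_rfl hN' hQ hU hw hz hzQ hc
  have hall : ∀ H : MvPolynomial (Fin (M + 1)) ℂ, IsForm H → [EntQ Φ Q {H}, EntC Φ Q {H},
      PtdQ Φ Q {H}, LgtQ Φ Q q {H}, GenQ Φ Q {H}, EachQ Φ Q q {H}, LinQ Φ Q q {H},
      CovQ Φ Q {H} 1, GmQ Φ Q {H},
      ∀ x b, DiagCurve U F x b → ∀ H' ∈ ({H} : Set _), val (im G x) H' = 0].TFAE := fun H hH =>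
    opc_tfae hΦ hG hon hfib hF hr hN hQ hU (T := {H}) (by rintro _ rfl; exact hH)
  tfae_have 1 → 2 := fun ⟨H, hH, hne, h⟩ => ⟨H, hH, hne, ((hall H hH).out 0 1).1 h⟩
  tfae_have 2 → 3 := fun ⟨H, hH, hne, h⟩ => ⟨H, hH, hne, ((hall H hH).out 1 2).1 h⟩
  tfae_have 3 → 6 := fun ⟨H, hH, hne, h⟩ => ⟨H, hH, hne, ((hall H hH).out 2 5).1 h⟩
  tfae_have 6 → 7 := fun ⟨H, hH, hne, h⟩ => ⟨H, hH, hne, ((hall H hH).out 5 6).1 h⟩
  tfae_have 7 → 8 := fun ⟨H, hH, hne, h⟩ => ⟨H, hH, hne, ((hall H hH).out 6 8).1 h⟩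
  tfae_have 8 → 1 := fun ⟨H, hH, hne, h⟩ => ⟨H, hH, hne, ((hall H hH).out 8 0).1 h⟩
  tfae_have 6 ↔ 4 := h0.out 5 0
  tfae_have 5 ↔ 4 := h0.out 1 0
  tfae_finish

end Pool.Agent.X333.DC
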