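import Pool.Agent.X333.DC.DomH
import Pool.Agent.X333.DC.Oen
import Pool.Agent.Y221.BD.Top

/-!
Entire curves in the varieties which are dominated by varieties given by nested sums of high powers.
-/

set_option autoImplicit false
set_option maxHeartbeats 400000
set_option linter.overlappingInstances false
set_option linter.unusedSectionVars false

open FF IntermediateField Pool.Agent.W603.LV Filter

namespace Pool.Agent.X333.DC

open Pool.Agent.W602.GT Pool.Agent.TH466.QG Pool.Agent.TH710.ND Pool.Agent.Y221.FQ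
open Pool.Agent.Y221.AB Pool.Agent.TH143.EL Pool.Agent.Y221.BD Pool.Agent.X333.DN
open Pool.Agent.W619.PQ (IsUniruled)

section ana

variable {E : Type} [Field E] [Algebra MK E] [Algebra ℂ E] [IsScalarTower ℂ MK E]
  [FiniteDimensional MK E] {n : ℕ} {ι : Type} {F : ι → MvPolynomial (Fin (n + 1)) ℂ}

/-- **Algebroid points, linear forms.** -/
theorem ana_lin {r s N h : ℕ} (hfin : Module.finrank MK E ≤ r) (hN : NB r (2 * s) ≤ N)
    {S0 : Finset (Fin (n + 1) → ℂ)} (hF : ∀ i, NestedIn (LfL S0) s N h (F i))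
    {y : Fin (n + 1) → E} {i0 : Fin (n + 1)} (hi0 : y i0 ≠ 0) (hyF : ∀ e, val y (F e) = 0) :
    Pool.Agent.Y221.BD.Cst i0 y ∨ LinT S0 F i0 y := by
  by_cases hc : Pool.Agent.Y221.BD.Cst i0 y
  · exact Or.inl hc
  right
  obtain ⟨D, i1, hi1⟩ := exists_vec hi0 hc
  obtain ⟨v, hv⟩ : ∃ v : Fin (n + 1) → E, v = fun j => D (y j) - D (y i0) / y i0 * y j :=
    ⟨_, rfl⟩
  have hlv : ∀ a : Fin (n + 1) → ℂ, lin a v = D (lin a y) - D (y i0) / y i0 * lin a y := by
    intro a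
    rw [← Pool.Agent.W602.GT.lin_der D a y, hv]
    unfold lin
    rw [Finset.mul_sum, ← Finset.sum_sub_distrib]
    refine Finset.sum_congr rfl fun j _ => ?_
    ring
  refine ⟨{p | p.1 ∈ S0 ∧ p.2 ∈ S0 ∧ lin p.1 y ≠ 0 ∧ lin p.2 y ≠ 0 ∧
    lin p.1 y / lin p.2 y ∈ (⊥ : IntermediateField ℂ E)}, v,
    fun p hp => ⟨hp.1, hp.2.1, hp.2.2.1, hp.2.2.2.1⟩, ?_, ?_, ⟨?_, ?_⟩, ?_⟩
  · rw [hv]
    field_simp
    ring
  · intro h0
    apply hi1
    have h1 := congrFun h0 i1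
    rw [hv] at h1
    simp only [Pi.zero_apply] at h1
    rw [D.leibniz_div]
    simp only [smul_eq_mul]
    field_simp
    field_simp at h1
    linear_combination h1
  · intro a _ ha
    rw [hlv, ha, map_zero, mul_zero, sub_zero]
  · rintro p ⟨-, -, h1, h2, h3⟩
    obtain ⟨c, hc'⟩ := IntermediateField.mem_bot.1 h3
    have h4 : lin p.1 y = algebraMap ℂ E c * lin p.2 y := by
      rw [hc']
      field_simp
    rw [hlv, hlv, h4, D.leibniz, D.map_algebraMap]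
    simp only [smul_eq_mul, mul_zero, add_zero]
    ring
  · intro x hx e
    refine nested_w (bor_bot hfin hN) ((one_le_NB r _).trans hN) (hF e) (hyF e)
      (M := E) ⟨?_, ?_⟩
    · rintro p ⟨a, ha, rfl⟩ h0
      rw [aeval_lin] at h0 ⊢
      exact hx.1 a ha h0
    · rintro p q ⟨a, ha, rfl⟩ ⟨b, hb, rfl⟩ hp hq hW
      rw [aeval_lin] at hp hq
      rw [aeval_lin, aeval_lin] at hW
      rw [aeval_lin, aeval_lin, aeval_lin, aeval_lin]
      exact hx.2 (a, b) ⟨ha, hb, hp, hq, hW⟩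

end ana

variable {n : ℕ} {ι : Type} {F : ι → MvPolynomial (Fin (n + 1)) ℂ}

/-- the points, over extensions of degree at most `r` of the field of meromorphic functions, which
are specialisations of the generic point `y` outside a closed subset are constant -/
def KeyE {K : Type} [Field K] [Algebra ℂ K] (r : ℕ) (i0 : Fin (n + 1)) (y : Fin (n + 1) → K) :
    Prop :=
  ∃ Θ : Set K, Θ.Finite ∧ ∀ (K'' : Type) [Field K''] [Algebra ℂ K''] [Algebra MK K'']
    [IsScalarTower ℂ MK K''] [FiniteDimensional MK K''], Module.finrank MK K'' ≤ r →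
    ∀ S : Sp ℂ K K'', (∀ ϑ ∈ Θ, ∃ t, S.T ϑ t) → ∀ y' : Fin (n + 1) → K'',
      (∀ i, S.T (y i) (y' i)) → Pool.Agent.Y221.BD.Cst i0 y'

theorem keyE_mono [Finite ι] {r s N h : ℕ} (hN : NB r (2 * s) ≤ N)
    (hF : ∀ i, IsForm (F i) ∧ NestedIn IsMono s N h (F i)) {K : Type} [Field K] [Algebra ℂ K]
    {y : Fin (n + 1) → K} (hyF : ∀ e, val y (F e) = 0) {i0 : Fin (n + 1)} (hi0 : y i0 ≠ 0)
    (hW : ¬ WtMv F y) : KeyE r i0 y := by
  obtain ⟨Θ, hΘ, hopen⟩ := open_spA hyF hi0 hW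
  refine ⟨Θ, hΘ, ?_⟩
  intro K'' _ _ _ _ _ hrk S hS y' hy'
  obtain ⟨h1, h2, h3⟩ := hopen K'' S hS y' hy'
  exact (ana_mono hrk hN hF h1 h2).resolve_right h3

theorem keyE_high [Finite ι] {r s N h : ℕ} (hN : NB r (2 * s) ≤ N)
    (hF : HighTowers s N h F) {K : Type} [Field K] [Algebra ℂ K]
    {y : Fin (n + 1) → K} (hyF : ∀ e, val y (F e) = 0) {i0 : Fin (n + 1)} (hi0 : y i0 ≠ 0)
    (hL : ¬ LinMv F y) (hW : ¬ WtMv F y) : KeyE r i0 y := by
  rcases hF with h' | h'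
  · obtain ⟨S0, hS0⟩ := nested_finL' (F := F) (s := s) (N := N) (m := h) fun i => h' i
    obtain ⟨Θ, hΘ, hopen⟩ := Pool.Agent.X333.DC.open_nest S0 hyF hi0 hL
    refine ⟨Θ, hΘ, ?_⟩
    intro K'' _ _ _ _ _ hrk S hS y' hy'
    obtain ⟨h1, h2, h3⟩ := hopen K'' S hS y' hy'
    exact (ana_lin hrk hN hS0 h1 h2).resolve_right h3
  · exact keyE_mono hN h' hyF hi0 hW

/-- **Entire curves in dominated varieties.** -/
theorem brody_gen {r : ℕ} {K : Type} [Field K] [Algebra ℂ K] {y : Fin (n + 1) → K}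
    (hygen : coords ℂ y = ⊤) {i0 : Fin (n + 1)} (hi0 : y i0 ≠ 0) (hkey : KeyE r i0 y)
    {K' L : Type} [Field K'] [Field L] [Algebra ℂ K'] [Algebra ℂ L] [Algebra K K']
    [Algebra L K'] [IsScalarTower ℂ K K'] [IsScalarTower ℂ L K'] [Algebra.IsAlgebraic K K']
    [FiniteDimensional L K'] (hr : Module.finrank L K' ≤ r) {M : ℕ} {x : Fin (M + 1) → L}
    (hx : x ≠ 0) (hgen : coords ℂ x = ⊤) : PseudoBrody x := by
  classical
  obtain ⟨i1, hi1'⟩ := Function.ne_iff.1 hx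
  have hi1 : x i1 ≠ 0 := hi1'
  obtain ⟨Θ1, hΘ1, hopen⟩ := hkey
  obtain ⟨Θ2, hΘ2, halgs⟩ := alg_spec (K' := K') hygen hi0
    (fun m => algebraMap L K' (x m / x i1))
  obtain ⟨H, hH, hspread⟩ := spread (K' := K') (adjoin_norm hgen hi1)
    (Θ := algebraMap K K' '' (Θ1 ∪ (Θ2 ∪ (Set.range y ∪ {(y i0)⁻¹}))))
    ((hΘ1.union (hΘ2.union ((Set.finite_range y).union (Set.finite_singleton _)))).image _)
  refine ⟨MvPolynomial.X i1 * hz i1 H, ?_, ?_, ?_⟩
  · obtain ⟨d, hd⟩ := hz_form i1 H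
    exact ⟨1 + d, (MvPolynomial.isHomogeneous_X ℂ i1).mul hd⟩
  · change MvPolynomial.aeval x _ ≠ 0
    rw [map_mul, MvPolynomial.aeval_X]
    refine mul_ne_zero hi1 ?_
    change val x _ ≠ 0
    rw [val_hz H hi1]
    exact mul_ne_zero (pow_ne_zero _ hi1) hH
  intro f hf t0
  by_contra hft
  have hmer : ∀ i, Meromorphic (f i) := fun i t =>
    ((hf.hol i).analyticAt t).meromorphicAt
  obtain ⟨z, hzdef⟩ : ∃ z : Fin (M + 1) → MK, z = fun i => cl (f i) (hmer i) := ⟨_, rfl⟩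
  have hcont : ∀ G : MvPolynomial (Fin (M + 1)) ℂ,
      Continuous fun t => MvPolynomial.eval (fun i => f i t) G := fun G =>
    (MvPolynomial.continuous_eval G).comp (continuous_pi fun i => (hf.hol i).continuous)
  have hvz : ∀ G, val z G = 0 ↔ ∀ t, MvPolynomial.eval (fun i => f i t) G = 0 := by
    intro G
    rw [hzdef, val_cl hmer G, cl_eq_zero]
    constructor
    · intro h t
      exact eq_of_codis (g := fun _ => 0) h (hcont G).continuousAt continuousAt_const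
    · intro h
      exact Eventually.of_forall h
  have hzR : val z (MvPolynomial.X i1 * hz i1 H) ≠ 0 := by
    intro h0
    exact hft ((hvz _).1 h0 t0)
  change MvPolynomial.aeval z _ ≠ 0 at hzR
  rw [map_mul, MvPolynomial.aeval_X] at hzR
  have hz1 : z i1 ≠ 0 := left_ne_zero_of_mul hzR
  have hzH : MvPolynomial.aeval (fun i => z i / z i1) H ≠ 0 := by
    have h1 : val z (Pool.Agent.TH466.QG.hz i1 H) ≠ 0 := right_ne_zero_of_mul hzR
    rw [val_hz H hz1] at h1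
    exact right_ne_zero_of_mul h1
  have hsp : ∀ G : MvPolynomial (Fin (M + 1)) ℂ,
      MvPolynomial.aeval (fun i => x i / x i1) G = 0 →
      MvPolynomial.aeval (fun i => z i / z i1) G = 0 := by
    intro G hG
    have h1 : val x (Pool.Agent.TH466.QG.hz i1 G) = 0 := by
      rw [val_hz G hi1, hG, mul_zero]
    have h2 := (hvz _).2 (hf.mem _ (hz_form i1 G) h1)
    rw [val_hz G hz1] at h2
    exact (mul_eq_zero.1 h2).resolve_left (pow_ne_zero _ hz1)
  obtain ⟨K'', i1', i2', i3', i4', i5', hrk, S, hSx, hSΘ⟩ := hspread MK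
    (fun i => z i / z i1) hsp hzH
  have hSy : ∀ i, ∃ t, S.T (algebraMap K K' (y i)) t := fun i =>
    hSΘ _ ⟨y i, Or.inr (Or.inr (Or.inl ⟨i, rfl⟩)), rfl⟩
  choose y' hy' using hSy
  have hcst : Pool.Agent.Y221.BD.Cst i0 y' := hopen K'' (hrk.trans hr) (S.res (K0 := K))
    (fun ϑ hϑ => hSΘ _ ⟨ϑ, Or.inl hϑ, rfl⟩) y' hy'
  have hi0y : y' i0 ≠ 0 := (S.res (K0 := K)).ne_zero (hy' i0)
    (hSΘ _ ⟨(y i0)⁻¹, Or.inr (Or.inr (Or.inr rfl)), rfl⟩) hi0
  have hbot := coords_cst hi0y hcst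
  have hall : ∀ m, ∃ c : ℂ, z m = algebraMap ℂ MK c * z i1 := by
    intro m
    have h1 := halgs K'' S (fun ϑ hϑ => hSΘ _ ⟨ϑ, Or.inr (Or.inl hϑ), rfl⟩) y' hy'
      (fun m => algebraMap MK K'' (z m / z i1)) hSx m
    rw [hbot] at h1
    have h2 : IsAlgebraic ℂ (algebraMap MK K'' (z m / z i1)) := h1.restrictScalars ℂ
    obtain ⟨c, hc⟩ := const_of_algebraic h2
    refine ⟨c, ?_⟩
    rw [IsScalarTower.algebraMap_apply ℂ MK K''] at hc
    have h3 := (algebraMap MK K'').injective hc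
    rw [← h3]
    field_simp
  have hallf : ∀ m, ∃ c : ℂ, ∀ t, f m t = c * f i1 t := by
    intro m
    obtain ⟨c, hc⟩ := hall m
    refine ⟨c, fun t => ?_⟩
    rw [hzdef] at hc
    simp only at hc
    rw [← cl_const, cl_mul, cl_eq] at hc
    exact eq_of_codis (f := f m) (g := fun t => c * f i1 t) hc (hf.hol m).continuous.continuousAt
      ((continuous_const.mul (hf.hol i1).continuous).continuousAt)
  obtain ⟨i, j, a, b, hab⟩ := hf.nonconst
  obtain ⟨c, hc⟩ := hallf i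
  obtain ⟨c', hc'⟩ := hallf j
  apply hab
  rw [hc, hc, hc', hc']
  ring

/-- **Correspondences.** -/
theorem ggl_corr [Finite ι] {s N h r w : ℕ} (hF : HighTowers s N h F) (hw : 1 ≤ w)
    (hN : (n + 1) * ((h + 1) * (4 * 10 ^ (2 * s) * (r + 1) ^ 7)) ≤ N)
    {K : Type} [Field K] [Algebra ℂ K] {y : Fin (n + 1) → K} (hy : SubVar F K w y)
    (h0 : ¬ RatCurve F y ∨ IsComponent F y ∧ ¬ Ruled ℂ K)
    {K' L : Type} [Field K'] [Field L] [Algebra ℂ K'] [Algebra ℂ L]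
    [Algebra K K'] [Algebra L K'] [IsScalarTower ℂ K K'] [IsScalarTower ℂ L K']
    [FiniteDimensional K K'] [FiniteDimensional L K'] (hr : Module.finrank L K' ≤ r)
    {M : ℕ} {x : Fin (M + 1) → L} (hx : x ≠ 0) (hgen : coords ℂ x = ⊤) :
    GeneralType ℂ L w ∧ PseudoBrody x := by
  have hN' : 8 * (1 * r * ((n + 1) * ((h + 1) * (2 * s + 1) ^ 5))) ≤ N := by
    rw [one_mul]
    exact bound_alg hN
  obtain ⟨i0, hi0'⟩ := Function.ne_iff.1 hy.ne
  have hi0 : y i0 ≠ 0 := hi0'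
  obtain ⟨hL, hW⟩ := no_mv hF hy h0
  exact ⟨(dom_allH (K' := K') hF hw le_rfl hN' hy h0 hr hx hgen).1,
    brody_gen (K' := K') hy.gen hi0 (keyE_high (nb_le hN) hF hy.mem hi0 hL hW) hr hx hgen⟩

/-- **The equivalences.** -/
theorem ggl_tfae [Finite ι] {s N h r w : ℕ} (hF : HighTowers s N h F) (hw : 1 ≤ w)
    (hN : (n + 1) * ((h + 1) * (4 * 10 ^ (2 * s) * (r + 1) ^ 7)) ≤ N)
    {K : Type} [Field K] [Algebra ℂ K] {y : Fin (n + 1) → K} (hy : SubVar F K w y)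
    (hcomp : IsComponent F y) {L : Type} [Field L] [Algebra ℂ L] [Algebra L K]
    [IsScalarTower ℂ L K] [FiniteDimensional L K] (hr : Module.finrank L K ≤ r)
    {M : ℕ} {x : Fin (M + 1) → L} (hx : x ≠ 0) (hgen : coords ℂ x = ⊤) :
    [GeneralType ℂ L w, PseudoBrody x, StronglyGeneral ℂ x, ¬ IsUniruled ℂ L w,
      ¬ Ruled ℂ K].TFAE := by
  obtain ⟨h1, h2⟩ := Pool.Agent.X333.DN.lang_iff' hF hw hy hcomp (bound_alg hN) hr hx hgen
  obtain ⟨h3, -⟩ := abu_comp' hF hw (bound_alg hN) hy hcomp hr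
  tfae_have 1 ↔ 3 := h1
  tfae_have 1 ↔ 4 := h2
  tfae_have 1 ↔ 5 := h3.out 2 4
  tfae_have 5 → 2 := fun h =>
    (ggl_corr (K' := K) hF hw hN hy (Or.inr ⟨hcomp, h⟩) hr hx hgen).2
  tfae_have 2 → 5 := fun h hR => not_brody_of_ruled hR hx hgen h
  tfae_finish

end Pool.Agent.X333.DC
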