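import Pool.Agent.X333.DC.Fim

/-!
Images of projective varieties given by nested sums of high powers: the notions of hyperbolicity
modulo closed subsets.
-/

set_option autoImplicit false
set_option maxHeartbeats 400000
set_option linter.overlappingInstances false
set_option linter.unusedSectionVars false

open FF Pool.Agent.W603.LV

namespace Pool.Agent.X333.DC

open Pool.Agent.W602.GT Pool.Agent.TH466.QG Pool.Agent.Y221.BD Pool.Agent.Y221.AH
  Pool.Agent.TH710.ND Pool.Agent.X333.DN Pool.Agent.Y221.FQ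
open Pool.Agent.W603.PV (pht pht_le pht_scale isFF_of_finite)
open Pool.Agent.W603.CX (AlgHyperbolic BoundedOnCurves hgt_le_pht)

variable {k : Type} [Field k] {m n M : ℕ} {ι κ μ : Type}
  {Ψ : κ → MvPolynomial (Fin (m + 1)) k} {F : ι → MvPolynomial (Fin (n + 1)) k}
  {Φ : μ → MvPolynomial (Fin (M + 1)) k} {G : Fin (M + 1) → MvPolynomial (Fin (m + 1)) k}
  {B : Fin (n + 1) → MvPolynomial (Fin (m + 1)) k}

/-- For all smooth projective curves `C` (with function field `K`) and `C'` (with function field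
`E`), all morphisms `C' → C` of degree at most `ρ` and all morphisms `f` from `C'` to the projective
variety `{Φ = 0}` whose image is not contained in the subset where all forms in `T` vanish, the
degree of `f` is at most `A max (2 g (C) - 2, 0)`. -/
def HypMod (ρ A : ℕ) (Φ : μ → MvPolynomial (Fin (M + 1)) k)
    (T : Set (MvPolynomial (Fin (M + 1)) k)) : Prop :=
  ∀ (K E : Type) [Field K] [Field E] [Algebra k K] [Algebra k E] [Algebra K E]
    [IsScalarTower k K E] [FiniteDimensional K E] [IsFF k K] [IsFF k E],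
    Module.finrank K E ≤ ρ → ∀ f : Fin (M + 1) → E, (∃ j, f j ≠ 0) →
      (∀ e, MvPolynomial.aeval f (Φ e) = 0) → (∃ H ∈ T, MvPolynomial.aeval f H ≠ 0) →
        pht k f ≤ A * max (canDeg k K) 0

/-- For every smooth projective curve (with function field `K`) the degrees of the morphisms from it
to `{Φ = 0}` whose images are not contained in the subset where all forms in `T` vanish are
bounded. -/
def BddMod (Φ : μ → MvPolynomial (Fin (M + 1)) k) (T : Set (MvPolynomial (Fin (M + 1)) k)) :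
    Prop :=
  ∀ (K : Type) [Field K] [Algebra k K] [IsFF k K], ∃ D : ℤ, ∀ f : Fin (M + 1) → K,
    (∃ j, f j ≠ 0) → (∀ e, MvPolynomial.aeval f (Φ e) = 0) →
      (∃ H ∈ T, MvPolynomial.aeval f H ≠ 0) → pht k f ≤ D

/-- All closed subvarieties of positive dimension of `{Φ = 0}` which are not contained in the subset
where all forms in `T` vanish are of general type. -/
def GenMod (Φ : μ → MvPolynomial (Fin (M + 1)) k) (T : Set (MvPolynomial (Fin (M + 1)) k)) :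
    Prop :=
  ∀ (K : Type) [Field K] [Algebra k K] (w : ℕ) (z : Fin (M + 1) → K), 1 ≤ w →
    SubVar Φ K w z → (∃ H ∈ T, val z H ≠ 0) → GeneralType k K w

/-- the bounds for the exponents -/
theorem bound_img {n s h r ρ N : ℕ} (hr : 1 ≤ r) (hρ : 1 ≤ ρ)
    (hN : 8 * (ρ * r * ((n + 1) * ((h + 1) * (2 * s + 1) ^ 5))) ≤ N) :
    8 * (ρ * r * ((h + 1) * (2 * s * (2 * s)) * ((2 * s + 1) * tn (2 * s - 1)))) ≤ N ∧ 2 ≤ N ∧
      8 * (r * ((n + 1) * ((h + 1) * (2 * s + 1) ^ 5))) ≤ N := by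
  have h1 : tn (2 * s - 1) ≤ (2 * s + 1) ^ 2 := by
    rw [Pool.Agent.TH466.QG.tn_eq]
    refine (Nat.div_le_self _ _).trans ?_
    rw [pow_two]
    exact Nat.mul_le_mul (by omega) (by omega)
  have hX : 1 ≤ (2 * s + 1) ^ 5 := Nat.one_le_pow _ _ (by omega)
  have h2 : 2 * s * (2 * s) * ((2 * s + 1) * tn (2 * s - 1)) ≤ (2 * s + 1) ^ 5 := by
    calc 2 * s * (2 * s) * ((2 * s + 1) * tn (2 * s - 1))
        ≤ (2 * s + 1) * (2 * s + 1) * ((2 * s + 1) * (2 * s + 1) ^ 2) :=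
          Nat.mul_le_mul (Nat.mul_le_mul (by omega) (by omega)) (Nat.mul_le_mul le_rfl h1)
      _ = (2 * s + 1) ^ 5 := by ring
  have h3 : (h + 1) * (2 * s * (2 * s)) * ((2 * s + 1) * tn (2 * s - 1)) ≤
      (n + 1) * ((h + 1) * (2 * s + 1) ^ 5) := by
    calc (h + 1) * (2 * s * (2 * s)) * ((2 * s + 1) * tn (2 * s - 1)) =
          1 * ((h + 1) * (2 * s * (2 * s) * ((2 * s + 1) * tn (2 * s - 1)))) := by ring
      _ ≤ (n + 1) * ((h + 1) * (2 * s + 1) ^ 5) :=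
          Nat.mul_le_mul (by omega) (Nat.mul_le_mul_left _ h2)
  have h4 : 1 ≤ ρ * r := Nat.mul_pos hρ hr
  refine ⟨(Nat.mul_le_mul_left 8 (Nat.mul_le_mul_left _ h3)).trans hN, ?_, le_trans ?_ hN⟩
  · refine le_trans ?_ hN
    have h5 : 1 ≤ ρ * r * ((n + 1) * ((h + 1) * (2 * s + 1) ^ 5)) :=
      Nat.mul_pos h4 (Nat.mul_pos (by omega) (Nat.mul_pos (by omega) hX))
    omega
  · exact Nat.mul_le_mul_left 8 (Nat.mul_le_mul_right _ (Nat.le_mul_of_pos_left r hρ))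

variable [IsAlgClosed k] [CharZero k]

theorem covGm_id {G : Fin (M + 1) → MvPolynomial (Fin (n + 1)) k} :
    CovGm F F (fun i => MvPolynomial.X i) G ⊆ im G '' SpGm F := by
  rintro _ ⟨x, ⟨hx, hBx⟩, rfl⟩
  rw [im_X'] at hBx
  exact ⟨x, hBx, rfl⟩

/-- **The notions of hyperbolicity modulo a closed subset.** -/
theorem mod_tfae [Finite ι] {G : Fin (M + 1) → MvPolynomial (Fin (n + 1)) k}
    (hΦ : ∀ e, IsForm (Φ e)) (hG : Mor F Φ G) (hon : Onto F Φ G) {ρ r s N h : ℕ}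
    (hfib : FibresLe F G r) (hF : HighTowers s N h F) (hr : 1 ≤ r) (hρ : 1 ≤ ρ)
    (hN : 8 * (ρ * r * ((n + 1) * ((h + 1) * (2 * s + 1) ^ 5))) ≤ N)
    {T : Set (MvPolynomial (Fin (M + 1)) k)} (hT : ∀ H ∈ T, IsForm H) :
    [∃ A : ℕ, HypMod 1 A Φ T, ∃ A : ℕ, HypMod ρ A Φ T, BddMod Φ T,
      ∀ P, GmCurve Φ P → ∀ t : k, t ≠ 0 → ∀ H ∈ T, val (fun i => (P i).eval t) H = 0,
      GenMod Φ T, ∀ x ∈ SpGm F, ∀ H ∈ T, val (im G x) H = 0].TFAE := by
  obtain ⟨hN1, hN2, hN3⟩ := bound_img hr hρ hN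
  have hkey : (∀ x ∈ SpGm F, ∀ H ∈ T, val (im G x) H = 0) → ∀ {E : Type} [Field E] [Algebra k E]
      (f : Fin (M + 1) → E), f ≠ 0 → (∃ H ∈ T, val f H ≠ 0) →
      ¬ VarPts k f ⊆ CovGm F F (fun i => MvPolynomial.X i) G := by
    rintro h E _ _ f hf ⟨H, hH, hfH⟩ hsub
    obtain ⟨q, hq, hqH⟩ := varPts_sub hf hfH
    obtain ⟨x, hx, rfl⟩ := covGm_id (hsub hq)
    exact hqH (h x hx H hH)
  tfae_have 2 → 1 := fun ⟨A, h⟩ => ⟨A, fun K E _ _ _ _ _ _ _ _ _ hr' =>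
    h K E (hr'.trans hρ)⟩
  tfae_have 1 → 3 := by
    rintro ⟨A, h⟩ K _ _ _
    exact ⟨_, fun f hf0 hf hH => h K K (by rw [Module.finrank_self]) f hf0 hf hH⟩
  tfae_have 3 → 4 := by
    intro h P hP t _ H hH
    by_contra hne
    obtain ⟨D, hD⟩ := h (RatFunc k)
    exact not_bounded' hP hne ⟨D, fun f h1 h2 h3 => hD f h1 h2 ⟨H, hH, h3⟩⟩
  tfae_have 4 → 6 := fun h x hx H hH =>
    (spgm_im hF.form hG hx).2 H (hT H hH) fun P hP t ht => h P hP t ht H hH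
  tfae_have 6 → 2 := by
    intro h
    obtain ⟨A, hA⟩ := cover_deg hF.form mor_X' hG hon hfib hF hN2 hN1
    refine ⟨A, fun K E _ _ _ _ _ _ _ _ _ hr' f hf0 hf hH => hA K E hr' f hf0 hf ?_⟩
    exact hkey h f (Function.ne_iff.2 hf0) hH
  tfae_have 6 → 5 := by
    intro h K _ _ w z hw hz hH
    exact cover_gt hF.form mor_X' hG hon hfib hF hN3 hw hz (hkey h z hz.ne hH)
  tfae_have 5 → 4 := by
    intro h P hP t ht H hH
    have h1 : (fun i => (P i).eval t) ∈ SpGm Φ :=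
      ⟨⟨hP.ne t ht, hP.mem t ht⟩, fun H' _ hH' => hH' P hP t ht⟩
    refine (gm_sub_alg hΦ h1).2 H (hT H hH) fun K _ _ w y hw hy hgt => ?_
    by_contra hne
    exact hgt (h K w y hw hy ⟨H, hH, hne⟩)
  tfae_finish

/-- **The notions of hyperbolicity.** -/
theorem four_tfae [Finite ι] {G : Fin (M + 1) → MvPolynomial (Fin (n + 1)) k}
    (hΦ : ∀ e, IsForm (Φ e)) (hG : Mor F Φ G) (hon : Onto F Φ G) {ρ r s N h : ℕ}
    (hfib : FibresLe F G r) (hF : HighTowers s N h F) (hr : 1 ≤ r) (hρ : 1 ≤ ρ)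
    (hN : 8 * (ρ * r * ((n + 1) * ((h + 1) * (2 * s + 1) ^ 5))) ≤ N) :
    [∃ A : ℕ, AlgHyperbolic A Φ, ∃ A : ℕ, CoverHyperbolic ρ A Φ, BoundedOnCurves Φ,
      ∀ P, ¬ GmCurve Φ P, AllGeneral Φ, ∀ P, ¬ GmCurve F P].TFAE := by
  have h1 := mod_tfae hΦ hG hon hfib hF hr hρ hN (T := {1})
    (by rintro H rfl; exact ⟨0, MvPolynomial.isHomogeneous_one _ _⟩)
  have hv : ∀ {E : Type} [Field E] [Algebra k E] (f : Fin (M + 1) → E),
      ∃ H ∈ ({1} : Set (MvPolynomial (Fin (M + 1)) k)), MvPolynomial.aeval f H ≠ 0 :=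
    fun f => ⟨1, rfl, by rw [map_one]; exact one_ne_zero⟩
  have hv1 : ∀ {E : Type} [Field E] [Algebra k E] (f : Fin (M + 1) → E),
      ¬ (∀ H ∈ ({1} : Set (MvPolynomial (Fin (M + 1)) k)), val f H = 0) := by
    intro E _ _ f h
    have h2 := h 1 rfl
    unfold Pool.Agent.W602.GT.val at h2
    rw [map_one] at h2
    exact one_ne_zero h2
  tfae_have 2 → 1 := fun ⟨A, h⟩ => ⟨A, fun K _ _ _ f hf0 hf =>
    h K K (by rw [Module.finrank_self]; exact hρ) f hf0 hf⟩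
  tfae_have 1 → 3 := fun ⟨A, h⟩ K _ _ _ => ⟨_, fun f hf0 hf => h K f hf0 hf⟩
  tfae_have 3 → 4 := by
    intro h P hP
    exact Pool.Agent.Y221.AH.not_bounded hP h
  tfae_have 4 → 6 := fun h P hP => h _ (gm_im hF.form hG hP)
  tfae_have 5 → 4 := by
    intro h P hP
    have e1 : GenMod Φ {1} ↔ ∀ P, GmCurve Φ P → ∀ t : k, t ≠ 0 →
      ∀ H ∈ ({1} : Set (MvPolynomial (Fin (M + 1)) k)), val (fun i => (P i).eval t) H = 0 :=
      h1.out 4 3
    have h2 := e1.1 fun K _ _ w z hw hz _ => h K w z hw hz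
    exact hv1 _ (h2 P hP 1 one_ne_zero)
  have h6 : (∀ P, ¬ GmCurve F P) → ∀ x ∈ SpGm F,
      ∀ H ∈ ({1} : Set (MvPolynomial (Fin (M + 1)) k)), val (im G x) H = 0 := by
    intro h x hx
    rw [gm_empty' h] at hx
    exact absurd hx (Set.notMem_empty x)
  tfae_have 6 → 2 := by
    intro h
    obtain ⟨A, hA⟩ := (h1.out 5 1).1 (h6 h)
    exact ⟨A, fun K E _ _ _ _ _ _ _ _ _ hr' f hf0 hf => hA K E hr' f hf0 hf (hv f)⟩
  tfae_have 6 → 5 := by
    intro h K _ _ w z hw hz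
    have e1 : (∀ x ∈ SpGm F, ∀ H ∈ ({1} : Set (MvPolynomial (Fin (M + 1)) k)),
      val (im G x) H = 0) ↔ GenMod Φ {1} := h1.out 5 4
    exact e1.1 (h6 h) K w z hw hz (hv z)
  tfae_finish

/-- **Covers.** -/
theorem cover_all [Finite ι] (hΨ : ∀ e, IsForm (Ψ e)) (hB : Mor Ψ F B) (hG : Mor Ψ Φ G)
    (hon : Onto Ψ Φ G) {ρ r s N h : ℕ} (hfib : FibresLe Ψ G r) (hF : HighTowers s N h F)
    (hr : 1 ≤ r) (hρ : 1 ≤ ρ) (hN : 8 * (ρ * r * ((n + 1) * ((h + 1) * (2 * s + 1) ^ 5))) ≤ N) :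
    (∃ A : ℕ, ∀ (K E : Type) [Field K] [Field E] [Algebra k K] [Algebra k E] [Algebra K E]
      [IsScalarTower k K E] [FiniteDimensional K E] [IsFF k K] [IsFF k E],
      Module.finrank K E ≤ ρ → ∀ f : Fin (M + 1) → E, (∃ j, f j ≠ 0) →
      (∀ e, MvPolynomial.aeval f (Φ e) = 0) → ¬ VarPts k f ⊆ CovGm Ψ F B G →
        pht k f ≤ A * max (canDeg k K) 0) ∧
    ∀ (K : Type) [Field K] [Algebra k K] (w : ℕ) (z : Fin (M + 1) → K), 1 ≤ w →
      SubVar Φ K w z → ¬ VarPts k z ⊆ CovGm Ψ F B G → GeneralType k K w := by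
  obtain ⟨hN1, hN2, hN3⟩ := bound_img hr hρ hN
  exact ⟨cover_deg hΨ hB hG hon hfib hF hN2 hN1, fun K _ _ w z hw hz hno =>
    cover_gt hΨ hB hG hon hfib hF hN3 hw hz hno⟩

end Pool.Agent.X333.DC
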