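import Pool.Agent.W602.GT.SpDefs

/-!
The equations of a projective variety given by its generic point.
-/

set_option autoImplicit false

namespace Pool.Agent.X333.DC

open Pool.Agent.W602.GT

/-- The equations of the projective variety `X` with the generic point `x`: all forms which vanish
at `x`. -/
def eqs (k : Type) [Field k] {M : ℕ} {L : Type} [Field L] [Algebra k L] (x : Fin (M + 1) → L) :
    {H : MvPolynomial (Fin (M + 1)) k // IsForm H ∧ val x H = 0} → MvPolynomial (Fin (M + 1)) k :=
  Subtype.val

end Pool.Agent.X333.DC
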