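import Pool.Agent.X333.DC.Rgg
import Pool.Agent.X333.DC.RgE

/-!
Varieties dominated by the complement of coordinate hyperplanes in a variety given by nested sums of
high powers of monomials: degrees of curves.
-/

set_option autoImplicit false
set_option maxHeartbeats 400000
set_option linter.overlappingInstances false
set_option linter.unusedSectionVars false

open FF Pool.Agent.W603.LV

namespace Pool.Agent.X333.DC

open Pool.Agent.W602.GT Pool.Agent.TH466.QG Pool.Agent.Y221.BD Pool.Agent.Y221.AH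
  Pool.Agent.Y221.PB Pool.Agent.TH710.ND Pool.Agent.X333.DN Pool.Agent.Y221.FQ
open Pool.Agent.W603.GR (OffQ)
open Pool.Agent.Y216 (OnVar const_of_hgt)
open Pool.Agent.TH710.NU (zeroInf)
open Pool.Agent.W603.PV (pht pord pht_le pht_scale isFF_of_finite exists_pord pord_le ge_pord)
open Pool.Agent.W603.CX (hgt_le_pht)
open Pool.Agent.W619.PQ (IsUniruled)

variable {k : Type} [Field k] [IsAlgClosed k] [CharZero k] {M : ℕ} {μ : Type}
  {Φ : μ → MvPolynomial (Fin (M + 1)) k} {Q : MvPolynomial (Fin (M + 1)) k} {q : ℕ}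

/-- the curve `P (t ^ m)` -/
noncomputable def cmp (P : Fin (M + 1) → Polynomial k) (m : ℕ) : Fin (M + 1) → RatFunc k :=
  fun i => Polynomial.aeval ((RatFunc.X : RatFunc k) ^ m) (P i)

theorem cmp_val (P : Fin (M + 1) → Polynomial k) (m : ℕ) (H : MvPolynomial (Fin (M + 1)) k) :
    MvPolynomial.aeval (cmp P m) H = Polynomial.aeval ((RatFunc.X : RatFunc k) ^ m)
      (MvPolynomial.aeval P H : Polynomial k) :=
  (MvPolynomial.comp_aeval_apply (f := P)
    (Polynomial.aeval ((RatFunc.X : RatFunc k) ^ m) : Polynomial k →ₐ[k] RatFunc k) H).symm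

theorem cmp_inj {m : ℕ} (hm : 1 ≤ m) {p : Polynomial k}
    (hp : Polynomial.aeval ((RatFunc.X : RatFunc k) ^ m) p = 0) : p = 0 :=
  (transcendental_iff_injective.1 ((RatFunc.transcendental_X (K := k)).pow (n := m) (by omega)))
    (by rw [hp, map_zero])

/-- **The degrees are unbounded.** -/
theorem cmp_unb {P : Fin (M + 1) → Polynomial k}
    (hP : ∃ (i j : Fin (M + 1)) (t1 t2 : k),
      (P i).eval t1 * (P j).eval t2 ≠ (P j).eval t1 * (P i).eval t2) (D : ℤ) :
    ∃ m : ℕ, 1 ≤ m ∧ D < pht k (cmp P m) := by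
  obtain ⟨i, j, t1, t2, hij⟩ := hP
  obtain ⟨q, hq⟩ : ∃ q : ℕ, q = D.toNat + 1 := ⟨_, rfl⟩
  refine ⟨q, by omega, ?_⟩
  by_contra hcon
  push Not at hcon
  obtain ⟨T, hTd⟩ : ∃ T : RatFunc k, T = RatFunc.X := ⟨_, rfl⟩
  have hTt : Transcendental k T := hTd ▸ RatFunc.transcendental_X
  have hT0 : T ≠ 0 := by rw [hTd]; exact RatFunc.X_ne_zero
  have hT1 : 1 ≤ hgt k T := by
    by_contra hcon
    obtain ⟨c, hc⟩ := const_of_hgt (k := k) (u := T) (by omega)
    exact hTt (hc ▸ isAlgebraic_algebraMap c)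
  have hTq : Transcendental k (T ^ q) := hTt.pow (by omega)
  obtain ⟨y, hy⟩ : ∃ y : Fin (M + 1) → RatFunc k, y = cmp P q := ⟨_, rfl⟩
  have hyT : ∀ j, y j = Polynomial.aeval (T ^ q) (P j) := by
    intro j
    rw [hy, hTd]
    rfl
  have hPj : P j ≠ 0 := by
    intro h0
    apply hij
    rw [h0]
    simp
  have hPi : P i ≠ 0 := by
    intro h0
    apply hij
    rw [h0]
    simp
  have hcinj : ∀ p : Polynomial k, Polynomial.aeval (T ^ q) p = 0 → p = 0 := fun p hp =>
    (transcendental_iff_injective.1 hTq) (by rw [hp, map_zero])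
  have hyj : y j ≠ 0 := fun h0 => hPj (hcinj _ (by rw [← hyT]; exact h0))
  have hyi : y i ≠ 0 := fun h0 => hPi (hcinj _ (by rw [← hyT]; exact h0))
  have hg : Transcendental k (y i / y j) := by
    intro halg
    have h2 := IsAlgClosed.degree_eq_one_of_irreducible k (minpoly.irreducible halg.isIntegral)
    obtain ⟨c, hc⟩ := minpoly.mem_range_of_degree_eq_one k _ h2
    have h3 : y i = algebraMap k (RatFunc k) c * y j := by
      have hc' : algebraMap k (RatFunc k) c = y i / y j := hc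
      rw [hc']
      field_simp
    have h4 : P i = Polynomial.C c * P j := by
      have h5 := hcinj (P i - Polynomial.C c * P j) (by
        rw [map_sub, map_mul, Polynomial.aeval_C, ← hyT, ← hyT, h3, sub_self])
      exact sub_eq_zero.1 h5
    apply hij
    rw [h4]
    simp only [Polynomial.eval_mul, Polynomial.eval_C]
    ring
  have hmemk : y i / y j ∈ IntermediateField.adjoin k {T ^ q} := by
    have h1 : ∀ l, y l ∈ IntermediateField.adjoin k {T ^ q} := by
      intro l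
      rw [hyT]
      have h2 := (Polynomial.aeval (⟨T ^ q, IntermediateField.mem_adjoin_simple_self k (T ^ q)⟩ :
        IntermediateField.adjoin k {T ^ q}) (P l)).2
      rw [Polynomial.aeval_eq_sum_range] at h2 ⊢
      refine sum_mem fun a _ => ?_
      exact (IntermediateField.adjoin k {T ^ q}).smul_mem
        (_root_.pow_mem (IntermediateField.mem_adjoin_simple_self k (T ^ q)) _)
    exact div_mem (h1 i) (h1 j)
  rw [← hy] at hcon
  have h2 := hgt_le_pht (k := k) y hyi hyj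
  have h3 := hgt_sub_ge hTq hg hmemk
  rw [hgt_pow hT0] at h3
  have h4 : (q : ℤ) ≤ q * hgt k T := by nlinarith [(Nat.cast_nonneg q : (0 : ℤ) ≤ q)]
  omega

/-- **Morphisms from the multiplicative group.** -/
theorem cmp_map {P c' : Fin (M + 1) → Polynomial k} {c : k} {l : ℕ} (hc' : ∑ a, c' a * P a = 1)
    (hc : c ≠ 0) (hcl : (MvPolynomial.aeval P Q : Polynomial k) =
      Polynomial.C c * Polynomial.X ^ l) (hQ : Q.IsHomogeneous q)
    (hΦ : ∀ e, (MvPolynomial.aeval P (Φ e) : Polynomial k) = 0) {m : ℕ} (hm : 1 ≤ m) :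
    MapQ Φ Q q (zeroInf k) (cmp P m) := by
  have hX0 : (RatFunc.X : RatFunc k) ≠ 0 := RatFunc.X_ne_zero
  have hTm : (RatFunc.X : RatFunc k) ^ m ≠ 0 := pow_ne_zero _ hX0
  have hc1 : algebraMap k (RatFunc k) c ≠ 0 := (map_ne_zero _).2 hc
  have hQv : MvPolynomial.aeval (cmp P m) Q =
      algebraMap k (RatFunc k) c * ((RatFunc.X : RatFunc k) ^ m) ^ l := by
    rw [cmp_val, hcl, map_mul, Polynomial.aeval_C, map_pow, Polynomial.aeval_X]
  have hQ0 : MvPolynomial.aeval (cmp P m) Q ≠ 0 := by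
    rw [hQv]
    exact mul_ne_zero hc1 (pow_ne_zero _ hTm)
  have hex : ∃ j, cmp P m j ≠ 0 := by
    by_contra hcon
    push Not at hcon
    have h1 : ∀ a, P a = 0 := fun a => cmp_inj hm (hcon a)
    simp only [h1, mul_zero, Finset.sum_const_zero] at hc'
    exact zero_ne_one hc'
  refine ⟨hex, fun e => ?_, hQ0, fun P0 hP0 => ?_⟩
  · rw [cmp_val, hΦ, map_zero]
  · have hPT : P0.ord (RatFunc.X : RatFunc k) = 0 := by
      by_contra h
      apply hP0
      unfold zeroInf
      rw [Set.Finite.mem_toFinset]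
      exact h
    have hPm : P0.ord ((RatFunc.X : RatFunc k) ^ m) = 0 := by rw [P0.ord_pow, hPT, mul_zero]
    have h2 : P0.ord (MvPolynomial.aeval (cmp P m) Q) = 0 := by
      rw [hQv, P0.ord_mul hc1 (pow_ne_zero _ hTm), P0.ord_const hc, P0.ord_pow, hPm, mul_zero,
        add_zero]
    obtain ⟨a, ha, ha2⟩ := exists_pord P0 hex
    have h4 : 0 ≤ pord P0 (cmp P m) := by
      rw [← ha2]
      exact (reg_poly P0 hPm (P a)).resolve_left ha
    have h5 := Pool.Agent.W603.GR.ord_form P0 ha (fun i hi => by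
      rw [ha2]
      exact pord_le P0 hi) hQ hQ0
    rw [ha2] at h5
    change q * pord P0 (cmp P m) ≤ P0.ord (MvPolynomial.aeval (cmp P m) Q) at h5
    rw [h2] at h5 ⊢
    have h6 : (0 : ℤ) ≤ q * pord P0 (cmp P m) := mul_nonneg (Nat.cast_nonneg _) h4
    linarith

/-- the curve as a morphism from the multiplicative group -/
theorem gm_of {P c' : Fin (M + 1) → Polynomial k} (hc' : ∑ a, c' a * P a = 1)
    (hΦ : ∀ e, (MvPolynomial.aeval P (Φ e) : Polynomial k) = 0)
    (hnc : ∃ (a m : Fin (M + 1)) (t0 : k), t0 ≠ 0 ∧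
        (P a).eval t0 * (P m).eval 1 ≠ (P m).eval t0 * (P a).eval 1) : GmCurve Φ P := by
  have hev : ∀ (t : k) (H : MvPolynomial (Fin (M + 1)) k), val (fun i => (P i).eval t) H =
      (MvPolynomial.aeval P H : Polynomial k).eval t := by
    intro t H
    have h1 := MvPolynomial.comp_aeval_apply (f := P)
      (Polynomial.aeval t : Polynomial k →ₐ[k] k) H
    rw [Polynomial.coe_aeval_eq_eval] at h1
    exact h1.symm
  refine ⟨fun t _ h0 => ?_, fun t _ e => by rw [hev, hΦ, Polynomial.eval_zero], ?_⟩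
  · have h1 := congrArg (Polynomial.eval t) hc'
    rw [Polynomial.eval_finsetSum, Polynomial.eval_one] at h1
    have h2 : ∀ a, (P a).eval t = 0 := fun a => congrFun h0 a
    simp only [Polynomial.eval_mul, h2, mul_zero, Finset.sum_const_zero] at h1
    exact zero_ne_one h1
  · obtain ⟨a, m, t0, ht0, hne⟩ := hnc
    refine ⟨t0, 1, ht0, one_ne_zero, ?_⟩
    rw [LinearIndependent.pair_iff]
    intro s t hst
    have h1 : ∀ j, s * (P j).eval t0 + t * (P j).eval 1 = 0 := fun j => by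
      have := congrFun hst j
      simpa using this
    by_contra hcon
    apply hne
    have ea := h1 a
    have em := h1 m
    by_cases hs : s = 0
    · have ht : t ≠ 0 := fun ht => hcon ⟨hs, ht⟩
      rw [hs, zero_mul, zero_add] at ea em
      rw [(mul_eq_zero.1 ea).resolve_left ht, (mul_eq_zero.1 em).resolve_left ht, mul_zero,
        mul_zero]
    · apply mul_left_cancel₀ hs
      linear_combination (P m).eval 1 * ea - (P a).eval 1 * em

variable {n : ℕ} {ι : Type} {F : ι → MvPolynomial (Fin (n + 1)) k} {U : Set (Fin (n + 1))}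
  {K L : Type} [Field K] [Field L] [Algebra k K] [Algebra k L] [Algebra L K]
  [IsScalarTower k L K]

/-- **Degrees of curves in open varieties dominated by open varieties.** -/
theorem odom_tfae [Finite ι] {s N h r ρ w : ℕ} [Fintype U]
    (hF : ∀ i, IsForm (F i) ∧ NestedIn IsMono s N h (F i)) (hw : 1 ≤ w) (hρ : 1 ≤ ρ)
    (hN : 8 * (ρ * r * ((n + 1) * ((h + 1) * (2 * s + 1) ^ 5))) ≤ N)
    {y : Fin (n + 1) → K} (hy : SubVar F K w y) (hcomp : IsComponent F y)
    (hyU : ∀ j ∈ U, y j ≠ 0) [FiniteDimensional L K] (hr : Module.finrank L K ≤ r)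
    {x : Fin (M + 1) → L} (hx : x ≠ 0) (hgen : coords k x = ⊤) (hQ : Q.IsHomogeneous q)
    (hreg : RegMap (k := k) U y x Q) :
    [LogGeneralType k L w (OffQ Q q x), GeneralType k L w,
      ∃ R : MvPolynomial (Fin (M + 1)) k, IsForm R ∧ val x R ≠ 0 ∧ CovQ (eqs k x) Q {R} ρ,
      ∃ R : MvPolynomial (Fin (M + 1)) k, IsForm R ∧ val x R ≠ 0 ∧ LinQ (eqs k x) Q q {R},
      ∃ R : MvPolynomial (Fin (M + 1)) k, IsForm R ∧ val x R ≠ 0 ∧ BetaQ (eqs k x) Q q {R},
      ∃ R : MvPolynomial (Fin (M + 1)) k, IsForm R ∧ val x R ≠ 0 ∧ EachQ (eqs k x) Q q {R},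
      ∃ R : MvPolynomial (Fin (M + 1)) k, IsForm R ∧ val x R ≠ 0 ∧ RatQ (eqs k x) Q q {R},
      ∃ R : MvPolynomial (Fin (M + 1)) k, IsForm R ∧ val x R ≠ 0 ∧
        GmQ (eqs k x) Q {R}].TFAE := by
  have hFf : ∀ e, IsForm (F e) := fun e => (hF e).1
  have hr1 : 1 ≤ r := one_le_rank hr
  have hwn : w ≤ n := by
    have halg : Algebra.IsAlgebraic (coords k y) K := by
      rw [hy.gen]
      infer_instance
    exact Pool.Agent.W602.GT.dim_le hy.ne halg hy.dim
  obtain ⟨hN1, hN2, hN3⟩ := bound_key hr1 hρ hw hwn hN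
  have h0 := dom_tfae' hF hw hρ hN hy hcomp hr hx hgen
  have hl := odom_lang (U := U) hF hw hN3 hy hcomp hyU hr hx hgen hQ hreg
  have hspec : ¬ GeneralType k L w → ∀ R : MvPolynomial (Fin (M + 1)) k, IsForm R →
      val x R ≠ 0 → ∃ (P c' : Fin (M + 1) → Polynomial k) (c : k) (l : ℕ),
      ∑ a, c' a * P a = 1 ∧ c ≠ 0 ∧
      (MvPolynomial.aeval P Q : Polynomial k) = Polynomial.C c * Polynomial.X ^ l ∧
      (∀ H : MvPolynomial (Fin (M + 1)) k, IsForm H → val x H = 0 →
        (MvPolynomial.aeval P H : Polynomial k) = 0) ∧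
      (∃ (a m : Fin (M + 1)) (t0 : k), t0 ≠ 0 ∧
        (P a).eval t0 * (P m).eval 1 ≠ (P m).eval t0 * (P a).eval 1) ∧
      val (fun a => (P a).eval 1) R ≠ 0 := fun hgt R hR hxR =>
    gm_spec hFf hy.gen hcomp (wt_of_not hF hw hN3 hy hr hgt) hyU hx hgen hQ hreg hR hxR
  tfae_have 1 ↔ 2 := hl.out 0 2
  tfae_have 2 → 3 := by
    intro hgt
    obtain ⟨R, hR, hxR, A, hA⟩ := (h0.out 0 4).1 hgt
    refine ⟨R, hR, hxR, A, ?_⟩
    intro K0 E _ _ _ _ _ _ _ _ _ hρ' f hf0 hf hfQ ⟨H, hH, hfH⟩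
    rw [Set.mem_singleton_iff] at hH
    rw [hH] at hfH
    exact hA K0 E hρ' f ⟨hf0, fun H hH h0 => hf ⟨H, hH, h0⟩⟩ hfH
  tfae_have 3 → 4 := by
    rintro ⟨R, hR, hxR, A, h⟩
    refine ⟨R, hR, hxR, A, fun L _ _ _ S f hf hH => ?_⟩
    refine (h L L (by rw [Module.finrank_self]; exact hρ) f hf.1 hf.2.1 hf.2.2.1 hH).trans ?_
    refine mul_le_mul_of_nonneg_left (max_le_max ?_ le_rfl) (Nat.cast_nonneg _)
    have : (0 : ℤ) ≤ S.card := by positivity
    linarith
  tfae_have 4 → 5 := fun ⟨R, hR, hxR, A, h⟩ =>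
    ⟨R, hR, hxR, fun m => A * max m 0, fun L _ _ _ S f hf hH => h L S f hf hH⟩
  tfae_have 5 → 6 := fun ⟨R, hR, hxR, β, h⟩ =>
    ⟨R, hR, hxR, fun L _ _ _ S => ⟨_, fun f hf hH => h L S f hf hH⟩⟩
  tfae_have 6 → 7 := by
    rintro ⟨R, hR, hxR, h⟩
    obtain ⟨D, hD⟩ := h (RatFunc k) (zeroInf k)
    exact ⟨R, hR, hxR, D, fun f hf hH => hD f hf hH⟩
  tfae_have 7 → 2 := by
    rintro ⟨R, hR, hxR, D, hD⟩
    by_contra hgt
    obtain ⟨P, c', c, l, hc', hc, hcl, hPX, ⟨a, m, t0, ht0, hnc⟩, hPR⟩ := hspec hgt R hR hxR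
    obtain ⟨m', hm', hDm⟩ := cmp_unb (P := P) ⟨a, m, t0, 1, hnc⟩ D
    have hPe : ∀ e, (MvPolynomial.aeval P (eqs k x e) : Polynomial k) = 0 := fun e =>
      hPX e.1 e.2.1 e.2.2
    have hmap := cmp_map (Φ := eqs k x) hc' hc hcl hQ hPe hm'
    have hRne : MvPolynomial.aeval (cmp P m') R ≠ 0 := by
      rw [cmp_val]
      intro h1
      have h2 := cmp_inj hm' h1
      apply hPR
      have h3 := MvPolynomial.comp_aeval_apply (f := P)
        (Polynomial.aeval (1 : k) : Polynomial k →ₐ[k] k) R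
      rw [Polynomial.coe_aeval_eq_eval, h2, Polynomial.eval_zero] at h3
      exact h3.symm
    have h4 := hD (cmp P m') hmap ⟨R, rfl, hRne⟩
    exact absurd h4 (not_le.2 hDm)
  tfae_have 3 → 8 := by
    rintro ⟨R, hR, hxR, A, h⟩
    refine ⟨R, hR, hxR, ?_⟩
    intro P hP hPQ t ht H hH
    by_contra hne
    refine not_bounded' (H := Q * H) (t0 := t) hP ?_
      ⟨A * max (canDeg k (RatFunc k)) 0, fun f h1 h2 h3 => ?_⟩
    · change MvPolynomial.aeval _ (Q * H) ≠ 0
      rw [map_mul]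
      exact mul_ne_zero (hPQ t ht) hne
    · rw [map_mul] at h3
      exact h (RatFunc k) (RatFunc k) (by rw [Module.finrank_self]; exact hρ) f h1 h2
        (left_ne_zero_of_mul h3) ⟨H, hH, right_ne_zero_of_mul h3⟩
  tfae_have 8 → 2 := by
    rintro ⟨R, hR, hxR, h⟩
    by_contra hgt
    obtain ⟨P, c', c, l, hc', hc, hcl, hPX, hnc, hPR⟩ := hspec hgt R hR hxR
    have hPe : ∀ e, (MvPolynomial.aeval P (eqs k x e) : Polynomial k) = 0 := fun e =>
      hPX e.1 e.2.1 e.2.2
    have hgm := gm_of (Φ := eqs k x) hc' hPe hnc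
    refine hPR (h P hgm (fun t ht => ?_) 1 one_ne_zero R rfl)
    have h3 := MvPolynomial.comp_aeval_apply (f := P)
      (Polynomial.aeval t : Polynomial k →ₐ[k] k) Q
    rw [Polynomial.coe_aeval_eq_eval, hcl, Polynomial.eval_mul, Polynomial.eval_C,
      Polynomial.eval_pow, Polynomial.eval_X] at h3
    change MvPolynomial.aeval _ Q ≠ 0
    rw [← h3]
    exact mul_ne_zero hc (pow_ne_zero _ ht)
  tfae_finish

end Pool.Agent.X333.DC
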