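import Pool.Agent.X333.DC.Opi
import Pool.Agent.X333.DN.ImT

/-!
The complements of hypersurfaces in the images of projective varieties given by nested sums of high
powers of monomials: the equivalences.
-/

set_option autoImplicit false
set_option maxHeartbeats 400000
set_option linter.overlappingInstances false
set_option linter.unusedSectionVars false

open FF Pool.Agent.W603.LV

namespace Pool.Agent.X333.DC

open Pool.Agent.W602.GT Pool.Agent.TH466.QG Pool.Agent.Y221.BD Pool.Agent.Y221.AH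
  Pool.Agent.TH710.ND Pool.Agent.X333.DN Pool.Agent.Y221.FQ
open Pool.Agent.TH143.GT (rf rf_zero val_rf Flat Fam)
open Pool.Agent.W603.GR (OffQ)
open Pool.Agent.TH710.NU (zeroInf)
open Pool.Agent.W603.PV (pht pord pht_le pht_scale isFF_of_finite exists_pord pord_le ge_pord)
open Pool.Agent.W603.CX (hgt_le_pht)

variable {k : Type} [Field k] {n M : ℕ} {ι μ : Type}
  {F : ι → MvPolynomial (Fin (n + 1)) k}
  {Φ : μ → MvPolynomial (Fin (M + 1)) k} {G : Fin (M + 1) → MvPolynomial (Fin (n + 1)) k}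
  {Q : MvPolynomial (Fin (M + 1)) k} {q : ℕ} {U : Set (Fin (n + 1))}

section defs

variable (Φ : μ → MvPolynomial (Fin (M + 1)) k) (Q : MvPolynomial (Fin (M + 1)) k) (q : ℕ)
  (T : Set (MvPolynomial (Fin (M + 1)) k))

/-- There is a constant `A` such that for all smooth projective curves `C` (with function field `K`)
and `C'` (with function field `E`), all morphisms `C' → C` of degree at most `ρ` and all morphisms
`f` from `C'` to the projective variety `{Φ = 0}` whose image is contained neither in the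
hypersurface `Q = 0` nor in the subset where all forms in `T` vanish, the degree of `f` is at most
`A max (2 g (C) - 2, 0)`. -/
def CovQ (ρ : ℕ) : Prop :=
  ∃ A : ℕ, ∀ (K E : Type) [Field K] [Field E] [Algebra k K] [Algebra k E] [Algebra K E]
    [IsScalarTower k K E] [FiniteDimensional K E] [IsFF k K] [IsFF k E],
    Module.finrank K E ≤ ρ → ∀ f : Fin (M + 1) → E, (∃ j, f j ≠ 0) →
    (∀ e, MvPolynomial.aeval f (Φ e) = 0) → MvPolynomial.aeval f Q ≠ 0 →
    (∃ H ∈ T, MvPolynomial.aeval f H ≠ 0) → pht k f ≤ A * max (canDeg k K) 0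

/-- The degrees of the morphisms `C \ S → X` with image not in the subset where all forms in `T`
vanish are at most `A max (2 g (C) - 2 + |S|, 0)`. -/
def LinQ : Prop :=
  ∃ A : ℕ, ∀ (L : Type) [Field L] [Algebra k L] [IsFF k L] (S : Finset (Place k L))
    (f : Fin (M + 1) → L), MapQ Φ Q q S f → (∃ H ∈ T, MvPolynomial.aeval f H ≠ 0) →
      pht k f ≤ A * max (canDeg k L + S.card) 0

/-- The degrees of the morphisms `C \ S → X` with image not in the subset where all forms in `T`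
vanish are bounded by a function of `2 g (C) - 2 + |S|`. -/
def BetaQ : Prop :=
  ∃ β : ℤ → ℤ, ∀ (L : Type) [Field L] [Algebra k L] [IsFF k L] (S : Finset (Place k L))
    (f : Fin (M + 1) → L), MapQ Φ Q q S f → (∃ H ∈ T, MvPolynomial.aeval f H ≠ 0) →
      pht k f ≤ β (canDeg k L + S.card)

/-- For each curve `C` and each finite set `S` of points, the degrees of the morphisms `C \ S → X`
with image not in the subset where all forms in `T` vanish are bounded. -/
def EachQ : Prop :=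
  ∀ (L : Type) [Field L] [Algebra k L] [IsFF k L] (S : Finset (Place k L)), ∃ D : ℤ,
    ∀ f : Fin (M + 1) → L, MapQ Φ Q q S f → (∃ H ∈ T, MvPolynomial.aeval f H ≠ 0) →
      pht k f ≤ D

/-- The degrees of the morphisms from the multiplicative group to `X` with image not in the subset
where all forms in `T` vanish are bounded. -/
def RatQ [CharZero k] : Prop :=
  ∃ D : ℤ, ∀ f : Fin (M + 1) → RatFunc k, MapQ Φ Q q (zeroInf k) f →
    (∃ H ∈ T, MvPolynomial.aeval f H ≠ 0) → pht k f ≤ D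

/-- The images of all nonconstant morphisms from the multiplicative group to `X` are contained in
the subset where all forms in `T` vanish. -/
def GmQ : Prop :=
  ∀ P, GmCurve Φ P → (∀ t : k, t ≠ 0 → val (fun i => (P i).eval t) Q ≠ 0) →
    ∀ t : k, t ≠ 0 → ∀ H ∈ T, val (fun i => (P i).eval t) H = 0

/-- All closed subvarieties of positive dimension of `X` which are not contained in the subset
where all forms in `T` vanish are of log general type. -/
def LgtQ : Prop :=
  ∀ (K : Type) [Field K] [Algebra k K] (w : ℕ) (z : Fin (M + 1) → K), 1 ≤ w →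
    SubVar Φ K w z → val z Q ≠ 0 → (∃ H ∈ T, val z H ≠ 0) → LogGeneralType k K w (OffQ Q q z)

/-- The closures of all closed subvarieties of positive dimension of `X` which are not contained in
the subset where all forms in `T` vanish are of general type. -/
def GenQ : Prop :=
  ∀ (K : Type) [Field K] [Algebra k K] (w : ℕ) (z : Fin (M + 1) → K), 1 ≤ w →
    SubVar Φ K w z → val z Q ≠ 0 → (∃ H ∈ T, val z H ≠ 0) → GeneralType k K w

end defs

variable [IsAlgClosed k] [CharZero k]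

/-- the image of the orbit is not constant -/
theorem orb_np (hG : Mor F Φ G) {r : ℕ} (hfib : FibresLe F G r)
    {E : Type} [Field E] [Algebra k E]
    {b : Fin (n + 1) → ℤ} {B : ℕ} (hB : ∀ j, 0 ≤ b j + B) {u : Fin (n + 1) → E}
    {i i' : Fin (n + 1)} (hi : u i ≠ 0) (hi' : u i' ≠ 0)
    (hb : b i ≠ b i') (hwc : ∀ e v, val u (wc b v (F e)) = 0)
    (hpr : ∀ (a c : Fin (M + 1)) (s t : E), s ≠ 0 → t ≠ 0 →
      (imP G b B u a).eval s * (imP G b B u c).eval t =
      (imP G b B u c).eval s * (imP G b B u a).eval t) : False := by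
  obtain ⟨eG, heG, hGe⟩ := hG.form
  have hev : ∀ (a : Fin (M + 1)) (t : E), t ≠ 0 → (imP G b B u a).eval t =
      (t ^ B) ^ eG * im G (fun j => t ^ b j * u j) a := by
    intro a t ht
    have h1 := imP_eval (G := G) (k := k) (Ω := E) hB u ht (MvPolynomial.X a)
    rw [MvPolynomial.aeval_X] at h1
    have h2 : Polynomial.aeval t (imP G b B u a) = (imP G b B u a).eval t := by
      rw [Polynomial.coe_aeval_eq_eval]
    rw [← h2, h1]
    unfold Pool.Agent.W602.GT.val
    rw [MvPolynomial.aeval_X, im_smul hGe]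
    rfl
  refine orb_nc hG hfib hi hi' hb hwc fun t t' ht ht' a c => ?_
  have h1 := hpr a c t t' ht ht'
  rw [hev a t ht, hev c t' ht', hev a t' ht', hev c t ht] at h1
  have h2 : ((t ^ B) ^ eG * (t' ^ B) ^ eG) ≠ 0 :=
    mul_ne_zero (pow_ne_zero _ (pow_ne_zero _ ht)) (pow_ne_zero _ (pow_ne_zero _ ht'))
  refine mul_left_cancel₀ h2 ?_
  linear_combination h1

/-- **The curves of the multiplicative group.** -/
theorem orb_gm (hFf : ∀ e, IsForm (F e)) (hG : Mor F Φ G) {r : ℕ} (hfib : FibresLe F G r)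
    (hU : ∀ x ∈ Cone F, (∀ j ∈ U, x j ≠ 0) → val (im G x) Q ≠ 0)
    {x : Fin (n + 1) → k} {b : Fin (n + 1) → ℤ} (hx : DiagCurve U F x b) :
    ∃ P, GmCurve Φ P ∧ (∀ t : k, t ≠ 0 → val (fun i => (P i).eval t) Q ≠ 0) ∧
      (fun i => (P i).eval 1) = im G x := by
  obtain ⟨B, hB⟩ := exists_shift b
  have hxU : ∀ j ∈ U, x j ≠ 0 := by
    intro j hj
    have h1 := (hx.1 1 one_ne_zero).2.1 j hj
    simpa using h1
  have hwc : ∀ e v, val x (wc b v (F e)) = 0 := fun e v => by
    have hinf : Infinite k := inferInstance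
    exact wc_of_orbit (fun t ht => (hx.1 t ht).2.2 e) v
  obtain ⟨i, i', hi, hi', hb⟩ := hx.2
  have hev : ∀ t : k, t ≠ 0 → (fun a => (imP G b B x a).eval t) =
      im G (fun j => t ^ B * (t ^ b j * x j)) := by
    intro t ht
    funext a
    have h1 := imP_eval (G := G) (k := k) (Ω := k) hB x ht (MvPolynomial.X a)
    rw [MvPolynomial.aeval_X] at h1
    have h2 : Polynomial.aeval t (imP G b B x a) = (imP G b B x a).eval t := by
      rw [Polynomial.coe_aeval_eq_eval]
    rw [← h2, h1]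
    exact MvPolynomial.aeval_X _ _
  have hcone : ∀ t : k, t ≠ 0 → (fun j => t ^ B * (t ^ b j * x j)) ∈ Cone F := fun t ht =>
    ⟨fun h0 => mul_ne_zero (pow_ne_zero _ ht) (mul_ne_zero (zpow_ne_zero _ ht) hi)
      (congrFun h0 i), fun e => orb_mem (k := k) (E := k) (Ω := k) hFf hwc ht B e⟩
  refine ⟨imP G b B x, ⟨fun t ht => ?_, fun t ht e => ?_, ?_⟩, fun t ht => ?_, ?_⟩
  · rw [hev t ht]
    exact (hG.maps _ (hcone t ht)).1
  · rw [hev t ht]
    exact (hG.maps _ (hcone t ht)).2 e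
  · by_contra hcon
    push Not at hcon
    refine orb_np hG hfib hB hi hi' hb hwc fun a c s t hs ht => ?_
    have h1 := hcon s t hs ht
    rw [LinearIndependent.pair_iff] at h1
    push Not at h1
    obtain ⟨α, α', haa, hne⟩ := h1
    have h2 := congrFun haa a
    have h3 := congrFun haa c
    simp only [Pi.add_apply, Pi.smul_apply, smul_eq_mul, Pi.zero_apply] at h2 h3
    by_cases hα : α = 0
    · have hα' := hne hα
      rw [hα, zero_mul, zero_add] at h2 h3
      rw [(mul_eq_zero.1 h2).resolve_left hα', (mul_eq_zero.1 h3).resolve_left hα', mul_zero,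
        mul_zero]
    · refine mul_left_cancel₀ hα ?_
      linear_combination (imP G b B x c).eval t * h2 - (imP G b B x a).eval t * h3
  · rw [hev t ht]
    refine hU _ (hcone t ht) fun j hj => ?_
    exact mul_ne_zero (pow_ne_zero _ ht) (mul_ne_zero (zpow_ne_zero _ ht) (hxU j hj))
  · rw [hev 1 one_ne_zero]
    congr 1
    funext j
    simp

/-- **The images of orbits are curves which are not of log general type.** -/
theorem orb_sub (hΦ : ∀ e, IsForm (Φ e)) (hFf : ∀ e, IsForm (F e)) (hG : Mor F Φ G) {r : ℕ}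
    (hfib : FibresLe F G r)
    (hU : ∀ x ∈ Cone F, (∀ j ∈ U, x j ≠ 0) → val (im G x) Q ≠ 0) (hQ : Q.IsHomogeneous q)
    {x : Fin (n + 1) → k} {b : Fin (n + 1) → ℤ} (hx : DiagCurve U F x b) :
    ∃ (K : Type) (_ : Field K) (_ : Algebra k K) (z : Fin (M + 1) → K), SubVar Φ K 1 z ∧
      (∀ H : MvPolynomial (Fin (M + 1)) k, IsForm H → val (im G x) H ≠ 0 → val z H ≠ 0) ∧
      ¬ LogGeneralType k K 1 (OffQ Q q z) := by
  obtain ⟨B, hB⟩ := exists_shift b
  have hinf : Infinite k := inferInstance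
  have hxU : ∀ j ∈ U, x j ≠ 0 := by
    intro j hj
    have h1 := (hx.1 1 one_ne_zero).2.1 j hj
    simpa using h1
  have hwc : ∀ e v, val x (wc b v (F e)) = 0 := fun e v =>
    wc_of_orbit (fun t ht => (hx.1 t ht).2.2 e) v
  obtain ⟨i, i', hi, hi', hb⟩ := hx.2
  have hx0 : x ≠ 0 := fun h => hi (congrFun h i)
  have hxF : ∀ e, val x (F e) = 0 := by
    intro e
    have h1 := (hx.1 1 one_ne_zero).2.2 e
    simpa using h1
  let y0 : Fin (M + 1) → RatFunc k := fun a => rf (imP G b B x a)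
  have hy0 : ∀ H : MvPolynomial (Fin (M + 1)) k, val y0 H = 0 ↔
      (MvPolynomial.aeval (imP G b B x) H : Polynomial k) = 0 := by
    intro H
    have h1 : val y0 H = rf (MvPolynomial.aeval (imP G b B x) H) := val_rf _ _
    rw [h1, rf_zero]
  have hone : ∀ H : MvPolynomial (Fin (M + 1)) k, (MvPolynomial.aeval (imP G b B x) H :
      Polynomial k).eval 1 = val (im G x) H := by
    intro H
    have h1 := imP_eval (G := G) (k := k) (Ω := k) hB x one_ne_zero H
    have h2 : Polynomial.aeval (1 : k) (MvPolynomial.aeval (imP G b B x) H : Polynomial k) =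
        (MvPolynomial.aeval (imP G b B x) H : Polynomial k).eval 1 := by
      rw [Polynomial.coe_aeval_eq_eval]
    rw [← h2, h1]
    congr 2
    funext j
    simp
  have hmemP : ∀ e, (MvPolynomial.aeval (imP G b B x) (Φ e) : Polynomial k) = 0 := by
    intro e
    refine poly_zero fun t ht => ?_
    have h1 := imP_eval (G := G) (k := k) (Ω := k) hB x ht (Φ e)
    have h2 : Polynomial.aeval t (MvPolynomial.aeval (imP G b B x) (Φ e) : Polynomial k) =
        (MvPolynomial.aeval (imP G b B x) (Φ e) : Polynomial k).eval t := by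
      rw [Polynomial.coe_aeval_eq_eval]
    rw [← h2, h1]
    refine (hG.maps _ ⟨fun h0 => ?_, fun e => ?_⟩).2 e
    · exact mul_ne_zero (pow_ne_zero _ ht) (mul_ne_zero (zpow_ne_zero _ ht) hi) (congrFun h0 i)
    · exact orb_mem (k := k) (E := k) (Ω := k) hFf hwc ht B e
  obtain ⟨a0, ha0⟩ : ∃ a0, y0 a0 ≠ 0 := by
    obtain ⟨a0, ha0⟩ := Function.ne_iff.1 (hG.maps x ⟨hx0, hxF⟩).1
    refine ⟨a0, fun h0 => ha0 ?_⟩
    have h1 : imP G b B x a0 = 0 := rf_zero.1 h0
    have h2 := hone (MvPolynomial.X a0)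
    rw [MvPolynomial.aeval_X, h1, Polynomial.eval_zero] at h2
    have h3 : val (im G x) (MvPolynomial.X a0 : MvPolynomial (Fin (M + 1)) k) = im G x a0 :=
      MvPolynomial.aeval_X _ _
    rw [h3] at h2
    exact h2.symm
  have hnc : coords k y0 ≠ ⊥ := by
    intro hbot
    have h1 : ∀ a, ∃ c : k, imP G b B x a = Polynomial.C c * imP G b B x a0 := by
      intro a
      have h2 : y0 a / y0 a0 ∈ coords k y0 :=
        IntermediateField.subset_adjoin k _ ⟨a, a0, ha0, rfl⟩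
      rw [hbot, IntermediateField.mem_bot] at h2
      obtain ⟨c, hc⟩ := h2
      refine ⟨c, ?_⟩
      apply Pool.Agent.TH143.GT.rf_inj
      have h3 : y0 a = algebraMap k (RatFunc k) c * y0 a0 := by
        rw [hc]
        field_simp
      change y0 a = _
      rw [h3, Pool.Agent.TH143.GT.rf_mul]
      congr 1
    refine orb_np hG hfib hB hi hi' hb hwc fun a c s t _ _ => ?_
    obtain ⟨α, hα⟩ := h1 a
    obtain ⟨γ, hγ⟩ := h1 c
    rw [hα, hγ]
    simp only [Polynomial.eval_mul, Polynomial.eval_C]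
    ring
  -- all forms which vanish at the point
  let Φ' : {H : MvPolynomial (Fin (M + 1)) k // IsForm H ∧ val y0 H = 0} →
    MvPolynomial (Fin (M + 1)) k := fun H => H.1
  obtain ⟨z, hz, -, hzr⟩ := rational_sub (F := Φ') (fun H => H.2.1) y0 ha0 (fun H => H.2.2) hnc
  have hrel : ∀ H : MvPolynomial (Fin (M + 1)) k, IsForm H →
      (val z H = 0 ↔ (MvPolynomial.aeval (imP G b B x) H : Polynomial k) = 0) := by
    intro H hH
    rw [← hy0]
    exact ⟨hzr H hH, fun h => hz.mem ⟨H, hH, h⟩⟩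
  refine ⟨_, inferInstance, inferInstance, z,
    ⟨hz.ne, fun e => (hrel _ (hΦ e)).2 (hmemP e), hz.gen, hz.dim⟩, ?_, ?_⟩
  · intro H hH hne h0
    apply hne
    rw [← hone, (hrel H hH).1 h0, Polynomial.eval_zero]
  · refine orb_not_lgt (E := k) (m := 0) hFf hG hfib hU hQ ?_ hB hxU hi hi' hb hwc hz.ne hz.gen hrel
    rw [_root_.trdeg_eq_zero (R := k) (A := k)]
    simp

/-- **Modulo a closed subset.** -/
theorem opi_tfae [Finite ι] (hΦ : ∀ e, IsForm (Φ e)) (hG : Mor F Φ G) (hon : Onto F Φ G)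
    {ρ r s N h : ℕ} (hfib : FibresLe F G r)
    (hF : ∀ i, IsForm (F i) ∧ NestedIn IsMono s N h (F i)) (hr : 1 ≤ r) (hρ : 1 ≤ ρ)
    (hN : 8 * (ρ * r * ((n + 1) * ((h + 1) * (2 * s + 1) ^ 5))) ≤ N) (hQ : Q.IsHomogeneous q)
    (hU : ∀ x ∈ Cone F, val (im G x) Q ≠ 0 ↔ ∀ j ∈ U, x j ≠ 0)
    {T : Set (MvPolynomial (Fin (M + 1)) k)} (hT : ∀ H ∈ T, IsForm H) :
    [CovQ Φ Q T ρ, LinQ Φ Q q T, BetaQ Φ Q q T, EachQ Φ Q q T, RatQ Φ Q q T, GmQ Φ Q T,
      LgtQ Φ Q q T, GenQ Φ Q T, ∀ x b, DiagCurve U F x b → ∀ H ∈ T, val (im G x) H = 0].TFAE := by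
  obtain ⟨hN1, hN2, hN3⟩ := bound_img hr hρ hN
  have hFf : ∀ e, IsForm (F e) := fun e => (hF e).1
  have hU1 : ∀ x ∈ Cone F, val (im G x) Q ≠ 0 → ∀ j ∈ U, x j ≠ 0 := fun x hx => (hU x hx).1
  have hU2 : ∀ x ∈ Cone F, (∀ j ∈ U, x j ≠ 0) → val (im G x) Q ≠ 0 := fun x hx => (hU x hx).2
  have hQf : IsForm Q := ⟨q, hQ⟩
  tfae_have 9 → 1 := fun h => opi_deg hG hon hfib hF hN2 hN1 hQf hU1 hT h
  tfae_have 1 → 2 := by
    rintro ⟨A, h⟩
    refine ⟨A, fun L _ _ _ S f hf hH => ?_⟩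
    refine (h L L (by rw [Module.finrank_self]; exact hρ) f hf.1 hf.2.1 hf.2.2.1 hH).trans ?_
    refine mul_le_mul_of_nonneg_left (max_le_max ?_ le_rfl) (Nat.cast_nonneg _)
    have : (0 : ℤ) ≤ S.card := by positivity
    linarith
  tfae_have 2 → 3 := fun ⟨A, h⟩ => ⟨fun m => A * max m 0, fun L _ _ _ S f hf hH => h L S f hf hH⟩
  tfae_have 3 → 4 := fun ⟨β, h⟩ L _ _ _ S => ⟨_, fun f hf hH => h L S f hf hH⟩
  tfae_have 4 → 5 := fun h => h (RatFunc k) (zeroInf k)
  tfae_have 5 → 9 := by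
    rintro ⟨D, hD⟩ x b hx H hH
    by_contra hne
    obtain ⟨f, hf, hDf, hfH⟩ := opi_unb hFf hG hU2 hQ hx D
    exact absurd (hD f hf ⟨H, hH, hfH H (hT H hH) hne⟩) (not_le.2 hDf)
  tfae_have 1 → 6 := by
    rintro ⟨A, h⟩ P hP hPQ t ht H hH
    by_contra hne
    refine not_bounded' (H := Q * H) (t0 := t) hP ?_
      ⟨A * max (canDeg k (RatFunc k)) 0, fun f h1 h2 h3 => ?_⟩
    · change MvPolynomial.aeval _ (Q * H) ≠ 0
      rw [map_mul]
      exact mul_ne_zero (hPQ t ht) hne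
    · rw [map_mul] at h3
      exact h (RatFunc k) (RatFunc k) (by rw [Module.finrank_self]; exact hρ) f h1 h2
        (left_ne_zero_of_mul h3) ⟨H, hH, right_ne_zero_of_mul h3⟩
  tfae_have 6 → 9 := by
    intro h x b hx H hH
    obtain ⟨P, hP, hPQ, hP1⟩ := orb_gm hFf hG hfib hU2 hx
    have h1 := h P hP hPQ 1 one_ne_zero H hH
    rwa [hP1] at h1
  tfae_have 9 → 8 := fun h K _ _ w z hw hz hzQ hzT =>
    opi_gen hG hon hfib hF hN3 hQf hU1 hT h hw hz hzQ hzT
  tfae_have 8 → 7 := fun h K _ _ w z hw hz hzQ hzT =>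
    Pool.Agent.TH710.NR.log_of_general (h K w z hw hz hzQ hzT) _
  tfae_have 7 → 9 := by
    intro h x b hx H hH
    by_contra hne
    obtain ⟨K, i1, i2, z, hz, hzH, hlgt⟩ := orb_sub hΦ hFf hG hfib hU2 hQ hx
    have hxc : x ∈ Cone F := by
      have h1 := hx.1 1 one_ne_zero
      simp only [one_zpow, one_mul] at h1
      exact ⟨h1.1, h1.2.2⟩
    have hxU : ∀ j ∈ U, x j ≠ 0 := by
      intro j hj
      have h1 := (hx.1 1 one_ne_zero).2.1 j hj
      simpa using h1
    exact hlgt (h K 1 z le_rfl hz (hzH Q hQf (hU2 x hxc hxU)) ⟨H, hH, hzH H (hT H hH) hne⟩)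
  tfae_finish

/-- **The components.** -/
theorem opi_comp [Finite ι] (hΦ : ∀ e, IsForm (Φ e)) (hG : Mor F Φ G) (hon : Onto F Φ G)
    {ρ r s N h : ℕ} (hfib : FibresLe F G r)
    (hF : ∀ i, IsForm (F i) ∧ NestedIn IsMono s N h (F i)) (hr : 1 ≤ r) (hρ : 1 ≤ ρ)
    (hN : 8 * (ρ * r * ((n + 1) * ((h + 1) * (2 * s + 1) ^ 5))) ≤ N) (hQ : Q.IsHomogeneous q)
    (hU : ∀ x ∈ Cone F, val (im G x) Q ≠ 0 ↔ ∀ j ∈ U, x j ≠ 0) {K : Type} [Field K]
    [Algebra k K] {w : ℕ} {z : Fin (M + 1) → K} (hw : 1 ≤ w) (hz : SubVar Φ K w z)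
    (hzQ : val z Q ≠ 0) (hc : IsComponent Φ z) :
    [LogGeneralType k K w (OffQ Q q z), GeneralType k K w,
      ∃ H : MvPolynomial (Fin (M + 1)) k, IsForm H ∧ val z H ≠ 0 ∧ CovQ Φ Q {H} ρ, ∃ H : MvPolynomial (Fin (M + 1)) k, IsForm H ∧ val z H ≠ 0 ∧ LinQ Φ Q q {H},
      ∃ H : MvPolynomial (Fin (M + 1)) k, IsForm H ∧ val z H ≠ 0 ∧ BetaQ Φ Q q {H}, ∃ H : MvPolynomial (Fin (M + 1)) k, IsForm H ∧ val z H ≠ 0 ∧ EachQ Φ Q q {H},
      ∃ H : MvPolynomial (Fin (M + 1)) k, IsForm H ∧ val z H ≠ 0 ∧ RatQ Φ Q q {H}, ∃ H : MvPolynomial (Fin (M + 1)) k, IsForm H ∧ val z H ≠ 0 ∧ GmQ Φ Q {H},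
      ∃ H : MvPolynomial (Fin (M + 1)) k, IsForm H ∧ val z H ≠ 0 ∧ LgtQ Φ Q q {H},
      ∃ H : MvPolynomial (Fin (M + 1)) k, IsForm H ∧ val z H ≠ 0 ∧ GenQ Φ Q {H}].TFAE := by
  obtain ⟨hN1, hN2, hN3⟩ := bound_img hr hρ hN
  have hFf : ∀ e, IsForm (F e) := fun e => (hF e).1
  have hU2 : ∀ x ∈ Cone F, (∀ j ∈ U, x j ≠ 0) → val (im G x) Q ≠ 0 := fun x hx => (hU x hx).2
  have hQf : IsForm Q := ⟨q, hQ⟩
  have hall : ∀ H : MvPolynomial (Fin (M + 1)) k, IsForm H → [CovQ Φ Q {H} ρ, LinQ Φ Q q {H}, BetaQ Φ Q q {H},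
      EachQ Φ Q q {H}, RatQ Φ Q q {H}, GmQ Φ Q {H}, LgtQ Φ Q q {H}, GenQ Φ Q {H},
      ∀ x b, DiagCurve U F x b → ∀ H' ∈ ({H} : Set _), val (im G x) H' = 0].TFAE := fun H hH =>
    opi_tfae hΦ hG hon hfib hF hr hρ hN hQ hU (T := {H}) (by rintro _ rfl; exact hH)
  have h28 : GeneralType k K w → ∃ H : MvPolynomial (Fin (M + 1)) k, IsForm H ∧ val z H ≠ 0 ∧
      ∀ x b, DiagCurve U F x b → ∀ H' ∈ ({H} : Set _), val (im G x) H' = 0 := by
    intro hgt
    have h1 : ¬ VarPts k z ⊆ SpGm Φ :=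
      (((gen_tfae_alg hΦ hG hon hfib (Or.inr hF) hN3 hw hz).2 hc).out 0 4).1 hgt
    obtain ⟨H, hH, hPH, hne⟩ := (not_sub (k := k) (T := SpGm Φ) hΦ (fun x => Iff.rfl) hz.ne
      hz.mem).1 h1
    refine ⟨H, hH, hne, ?_⟩
    rintro x b hx _ rfl
    obtain ⟨P, hP, -, hP1⟩ := orb_gm hFf hG hfib hU2 hx
    have h2 := hPH P hP 1 one_ne_zero
    rwa [hP1] at h2
  tfae_have 2 → 1 := fun h => Pool.Agent.TH710.NR.log_of_general h _
  tfae_have 1 → 2 := by
    intro hlgt
    by_contra hgt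
    obtain ⟨E, i1, i2, i3, i4, i5, u, i0, c, hrk, hu0, huF, hc0, hcz, htop⟩ :=
      lift_point hFf hG hon hfib hz.ne hz.mem
    have hu : u ≠ 0 := by
      intro h0
      rw [h0] at hu0
      exact zero_ne_one hu0
    have halg : Algebra.IsAlgebraic (coords k u) E := by
      rw [lift_gen hz.gen hu0 hc0 hcz htop]
      infer_instance
    have htr : Algebra.trdeg k E = w := by rw [trdeg_alg (E := K), hz.dim]
    have hwn : w ≤ n := Pool.Agent.W602.GT.dim_le hu halg htr
    have hr1 : 1 ≤ r := one_le_rank (L := K) (K' := E) hrk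
    obtain ⟨hb1, hb2⟩ := bound_le hr1 hwn hN3
    have hC : ¬ HasNest k s h N w E := by
      intro hC
      exact hgt (general_below' hw hrk hC hb1)
    obtain ⟨b, i, i', hi, hi', hb, hwc⟩ := sparse_n' (fun e => (hF e).2) hb2 halg htr huF hC
    have hQu : val (im G u) Q ≠ 0 := fun h0 => hzQ (val_prop hcz hQf h0)
    have huU := on_ext (fun x hx => (hU x hx).1) hu huF hQu
    obtain ⟨B, hB⟩ := exists_shift b
    obtain ⟨H0, hH0f, hH0z, hH0⟩ := hc
    have hone : ∀ H : MvPolynomial (Fin (M + 1)) k, (MvPolynomial.aeval (imP G b B u) H :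
        Polynomial E).eval 1 = val (im G u) H := by
      intro H
      have h1 := imP_eval (G := G) (k := k) (Ω := E) hB u one_ne_zero H
      have h2 : Polynomial.aeval (1 : E) (MvPolynomial.aeval (imP G b B u) H : Polynomial E) =
          (MvPolynomial.aeval (imP G b B u) H : Polynomial E).eval 1 := by
        rw [Polynomial.coe_aeval_eq_eval]
      rw [← h2, h1]
      congr 2
      funext j
      simp
    have hback : ∀ H : MvPolynomial (Fin (M + 1)) k, IsForm H →
        (MvPolynomial.aeval (imP G b B u) H : Polynomial E) = 0 → val z H = 0 := by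
      intro H hH h0
      refine val_prop hcz hH ?_
      rw [← hone, h0, Polynomial.eval_zero]
    have hX0 : (RatFunc.X : RatFunc E) ≠ 0 := RatFunc.X_ne_zero
    have hXr : ∀ p : Polynomial E, Polynomial.aeval (RatFunc.X : RatFunc E) p =
        algebraMap (Polynomial E) (RatFunc E) p := by
      intro p
      have h1 : (RatFunc.X : RatFunc E) = algebraMap (Polynomial E) (RatFunc E) Polynomial.X :=
        RatFunc.algebraMap_X.symm
      rw [h1, Polynomial.aeval_algebraMap_apply, Polynomial.aeval_X_left_apply]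
    have hrel : ∀ H : MvPolynomial (Fin (M + 1)) k, IsForm H →
        (val z H = 0 ↔ (MvPolynomial.aeval (imP G b B u) H : Polynomial E) = 0) := by
      intro H hH
      refine ⟨fun h0 => ?_, hback H hH⟩
      obtain ⟨v, hv⟩ : ∃ v : Fin (n + 1) → RatFunc E, v = fun j => (RatFunc.X : RatFunc E) ^ B *
        ((RatFunc.X : RatFunc E) ^ b j * algebraMap E (RatFunc E) (u j)) := ⟨_, rfl⟩
      have hvF : ∀ e, val v (F e) = 0 := by
        intro e
        rw [hv]
        exact orb_mem (k := k) (E := E) (Ω := RatFunc E) hFf hwc hX0 B e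
      have hv0 : v ≠ 0 := by
        intro h1
        have h2 := congrFun h1 i
        rw [hv] at h2
        exact mul_ne_zero (pow_ne_zero _ hX0) (mul_ne_zero (zpow_ne_zero _ hX0)
          ((map_ne_zero (algebraMap E (RatFunc E))).2 hi)) h2
      obtain ⟨hGv, hGvΦ⟩ := hG.mem hv0 hvF
      have h1 : val (im G v) (H0 * H) = 0 := by
        refine van_of_cone hGv hGvΦ fun x hx => ?_
        change MvPolynomial.aeval x (H0 * H) = 0
        rw [map_mul]
        by_cases h2 : val x H0 = 0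
        · have h3 : MvPolynomial.aeval x H0 = 0 := h2
          rw [h3, zero_mul]
        · have h3 : MvPolynomial.aeval x H = 0 := (hH0 x hx h2).2 H hH h0
          rw [h3, mul_zero]
      have h2 := imP_eval (G := G) (k := k) (Ω := RatFunc E) hB u hX0 (H0 * H)
      rw [← hv, h1, hXr, map_mul] at h2
      have h3 := (map_eq_zero_iff _ (RatFunc.algebraMap_injective E)).1 h2
      refine (mul_eq_zero.1 h3).resolve_left fun h4 => hH0z (hback H0 hH0f h4)
    exact orb_not_lgt hFf hG hfib hU2 hQ htr hB huU hi hi' hb hwc hz.ne hz.gen hrel hlgt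
  tfae_have 2 → 3 := fun h => by
    obtain ⟨H, hH, hne, h1⟩ := h28 h
    exact ⟨H, hH, hne, ((hall H hH).out 8 0).1 h1⟩
  tfae_have 3 → 4 := fun ⟨H, hH, hne, h⟩ => ⟨H, hH, hne, ((hall H hH).out 0 1).1 h⟩
  tfae_have 4 → 5 := fun ⟨H, hH, hne, h⟩ => ⟨H, hH, hne, ((hall H hH).out 1 2).1 h⟩
  tfae_have 5 → 6 := fun ⟨H, hH, hne, h⟩ => ⟨H, hH, hne, ((hall H hH).out 2 3).1 h⟩
  tfae_have 6 → 7 := fun ⟨H, hH, hne, h⟩ => ⟨H, hH, hne, ((hall H hH).out 3 4).1 h⟩
  tfae_have 7 → 8 := fun ⟨H, hH, hne, h⟩ => ⟨H, hH, hne, ((hall H hH).out 4 5).1 h⟩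
  tfae_have 8 → 9 := fun ⟨H, hH, hne, h⟩ => ⟨H, hH, hne, ((hall H hH).out 5 6).1 h⟩
  tfae_have 9 → 10 := fun ⟨H, hH, hne, h⟩ => ⟨H, hH, hne, ((hall H hH).out 6 7).1 h⟩
  tfae_have 10 → 2 := fun ⟨H, hH, hne, h⟩ => h K w z hw hz hzQ ⟨H, rfl, hne⟩
  tfae_finish

end Pool.Agent.X333.DC
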