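import Pool.Agent.X333.DC.Rgn

/-!
Varieties dominated by the complement of coordinate hyperplanes in a variety given by nested sums of
high powers of monomials: the equivalences.
-/

set_option autoImplicit false
set_option maxHeartbeats 400000
set_option linter.overlappingInstances false
set_option linter.unusedSectionVars false

open FF Pool.Agent.W603.LV

namespace Pool.Agent.X333.DC

open Pool.Agent.W602.GT Pool.Agent.TH466.QG Pool.Agent.Y221.BD Pool.Agent.Y221.AH
  Pool.Agent.TH710.ND Pool.Agent.X333.DN Pool.Agent.Y221.FQ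
open Pool.Agent.W603.GR (OffQ)
open Pool.Agent.W619.PQ (IsUniruled)

variable {k : Type} [Field k] {n M : ℕ} {ι : Type} {F : ι → MvPolynomial (Fin (n + 1)) k}
  {Q : MvPolynomial (Fin (M + 1)) k} {q : ℕ} {U : Set (Fin (n + 1))}
  {K L : Type} [Field K] [Field L] [Algebra k K] [Algebra k L] [Algebra L K]
  [IsScalarTower k L K] [IsAlgClosed k] [CharZero k]

/-- the hypersurface does not contain the variety -/
theorem reg_ne {y : Fin (n + 1) → K} {x : Fin (M + 1) → L} (hy : y ≠ 0) (hx : x ≠ 0)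
    (hyU : ∀ j ∈ U, y j ≠ 0) (hQ : Q.IsHomogeneous q) (hreg : RegMap (k := k) U y x Q) :
    val x Q ≠ 0 := by
  obtain ⟨i, hi'⟩ := Function.ne_iff.1 hy
  have hi : y i ≠ 0 := hi'
  obtain ⟨e, G, hG, hGx, hG0, hGQ⟩ := reg_at hreg hi (fun H _ h => h) hyU
  intro h0
  apply hGQ
  obtain ⟨a0, ha0'⟩ := Function.ne_iff.1 hG0
  have ha0 : val y (G a0) ≠ 0 := ha0'
  obtain ⟨a1, ha1'⟩ := Function.ne_iff.1 hx
  have ha1 : algebraMap L K (x a1) ≠ 0 := (map_ne_zero (algebraMap L K)).2 ha1'
  have hz0 : algebraMap L K (x a0) ≠ 0 := by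
    intro h0
    have h1 := hGx a1 a0
    rw [h0, zero_mul] at h1
    exact mul_ne_zero ha1 ha0 h1
  have hGc : im G y = fun a => (val y (G a0) / algebraMap L K (x a0)) * algebraMap L K (x a) := by
    funext a
    have h1 := hGx a a0
    change val y (G a) = _
    field_simp
    linear_combination -h1
  rw [hGc, val_smul hQ]
  have h2 := val_map (IsScalarTower.toAlgHom k L K) Q x
  have h3 : (fun i => (IsScalarTower.toAlgHom k L K) (x i)) = fun i => algebraMap L K (x i) :=
    rfl
  rw [h3, h0, map_zero] at h2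
  rw [← h2, mul_zero]

/-- weights -/
theorem wt_of_not {s N h r w : ℕ} (hF : ∀ i, IsForm (F i) ∧ NestedIn IsMono s N h (F i))
    (hw : 1 ≤ w) (hN : 8 * (r * ((n + 1) * ((h + 1) * (2 * s + 1) ^ 5))) ≤ N)
    {y : Fin (n + 1) → K} (hy : SubVar F K w y) [FiniteDimensional L K]
    (hr : Module.finrank L K ≤ r) (hgt : ¬ GeneralType k L w) : WtMv F y := by
  have halg : Algebra.IsAlgebraic (coords k y) K := by
    rw [hy.gen]
    infer_instance
  have hwn : w ≤ n := Pool.Agent.W602.GT.dim_le hy.ne halg hy.dim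
  obtain ⟨hb1, hb2⟩ := bound_le (one_le_rank hr) hwn hN
  have hC : ¬ HasNest k s h N w K := by
    intro hC
    exact hgt (general_below' hw hr hC hb1)
  exact sparse_n' (fun e => (hF e).2) hb2 halg hy.dim hy.mem hC

/-- the complement of the coordinate hyperplanes itself -/
theorem reg_self (U : Set (Fin (n + 1))) [Fintype U] (y : Fin (n + 1) → K) :
    RegMap (k := k) (L := K) U y y (∏ j : U, MvPolynomial.X (j : Fin (n + 1))) := by
  intro p hp _ hpU
  refine ⟨1, MvPolynomial.X, fun a => MvPolynomial.isHomogeneous_X _ _, fun a c => ?_, ?_, ?_⟩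
  · unfold Pool.Agent.W602.GT.val
    rw [MvPolynomial.aeval_X, MvPolynomial.aeval_X, Algebra.algebraMap_self, RingHom.id_apply,
      RingHom.id_apply, mul_comm]
  · have h1 : im (MvPolynomial.X : Fin (n + 1) → MvPolynomial (Fin (n + 1)) k) p = p := by
      funext a
      unfold im Pool.Agent.W602.GT.val
      rw [MvPolynomial.aeval_X]
    rw [h1]
    exact hp
  · have h1 : im (MvPolynomial.X : Fin (n + 1) → MvPolynomial (Fin (n + 1)) k) p = p := by
      funext a
      unfold im Pool.Agent.W602.GT.val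
      rw [MvPolynomial.aeval_X]
    rw [h1]
    unfold Pool.Agent.W602.GT.val
    rw [map_prod]
    refine Finset.prod_ne_zero_iff.2 fun j _ => ?_
    rw [MvPolynomial.aeval_X]
    exact hpU j j.2

/-- **Lang's conjecture for open varieties dominated by open varieties.** -/
theorem odom_lang [Finite ι] {s N h r w : ℕ} [Fintype U]
    (hF : ∀ i, IsForm (F i) ∧ NestedIn IsMono s N h (F i)) (hw : 1 ≤ w)
    (hN : 8 * (r * ((n + 1) * ((h + 1) * (2 * s + 1) ^ 5))) ≤ N)
    {y : Fin (n + 1) → K} (hy : SubVar F K w y) (hcomp : IsComponent F y)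
    (hyU : ∀ j ∈ U, y j ≠ 0) [FiniteDimensional L K] (hr : Module.finrank L K ≤ r)
    {x : Fin (M + 1) → L} (hx : x ≠ 0) (hgen : coords k x = ⊤) (hQ : Q.IsHomogeneous q)
    (hreg : RegMap (k := k) U y x Q) :
    [LogGeneralType k L w (OffQ Q q x), StronglyLogQ k x Q q, GeneralType k L w,
      StronglyGeneral k x, StronglyLogGeneral k x, ¬ IsUniruled k L w, ¬ Ruled k K,
      LogGeneralType k K w (OffQ (∏ j : U, MvPolynomial.X (j : Fin (n + 1))) (Fintype.card U)
        y)].TFAE := by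
  have hFf : ∀ e, IsForm (F e) := fun e => (hF e).1
  have hr1 : 1 ≤ r := one_le_rank hr
  have hLdim : Algebra.trdeg k L = w := by
    rw [← hy.dim, ← Pool.Agent.TH466.QG.trdeg_alg (E := L) (K := K)]
  have hxQ := reg_ne hy.ne hx hyU hQ hreg
  have hlang := Pool.Agent.X333.DN.lang_iff' (Or.inr hF) hw hy hcomp hN hr hx hgen
  obtain ⟨h1, -⟩ := abu_comp' (Or.inr hF) hw hN hy hcomp hr
  have hrK : Module.finrank K K ≤ r := by rw [Module.finrank_self]; exact hr1
  obtain ⟨h2, -⟩ := abu_comp' (L := K) (Or.inr hF) hw hN hy hcomp hrK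
  have hyQ : (∏ j : U, MvPolynomial.X (j : Fin (n + 1)) :
      MvPolynomial (Fin (n + 1)) k).IsHomogeneous (Fintype.card U) := by
    have h3 := MvPolynomial.IsHomogeneous.prod Finset.univ
      (fun j : U => (MvPolynomial.X (j : Fin (n + 1)) : MvPolynomial (Fin (n + 1)) k))
      (fun _ => 1) fun j _ => MvPolynomial.isHomogeneous_X _ _
    simpa using h3
  tfae_have 1 → 3 := by
    intro hlgt
    by_contra hgt
    exact reg_not_lgt hFf hy.gen hcomp (wt_of_not hF hw hN hy hr hgt) hyU hx hgen hQ hreg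
      hy.dim hlgt
  tfae_have 3 → 4 := hlang.1.1
  tfae_have 4 → 5 := strongly_log
  tfae_have 5 → 2 := fun ⟨R, hR, hxR, h⟩ =>
    ⟨R, hR, hxR, fun E _ _ w z hz _ hzR hw htr => h E w z hz hzR hw htr _⟩
  tfae_have 2 → 1 := fun ⟨R, hR, hxR, h⟩ => h L w x ⟨hx, hgen, fun _ _ h => h⟩ hxQ hxR hw hLdim
  tfae_have 3 ↔ 6 := h1.out 2 3
  tfae_have 3 ↔ 7 := h1.out 2 4
  tfae_have 8 → 7 := by
    intro hlgt
    intro hR
    have h27 : GeneralType k K w ↔ ¬ Ruled k K := h2.out 2 4
    have hgt : ¬ GeneralType k K w := fun h => h27.1 h hR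
    exact reg_not_lgt (L := K) hFf hy.gen hcomp (wt_of_not hF hw hN hy hrK hgt) hyU hy.ne hy.gen
      hyQ (reg_self U y) hy.dim hlgt
  tfae_have 7 → 8 := fun h => Pool.Agent.TH710.NR.log_of_general ((h2.out 2 4).2 h) _
  tfae_finish

end Pool.Agent.X333.DC
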