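import Pool.Agent.X333.DC.Fam

/-!
The small elements attached to a good family over a covering of bounded degree of a curve have
heights bounded linearly by the canonical degree of the curve.
-/

set_option autoImplicit false
set_option linter.overlappingInstances false
set_option linter.unusedSectionVars false

open FF IntermediateField Pool.Agent.W603.LV Pool.Agent.TH466.QG Pool.Agent.TH710.ND
  Pool.Agent.X333.DN

namespace Pool.Agent.X333.DC

open Pool.Agent.W602.GT (GeneralType tn)
open Pool.Agent.W603.PV (hgt_algebraMap hgt_algebraic isFF_of_finite)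

/-- the degree of the normal closure -/
theorem finrank_closure {F K L : Type} [Field F] [Field K] [Field L] [CharZero F] [Algebra F K]
    [Algebra F L] [IsAlgClosed L] [FiniteDimensional F K] {r : ℕ}
    (hr : Module.finrank F K ≤ r) [FiniteDimensional F (normalClosure F K L)]
    [Normal F (normalClosure F K L)] :
    Module.finrank F (normalClosure F K L) ≤ r.factorial := by
  classical
  have hgal : IsGalois F (normalClosure F K L) := ⟨⟩
  have hft : Finite (K →ₐ[F] L) := inferInstance
  let _ : Fintype (K →ₐ[F] L) := Fintype.ofFinite _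
  rw [← IsGalois.card_aut_eq_finrank F (normalClosure F K L)]
  -- the action on the embeddings
  have hmem : ∀ (φ : K →ₐ[F] L) (x : K), φ x ∈ normalClosure F K L := fun φ x =>
    (le_iSup (fun f : K →ₐ[F] L => f.fieldRange) φ) ⟨x, rfl⟩
  let res : (K →ₐ[F] L) → (K →ₐ[F] normalClosure F K L) := fun φ =>
    φ.codRestrict (normalClosure F K L).toSubalgebra fun x => hmem φ x
  let act : (normalClosure F K L ≃ₐ[F] normalClosure F K L) →
      Equiv.Perm (K →ₐ[F] normalClosure F K L) := fun g =>
    { toFun := fun φ => (g : normalClosure F K L →ₐ[F] normalClosure F K L).comp φ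
      invFun := fun φ => (g.symm : normalClosure F K L →ₐ[F] normalClosure F K L).comp φ
      left_inv := fun φ => by ext x; simp
      right_inv := fun φ => by ext x; simp }
  have hinj : Function.Injective act := by
    intro g h hgh
    have h1 : ∀ φ : K →ₐ[F] normalClosure F K L, ∀ x, g (φ x) = h (φ x) := by
      intro φ x
      have h2 := congrArg (fun p : Equiv.Perm (K →ₐ[F] normalClosure F K L) => p φ x) hgh
      exact h2
    let E : IntermediateField F (normalClosure F K L) :=
      eqF (g : normalClosure F K L →ₐ[F] normalClosure F K L)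
        (h : normalClosure F K L →ₐ[F] normalClosure F K L)
    have hle : normalClosure F K L ≤ IntermediateField.lift E := by
      refine iSup_le fun φ => ?_
      rintro _ ⟨x, rfl⟩
      have h2 : res φ x ∈ E := h1 (res φ) x
      exact (IntermediateField.mem_lift (res φ x)).2 h2
    ext1 y
    have h3 := (IntermediateField.mem_lift y).1 (hle y.2)
    exact h3
  have hfr : Finite (K →ₐ[F] normalClosure F K L) := inferInstance
  refine (Nat.card_le_card_of_injective act hinj).trans ?_
  rw [Nat.card_perm]
  refine Nat.factorial_le ?_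
  exact (card_algHom_le_finrank F K (normalClosure F K L)).trans hr

/-- the gap is bounded by the orders of the ratios -/
theorem gap_le {k K : Type} [Field k] [Field K] [Algebra k K] {m : ℕ} {T : Fin (m + 1) → K}
    (hT : ∀ j, T j ≠ 0) (P : Place k K) :
    gap T P ≤ ∑ j, ∑ l, max (-P.ord (T l / T j)) 0 := by
  unfold gap
  refine Finset.sum_le_sum fun j _ => ?_
  obtain ⟨l, hl⟩ := exists_mu T P
  refine le_trans ?_ (Finset.single_le_sum (f := fun l => max (-P.ord (T l / T j)) 0)
    (fun _ _ => le_max_right _ _) (Finset.mem_univ l))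
  refine le_trans ?_ (le_max_left _ _)
  rw [P.ord_div (hT l) (hT j), ← hl]
  linarith

/-- the constant -/
def Cst (r s c : ℕ) : ℕ := c * (s * (s * cst r.factorial (c * ((s + 1) * tn (s - 1)))))

theorem cst_mono {g g' W : ℕ} (h : g ≤ g') : cst g W ≤ cst g' W := by
  unfold cst
  gcongr

/-- **The heights of the small elements.** -/
theorem hgt_small {k F K : Type} [Field k] [CharZero k] [IsAlgClosed k] [Field F] [Field K]
    [Algebra k F] [Algebra k K] [Algebra F K] [IsScalarTower k F K] [FiniteDimensional F K]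
    [IsFF k F] [IsFF k K] {s c N r : ℕ} (hr : Module.finrank F K ≤ r) {A : CFam k K}
    (hA : GoodF N s c A) (hN : 8 * (r * (c * ((s + 1) * tn (s - 1)))) ≤ N) (hN1 : 1 ≤ N) {z : K}
    (hz : ∀ P : Place k K, (N : ℤ) * |P.ord z| ≤ cgap A P) :
    hgt k z ≤ (Cst r s c : ℕ) * max (canDeg k F) 0 := by
  classical
  obtain ⟨hOk, U, hU⟩ := hA
  let _ : Fintype A.I := A.fin
  obtain ⟨χ, hχ⟩ : ∃ χ, χ = max (canDeg k F) 0 := ⟨_, rfl⟩
  have hχ0 : 0 ≤ χ := by rw [hχ]; exact le_max_right _ _
  obtain ⟨C0, hC0⟩ : ∃ C0, C0 = cst r.factorial (c * ((s + 1) * tn (s - 1))) := ⟨_, rfl⟩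
  -- the generators
  obtain ⟨p, u, hu⟩ : ∃ (p : ℕ) (u : Fin (p + 1) → K), Set.range u = insert 1 U := by
    have := hU.fin.fintype
    let u0 : Fin (Fintype.card U) → K := fun l => ((Fintype.equivFin U).symm l).1
    refine ⟨Fintype.card U, Fin.cons 1 u0, ?_⟩
    rw [Fin.range_cons]
    congr 1
    ext x
    constructor
    · rintro ⟨l, rfl⟩
      exact ((Fintype.equivFin U).symm l).2
    · intro hx
      exact ⟨Fintype.equivFin U ⟨x, hx⟩, by simp [u0]⟩
  have hgen : ∀ i a b, A.T i a / A.T i b ∈ IntermediateField.adjoin k (Set.range u) := by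
    intro i a b
    rw [hu]
    exact IntermediateField.adjoin.mono k _ _ (Set.subset_insert _ _) (hU.mem i a b)
  have hbd : ∀ (P : Place k K) l, (N : ℤ) * |P.ord (u l)| ≤ cgap A P := by
    intro P l
    have h1 : u l ∈ insert 1 U := by rw [← hu]; exact ⟨l, rfl⟩
    rcases h1 with h1 | h1
    · rw [h1, P.ord_one, abs_zero, mul_zero]
      exact cgap_nonneg _ _
    · exact hU.bd P _ h1
  -- the Galois closure
  have hF : CharZero F := charZero_of_injective_algebraMap (algebraMap k F).injective
  have hratio : ∀ i a b, hgt k (A.T i a / A.T i b) ≤ (C0 : ℤ) * χ := by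
    let L := AlgebraicClosure K
    have h1 : IsScalarTower F K L := inferInstance
    have h2 : IsScalarTower k K L := inferInstance
    have h3 : IsScalarTower k F L := IsScalarTower.of_algebraMap_eq fun x => by
      rw [IsScalarTower.algebraMap_apply k K L, IsScalarTower.algebraMap_apply F K L,
        IsScalarTower.algebraMap_apply k F K]
    have hLF : Algebra.IsAlgebraic F L := by
      have : Algebra.IsAlgebraic F K := inferInstance
      have : Algebra.IsAlgebraic K L := inferInstance
      exact Algebra.IsAlgebraic.trans F K L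
    have hLn : Normal F L := by
      have : IsAlgClosure F L := ⟨inferInstance, hLF⟩
      exact IsAlgClosure.normal F L
    let M := normalClosure F K L
    have hMn : Normal F M := inferInstance
    have hMf : FiniteDimensional F M := inferInstance
    have hMg : IsGalois F M := ⟨⟩
    have h4 : IsScalarTower k F M := inferInstance
    have h5 : IsScalarTower F K M := inferInstance
    have h6 : IsScalarTower k K M := IsScalarTower.of_algebraMap_eq fun x => by
      rw [IsScalarTower.algebraMap_apply k F M, IsScalarTower.algebraMap_apply F K M,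
        IsScalarTower.algebraMap_apply k F K]
    have h7 : IsFF k M := isFF_of_finite (F := F)
    intro i a b
    have h8 := hgt_galois (M := M) (F := F) hr A hOk.card hOk.sz
      (fun P => hOk.dich P fun h => h) u hgen hbd hN i a b
    refine h8.trans ?_
    rw [← hχ]
    refine mul_le_mul_of_nonneg_right ?_ hχ0
    rw [hC0]
    exact_mod_cast cst_mono (finrank_closure hr)
  -- the sum
  obtain ⟨S1, hS1⟩ := exists_supp (k := k)
    (Finset.univ : Finset (Σ i, Fin (A.m i + 1) × Fin (A.m i + 1)))
    (fun x => A.T x.1 x.2.2 / A.T x.1 x.2.1)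
  obtain ⟨S2, hS2⟩ := exists_supp (k := k) (Finset.univ : Finset (Fin 1)) ![z]
  have hSz : ∀ P : Place k K, P.ord z ≠ 0 → P ∈ S1 ∪ S2 := fun P hP =>
    Finset.mem_union_right _ (hS2 0 (Finset.mem_univ _) P hP)
  have hSr : ∀ i j l, ∀ P : Place k K, P.ord (A.T i l / A.T i j) ≠ 0 → P ∈ S1 ∪ S2 :=
    fun i j l P hP => Finset.mem_union_left _ (hS1 ⟨i, j, l⟩ (Finset.mem_univ _) P hP)
  have h1 : ∀ P ∈ S1 ∪ S2, max (-P.ord z) 0 ≤
      ∑ i : A.I, ∑ j, ∑ l, max (-P.ord (A.T i l / A.T i j)) 0 := by
    intro P _
    have h2 : |P.ord z| ≤ cgap A P := by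
      have h3 := hz P
      have h4 := abs_nonneg (P.ord z)
      have h5 : (1 : ℤ) ≤ N := by exact_mod_cast hN1
      nlinarith
    have h3 : cgap A P ≤ ∑ i : A.I, ∑ j, ∑ l, max (-P.ord (A.T i l / A.T i j)) 0 := by
      unfold cgap
      exact Finset.sum_le_sum fun i _ => gap_le (A.ne i) P
    refine (max_le (neg_le_abs _) (abs_nonneg _)).trans (h2.trans h3)
  rw [hgt_finset z _ hSz]
  refine (Finset.sum_le_sum h1).trans ?_
  rw [Finset.sum_comm]
  have h2 : ∀ i : A.I, ∑ P ∈ S1 ∪ S2, ∑ j, ∑ l, max (-P.ord (A.T i l / A.T i j)) 0 ≤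
      (s * (s * C0) : ℕ) * χ := by
    intro i
    rw [Finset.sum_comm]
    have h3 : ∀ j, ∑ P ∈ S1 ∪ S2, ∑ l, max (-P.ord (A.T i l / A.T i j)) 0 ≤
        (s * C0 : ℕ) * χ := by
      intro j
      rw [Finset.sum_comm]
      have h4 : ∀ l, ∑ P ∈ S1 ∪ S2, max (-P.ord (A.T i l / A.T i j)) 0 ≤ (C0 : ℤ) * χ := by
        intro l
        rw [← hgt_finset _ _ (hSr i j l)]
        exact hratio i l j
      refine (Finset.sum_le_sum fun l _ => h4 l).trans ?_
      rw [Finset.sum_const, Finset.card_univ, Fintype.card_fin, nsmul_eq_mul]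
      have h5 : ((A.m i + 1 : ℕ) : ℤ) ≤ s := by exact_mod_cast hOk.sz i
      have h6 := mul_le_mul_of_nonneg_right h5 (mul_nonneg (Nat.cast_nonneg C0) hχ0)
      refine h6.trans (le_of_eq ?_)
      push_cast
      ring
    refine (Finset.sum_le_sum fun j _ => h3 j).trans ?_
    rw [Finset.sum_const, Finset.card_univ, Fintype.card_fin, nsmul_eq_mul]
    have h5 : ((A.m i + 1 : ℕ) : ℤ) ≤ s := by exact_mod_cast hOk.sz i
    have h6 := mul_le_mul_of_nonneg_right h5 (mul_nonneg (Nat.cast_nonneg (s * C0)) hχ0)
    refine h6.trans (le_of_eq ?_)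
    push_cast
    ring
  refine (Finset.sum_le_sum fun i _ => h2 i).trans ?_
  rw [Finset.sum_const, Finset.card_univ, nsmul_eq_mul, ← hχ]
  have h5 : ((Fintype.card A.I : ℕ) : ℤ) ≤ c := by exact_mod_cast hOk.card
  have h6 := mul_le_mul_of_nonneg_right h5 (mul_nonneg (Nat.cast_nonneg (s * (s * C0))) hχ0)
  refine h6.trans (le_of_eq ?_)
  unfold Cst
  rw [← hC0]
  push_cast
  ring

end Pool.Agent.X333.DC
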