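import Pool.Agent.X333.DC.Key
import Pool.Agent.X333.DN.Abu
import Pool.Agent.Y221.PB.Neg

/-!
Varieties dominated by varieties given by nested sums of high powers of monomials: the degrees of
the curves and of the coverings of curves.
-/

set_option autoImplicit false
set_option maxHeartbeats 400000
set_option linter.overlappingInstances false
set_option linter.unusedSectionVars false

open FF IntermediateField Pool.Agent.W603.LV

namespace Pool.Agent.X333.DC

open Pool.Agent.W602.GT Pool.Agent.TH466.QG Pool.Agent.Y221.BD Pool.Agent.Y221.AH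
  Pool.Agent.Y221.PB Pool.Agent.TH710.ND Pool.Agent.X333.DN
open Pool.Agent.W603.PV (pht pht_le)
open Pool.Agent.Y216 (OnVar CurveBound pointed_of_bound)
open Pool.Agent.W602.RG (PseudoGeomHyp)
open Pool.Agent.W619.PQ (IsUniruled)

variable {k : Type} [Field k] [IsAlgClosed k] [CharZero k] {n : ℕ} {ι : Type}

/-- the heights of the specialisations of the generic point, over the coverings of degree at most
`R` of curves, are bounded linearly in the genus of the curve, outside a closed subset -/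
def KeyB (k : Type) [Field k] {K : Type} [Field K] [Algebra k K] (R : ℕ) (y : Fin (n + 1) → K) :
    Prop :=
  ∃ (Θ : Set K) (A : ℕ), Θ.Finite ∧ ∀ (K0 K'' : Type) [Field K0] [Field K''] [Algebra k K0]
    [Algebra k K''] [Algebra K0 K''] [IsScalarTower k K0 K''] [FiniteDimensional K0 K'']
    [IsFF k K0] [IsFF k K''], Module.finrank K0 K'' ≤ R → ∀ S : Sp k K K'',
    (∀ ϑ ∈ Θ, ∃ t, S.T ϑ t) → ∀ y' : Fin (n + 1) → K'', (∀ i, S.T (y i) (y' i)) →
    pht k y' ≤ A * max (canDeg k K0) 0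

/-- **The key bound** for nested sums of monomials. -/
theorem key_mono [Finite ι] {R s N h : ℕ} (hN2 : 2 ≤ N)
    (hN : 8 * (R * ((h + 1) * (2 * s * (2 * s)) * ((2 * s + 1) * tn (2 * s - 1)))) ≤ N)
    {F : ι → MvPolynomial (Fin (n + 1)) k}
    (hF : ∀ i, IsForm (F i) ∧ NestedIn IsMono s N h (F i)) {K : Type} [Field K] [Algebra k K]
    {y : Fin (n + 1) → K} (hyF : ∀ e, val y (F e) = 0) {i0 : Fin (n + 1)} (hi0 : y i0 ≠ 0)
    (hW : ¬ WtMv F y) : KeyB k R y := by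
  obtain ⟨A, hA⟩ := nest_dich hN2 hN F hF
  obtain ⟨Θ, hΘ, hopen⟩ := open_spA hyF hi0 hW
  refine ⟨Θ, A, hΘ, ?_⟩
  intro K0 K'' _ _ _ _ _ _ _ _ _ hrk S hS y' hy'
  obtain ⟨h1, h2, h3⟩ := hopen K'' S hS y' hy'
  exact hA K0 K'' hrk y' ⟨i0, h1⟩ h2 h3

/-- **Degree bounds for dominated varieties.** -/
theorem cover_of_key {ρ r : ℕ} {K : Type} [Field K] [Algebra k K] {y : Fin (n + 1) → K}
    (hygen : coords k y = ⊤) {i0 : Fin (n + 1)} (hi0 : y i0 ≠ 0) (hkey0 : KeyB k (ρ * r) y)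
    {K' L : Type} [Field K'] [Field L] [Algebra k K'] [Algebra k L] [Algebra K K']
    [Algebra L K'] [IsScalarTower k K K'] [IsScalarTower k L K'] [Algebra.IsAlgebraic K K']
    [FiniteDimensional L K'] (hr : Module.finrank L K' ≤ r) {M : ℕ} {x : Fin (M + 1) → L}
    (hx : x ≠ 0) (hgen : coords k x = ⊤) : CoverBound k ρ x := by
  classical
  obtain ⟨i1, hi1'⟩ := Function.ne_iff.1 hx
  have hi1 : x i1 ≠ 0 := hi1'
  obtain ⟨Θ1, A, hΘ1, hkey⟩ := hkey0
  obtain ⟨Θ2, C, hΘ2, halgs⟩ := alg_hgt (K' := K') hygen hi0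
    (fun m => algebraMap L K' (x m / x i1))
  obtain ⟨H, hH, hspread⟩ := spread (K' := K') (adjoin_norm hgen hi1)
    (Θ := algebraMap K K' '' (Θ1 ∪ (Θ2 ∪ Set.range y)))
    ((hΘ1.union (hΘ2.union (Set.finite_range y))).image _)
  refine ⟨MvPolynomial.X i1 * hz i1 H, ?_, ?_, (M + 1) * (C * A), ?_⟩
  · obtain ⟨d, hd⟩ := hz_form i1 H
    exact ⟨1 + d, (MvPolynomial.isHomogeneous_X k i1).mul hd⟩
  · change MvPolynomial.aeval x _ ≠ 0
    rw [map_mul, MvPolynomial.aeval_X]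
    refine mul_ne_zero hi1 ?_
    change val x _ ≠ 0
    rw [val_hz H hi1]
    exact mul_ne_zero (pow_ne_zero _ hi1) hH
  intro K0 E _ _ _ _ _ _ _ _ _ hρ z hz hzR
  change MvPolynomial.aeval z _ ≠ 0 at hzR
  rw [map_mul, MvPolynomial.aeval_X] at hzR
  have hz1 : z i1 ≠ 0 := left_ne_zero_of_mul hzR
  have hzH : MvPolynomial.aeval (fun i => z i / z i1) H ≠ 0 := by
    have h1 : val z (Pool.Agent.TH466.QG.hz i1 H) ≠ 0 := right_ne_zero_of_mul hzR
    rw [val_hz H hz1] at h1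
    exact right_ne_zero_of_mul h1
  have hsp : ∀ G : MvPolynomial (Fin (M + 1)) k,
      MvPolynomial.aeval (fun i => x i / x i1) G = 0 →
      MvPolynomial.aeval (fun i => z i / z i1) G = 0 := by
    intro G hG
    have h1 : val x (Pool.Agent.TH466.QG.hz i1 G) = 0 := by
      rw [val_hz G hi1, hG, mul_zero]
    have h2 := hz.2 _ (hz_form i1 G) h1
    rw [val_hz G hz1] at h2
    exact (mul_eq_zero.1 h2).resolve_left (pow_ne_zero _ hz1)
  obtain ⟨K'', i1', i2', i3', i4', i5', hrk, S, hSx, hSΘ⟩ := hspread E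
    (fun i => z i / z i1) hsp hzH
  have hSy : ∀ i, ∃ t, S.T (algebraMap K K' (y i)) t := fun i =>
    hSΘ _ ⟨y i, Or.inr (Or.inr ⟨i, rfl⟩), rfl⟩
  choose y' hy' using hSy
  have hff : IsFF k K'' := Pool.Agent.W603.PV.isFF_of_finite (F := E)
  let iA : Algebra K0 K'' := ((algebraMap E K'').comp (algebraMap K0 E)).toAlgebra
  have iT1 : IsScalarTower K0 E K'' := IsScalarTower.of_algebraMap_eq fun _ => rfl
  have iT2 : IsScalarTower k K0 K'' := IsScalarTower.of_algebraMap_eq fun c => by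
    change _ = algebraMap E K'' (algebraMap K0 E (algebraMap k K0 c))
    rw [← IsScalarTower.algebraMap_apply k K0 E, ← IsScalarTower.algebraMap_apply k E K'']
  have iF : FiniteDimensional K0 K'' := FiniteDimensional.trans K0 E K''
  have hfr : Module.finrank K0 K'' ≤ ρ * r := by
    rw [← Module.finrank_mul_finrank K0 E K'']
    exact Nat.mul_le_mul hρ (hrk.trans hr)
  have h1 := hkey K0 K'' hfr (S.res (K0 := K)) (fun ϑ hϑ => hSΘ _ ⟨ϑ, Or.inl hϑ, rfl⟩) y' hy'
  have h2 : ∀ m, hgt k (algebraMap E K'' (z m / z i1)) ≤ C * pht k y' := fun m =>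
    halgs K'' S (fun ϑ hϑ => hSΘ _ ⟨ϑ, Or.inr (Or.inl hϑ), rfl⟩) y' hy' _ hSx m
  have hz0 : ∃ j, z j ≠ 0 := ⟨i1, hz1⟩
  have hz1' : algebraMap E K'' (z i1) ≠ 0 := by rwa [Ne, map_eq_zero]
  have h3 : pht k (fun j => algebraMap E K'' (z j)) ≤ (M + 1) * (C * pht k y') := by
    refine (pht_le (fun j => algebraMap E K'' (z j)) hz1').trans ?_
    have h4 : ∀ j, hgt k (algebraMap E K'' (z j) / algebraMap E K'' (z i1)) ≤ C * pht k y' := by
      intro j
      rw [← map_div₀]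
      exact h2 j
    refine (Finset.sum_le_sum fun j _ => h4 j).trans (le_of_eq ?_)
    rw [Finset.sum_const, nsmul_eq_mul, Finset.card_univ, Fintype.card_fin]
    push_cast
    ring
  rw [pht_algebraMap hz0] at h3
  have h5 : 0 ≤ pht k z := pht_nonneg hz0
  have h6 : (1 : ℤ) ≤ Module.finrank E K'' := by exact_mod_cast Module.finrank_pos
  have h7 : pht k z ≤ Module.finrank E K'' * pht k z := by nlinarith
  refine (h7.trans h3).trans ?_
  have h8 : (C : ℤ) * pht k y' ≤ C * (A * max (canDeg k K0) 0) :=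
    mul_le_mul_of_nonneg_left h1 (Nat.cast_nonneg _)
  have h9 := mul_le_mul_of_nonneg_left h8 (by positivity : (0 : ℤ) ≤ (M : ℤ) + 1)
  refine h9.trans (le_of_eq ?_)
  push_cast
  ring


/-- the bound for the exponents -/
theorem bound_key {n s h r ρ N w : ℕ} (hr : 1 ≤ r) (hρ : 1 ≤ ρ) (hw : 1 ≤ w) (hwn : w ≤ n)
    (hN : 8 * (ρ * r * ((n + 1) * ((h + 1) * (2 * s + 1) ^ 5))) ≤ N) :
    8 * (ρ * r * ((h + 1) * (2 * s * (2 * s)) * ((2 * s + 1) * tn (2 * s - 1)))) ≤ N ∧ 2 ≤ N ∧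
      8 * (r * ((n + 1) * ((h + 1) * (2 * s + 1) ^ 5))) ≤ N := by
  have h1 : 1 ≤ ρ * r := Nat.mul_pos hρ hr
  obtain ⟨h2, h3⟩ := bound_le (w := 1) h1 (hw.trans hwn) hN
  rw [one_mul] at h2
  refine ⟨h2, h3, le_trans ?_ hN⟩
  exact Nat.mul_le_mul_left 8 (Nat.mul_le_mul_right _ (Nat.le_mul_of_pos_left r hρ))

section dom

variable [Finite ι] {F : ι → MvPolynomial (Fin (n + 1)) k} {s N h r ρ w : ℕ}

theorem no_wt (hF : ∀ i, IsForm (F i) ∧ NestedIn IsMono s N h (F i)) {K : Type} [Field K]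
    [Algebra k K] {y : Fin (n + 1) → K} (hy : SubVar F K w y)
    (h0 : ¬ RatCurve F y ∨ IsComponent F y ∧ ¬ Ruled k K) : ¬ WtMv F y := by
  intro hW
  rcases h0 with h | ⟨h1, h2⟩
  · exact h (hW.curve fun e => (hF e).1)
  · exact h2 (hW.ruled hy h1)

/-- **Dominated varieties.** -/
theorem dom_all' (hF : ∀ i, IsForm (F i) ∧ NestedIn IsMono s N h (F i)) (hw : 1 ≤ w)
    (hρ : 1 ≤ ρ) (hN : 8 * (ρ * r * ((n + 1) * ((h + 1) * (2 * s + 1) ^ 5))) ≤ N)
    {K : Type} [Field K] [Algebra k K]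
    {y : Fin (n + 1) → K} (hy : SubVar F K w y) (h0 : ¬ WtMv F y)
    {K' L : Type} [Field K'] [Field L] [Algebra k K'] [Algebra k L]
    [Algebra K K'] [Algebra L K'] [IsScalarTower k K K'] [IsScalarTower k L K']
    [FiniteDimensional K K'] [FiniteDimensional L K'] (hr : Module.finrank L K' ≤ r)
    {M : ℕ} {x : Fin (M + 1) → L} (hx : x ≠ 0) (hgen : coords k x = ⊤) :
    GeneralType k L w ∧ CoverBound k ρ x ∧ PseudoGeomHyp k x := by
  have hgen' : Algebra.IsAlgebraic (coords k y) K := by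
    rw [hy.gen]
    infer_instance
  have hwn := dim_le hy.ne hgen' hy.dim
  have hr1 : 1 ≤ r := one_le_rank hr
  obtain ⟨hN1, hN2, hN3⟩ := bound_key hr1 hρ hw hwn hN
  obtain ⟨i0, hi0'⟩ := Function.ne_iff.1 hy.ne
  have hi0 : y i0 ≠ 0 := hi0'
  have h1 : GeneralType k L w := by
    by_cases hC : HasNest k s h N w K
    · exact general_corr' (K := K) (K' := K') hw hwn hr1 hC hr hN3
    · exfalso
      obtain ⟨b, i, i', hi, hi', hb, hwc⟩ :=
        sparse_n' (fun e => (hF e).2) hN2 hgen' hy.dim hy.mem hC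
      exact h0 ⟨b, i, i', hi, hi', hb, hwc⟩
  have h2 : CoverBound k ρ x :=
    cover_of_key (K' := K') hy.gen hi0 (key_mono hN2 hN1 hF hy.mem hi0 h0) hr hx hgen
  exact ⟨h1, h2, pointed_of_bound (h2.curve hρ)⟩

/-- **The equivalences.** -/
theorem dom_tfae' (hF : ∀ i, IsForm (F i) ∧ NestedIn IsMono s N h (F i)) (hw : 1 ≤ w)
    (hρ : 1 ≤ ρ) (hN : 8 * (ρ * r * ((n + 1) * ((h + 1) * (2 * s + 1) ^ 5))) ≤ N)
    {K : Type} [Field K] [Algebra k K]
    {y : Fin (n + 1) → K} (hy : SubVar F K w y) (hcomp : IsComponent F y)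
    {L : Type} [Field L] [Algebra k L] [Algebra L K] [IsScalarTower k L K]
    [FiniteDimensional L K] (hr : Module.finrank L K ≤ r) {M : ℕ} {x : Fin (M + 1) → L}
    (hx : x ≠ 0) (hgen : coords k x = ⊤) :
    [GeneralType k L w, PseudoGeomHyp k x, PseudoBounded k x, CurveBound k x, CoverBound k ρ x,
      ¬ IsUniruled k L w, ¬ Ruled k K].TFAE := by
  have hgen' : Algebra.IsAlgebraic (coords k y) K := by
    rw [hy.gen]
    infer_instance
  have hwn := dim_le hy.ne hgen' hy.dim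
  obtain ⟨hN1, hN2, hN3⟩ := bound_key (one_le_rank hr) hρ hw hwn hN
  obtain ⟨h1, -⟩ := abu_comp' (Or.inr hF) hw hN3 hy hcomp hr
  have hall : ¬ Ruled k K → GeneralType k L w ∧ CoverBound k ρ x ∧ PseudoGeomHyp k x := fun h =>
    dom_all' (K' := K) hF hw hρ hN hy (no_wt hF hy (Or.inr ⟨hcomp, h⟩)) hr hx hgen
  tfae_have 1 ↔ 6 := h1.out 2 3
  tfae_have 1 ↔ 7 := h1.out 2 4
  tfae_have 7 → 5 := fun h => (hall h).2.1
  tfae_have 5 → 4 := fun h => h.curve hρ
  tfae_have 4 → 2 := fun h => pointed_of_bound h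
  tfae_have 4 → 3 := fun h => bounded_of_curve h
  tfae_have 2 → 7 := fun h hR => not_geom (fun G hG hGx => rat_of_ruled hR hx hgen hG hGx) h
  tfae_have 3 → 7 := fun h hR => not_bdd (fun G hG hGx => rat_of_ruled hR hx hgen hG hGx) h
  tfae_finish

end dom

end Pool.Agent.X333.DC
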