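import Pool.Agent.TH466.QG.Norm
import Pool.Agent.W603.LV.Root
import Pool.Agent.W603.PV.Ext

/-!
Forms on a Galois covering of a curve which are regular on the average: the heights of their ratios
are bounded linearly by the canonical degree of the curve.
-/

set_option autoImplicit false
set_option linter.overlappingInstances false
set_option linter.unusedSectionVars false

open FF IntermediateField Pool.Agent.W603.LV Pool.Agent.TH466.QG

namespace Pool.Agent.X333.DC

open Pool.Agent.W602.GT (IsPluri RegAt DerReg)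
open Pool.Agent.W603.PV (hgt_algebraMap)

variable {k M : Type} [Field k] [Field M] [Algebra k M] {Γ : Subgroup (M ≃ₐ[k] M)}

/-- the coefficients, as elements of the field of invariants -/
noncomputable def cf [Fintype Γ] (x y : M) (l : ℕ) : fixedField Γ :=
  ⟨(PP (Γ := Γ) x y).coeff l, fun g => PP_inv x y g l⟩

theorem cf_mul [Fintype Γ] (a x y : M) (l : ℕ) :
    cf (Γ := Γ) (a * x) (a * y) l = cf (Γ := Γ) a 0 0 * cf (Γ := Γ) x y l := by
  apply Subtype.ext
  change (PP (Γ := Γ) (a * x) (a * y)).coeff l =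
    (PP (Γ := Γ) a 0).coeff 0 * (PP (Γ := Γ) x y).coeff l
  rw [PP_mul, PP_zero, Polynomial.coeff_C_mul]

variable [CharZero k] [IsAlgClosed k] [Finite Γ] [IsFF k M] [IsFF k (fixedField Γ)]

/-- the local estimate for the coefficients -/
theorem ge_cf [Fintype Γ] {N : ℕ} {Λ : Type} (ω : Λ → (Fin 1 → Derivation k M M) → M)
    (hω : ∀ c, IsPluri N (ω c)) (c0 c1 : Λ) (B : Place k M → ℤ)
    (hB : ∀ w : Place k M, 0 ≤ ∑ᶠ g : Γ, B (w.comp (g : M ≃ₐ[k] M)))
    (hloc : ∀ v : Place k (fixedField Γ), ∃ (w : Place k M) (e : ℕ), Over w v e ∧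
      ∀ (g : Γ) (c : Λ) (D : Fin 1 → Derivation k (fixedField Γ) (fixedField Γ))
        (D' : Fin 1 → Derivation k M M), (∀ i, Ext (D i) (D' i)) → (∀ i, DerReg v (D i)) →
        Ge (w.comp (g : M ≃ₐ[k] M)) (B (w.comp (g : M ≃ₐ[k] M))) (ω c D'))
    {D : Derivation k (fixedField Γ) (fixedField Γ)} (hD : D ≠ 0) {D' : Derivation k M M}
    (hDD : Ext D D') (v : Place k (fixedField Γ)) (l : ℕ) :
    Ge v ((N * Fintype.card Γ : ℕ) * vo v D) (cf (Γ := Γ) (ω c0 fun _ => D') (ω c1 fun _ => D') l) := by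
  classical
  obtain ⟨w, e, hwv, hw⟩ := hloc v
  obtain ⟨s, hs⟩ : ∃ s : fixedField Γ, s = unif v ^ (-vo v D) := ⟨_, rfl⟩
  have hu0 : unif v ≠ 0 := by
    intro h0
    have := ord_unif v
    rw [h0, v.ord_zero] at this
    omega
  have hs0 : s ≠ 0 := by rw [hs]; exact zpow_ne_zero _ hu0
  have hsv : v.ord s = -vo v D := by rw [hs, v.ord_zpow, ord_unif, mul_one]
  have hsM : (s : M) ≠ 0 := fun h => hs0 (Subtype.ext h)
  have hreg : DerReg v (s • D) := by
    intro f hf
    have hu : D (unif v) ≠ 0 := der_pi_ne_zero hD _ (ord_unif _)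
    have h0 : Ge v 0 (((D (unif v))⁻¹ • D) f) := by
      refine Pool.Agent.W603.LV.der_reg v (ord_unif v) _ ?_ hf
      rw [Derivation.coe_smul, Pi.smul_apply, smul_eq_mul, inv_mul_cancel₀ hu]
    have h1 : (s • D) f = (s * D (unif v)) * (((D (unif v))⁻¹ • D) f) := by
      rw [Derivation.coe_smul, Pi.smul_apply, smul_eq_mul, Derivation.coe_smul, Pi.smul_apply,
        smul_eq_mul]
      field_simp
    rw [h1]
    have h2 : Ge v 0 (s * D (unif v)) := by
      right
      rw [v.ord_mul hs0 hu, hsv]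
      unfold vo
      omega
    have h3 := h2.mul h0
    rw [add_zero] at h3
    exact h3
  have hext : Ext (s • D) ((s : M) • D') := by
    intro f
    change (s : M) * D' (f : M) = ((s * D f : fixedField Γ) : M)
    rw [hDD f]
    rfl
  have hval : ∀ c, ω c (fun _ => (s : M) • D') = (s : M) ^ N * ω c fun _ => D' := by
    intro c
    have h1 := hω c (Matrix.of fun _ _ => (s : M)) fun _ => D'
    rw [Matrix.det_fin_one, Matrix.of_apply] at h1
    rw [← h1]
    congr 1
    funext i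
    simp
  have h1 := ge_coeff w Finset.univ
    (fun g : Γ => (g : M ≃ₐ[k] M) (ω c0 fun _ => (s : M) • D'))
    (fun g : Γ => (g : M ≃ₐ[k] M) (ω c1 fun _ => (s : M) • D'))
    (fun g : Γ => B (w.comp (g : M ≃ₐ[k] M)))
    (fun g _ => (ge_comp w g _ _).1 (hw g c0 (fun _ => s • D) _ (fun _ => hext) fun _ => hreg))
    (fun g _ => (ge_comp w g _ _).1 (hw g c1 (fun _ => s • D) _ (fun _ => hext) fun _ => hreg)) l
  have h2 := hB w
  rw [finsum_eq_sum_of_fintype] at h2
  have h3 : Ge w 0 ((cf (Γ := Γ) (ω c0 fun _ => (s : M) • D') (ω c1 fun _ => (s : M) • D') l :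
      fixedField Γ) : M) := h1.mono h2
  rw [hval, hval, cf_mul] at h3
  have h4 : cf (Γ := Γ) ((s : M) ^ N) 0 0 = s ^ (N * Fintype.card Γ) := by
    apply Subtype.ext
    change (PP (Γ := Γ) ((s : M) ^ N) 0).coeff 0 = (s : M) ^ (N * Fintype.card Γ)
    rw [PP_zero]
    have h5 : ∀ g : Γ, (g : M ≃ₐ[k] M) ((s : M) ^ N) = (s : M) ^ N := by
      intro g
      rw [map_pow]
      congr 1
      exact s.2 g
    rw [Finset.prod_congr rfl fun g _ => h5 g, Finset.prod_const, Finset.card_univ, ← pow_mul]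
  rw [h4] at h3
  have h5 : v.Reg (s ^ (N * Fintype.card Γ) *
      cf (Γ := Γ) (ω c0 fun _ => D') (ω c1 fun _ => D') l) := hwv.reg.1 h3
  by_cases h6 : cf (Γ := Γ) (ω c0 fun _ => D') (ω c1 fun _ => D') l = 0
  · exact Or.inl h6
  · right
    have h7 := h5.resolve_left (mul_ne_zero (pow_ne_zero _ hs0) h6)
    rw [v.ord_mul (pow_ne_zero _ hs0) h6, v.ord_pow, hsv] at h7
    linarith

/-- **The heights of the ratios** over the field of invariants. -/
theorem hgt_cf [Fintype Γ] {N : ℕ} {Λ : Type} (ω : Λ → (Fin 1 → Derivation k M M) → M)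
    (hω : ∀ c, IsPluri N (ω c)) (c0 c1 : Λ) (B : Place k M → ℤ)
    (hB : ∀ w : Place k M, 0 ≤ ∑ᶠ g : Γ, B (w.comp (g : M ≃ₐ[k] M)))
    (hloc : ∀ v : Place k (fixedField Γ), ∃ (w : Place k M) (e : ℕ), Over w v e ∧
      ∀ (g : Γ) (c : Λ) (D : Fin 1 → Derivation k (fixedField Γ) (fixedField Γ))
        (D' : Fin 1 → Derivation k M M), (∀ i, Ext (D i) (D' i)) → (∀ i, DerReg v (D i)) →
        Ge (w.comp (g : M ≃ₐ[k] M)) (B (w.comp (g : M ≃ₐ[k] M))) (ω c D'))
    (hne : ∀ D' : Fin 1 → Derivation k M M, LinearIndependent M D' → ω c0 D' ≠ 0) {u : M}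
    (hcc : ∀ D', ω c1 D' = ω c0 D' * u) (hn : Algebra.trdeg k M = 1) (l : ℕ) :
    hgt k (cf (Γ := Γ) 1 u l) ≤ (N * Fintype.card Γ : ℕ) * canDeg k (fixedField Γ) := by
  classical
  obtain ⟨D, hD⟩ := exists_der (k := k) (K := fixedField Γ)
  obtain ⟨D', hDD, -, -⟩ := exists_ext (Γ := Γ) hn D
  have hD' : D' ≠ 0 := by
    rintro rfl
    apply hD
    ext f
    have := hDD f
    rw [Derivation.coe_zero, Pi.zero_apply] at this
    exact this.symm
  obtain ⟨a, ha⟩ : ∃ a, a = ω c0 fun _ => D' := ⟨_, rfl⟩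
  have ha0 : a ≠ 0 := by
    rw [ha]
    refine hne _ ?_
    rw [Fintype.linearIndependent_iff]
    intro x hx i
    rw [Fin.sum_univ_one] at hx
    have hi : i = 0 := Subsingleton.elim _ _
    rw [hi]
    exact (smul_eq_zero.1 hx).resolve_right hD'
  obtain ⟨d, hd⟩ : ∃ d, d = cf (Γ := Γ) a 0 0 := ⟨_, rfl⟩
  have hd0 : d ≠ 0 := by
    intro h0
    have h1 : (PP (Γ := Γ) a 0).coeff 0 = 0 := by
      have := congrArg Subtype.val h0
      rw [hd] at this
      exact this
    rw [PP_zero, Finset.prod_eq_zero_iff] at h1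
    obtain ⟨g, -, hg⟩ := h1
    rw [map_eq_zero_iff _ (g : M ≃ₐ[k] M).injective] at hg
    exact ha0 hg
  have hge : ∀ v l, Ge v ((N * Fintype.card Γ : ℕ) * vo v D) (d * cf (Γ := Γ) 1 u l) := by
    intro v l
    have h1 := ge_cf ω hω c0 c1 B hB hloc hD hDD v l
    rw [hcc, ← ha] at h1
    rw [hd, ← cf_mul, mul_one]
    exact h1
  have hge0 : ∀ v, Ge v ((N * Fintype.card Γ : ℕ) * vo v D) d := by
    intro v
    have h1 := hge v 0
    have h2 : cf (Γ := Γ) 1 u 0 = 1 := by
      apply Subtype.ext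
      change (PP (Γ := Γ) 1 u).coeff 0 = 1
      rw [PP_zero]
      simp
    rwa [h2, mul_one] at h1
  obtain ⟨T0, hT0⟩ := exists_supp (k := k) (Finset.univ : Finset (Fin 2))
    ![d, cf (Γ := Γ) 1 u l]
  obtain ⟨T, hT⟩ : ∃ T : Finset (Place k (fixedField Γ)), T = T0 ∪ (vo_finite hD).toFinset :=
    ⟨_, rfl⟩
  have h1 : ∀ P : Place k (fixedField Γ), P.ord d ≠ 0 → P ∈ T := fun P hP => by
    rw [hT]
    exact Finset.mem_union_left _ (hT0 0 (Finset.mem_univ _) P hP)
  have h2 : ∀ P : Place k (fixedField Γ), P.ord (cf (Γ := Γ) 1 u l) ≠ 0 → P ∈ T := fun P hP => by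
    rw [hT]
    exact Finset.mem_union_left _ (hT0 1 (Finset.mem_univ _) P hP)
  have h3 : ∀ P : Place k (fixedField Γ), vo P D ≠ 0 → P ∈ T := fun P hP => by
    rw [hT]
    exact Finset.mem_union_right _ (by simpa using hP)
  have hcan : canDeg k (fixedField Γ) = -∑ P ∈ T, vo P D := by
    rw [canDeg_finset hD T h3, neg_neg]
  rw [hgt_finset _ T h2, hcan]
  have h4 := sum_ord_finset d T h1
  have h5 : ∀ P ∈ T, max (-P.ord (cf (Γ := Γ) 1 u l)) 0 ≤
      P.ord d - (N * Fintype.card Γ : ℕ) * vo P D := by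
    intro P _
    refine max_le ?_ ?_
    · by_cases h6 : cf (Γ := Γ) 1 u l = 0
      · rw [h6, P.ord_zero]
        have := (hge0 P).resolve_left hd0
        linarith
      · have := (hge P l).resolve_left (mul_ne_zero hd0 h6)
        rw [P.ord_mul hd0 h6] at this
        linarith
    · have := (hge0 P).resolve_left hd0
      linarith
  refine (Finset.sum_le_sum h5).trans (le_of_eq ?_)
  rw [Finset.sum_sub_distrib, h4, ← Finset.mul_sum]
  ring

/-- **The heights of the ratios.** -/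
theorem hgt_forms [Fintype Γ] {N : ℕ} {Λ : Type} (ω : Λ → (Fin 1 → Derivation k M M) → M)
    (hω : ∀ c, IsPluri N (ω c)) (c0 c1 : Λ) (B : Place k M → ℤ)
    (hB : ∀ w : Place k M, 0 ≤ ∑ᶠ g : Γ, B (w.comp (g : M ≃ₐ[k] M)))
    (hloc : ∀ v : Place k (fixedField Γ), ∃ (w : Place k M) (e : ℕ), Over w v e ∧
      ∀ (g : Γ) (c : Λ) (D : Fin 1 → Derivation k (fixedField Γ) (fixedField Γ))
        (D' : Fin 1 → Derivation k M M), (∀ i, Ext (D i) (D' i)) → (∀ i, DerReg v (D i)) →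
        Ge (w.comp (g : M ≃ₐ[k] M)) (B (w.comp (g : M ≃ₐ[k] M))) (ω c D'))
    (hne : ∀ D' : Fin 1 → Derivation k M M, LinearIndependent M D' → ω c0 D' ≠ 0) {u : M}
    (hcc : ∀ D', ω c1 D' = ω c0 D' * u) (hu : u ≠ 0) (hn : Algebra.trdeg k M = 1) :
    hgt k u ≤ ((Fintype.card Γ + 1) * (Module.finrank (fixedField Γ) M *
      (N * Fintype.card Γ)) : ℕ) * max (canDeg k (fixedField Γ)) 0 := by
  classical
  have hfd : FiniteDimensional (fixedField Γ) M := Pool.Agent.W619.PQ.fixed_finite Γ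
  obtain ⟨χ, hχ⟩ : ∃ χ, χ = max (canDeg k (fixedField Γ)) 0 := ⟨_, rfl⟩
  have hχ1 : canDeg k (fixedField Γ) ≤ χ := by rw [hχ]; exact le_max_left _ _
  rw [← hχ]
  have h1 : ∀ l, hgt k ((PP (Γ := Γ) 1 u).coeff l) ≤
      (Module.finrank (fixedField Γ) M * (N * Fintype.card Γ) : ℕ) * χ := by
    intro l
    have h2 := hgt_cf ω hω c0 c1 B hB hloc hne hcc hn l
    have h3 : hgt k ((PP (Γ := Γ) 1 u).coeff l) = Module.finrank (fixedField Γ) M *
        hgt k (cf (Γ := Γ) 1 u l) := hgt_algebraMap (L := M) (cf (Γ := Γ) 1 u l)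
    rw [h3]
    have h4 : ((N * Fintype.card Γ : ℕ) : ℤ) * canDeg k (fixedField Γ) ≤
        (N * Fintype.card Γ : ℕ) * χ := mul_le_mul_of_nonneg_left hχ1 (Nat.cast_nonneg _)
    have h5 := mul_le_mul_of_nonneg_left (h2.trans h4)
      (Nat.cast_nonneg (α := ℤ) (Module.finrank (fixedField Γ) M))
    refine h5.trans (le_of_eq ?_)
    push_cast
    ring
  have hdeg : (PP (Γ := Γ) 1 u).natDegree ≤ Fintype.card Γ := by
    unfold PP
    refine (Polynomial.natDegree_prod_le _ _).trans ?_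
    refine (Finset.sum_le_sum fun g _ => ?_).trans (le_of_eq (by simp : ∑ _g : Γ, 1 = _))
    refine (Polynomial.natDegree_add_le _ _).trans (max_le ?_ ?_)
    · rw [Polynomial.natDegree_C]
      exact Nat.zero_le _
    · exact (Polynomial.natDegree_C_mul_le _ _).trans Polynomial.natDegree_X_le
  have hlead : (PP (Γ := Γ) 1 u).coeff (Fintype.card Γ) = ∏ g : Γ, (g : M ≃ₐ[k] M) u := by
    unfold PP
    have h2 := Polynomial.coeff_prod_of_natDegree_le (s := (Finset.univ : Finset Γ))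
      (fun g : Γ => Polynomial.C ((g : M ≃ₐ[k] M) 1) +
        Polynomial.C ((g : M ≃ₐ[k] M) u) * Polynomial.X) 1 (fun g _ => by
        refine (Polynomial.natDegree_add_le _ _).trans (max_le ?_ ?_)
        · rw [Polynomial.natDegree_C]
          exact Nat.zero_le _
        · exact (Polynomial.natDegree_C_mul_le _ _).trans Polynomial.natDegree_X_le)
    rw [Finset.card_univ, mul_one] at h2
    rw [h2]
    refine Finset.prod_congr rfl fun g _ => ?_
    rw [Polynomial.coeff_add, Polynomial.coeff_C_mul, Polynomial.coeff_X_one,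
      Polynomial.coeff_C_succ]
    ring
  have hlead0 : (PP (Γ := Γ) 1 u).coeff (Fintype.card Γ) ≠ 0 := by
    rw [hlead, Finset.prod_ne_zero_iff]
    intro g _ h0
    exact hu ((map_eq_zero_iff _ (g : M ≃ₐ[k] M).injective).1 h0)
  have hroot : ∑ d ∈ Finset.range (Fintype.card Γ + 1), (PP (Γ := Γ) 1 u).coeff d *
      (-u⁻¹) ^ d = 0 := by
    rw [← Polynomial.eval_eq_sum_range' (Nat.lt_succ_of_le hdeg)]
    unfold PP
    rw [Polynomial.eval_prod]
    apply Finset.prod_eq_zero (Finset.mem_univ (1 : Γ))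
    have h4 : ((1 : Γ) : M ≃ₐ[k] M) = 1 := rfl
    simp only [h4, AlgEquiv.one_apply, Polynomial.eval_add, Polynomial.eval_C,
      Polynomial.eval_mul, Polynomial.eval_X]
    field_simp
    ring
  have h2 := hgt_root (k := k) (fun d => (PP (Γ := Γ) 1 u).coeff d) hlead0 (-u⁻¹) hroot
  have h3 : hgt k (-u⁻¹) = hgt k u := by
    rw [← hgt_inv u]
    refine Pool.Agent.W603.LV.hgt_congr fun P => ?_
    rw [P.ord_neg]
  rw [h3] at h2
  refine h2.trans ?_
  have h4 : hgt k ((PP (Γ := Γ) 1 u).coeff (Fintype.card Γ)) +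
      ∑ d ∈ Finset.range (Fintype.card Γ), hgt k ((PP (Γ := Γ) 1 u).coeff d) =
      ∑ d ∈ Finset.range (Fintype.card Γ + 1), hgt k ((PP (Γ := Γ) 1 u).coeff d) := by
    rw [Finset.sum_range_succ, add_comm]
  rw [h4]
  refine (Finset.sum_le_sum fun d _ => h1 d).trans (le_of_eq ?_)
  rw [Finset.sum_const, Finset.card_range, nsmul_eq_mul]
  push_cast
  ring

end Pool.Agent.X333.DC
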