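import Pool.Agent.X333.DN.Gen
import Pool.Agent.X333.DC.Hgt

/-!
Families of circuits with jumps on a Galois covering of a curve: the heights of the ratios are
bounded linearly by the canonical degree of the curve.
-/

set_option autoImplicit false
set_option linter.overlappingInstances false
set_option linter.unusedSectionVars false

open FF IntermediateField Pool.Agent.W603.LV Pool.Agent.TH466.QG Pool.Agent.X333.DN

namespace Pool.Agent.X333.DC

open Pool.Agent.W619.PQ (Inert exists_inertia)
open Pool.Agent.W602.GT (IsPluri DerReg DerLog eta eta_log eta_aux eta_smul tn con con_apply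
  con_log con_t lmat form form_pluri exists_lam const_of_der wr_ne ge_div ge_ord ord_prod'
  GeneralType exists_der der_ext)

/-- a transcendence basis with one element -/
theorem basis_one {k M : Type} [Field k] [Field M] [Algebra k M] (hn : Algebra.trdeg k M = 1)
    {t : M} (ht : Transcendental k t) : IsTranscendenceBasis k fun _ : Fin 1 => t := by
  have h1 : AlgebraicIndependent k fun _ : Fin 1 => t := by
    rw [algebraicIndependent_unique_type_iff]
    exact ht
  refine h1.isTranscendenceBasis_of_trdeg_le_of_finite ?_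
  rw [hn]
  simp

variable {k M : Type} [Field k] [Field M] [Algebra k M] {Γ : Subgroup (M ≃ₐ[k] M)}
  {I : Type} [Fintype I] {m : I → ℕ} {T : ∀ i, Fin (m i + 1) → M} {z : M}
  {Y : Finset Γ} {ν : Place k M → ℤ} {r : ℕ} {H : Subgroup Γ}
  [CharZero k] [IsAlgClosed k] [Finite Γ] [IsFF k M] [IsFF k (fixedField Γ)]

/-- **The heights of the ratios of the circuits.** -/
theorem hgt_nsys [Fintype Γ] (hn : Algebra.trdeg k M = 1) (hS : NSys T z Y ν r H) (i : I)
    (a b : Fin (m i + 1)) :
    hgt k (T i a / T i b) ≤ ((Fintype.card Γ + 1) * (Module.finrank (fixedField Γ) M *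
      (Wt m * Fintype.card Γ)) : ℕ) * max (canDeg k (fixedField Γ)) 0 := by
  classical
  by_cases halg : IsAlgebraic k (T i a / T i b)
  · rw [Pool.Agent.W603.PV.hgt_algebraic halg]
    exact mul_nonneg (Nat.cast_nonneg _) (le_max_right _ _)
  have hbasis := basis_one hn halg
  have hT := hS.ne
  set t : Fin 1 → M := fun _ => T i a / T i b with ht
  have ht0 : ∀ j, t j ≠ 0 := fun j => div_ne_zero (hT _ _) (hT _ _)
  obtain ⟨lam, hlam⟩ := exists_lam k 1
  obtain ⟨D0, hD0⟩ := exists_der t hbasis (fun j => algebraMap k M (lam j) * t j)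
  have hconst : ∀ h, D0 h = 0 → ∃ c : k, h = algebraMap k M c := fun h hh =>
    const_of_der t hbasis lam hlam D0 hD0 hh
  have hpt : (∏ j, t j) ≠ 0 := Finset.prod_ne_zero_iff.2 fun j _ => ht0 j
  -- nonvanishing
  have hPsi0 : Psi Y z ^ (2 * Wt m) ≠ 0 := by
    apply pow_ne_zero
    unfold Psi
    rw [Finset.prod_ne_zero_iff]
    intro τ hτ h0
    exact hS.Ym τ hτ (sub_eq_zero.1 h0).symm
  have hfa0 : ∀ i c, fT (T i) D0 c ≠ 0 := by
    intro i c
    refine mul_ne_zero (mul_ne_zero (pow_ne_zero _ ?_) ?_) (hT i c)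
    · exact div_ne_zero (wr_ne hconst _ (hS.lin i)) (Finset.prod_ne_zero_iff.2 fun j _ => hT i j)
    · exact Finset.prod_ne_zero_iff.2 fun j _ => hT i j
  have hGQ0 : ∀ c, GQ T Y z D0 c ≠ 0 := fun c =>
    mul_ne_zero (Finset.prod_ne_zero_iff.2 fun i _ => hfa0 i _) hPsi0
  -- the forms
  let ω : (∀ i, Fin (m i + 1)) → (Fin 1 → Derivation k M M) → M := fun c =>
    form t (Wt m) (GQ T Y z D0 c / (∏ j, t j) ^ Wt m)
  have hωv : ∀ c D', ω c D' = GQ T Y z (con t lam D') c := by
    intro c D
    change GQ T Y z D0 c / (∏ j, t j) ^ Wt m * (Matrix.of fun i j => D i (t j)).det ^ Wt m = _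
    have h1 : con t lam D = (lmat t D).det • D0 := by
      apply der_ext t hbasis
      intro l
      rw [con_t t lam D ht0 l, Derivation.coe_smul, Pi.smul_apply, hD0, smul_eq_mul]
      ring
    have h2 : (Matrix.of fun i j => D i (t j)).det = (∏ j, t j) * (lmat t D).det := by
      rw [← Matrix.det_mul_row]
      congr 1
      ext i j
      simp only [Matrix.of_apply, lmat]
      have := ht0 j
      field_simp
    rw [h1, DN.GQ_smul, h2, mul_pow]
    field_simp
  have hωne : ∀ (c) (D' : Fin 1 → Derivation k M M), LinearIndependent M D' → ω c D' ≠ 0 := by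
    intro c D hD h0
    have h1 : GQ T Y z D0 c / (∏ j, t j) ^ Wt m * (Matrix.of fun i j => D i (t j)).det ^ Wt m
        = 0 := h0
    have h2 : (Matrix.of fun i j => D i (t j)).det = 0 := by
      rcases mul_eq_zero.1 h1 with h | h
      · exact absurd h (div_ne_zero (hGQ0 c) (pow_ne_zero _ hpt))
      · exact pow_eq_zero_iff hS.hW.ne' |>.1 h
    obtain ⟨x, hx0, hx⟩ := Matrix.exists_vecMul_eq_zero_iff.2 h2
    apply hx0
    have h3 : ∑ i, x i • D i = 0 := by
      apply der_ext t hbasis
      intro l
      rw [Pool.Agent.W357.PG.sum_apply']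
      exact congrFun hx l
    funext i
    exact Fintype.linearIndependent_iff.1 hD x h3 i
  let c0 : ∀ i, Fin (m i + 1) := Function.update (fun _ => 0) i b
  have hc0 : c0 i = b := Function.update_self _ _ _
  let c1 : ∀ i, Fin (m i + 1) := Function.update c0 i a
  have hcc : ∀ D', ω c1 D' = ω c0 D' * (T i a / T i b) := by
    intro D
    rw [hωv, hωv]
    change (∏ j, fT (T j) (con t lam D) (Function.update c0 i a j)) * _ =
      (∏ j, fT (T j) (con t lam D) (c0 j)) * _ * _
    rw [← Finset.mul_prod_erase Finset.univ _ (Finset.mem_univ i),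
      ← Finset.mul_prod_erase Finset.univ (fun j => fT (T j) (con t lam D) (c0 j))
        (Finset.mem_univ i)]
    have h2 : ∏ j ∈ Finset.univ.erase i,
        fT (T j) (con t lam D) (Function.update c0 i a j) =
        ∏ j ∈ Finset.univ.erase i, fT (T j) (con t lam D) (c0 j) := by
      refine Finset.prod_congr rfl fun x hx => ?_
      rw [Function.update_of_ne (Finset.ne_of_mem_erase hx)]
    rw [h2, Function.update_self, hc0]
    have h3 : fT (T i) (con t lam D) a = fT (T i) (con t lam D) b * (T i a / T i b) := by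
      unfold fT
      have := hT i b
      field_simp
    rw [h3]
    ring
  refine hgt_forms (Γ := Γ) ω (fun c => form_pluri t _ _) c0 c1
    (fun w => (2 * Wt m : ℕ) * BB Y ν w) (fun w => ?_) (fun v => ?_) (hωne c0) hcc
    (div_ne_zero (hT _ _) (hT _ _)) hn
  · have h1 := sum_BB Y ν w
    rw [finsum_eq_sum_of_fintype] at h1 ⊢
    rw [← Finset.mul_sum, h1, mul_zero]
  · obtain ⟨w, e, J, hwv, hcard, hJ⟩ := exists_inertia Γ v
    refine ⟨w, e, hwv, fun g c D D' hDD hD => ?_⟩
    refine local_est (J := J.map (MulAut.conj g⁻¹).toMonoidHom) hn hS (q := fun _ => i)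
      (a := fun _ => a) (b := fun _ => b)
      (t := t) (lam := lam) (fun i => rfl) (ω := ω) (fun c => form_pluri t _ _) hωv
      (over_comp hwv g) ?_ ?_ hDD hD c
    · rw [Subgroup.card_map_of_injective (MulAut.conj g⁻¹).injective]
      exact hcard
    · rintro _ ⟨h, hh, rfl⟩
      exact inert_comp (hJ h hh) g

end Pool.Agent.X333.DC
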