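import Pool.Agent.X333.DN.Fam
import Pool.Agent.X333.DC.Nsys

/-!
Families of circuits on a covering of a curve: the heights of the ratios are bounded linearly by
the canonical degree of the curve.
-/

set_option autoImplicit false
set_option linter.overlappingInstances false
set_option linter.unusedSectionVars false

open FF IntermediateField Pool.Agent.W603.LV Pool.Agent.TH466.QG Pool.Agent.TH710.ND
  Pool.Agent.X333.DN

namespace Pool.Agent.X333.DC

open Pool.Agent.W602.GT (GeneralType tn)
open Pool.Agent.W619.PQ (Inert)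
open Pool.Agent.W603.PV (hgt_algebraMap hgt_algebraic isFF_of_finite)

section equiv

variable {k : Type} [Field k] {K K' : Type} [Field K] [Algebra k K] [Field K'] [Algebra k K']

/-- the pull-back of a place along an isomorphism -/
def plc (e : K ≃ₐ[k] K') (P : Place k K') : Place k K where
  ord f := P.ord (e f)
  ord_zero := by rw [map_zero, P.ord_zero]
  ord_mul := by
    intro f g hf hg
    rw [map_mul, P.ord_mul (by simpa using hf) (by simpa using hg)]
  ord_add := by
    intro f g hf hg hfg
    rw [map_add]
    exact P.ord_add (by simpa using hf) (by simpa using hg)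
      (by rw [← map_add]; exact (map_ne_zero e).2 hfg)
  ord_const := by
    intro c hc
    rw [e.commutes]
    exact P.ord_const hc
  surj := by
    obtain ⟨t, ht0, ht⟩ := P.surj
    exact ⟨e.symm t, by simpa using ht0, by rw [e.apply_symm_apply]; exact ht⟩

/-- places correspond to places -/
def plcEquiv (e : K ≃ₐ[k] K') : Place k K' ≃ Place k K where
  toFun := plc e
  invFun := plc e.symm
  left_inv := by
    intro P
    ext f
    change P.ord (e (e.symm f)) = P.ord f
    rw [e.apply_symm_apply]
  right_inv := by
    intro P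
    ext f
    change P.ord (e.symm (e f)) = P.ord f
    rw [e.symm_apply_apply]

/-- conjugation of a derivation by an isomorphism -/
noncomputable def cDer (g : K ≃ₐ[k] K') (D : Derivation k K K) : Derivation k K' K' :=
  Derivation.mk' ((g.toLinearMap.comp (D : K →ₗ[k] K)).comp g.symm.toLinearMap) (by
    intro a b
    simp only [LinearMap.comp_apply, AlgEquiv.toLinearMap_apply, map_mul, Derivation.coeFn_coe,
      Derivation.leibniz, smul_eq_mul, map_add, AlgEquiv.apply_symm_apply])

theorem cDer_apply (g : K ≃ₐ[k] K') (D : Derivation k K K) (z : K') :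
    cDer g D z = g (D (g.symm z)) := rfl

theorem isFF_equiv (e : K ≃ₐ[k] K') (h : IsFF k K) : IsFF k K' :=
  ⟨(Algebra.EssFiniteType.iff_of_algEquiv e).1 h.ess, by rw [← h.trdeg]; exact e.symm.trdeg_eq⟩

theorem canDeg_equiv [CharZero k] [IsAlgClosed k] (e : K ≃ₐ[k] K') [hK : IsFF k K]
    [hK' : IsFF k K'] : canDeg k K = canDeg k K' := by
  obtain ⟨D, hD⟩ := exists_der (k := k) (K := K)
  have hD' : cDer e D ≠ 0 := by
    intro h0
    apply hD
    ext f
    have h2 := congrArg (fun D : Derivation k K' K' => D (e f)) h0
    simp only [cDer_apply, e.symm_apply_apply, Derivation.coe_zero, Pi.zero_apply] at h2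
    rw [Derivation.coe_zero, Pi.zero_apply]
    exact (map_eq_zero e).1 h2
  rw [canDeg_eq hD, canDeg_eq hD', neg_inj]
  symm
  refine finsum_eq_of_bijective (plcEquiv e) (plcEquiv e).bijective fun P => ?_
  have h1 : (plc e P).ord (unif (plc e P)) = 1 := ord_unif _
  have h2 : P.ord (e (unif (plc e P))) = 1 := h1
  rw [← vo_eq P h2 hD', cDer_apply, e.symm_apply_apply]
  rfl

end equiv

/-- the constant for a Galois covering with a group of order `g` -/
def cst (g W : ℕ) : ℕ := (g + 1) * (g * (W * g))

section

variable {k M F K : Type} [Field k] [CharZero k] [IsAlgClosed k] [Field M] [Field F] [Field K]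
  [Algebra k M] [Algebra k F] [Algebra k K] [Algebra F K] [Algebra F M] [Algebra K M]
  [IsScalarTower k F K] [IsScalarTower k F M] [IsScalarTower k K M] [IsScalarTower F K M]

/-- **The heights of the ratios**, when a Galois closure is given. -/
theorem hgt_galois [FiniteDimensional F M] [IsGalois F M] [FiniteDimensional F K] [IsFF k F]
    [IsFF k M] [IsFF k K] {s c N r : ℕ} (hr : Module.finrank F K ≤ r) (A : CFam k K)
    (hcard : @Fintype.card A.I A.fin ≤ c) (hms : ∀ i, A.m i + 1 ≤ s)
    (hdich : ∀ P : Place k K, A.Const P ∨ A.Jump P N) {p : ℕ} (u : Fin (p + 1) → K)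
    (hgen : ∀ i a b, A.T i a / A.T i b ∈ IntermediateField.adjoin k (Set.range u))
    (hbd : ∀ (P : Place k K) l, (N : ℤ) * |P.ord (u l)| ≤ cgap A P)
    (hN : 8 * (r * (c * ((s + 1) * tn (s - 1)))) ≤ N) (i0 : A.I) (a0 b0 : Fin (A.m i0 + 1)) :
    hgt k (A.T i0 a0 / A.T i0 b0) ≤ (cst (Module.finrank F M) (c * ((s + 1) * tn (s - 1))) : ℕ) *
      max (canDeg k F) 0 := by
  classical
  by_cases halg0 : IsAlgebraic k (A.T i0 a0 / A.T i0 b0)
  · rw [hgt_algebraic halg0]
    exact mul_nonneg (Nat.cast_nonneg _) (le_max_right _ _)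
  let _ : Fintype A.I := A.fin
  have hfin : Finite (fixg k M F) := fixg_finite
  have halg : Algebra.IsAlgebraic K M := by
    have : Algebra.IsAlgebraic F M := inferInstance
    exact Algebra.IsAlgebraic.tower_top (K := F) K
  obtain ⟨e⟩ := exists_equiv (k := k) (M := M) (F := F)
  have hffF : IsFF k (fixedField (fixg k M F)) := isFF_equiv e.symm inferInstance
  have hMn : Algebra.trdeg k M = 1 := IsFF.trdeg
  set H := fixK k M F K with hHdef
  have hHr : H.index ≤ r := index_le.trans hr
  have hinj := (algebraMap K M).injective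
  have hHfix : ∀ h ∈ H, ∀ x : K, (h : M ≃ₐ[k] M) (algebraMap K M x) = algebraMap K M x :=
    fun h hh x => hh x
  obtain ⟨γ, hγ⟩ := exists_generic (Γ := fixg k M F) (fun j => algebraMap K M (u j))
  set z : M := ∑ j, γ j • algebraMap K M (u j) with hz
  have hzH : ∀ h ∈ H, (h : M ≃ₐ[k] M) z = z := by
    intro h hh
    rw [hz, map_sum]
    refine Finset.sum_congr rfl fun j _ => ?_
    rw [map_smul, hHfix h hh]
  obtain ⟨Y, hYc, hYm, hY⟩ := exists_rep z H hzH
  let T : ∀ i, Fin (A.m i + 1) → M := fun i j => algebraMap K M (A.T i j)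
  let ν : Place k M → ℤ := fun w =>
    ((Finset.univ.sup fun j => (w.ord (algebraMap K M (u j))).natAbs : ℕ) : ℤ)
  have hWt : DN.Wt A.m ≤ c * ((s + 1) * tn (s - 1)) := by
    unfold DN.Wt
    calc ∑ i, (A.m i + 2) * tn (A.m i) ≤ ∑ _i : A.I, (s + 1) * tn (s - 1) := by
          refine Finset.sum_le_sum fun i _ => Nat.mul_le_mul ?_ (tn_mono ?_)
          · have := hms i
            omega
          · have := hms i
            omega
      _ = Fintype.card A.I * ((s + 1) * tn (s - 1)) := by simp
      _ ≤ c * ((s + 1) * tn (s - 1)) := Nat.mul_le_mul_right _ hcard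
  have hN8 : 8 * (r * DN.Wt A.m) ≤ N :=
    (Nat.mul_le_mul_left 8 (Nat.mul_le_mul_left r hWt)).trans hN
  have hνle : ∀ (w : Place k M) j, |w.ord (algebraMap K M (u j))| ≤ ν w := by
    intro w j
    have h1 : (w.ord (algebraMap K M (u j))).natAbs ≤
        Finset.univ.sup fun j => (w.ord (algebraMap K M (u j))).natAbs :=
      Finset.le_sup (f := fun j => (w.ord (algebraMap K M (u j))).natAbs) (Finset.mem_univ j)
    change |w.ord (algebraMap K M (u j))| ≤ ((Finset.univ.sup fun j =>
      (w.ord (algebraMap K M (u j))).natAbs : ℕ) : ℤ)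
    rw [Int.abs_eq_natAbs]
    exact_mod_cast h1
  have hνex : ∀ w : Place k M, ∃ j, ν w = |w.ord (algebraMap K M (u j))| := by
    intro w
    obtain ⟨j, -, hj⟩ := Finset.exists_mem_eq_sup Finset.univ Finset.univ_nonempty
      (fun j => (w.ord (algebraMap K M (u j))).natAbs)
    refine ⟨j, ?_⟩
    change ((Finset.univ.sup fun j => (w.ord (algebraMap K M (u j))).natAbs : ℕ) : ℤ) = _
    rw [hj, Int.abs_eq_natAbs]
  have hgapw : ∀ (w : Place k M) (P : Place k K) (e : ℕ), Over w P e →
      ∑ i, gap (T i) w = e * cgap A P := by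
    intro w P e h
    have h1 : cgap A P = ∑ i, gap (A.T i) P := rfl
    rw [h1, Finset.mul_sum]
    exact Finset.sum_congr rfl fun i _ => gap_over (A.T i) h
  have hS : NSys T z Y ν r H :=
    { ne := fun i j => by
        change algebraMap K M (A.T i j) ≠ 0
        rw [Ne, map_eq_zero]
        exact A.ne i j
      sum := fun i => by
        change ∑ j, algebraMap K M (A.T i j) = 0
        rw [← map_sum, A.sum i, map_zero]
      lin := fun i => by
        exact (A.lin i).map' (IsScalarTower.toAlgHom k K M).toLinearMap
          (LinearMap.ker_eq_bot.2 hinj)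
      gen := by
        intro g hg i a b
        have h1 : ∀ j, (g : M ≃ₐ[k] M) (algebraMap K M (u j)) = algebraMap K M (u j) :=
          hγ g hg
        have h2 : IntermediateField.adjoin k (Set.range u) ≤
            eqF (((g : M ≃ₐ[k] M) : M →ₐ[k] M).comp (IsScalarTower.toAlgHom k K M))
              (IsScalarTower.toAlgHom k K M) := by
          rw [IntermediateField.adjoin_le_iff]
          rintro _ ⟨j, rfl⟩
          exact h1 j
        have h3 : (g : M ≃ₐ[k] M) (algebraMap K M (A.T i a / A.T i b)) =
            algebraMap K M (A.T i a / A.T i b) := h2 (hgen i a b)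
        change (g : M ≃ₐ[k] M) (algebraMap K M (A.T i a) / algebraMap K M (A.T i b)) =
          algebraMap K M (A.T i a) / algebraMap K M (A.T i b)
        rw [← map_div₀]
        exact h3
      hr := hHr
      Yc := hYc.trans hHr
      hY := fun g hg => hY g hg
      Ym := fun τ hτ => hYm τ hτ
      ν0 := fun w => by positivity
      νz := fun w => by
        rw [hz]
        refine Ge.sum _ _ fun j _ => ?_
        rw [Algebra.smul_def]
        have h1 : Ge w (-ν w) (algebraMap K M (u j)) := by
          right
          have h2 := hνle w j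
          have h3 := neg_abs_le (w.ord (algebraMap K M (u j)))
          linarith
        simpa using (Ge.const (P := w) (γ j)).mul h1
      νg := fun w => by
        by_cases htriv : ∀ x : K, w.ord (algebraMap K M x) = 0
        · have h1 : ∑ i, gap (T i) w = 0 :=
            Finset.sum_eq_zero fun i _ => gap_triv (A.T i) htriv
          obtain ⟨j, hj⟩ := hνex w
          rw [h1, hj, htriv, abs_zero, mul_zero]
        · push Not at htriv
          obtain ⟨e, P, hP⟩ := exists_over (K := K) w htriv
          obtain ⟨j, hj⟩ := hνex w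
          rw [hgapw w P e hP, hj, hP.2, abs_mul]
          have h1 := hbd P j
          have h2 : ((8 * (r * DN.Wt A.m) : ℕ) : ℤ) * |P.ord (u j)| ≤ N * |P.ord (u j)| :=
            mul_le_mul_of_nonneg_right (by exact_mod_cast hN8) (abs_nonneg _)
          have h3 : (0 : ℤ) ≤ e := by positivity
          rw [abs_of_nonneg h3]
          calc ((8 * (r * DN.Wt A.m) : ℕ) : ℤ) * (e * |P.ord (u j)|) =
              e * (((8 * (r * DN.Wt A.m) : ℕ) : ℤ) * |P.ord (u j)|) := by ring
            _ ≤ e * cgap A P := mul_le_mul_of_nonneg_left (h2.trans h1) h3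
      jump := by
        rintro w J hJ ⟨i, j, hij⟩
        by_cases htriv : ∀ x : K, w.ord (algebraMap K M x) = 0
        · exfalso
          apply hij
          obtain ⟨j', hj'⟩ := exists_mu (T i) w
          rw [← hj']
          change w.ord (algebraMap K M (A.T i j)) = w.ord (algebraMap K M (A.T i j'))
          rw [htriv, htriv]
        · push Not at htriv
          obtain ⟨e, P, hP⟩ := exists_over (K := K) w htriv
          have hnc : ¬ A.Const P := by
            intro hc
            apply hij
            obtain ⟨j', hj'⟩ := exists_mu (T i) w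
            rw [← hj']
            change w.ord (algebraMap K M (A.T i j)) = w.ord (algebraMap K M (A.T i j'))
            rw [hP.2, hP.2, hc i j j']
          obtain ⟨i1, j1, l1, h1⟩ := (hdich P).resolve_left hnc
          have h2 : (N : ℤ) ≤ cgap A P := by
            refine h1.trans ((le_gap (A.T i1) P j1 l1).trans ?_)
            exact Finset.single_le_sum (f := fun i => gap (A.T i) P)
              (fun i _ => gap_nonneg (A.T i) P) (Finset.mem_univ i1)
          have h3 : ((Nat.card (J ⊓ H : Subgroup (fixg k M F)) : ℕ) : ℤ) ≤ e := by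
            obtain ⟨x, hx0, hx⟩ := P.surj
            have h4 : ((Nat.card (J ⊓ H : Subgroup (fixg k M F)) : ℕ) : ℤ) ∣
                w.ord (algebraMap K M x) :=
              dvd_of_fixed (J := J ⊓ H) (fun g hg => hJ g (Subgroup.mem_inf.1 hg).1)
                (by rwa [Ne, map_eq_zero]) fun g hg => hHfix g (Subgroup.mem_inf.1 hg).2 x
            rw [hP.2, hx, mul_one] at h4
            exact Int.le_of_dvd (by exact_mod_cast hP.1) h4
          rw [hgapw w P e hP]
          have h5 : ((2 * (r * DN.Wt A.m) : ℕ) : ℤ) ≤ N := by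
            have : 2 * (r * DN.Wt A.m) ≤ N := by omega
            exact_mod_cast this
          have h6 : (0 : ℤ) ≤ e := by positivity
          calc ((2 * (r * DN.Wt A.m) : ℕ) : ℤ) * ((Nat.card (J ⊓ H : Subgroup (fixg k M F)) : ℕ) : ℤ)
              ≤ ((2 * (r * DN.Wt A.m) : ℕ) : ℤ) * e :=
                mul_le_mul_of_nonneg_left h3 (by positivity)
            _ ≤ N * e := mul_le_mul_of_nonneg_right h5 h6
            _ ≤ cgap A P * e := mul_le_mul_of_nonneg_right h2 h6
            _ = e * cgap A P := mul_comm _ _
      hW := by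
        unfold DN.Wt
        have h1 : 0 < (A.m i0 + 2) * tn (A.m i0) := by
          refine Nat.mul_pos (by omega) (tn_pos ?_)
          exact two_le (A.ne _) (A.sum _) halg0
        exact lt_of_lt_of_le h1
          (Finset.single_le_sum (f := fun i => (A.m i + 2) * tn (A.m i)) (fun i _ => Nat.zero_le _)
            (Finset.mem_univ _)) }
  have hft : Fintype (fixg k M F) := Fintype.ofFinite _
  have h1 := hgt_nsys hMn hS i0 a0 b0
  have h2 : Module.finrank (fixedField (fixg k M F)) M = Fintype.card (fixg k M F) := by
    have hGal := Pool.Agent.W619.PQ.isGaloisGroup_fixed (fixg k M F)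
    have := IsGaloisGroup.card_eq_finrank (fixg k M F) (fixedField (fixg k M F)) M
    rw [← this, Nat.card_eq_fintype_card]
  have h3 : Fintype.card (fixg k M F) ≤ Module.finrank F M := by
    rw [← Nat.card_eq_fintype_card, ← IsGalois.card_aut_eq_finrank F M]
    exact Nat.card_le_card_of_injective _ toF_injective
  have h4 : canDeg k (fixedField (fixg k M F)) = canDeg k F := canDeg_equiv e
  have h5 : hgt k (T i0 a0 / T i0 b0) = Module.finrank K M * hgt k (A.T i0 a0 / A.T i0 b0) := by
    change hgt k (algebraMap K M (A.T i0 a0) / algebraMap K M (A.T i0 b0)) = _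
    rw [← map_div₀]
    exact hgt_algebraMap _
  rw [h5, h2, h4] at h1
  have h6 : FiniteDimensional K M := FiniteDimensional.right F K M
  have h7 : (1 : ℤ) ≤ Module.finrank K M := by exact_mod_cast Module.finrank_pos
  have h8 := hgt_nonneg (k := k) (A.T i0 a0 / A.T i0 b0)
  have h9 : hgt k (A.T i0 a0 / A.T i0 b0) ≤ Module.finrank K M * hgt k (A.T i0 a0 / A.T i0 b0) := by
    nlinarith
  refine (h9.trans h1).trans ?_
  refine mul_le_mul_of_nonneg_right ?_ (le_max_right _ _)
  unfold cst
  exact_mod_cast Nat.mul_le_mul (Nat.succ_le_succ h3) (Nat.mul_le_mul h3 (Nat.mul_le_mul hWt h3))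

end

end Pool.Agent.X333.DC
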