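import Pool.Agent.X333.DC.Lin
import Pool.Agent.X333.DC.Dom
import Pool.Agent.X333.DN.Img
import Pool.Agent.Y221.AH.Top

/-!
Covers and images of projective varieties given by nested sums of high powers: degrees of curves.
-/

set_option autoImplicit false
set_option maxHeartbeats 400000
set_option linter.overlappingInstances false
set_option linter.unusedSectionVars false

open FF Pool.Agent.W603.LV

namespace Pool.Agent.X333.DC

open Pool.Agent.W602.GT Pool.Agent.TH466.QG Pool.Agent.Y221.BD Pool.Agent.Y221.AH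
  Pool.Agent.TH710.ND Pool.Agent.X333.DN Pool.Agent.Y221.FQ
open Pool.Agent.W603.PV (pht pht_le pht_scale isFF_of_finite)
open Pool.Agent.W603.CX (AlgHyperbolic BoundedOnCurves hgt_le_pht)

variable {k : Type} [Field k] {m n M : ℕ} {ι κ μ : Type}
  {Ψ : κ → MvPolynomial (Fin (m + 1)) k} {F : ι → MvPolynomial (Fin (n + 1)) k}
  {Φ : μ → MvPolynomial (Fin (M + 1)) k} {G : Fin (M + 1) → MvPolynomial (Fin (m + 1)) k}
  {B : Fin (n + 1) → MvPolynomial (Fin (m + 1)) k}

/-- the point `f` moves on a line or under a one-parameter group -/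
def Mvs (F : ι → MvPolynomial (Fin (n + 1)) k) {E : Type} [Field E] [Algebra k E]
    (f : Fin (n + 1) → E) : Prop :=
  WtMv F f ∨ ∃ v : Fin (n + 1) → E, (∃ i j, f i * v j - f j * v i ≠ 0) ∧
    ∀ (c c' : E) (e : ι), val (fun l => c * f l + c' * v l) (F e) = 0

theorem LinT.mvs {S : Finset (Fin (n + 1) → k)} {i0 : Fin (n + 1)} {E : Type} [Field E]
    [Algebra k E] {f : Fin (n + 1) → E} (hi0 : f i0 ≠ 0) (h : LinT S F i0 f) : Mvs F f := by
  obtain ⟨Q, v, -, hv0, hv, hs, hx⟩ := h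
  obtain ⟨j, hj⟩ := Function.ne_iff.1 hv
  refine Or.inr ⟨v, ⟨i0, j, ?_⟩, fun c c' e => hx _ ⟨fun a ha h0 => ?_, fun p hp => ?_⟩ e⟩
  · rw [hv0, mul_zero, sub_zero]
    exact mul_ne_zero hi0 hj
  · rw [lin_add_smul, h0, hs.1 a ha h0, mul_zero, mul_zero, add_zero]
  · rw [lin_add_smul, lin_add_smul]
    have := hs.2 p hp
    linear_combination c' * this

variable [IsAlgClosed k] [CharZero k]

/-- **The dichotomy.** -/
theorem high_dich [Finite ι] {r s N h : ℕ} (hN2 : 2 ≤ N)
    (hN : 8 * (r * ((h + 1) * (2 * s * (2 * s)) * ((2 * s + 1) * tn (2 * s - 1)))) ≤ N)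
    (hF : HighTowers s N h F) :
    ∃ A : ℕ, ∀ (K E : Type) [Field K] [Field E] [Algebra k K] [Algebra k E] [Algebra K E]
      [IsScalarTower k K E] [FiniteDimensional K E] [IsFF k K] [IsFF k E],
      Module.finrank K E ≤ r → ∀ f : Fin (n + 1) → E, (∃ j, f j ≠ 0) →
      (∀ i, MvPolynomial.aeval f (F i) = 0) → ¬ Mvs F f → pht k f ≤ A * max (canDeg k K) 0 := by
  rcases hF with h' | h'
  · obtain ⟨S, hS⟩ := nested_finL' (F := F) (s := s) (N := N) (m := h) fun i => h' i
    obtain ⟨A, hA⟩ := lin_dich hN2 hN F hS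
    refine ⟨A, fun K E _ _ _ _ _ _ _ _ _ hr f hf hfF hno => ?_⟩
    obtain ⟨i0, hi0⟩ := hf
    exact hA K E hr f i0 hi0 hfF fun h => hno (h.mvs hi0)
  · obtain ⟨A, hA⟩ := nest_dich hN2 hN F h'
    exact ⟨A, fun K E _ _ _ _ _ _ _ _ _ hr f hf hfF hno =>
      hA K E hr f hf hfF fun h => hno (Or.inl h)⟩

/-- moving points lie in the special set -/
theorem Mvs.van (hFf : ∀ e, IsForm (F e)) {E : Type} [Field E] [Algebra k E]
    {f : Fin (n + 1) → E} (h : Mvs F f) {H : MvPolynomial (Fin (n + 1)) k} (hHf : IsForm H)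
    (hGm : VanGm F H) : val f H = 0 := by
  rcases h with h | ⟨v, hv, hl⟩
  · exact van_wt hFf h hGm
  · exact van_line hv hl hHf hGm

/-- the points of a closed subvariety -/
theorem varPts_sub {E : Type} [Field E] [Algebra k E] {f : Fin (M + 1) → E} (hf : f ≠ 0)
    {H : MvPolynomial (Fin (M + 1)) k} (hH : val f H ≠ 0) : ∃ q ∈ VarPts k f, val q H ≠ 0 := by
  obtain ⟨b, hb⟩ := Function.ne_iff.1 hf
  obtain ⟨x, hx, hx0⟩ := specialise (k := k) f (H * MvPolynomial.X b) (by
    rw [map_mul, MvPolynomial.aeval_X]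
    exact mul_ne_zero hH hb)
  rw [map_mul, MvPolynomial.aeval_X] at hx
  exact ⟨x, ⟨fun h0 => right_ne_zero_of_mul hx (congrFun h0 b), fun G _ hG => hx0 G hG⟩,
    left_ne_zero_of_mul hx⟩

/-- **Degrees.** -/
theorem cover_deg [Finite ι] (hΨ : ∀ e, IsForm (Ψ e)) (hB : Mor Ψ F B) (hG : Mor Ψ Φ G)
    (hon : Onto Ψ Φ G) {ρ r s N h : ℕ} (hfib : FibresLe Ψ G r) (hF : HighTowers s N h F)
    (hN2 : 2 ≤ N) (hN : 8 * (ρ * r * ((h + 1) * (2 * s * (2 * s)) *
      ((2 * s + 1) * tn (2 * s - 1)))) ≤ N) :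
    ∃ A : ℕ, ∀ (K E : Type) [Field K] [Field E] [Algebra k K] [Algebra k E] [Algebra K E]
      [IsScalarTower k K E] [FiniteDimensional K E] [IsFF k K] [IsFF k E],
      Module.finrank K E ≤ ρ → ∀ f : Fin (M + 1) → E, (∃ j, f j ≠ 0) →
      (∀ e, MvPolynomial.aeval f (Φ e) = 0) → ¬ VarPts k f ⊆ CovGm Ψ F B G →
        pht k f ≤ A * max (canDeg k K) 0 := by
  obtain ⟨A, hA⟩ := high_dich (r := ρ * r) hN2 hN hF
  obtain ⟨eB, heB, hBe⟩ := hB.form
  obtain ⟨eG, heG, hGe⟩ := hG.form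
  refine ⟨eG * A, ?_⟩
  intro K0 K _ _ _ _ _ _ _ _ _ hρ f hf0 hf hno
  have hf0' : f ≠ 0 := by
    rintro rfl
    obtain ⟨j, hj⟩ := hf0
    exact hj rfl
  obtain ⟨E, i1, i2, i3, i4, i5, u, i0, c, hrk, hu0, huΨ, hc0, hcz, htop⟩ :=
    lift_point hΨ hG hon hfib hf0' hf
  have hff : IsFF k E := isFF_of_finite (F := K)
  have huex : ∃ j, u j ≠ 0 := ⟨i0, by rw [hu0]; exact one_ne_zero⟩
  have hu : u ≠ 0 := by
    intro h0
    rw [h0] at hu0
    exact zero_ne_one hu0
  have h1 := hB.mem hu huΨ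
  let iA : Algebra K0 E := ((algebraMap K E).comp (algebraMap K0 K)).toAlgebra
  have iT1 : IsScalarTower K0 K E := IsScalarTower.of_algebraMap_eq fun _ => rfl
  have iT2 : IsScalarTower k K0 E := IsScalarTower.of_algebraMap_eq fun c => by
    change _ = algebraMap K E (algebraMap K0 K (algebraMap k K0 c))
    rw [← IsScalarTower.algebraMap_apply k K0 K, ← IsScalarTower.algebraMap_apply k K E]
  have iF : FiniteDimensional K0 E := FiniteDimensional.trans K0 K E
  have hfr : Module.finrank K0 E ≤ ρ * r := by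
    rw [← Module.finrank_mul_finrank K0 K E]
    exact Nat.mul_le_mul hρ hrk
  have hmv : ¬ Mvs F (im B u) := by
    intro hmv
    apply hno
    intro q hq
    obtain ⟨x, hx, hBx, hxq⟩ := closed_im hΨ hB hG hq.1 fun H hH hx => hq.2 H hH
      (val_prop hcz hH (van_im hB hx hu0 huΨ fun H' hH' hGm =>
        hmv.van (fun e => hF.form e) hH' hGm))
    exact ⟨x, ⟨hx, hBx⟩, hxq⟩
  have h2 := hA K0 E hfr (im B u) (Function.ne_iff.1 h1.1) h1.2 hmv
  rw [pht_im hB hBe hΨ huex huΨ] at h2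
  have hGu := hG.mem hu huΨ
  have h3 : pht k (fun j => algebraMap K E (f j)) = eG * pht k u := by
    have h4 : (fun j => algebraMap K E (f j)) = fun j => c * im G u j := funext hcz
    rw [h4, pht_scale (Function.ne_iff.1 hGu.1) hc0, pht_im hG hGe hΨ huex huΨ]
  rw [pht_algebraMap hf0] at h3
  have h4 : 0 ≤ pht k u := pht_nonneg huex
  have h5 : 0 ≤ pht k f := pht_nonneg hf0
  have h6 : (1 : ℤ) ≤ Module.finrank K E := by exact_mod_cast Module.finrank_pos
  have h7 : (1 : ℤ) ≤ eB := by exact_mod_cast heB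
  have h8 : (0 : ℤ) ≤ eG := by positivity
  have h9 : pht k f ≤ Module.finrank K E * pht k f := by nlinarith
  have h10 : pht k u ≤ eB * pht k u := by nlinarith
  have h11 := mul_le_mul_of_nonneg_left (h10.trans h2) h8
  push_cast
  rw [mul_assoc]
  linarith

/-- **Curves from the multiplicative group give curves of unbounded degree.** -/
theorem not_bounded' {P : Fin (M + 1) → Polynomial k} (hP : GmCurve Φ P)
    {H : MvPolynomial (Fin (M + 1)) k} {t0 : k} (hH : val (fun i => (P i).eval t0) H ≠ 0)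
    (hb : ∃ D : ℤ, ∀ f : Fin (M + 1) → RatFunc k, (∃ j, f j ≠ 0) →
      (∀ e, MvPolynomial.aeval f (Φ e) = 0) → MvPolynomial.aeval f H ≠ 0 → pht k f ≤ D) :
    False := by
  have hinf : Infinite k := inferInstance
  obtain ⟨D, hD⟩ := hb
  obtain ⟨q, hq⟩ : ∃ q : ℕ, q = D.toNat + 1 := ⟨_, rfl⟩
  have hq0 : q ≠ 0 := by omega
  obtain ⟨T, hTd⟩ : ∃ T : RatFunc k, T = RatFunc.X := ⟨_, rfl⟩
  have hTt : Transcendental k T := hTd ▸ RatFunc.transcendental_X
  have hT0 : T ≠ 0 := by rw [hTd]; exact RatFunc.X_ne_zero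
  have hT1 : 1 ≤ hgt k T := by
    by_contra hcon
    obtain ⟨c, hc⟩ := const_of_hgt (k := k) (f := T) (by omega)
    exact hTt (hc ▸ isAlgebraic_algebraMap c)
  have hTq : Transcendental k (T ^ q) := hTt.pow (by omega)
  -- the curve
  let P' : Fin (M + 1) → Polynomial k := fun j => (P j).comp (Polynomial.X ^ q)
  have hev : ∀ t : k, (fun j => (P' j).eval t) = fun j => (P j).eval (t ^ q) := by
    intro t
    funext j
    simp only [P']
    rw [Polynomial.eval_comp, Polynomial.eval_pow, Polynomial.eval_X]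
  let y : Fin (M + 1) → RatFunc k := fun i => algebraMap (Polynomial k) (RatFunc k) (P' i)
  have hinj : Function.Injective (algebraMap (Polynomial k) (RatFunc k)) :=
    RatFunc.algebraMap_injective k
  have hyT : ∀ j, y j = Polynomial.aeval (T ^ q) (P j) := by
    intro j
    have h1 : T ^ q = algebraMap (Polynomial k) (RatFunc k) (Polynomial.X ^ q) := by
      rw [hTd, map_pow, RatFunc.algebraMap_X]
    rw [h1, Polynomial.aeval_algebraMap_apply]
    simp only [y, P']
    rw [Polynomial.comp_eq_aeval]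
  have hmem : ∀ e, val y (Φ e) = 0 := by
    intro e
    obtain ⟨R, hR1, hR2⟩ := val_poly P' (Φ e)
    have h0 : R = 0 := poly_zero fun t ht => by
      rw [hR1, hev]
      exact hP.mem _ (pow_ne_zero _ ht) e
    rw [← hR2, h0, map_zero]
  have hyH : val y H ≠ 0 := by
    obtain ⟨R, hR1, hR2⟩ := val_poly P' H
    rw [← hR2]
    intro h0
    have h1 : R = 0 := hinj (by rw [h0, map_zero])
    obtain ⟨t1, ht1⟩ := IsAlgClosed.exists_pow_nat_eq t0 (by omega : 0 < q)
    have h2 := hR1 t1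
    rw [h1, Polynomial.eval_zero, hev, ht1] at h2
    exact hH h2.symm
  obtain ⟨t1, t2, ht1, ht2, hli⟩ := hP.nonconst
  obtain ⟨i, j, hij⟩ : ∃ i j, (P i).eval t1 * (P j).eval t2 ≠ (P j).eval t1 * (P i).eval t2 := by
    by_contra hcon
    push Not at hcon
    obtain ⟨i, hi⟩ := Function.ne_iff.1 (hP.ne t1 ht1)
    rw [LinearIndependent.pair_iff] at hli
    have h3 := hli (-((P i).eval t2)) ((P i).eval t1) (by
      funext j
      simp only [Pi.add_apply, Pi.smul_apply, smul_eq_mul, Pi.zero_apply]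
      linear_combination hcon i j)
    exact hi h3.2
  have hPj : P j ≠ 0 := by
    intro h0
    apply hij
    rw [h0]
    simp
  have hPi : P i ≠ 0 := by
    intro h0
    apply hij
    rw [h0]
    simp
  have hcinj : ∀ p : Polynomial k, Polynomial.aeval (T ^ q) p = 0 → p = 0 := fun p hp =>
    (transcendental_iff_injective.1 hTq) (by rw [hp, map_zero])
  have hyj : y j ≠ 0 := fun h0 => hPj (hcinj _ (by rw [← hyT]; exact h0))
  have hyi : y i ≠ 0 := fun h0 => hPi (hcinj _ (by rw [← hyT]; exact h0))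
  have hg : Transcendental k (y i / y j) := by
    intro halg
    have h2 := IsAlgClosed.degree_eq_one_of_irreducible k (minpoly.irreducible halg.isIntegral)
    obtain ⟨c, hc⟩ := minpoly.mem_range_of_degree_eq_one k _ h2
    have h3 : y i = algebraMap k (RatFunc k) c * y j := by
      have hc' : algebraMap k (RatFunc k) c = y i / y j := hc
      rw [hc']
      field_simp
    have h4 : P i = Polynomial.C c * P j := by
      have h5 := hcinj (P i - Polynomial.C c * P j) (by
        rw [map_sub, map_mul, Polynomial.aeval_C, ← hyT, ← hyT, h3, sub_self])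
      exact sub_eq_zero.1 h5
    apply hij
    rw [h4]
    simp only [Polynomial.eval_mul, Polynomial.eval_C]
    ring
  have hmemk : y i / y j ∈ IntermediateField.adjoin k {T ^ q} := by
    have h1 : ∀ l, y l ∈ IntermediateField.adjoin k {T ^ q} := by
      intro l
      rw [hyT]
      have h2 := (Polynomial.aeval (⟨T ^ q, IntermediateField.mem_adjoin_simple_self k (T ^ q)⟩ :
        IntermediateField.adjoin k {T ^ q}) (P l)).2
      rw [Polynomial.aeval_eq_sum_range] at h2 ⊢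
      refine sum_mem fun a _ => ?_
      exact (IntermediateField.adjoin k {T ^ q}).smul_mem
        (_root_.pow_mem (IntermediateField.mem_adjoin_simple_self k (T ^ q)) _)
    exact div_mem (h1 i) (h1 j)
  have h1 := hD y ⟨j, hyj⟩ hmem hyH
  have h2 := hgt_le_pht (k := k) y hyi hyj
  have h3 := hgt_sub_ge hTq hg hmemk
  rw [hgt_pow hT0] at h3
  have h4 : (q : ℤ) ≤ q * hgt k T := by nlinarith [(Nat.cast_nonneg q : (0 : ℤ) ≤ q)]
  omega

/-- subvarieties -/
theorem cover_gt (hΨ : ∀ e, IsForm (Ψ e)) (hB : Mor Ψ F B) (hG : Mor Ψ Φ G)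
    (hon : Onto Ψ Φ G) {r s N h : ℕ} (hfib : FibresLe Ψ G r) (hF : HighTowers s N h F)
    (hN : 8 * (r * ((n + 1) * ((h + 1) * (2 * s + 1) ^ 5))) ≤ N) {K : Type} [Field K]
    [Algebra k K] {w : ℕ} {z : Fin (M + 1) → K} (hw : 1 ≤ w) (hz : SubVar Φ K w z)
    (hno : ¬ VarPts k z ⊆ CovGm Ψ F B G) : GeneralType k K w := by
  by_contra hgt
  apply hno
  intro q hq
  obtain ⟨x, hx, hBx, hxq⟩ := closed_im hΨ hB hG hq.1 fun H hH hx => hq.2 H hH
    (sub_van' hΨ hB hG hon hfib hF hN hw hz hgt hH hx)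
  exact ⟨x, ⟨hx, hBx⟩, hxq⟩

end Pool.Agent.X333.DC
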