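import Pool.Agent.W603.LV.Root
import Pool.Agent.W603.PV.Hgt
import Pool.Agent.W603.CX.Basic
import Mathlib

/-!
Points which are determined by linear equations with coefficients of small heights have small
heights.
-/

set_option autoImplicit false
set_option linter.overlappingInstances false
set_option linter.unusedSectionVars false

open FF Pool.Agent.W603.LV

namespace Pool.Agent.X333.DC

open Pool.Agent.W603.PV (pht pht_le)

/-- the degree of the generic determinant -/
noncomputable def dd (k : Type) [Field k] (n : ℕ) : ℕ :=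
  (Matrix.det (Matrix.of fun i j : Fin n =>
    (MvPolynomial.X (i, j) : MvPolynomial (Fin n × Fin n) k))).totalDegree

variable {k E : Type} [Field k] [Field E] [Algebra k E] [IsAlgClosed k] [CharZero k] [IsFF k E]

theorem hgt_det {n : ℕ} (A : Matrix (Fin n) (Fin n) E) {B : ℤ} (hB : ∀ i j, hgt k (A i j) ≤ B) :
    hgt k A.det ≤ (dd k n * (n * n) : ℕ) * B := by
  classical
  have h1 := hgt_mvpoly (k := k) (fun p : Fin n × Fin n => A p.1 p.2)
    (Matrix.det (Matrix.of fun i j : Fin n =>
      (MvPolynomial.X (i, j) : MvPolynomial (Fin n × Fin n) k)))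
  have h2 : MvPolynomial.aeval (fun p : Fin n × Fin n => A p.1 p.2)
      (Matrix.det (Matrix.of fun i j : Fin n =>
      (MvPolynomial.X (i, j) : MvPolynomial (Fin n × Fin n) k))) = A.det := by
    rw [AlgHom.map_det]
    congr 1
    ext i j
    simp
  rw [h2] at h1
  refine h1.trans ?_
  change (dd k n : ℤ) * _ ≤ _
  have h3 : ∑ p : Fin n × Fin n, hgt k (A p.1 p.2) ≤ ((n * n : ℕ) : ℤ) * B := by
    refine (Finset.sum_le_sum fun p _ => hB p.1 p.2).trans (le_of_eq ?_)
    rw [Finset.sum_const, Finset.card_univ, nsmul_eq_mul]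
    simp
  refine (mul_le_mul_of_nonneg_left h3 (Nat.cast_nonneg _)).trans (le_of_eq ?_)
  push_cast
  ring

/-- **The height of the solution of a linear system.** -/
theorem hgt_kernel {n : ℕ} {I : Type} (A : I → Fin (n + 1) → E) {B : ℤ} (hB0 : 0 ≤ B)
    (hB : ∀ i j, hgt k (A i j) ≤ B) {y : Fin (n + 1) → E} {i0 : Fin (n + 1)} (hi0 : y i0 ≠ 0)
    (hy : ∀ i, ∑ j, A i j * y j = 0)
    (hker : ∀ v : Fin (n + 1) → E, (∀ i, ∑ j, A i j * v j = 0) → v i0 = 0 → v = 0) :
    pht k y ≤ ((n + 1) * (2 * (dd k n * (n * n))) : ℕ) * B := by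
  classical
  let R : I → Fin n → E := fun i l => A i (i0.succAbove l)
  -- the rows span
  have hspan : Submodule.span E (Set.range R) = ⊤ := by
    by_contra hne
    obtain ⟨φ, hφ0, hφ⟩ := Submodule.exists_le_ker_of_lt_top _ (lt_top_iff_ne_top.2 hne)
    let u : Fin n → E := fun l => φ (Pi.single l 1)
    have hφu : ∀ v, φ v = ∑ l, v l * u l := by
      intro v
      conv_lhs => rw [← Finset.univ_sum_single v]
      rw [map_sum]
      refine Finset.sum_congr rfl fun l _ => ?_
      have h1 : (Pi.single l (v l) : Fin n → E) = v l • Pi.single l (1 : E) := by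
        rw [← Pi.single_smul, smul_eq_mul, mul_one]
      rw [h1, map_smul, smul_eq_mul]
    let v : Fin (n + 1) → E := i0.insertNth 0 u
    have hv0 : v i0 = 0 := Fin.insertNth_apply_same _ _ _
    have hvs : ∀ l, v (i0.succAbove l) = u l := fun l => Fin.insertNth_apply_succAbove _ _ _ _
    have hv : v = 0 := by
      refine hker v (fun i => ?_) hv0
      rw [Fin.sum_univ_succAbove _ i0, hv0, mul_zero, zero_add]
      have h1 : φ (R i) = 0 := hφ (Submodule.subset_span ⟨i, rfl⟩)
      rw [hφu] at h1
      rw [← h1]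
      exact Finset.sum_congr rfl fun l _ => by rw [hvs]
    apply hφ0
    refine LinearMap.ext fun z => ?_
    rw [hφu, LinearMap.zero_apply]
    refine Finset.sum_eq_zero fun l _ => ?_
    have h2 : u l = 0 := by rw [← hvs, hv]; rfl
    rw [h2, mul_zero]
  obtain ⟨b, hbR, hbs, hbl⟩ := exists_linearIndependent E (Set.range R)
  rw [hspan] at hbs
  let bs : Module.Basis b E (Fin n → E) := Module.Basis.mk hbl (by
    rw [Subtype.range_coe]
    exact hbs.ge)
  have hfb : Fintype b := @Fintype.ofFinite _ (Module.Finite.finite_basis bs)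
  have hcard : Fintype.card b = n := by
    rw [← Module.finrank_eq_card_basis bs]
    simp
  let eb : Fin n ≃ b := (Fintype.equivFinOfCardEq hcard).symm
  have hrow : ∀ l : Fin n, ∃ i, R i = (eb l : Fin n → E) := fun l => hbR (eb l).2
  choose ib hib using hrow
  let Bm : Matrix (Fin n) (Fin n) E := Matrix.of fun l l' => R (ib l) l'
  have hrows : LinearIndependent E Bm.row := by
    have h1 : Bm.row = (fun x : b => (x : Fin n → E)) ∘ eb := by
      funext l
      exact hib l
    rw [h1]
    exact hbl.comp _ eb.injective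
  have hunit : IsUnit Bm := Matrix.linearIndependent_rows_iff_isUnit.1 hrows
  have hdet : Bm.det ≠ 0 := by
    have := (Matrix.isUnit_iff_isUnit_det Bm).1 hunit
    exact this.ne_zero
  let w : Fin n → E := fun l => -A (ib l) i0
  let u : Fin n → E := fun l => y (i0.succAbove l) / y i0
  have hBu : Bm.mulVec u = w := by
    funext l
    have h1 := hy (ib l)
    rw [Fin.sum_univ_succAbove _ i0] at h1
    change ∑ l', A (ib l) (i0.succAbove l') * (y (i0.succAbove l') / y i0) = -A (ib l) i0
    have h2 : ∑ l', A (ib l) (i0.succAbove l') * (y (i0.succAbove l') / y i0) =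
        (∑ l', A (ib l) (i0.succAbove l') * y (i0.succAbove l')) / y i0 := by
      rw [Finset.sum_div]
      exact Finset.sum_congr rfl fun _ _ => by rw [mul_div_assoc]
    rw [h2, div_eq_iff hi0]
    linear_combination h1
  have hcr : Matrix.cramer Bm w = Bm.det • u := by
    have h1 : Bm.mulVec (Matrix.cramer Bm w) = Bm.mulVec (Bm.det • u) := by
      rw [Matrix.mulVec_cramer, Matrix.mulVec_smul, hBu]
    exact Matrix.mulVec_injective_of_isUnit hunit h1
  have hw : ∀ l, hgt k (w l) ≤ B := by
    intro l
    have h1 : hgt k (w l) = hgt k (A (ib l) i0) := by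
      refine Pool.Agent.W603.LV.hgt_congr fun P => ?_
      exact P.ord_neg _
    rw [h1]
    exact hB _ _
  have hBm : ∀ l l', hgt k (Bm l l') ≤ B := fun l l' => hB _ _
  have hu : ∀ l, hgt k (u l) ≤ (2 * (dd k n * (n * n)) : ℕ) * B := by
    intro l
    have h1 : u l = Matrix.cramer Bm w l * (Bm.det)⁻¹ := by
      rw [hcr, Pi.smul_apply, smul_eq_mul]
      field_simp
    by_cases h0 : Matrix.cramer Bm w l = 0
    · rw [h1, h0, zero_mul]
      have h2 : hgt k (0 : E) = 0 := by
        rw [hgt_finset (k := k) (0 : E) ∅ (fun P h => absurd P.ord_zero h)]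
        rfl
      rw [h2]
      exact mul_nonneg (Nat.cast_nonneg _) hB0
    · rw [h1]
      refine (hgt_mul h0 (inv_ne_zero hdet)).trans ?_
      rw [hgt_inv, Matrix.cramer_apply]
      have h2 := hgt_det (k := k) (Bm.updateCol l w) (B := B) (fun i j => by
        rw [Matrix.updateCol_apply]
        split_ifs
        · exact hw i
        · exact hBm i j)
      have h3 := hgt_det (k := k) Bm hBm
      push_cast at h2 h3 ⊢
      linarith
  refine (pht_le y hi0).trans ?_
  rw [Fin.sum_univ_succAbove _ i0, div_self hi0, hgt_one, zero_add]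
  refine (Finset.sum_le_sum fun l _ => hu l).trans ?_
  rw [Finset.sum_const, Finset.card_univ, Fintype.card_fin, nsmul_eq_mul]
  have h4 : (0 : ℤ) ≤ (2 * (dd k n * (n * n)) : ℕ) * B := mul_nonneg (Nat.cast_nonneg _) hB0
  push_cast at h4 ⊢
  linarith

end Pool.Agent.X333.DC
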