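import Pool.Agent.X333.DC.Bd
import Pool.Agent.X333.DN.Lf
import Pool.Agent.Y221.PB.Spr
import Pool.Agent.TH710.ND.Sp

/-!
Nested sums of high powers of monomials: the heights of the points over coverings of bounded degree
which are not moved by diagonal motions.
-/

set_option autoImplicit false
set_option linter.overlappingInstances false
set_option linter.unusedSectionVars false

open FF MvPolynomial Pool.Agent.W603.LV Pool.Agent.TH710.ND Pool.Agent.X333.DN
  Pool.Agent.W603.GW Pool.Agent.W603.GX Pool.Agent.W603.GY Pool.Agent.W603.GR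

namespace Pool.Agent.X333.DC

open Pool.Agent.W602.GT (tn wc wc_form val val_smul IsForm orbit_poly poly_zero)
open Pool.Agent.Y221.BD (WtMv)
open Pool.Agent.W603.PV (pht pht_le)

variable {k : Type} [Field k] {n : ℕ} {ι : Type}

/-- the monomials with exponents in a finite set -/
def LfS (S : Finset (Fin (n + 1) →₀ ℕ)) (p : MvPolynomial (Fin (n + 1)) k) : Prop :=
  ∃ α ∈ S, ∃ a : k, p = monomial α a

theorem gate_mono {σ : Type} {Lf Lf' : MvPolynomial σ k → Prop} (h : ∀ p, Lf p → Lf' p)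
    (L : List (ℕ × ℕ)) : ∀ p, GateL Lf L p → GateL Lf' L p := by
  induction L with
  | nil => exact h
  | cons ke L ih =>
    rintro p ⟨c, g, hg, hp⟩
    exact ⟨c, g, fun i => ih _ (hg i), hp⟩

theorem gate_fin (L : List (ℕ × ℕ)) : ∀ p : MvPolynomial (Fin (n + 1)) k, GateL IsMono L p →
    ∃ S : Finset (Fin (n + 1) →₀ ℕ), GateL (LfS S) L p := by
  classical
  induction L with
  | nil =>
    rintro p ⟨α, a, rfl⟩
    exact ⟨{α}, α, Finset.mem_singleton_self α, a, rfl⟩
  | cons ke L ih =>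
    rintro p ⟨c, g, hg, hp⟩
    choose S hS using fun i => ih _ (hg i)
    refine ⟨Finset.univ.biUnion S, c, g, fun i => gate_mono ?_ L _ (hS i), hp⟩
    rintro q ⟨α, hα, a, hq⟩
    exact ⟨α, Finset.mem_biUnion.2 ⟨i, Finset.mem_univ _, hα⟩, a, hq⟩

theorem nested_mono {σ : Type} {Lf Lf' : MvPolynomial σ k → Prop} (h : ∀ p, Lf p → Lf' p)
    {s N m : ℕ} {F : MvPolynomial σ k} (hF : NestedIn Lf s N m F) : NestedIn Lf' s N m F := by
  obtain ⟨r, e, L, c, g, hr, he, hL1, hL2, hg, hFe⟩ := hF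
  exact ⟨r, e, L, c, g, hr, he, hL1, hL2, fun i => gate_mono h L _ (hg i), hFe⟩

theorem nested_fin {s N m : ℕ} {F : MvPolynomial (Fin (n + 1)) k}
    (hF : NestedIn IsMono s N m F) : ∃ S : Finset (Fin (n + 1) →₀ ℕ),
      NestedIn (LfS S) s N m F := by
  classical
  obtain ⟨r, e, L, c, g, hr, he, hL1, hL2, hg, hFe⟩ := hF
  choose S hS using fun i => gate_fin L _ (hg i)
  refine ⟨Finset.univ.biUnion S, r, e, L, c, g, hr, he, hL1, hL2,
    fun i => gate_mono ?_ L _ (hS i), hFe⟩
  rintro q ⟨α, hα, a, hq⟩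
  exact ⟨α, Finset.mem_biUnion.2 ⟨i, Finset.mem_univ _, hα⟩, a, hq⟩

/-- **Diagonal motions** which preserve the small ratios of the monomials. -/
theorem wc_small {K : Type} [Field K] [Algebra k K] [Infinite K] {s N h : ℕ} (hN : 2 ≤ N)
    {S : Finset (Fin (n + 1) →₀ ℕ)} {F : MvPolynomial (Fin (n + 1)) k}
    (hF : NestedIn (LfS S) s N h F) {y : Fin (n + 1) → K} (hmem : val y F = 0)
    {b : Fin (n + 1) → ℤ}
    (hb : ∀ A : CFam k K, GoodF N (2 * s) ((h + 1) * (2 * s * (2 * s))) A → ∀ α ∈ S, ∀ β ∈ S,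
      ∏ j, y j ^ α j ≠ 0 → ∏ j, y j ^ β j ≠ 0 →
      (∀ P : Place k K, (N : ℤ) * |P.ord ((∏ j, y j ^ α j) / ∏ j, y j ^ β j)| ≤ cgap A P) →
        ∑ j, (α j : ℤ) * b j = ∑ j, (β j : ℤ) * b j) (v : ℤ) :
    val y (wc b v F) = 0 := by
  obtain ⟨M, R, hR1, -, hR3⟩ := orbit_poly (k := k) y b F
  refine hR3 (poly_zero fun t ht => ?_) v
  rw [hR1 t ht]
  have h1 : aeval (fun j => t ^ b j * y j) F = 0 := by
    refine nested_lf hF hN (y := y) hmem ?_ ?_
    · rintro p ⟨α, -, a, rfl⟩ h
      rw [aeval_mono] at h ⊢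
      rw [torus_mono y b ht, mul_left_comm, h, mul_zero]
    · rintro A hA p q ⟨α, hα, a, rfl⟩ ⟨β, hβ, c, rfl⟩ hp hq hW
      rw [aeval_mono] at hp hq
      rw [aeval_mono, aeval_mono] at hW
      have ha : a ≠ 0 := fun h => hp (by rw [h, map_zero, zero_mul])
      have hc : c ≠ 0 := fun h => hq (by rw [h, map_zero, zero_mul])
      have hp2 := right_ne_zero_of_mul hp
      have hq2 := right_ne_zero_of_mul hq
      have h5 := hb A hA α hα β hβ hp2 hq2 (fun P => by
        have h6 := hW.1 P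
        rw [P.ord_div hp hq, P.ord_mul (left_ne_zero_of_mul hp) hp2,
          P.ord_mul (left_ne_zero_of_mul hq) hq2, P.ord_const ha, P.ord_const hc, zero_add,
          zero_add, ← P.ord_div hp2 hq2] at h6
        exact h6)
      rw [aeval_mono, aeval_mono, aeval_mono, aeval_mono, torus_mono y b ht,
        torus_mono y b ht, h5]
      change algebraMap k K a * (t ^ (∑ j, (β j : ℤ) * b j) * ∏ j, y j ^ α j) *
        (algebraMap k K c * ∏ j, y j ^ β j) = algebraMap k K a * (∏ j, y j ^ α j) *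
        (algebraMap k K c * (t ^ (∑ j, (β j : ℤ) * b j) * ∏ j, y j ^ β j))
      ring
  change t ^ M * aeval (fun j => t ^ b j * y j) F = 0
  rw [h1, mul_zero]

/-- **Nested sums of monomials: the dichotomy.** -/
theorem nest_dich [Finite ι] [IsAlgClosed k] [CharZero k] {r s N h : ℕ} (hN2 : 2 ≤ N)
    (hN : 8 * (r * ((h + 1) * (2 * s * (2 * s)) * ((2 * s + 1) * tn (2 * s - 1)))) ≤ N)
    (F : ι → MvPolynomial (Fin (n + 1)) k)
    (hF : ∀ i, IsForm (F i) ∧ NestedIn IsMono s N h (F i)) :
    ∃ A : ℕ, ∀ (K E : Type) [Field K] [Field E] [Algebra k K] [Algebra k E] [Algebra K E]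
      [IsScalarTower k K E] [FiniteDimensional K E] [IsFF k K] [IsFF k E],
      Module.finrank K E ≤ r → ∀ f : Fin (n + 1) → E, (∃ j, f j ≠ 0) →
      (∀ i, aeval f (F i) = 0) → ¬ WtMv F f → pht k f ≤ A * max (canDeg k K) 0 := by
  classical
  have := Fintype.ofFinite ι
  choose S hS using fun i => nested_fin (hF i).2
  obtain ⟨B0, hB0⟩ : ∃ B0 : ℕ, B0 = Cst r (2 * s) ((h + 1) * (2 * s * (2 * s))) := ⟨_, rfl⟩
  set Δ : Finset (Fin (n + 1) → ℤ) := Finset.univ.biUnion fun i => Finset.image₂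
    (fun α β : Fin (n + 1) →₀ ℕ => fun l => (α l : ℤ) - β l) (S i) (S i) with hΔ
  obtain ⟨C1, hC1⟩ : ∃ C1 : ℕ, C1 = ∑ J0 : Finset (Fin (n + 1)), ∑ j, ∑ Q ∈ Δ.powerset,
    Pool.Agent.W603.LV.cst J0 Q j := ⟨_, rfl⟩
  refine ⟨(n + 1) * (C1 * B0), ?_⟩
  intro K E _ _ _ _ _ _ _ _ _ hr f hfne hfF hno
  have hE0 : CharZero E := charZero_of_injective_algebraMap (algebraMap k E).injective
  have hinf : Infinite E := inferInstance
  choose e he using fun i => (hF i).1
  set χ : ℤ := max (canDeg k K) 0 with hχ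
  have hχ0 : 0 ≤ χ := le_max_right _ _
  -- a coordinate to divide by
  obtain ⟨l0, hl0⟩ := hfne
  obtain ⟨f', hf'⟩ : ∃ f' : Fin (n + 1) → E, f' = fun j => (f l0)⁻¹ * f j := ⟨_, rfl⟩
  have hf'0 : ∀ j, f' j = 0 ↔ f j = 0 := by
    intro j
    rw [hf']
    simp [hl0]
  have hf'l0 : f' l0 = 1 := by
    rw [hf']
    exact inv_mul_cancel₀ hl0
  have hf'F : ∀ i, val f' (F i) = 0 := by
    intro i
    rw [hf', val_smul (he i)]
    have h1 : val f (F i) = 0 := hfF i
    rw [h1, mul_zero]
  set J0 : Finset (Fin (n + 1)) := Finset.univ.filter fun j => f' j = 0 with hJ0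
  have hf0 : ∀ j ∈ J0, f' j = 0 := fun j hj => (Finset.mem_filter.1 hj).2
  have hf1 : ∀ j, j ∉ J0 → f' j ≠ 0 := fun j hj h =>
    hj (Finset.mem_filter.2 ⟨Finset.mem_univ _, h⟩)
  have hl0J : l0 ∉ J0 := fun h => by
    have := hf0 l0 h
    rw [hf'l0] at this
    exact one_ne_zero this
  set y : Fin (n + 1) → E := fun l => if l ∈ J0 then 1 else f' l with hy
  have hy0 : ∀ l, y l ≠ 0 := by
    intro l
    simp only [hy]
    split_ifs with h
    · exact one_ne_zero
    · exact hf1 l h
  have hmon : ∀ α : Fin (n + 1) →₀ ℕ, ∏ j, f' j ^ α j ≠ 0 →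
      ∏ j, f' j ^ α j = mon y (fun l => (α l : ℤ)) := by
    intro α hα
    unfold mon
    refine Finset.prod_congr rfl fun j _ => ?_
    simp only [hy, zpow_natCast]
    split_ifs with h
    · have h1 : α j = 0 := by
        by_contra hne
        apply hα
        apply Finset.prod_eq_zero (Finset.mem_univ j)
        rw [hf0 j h, zero_pow hne]
      rw [h1, pow_zero, pow_zero]
    · rfl
  set Q : Finset (Fin (n + 1) → ℤ) := Δ.filter fun q => hgt k (mon y q) ≤ B0 * χ with hQ
  have hQΔ : Q ∈ Δ.powerset := Finset.mem_powerset.2 (Finset.filter_subset _ _)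
  have hQB : ∀ q ∈ Q, hgt k (mon y q) ≤ B0 * χ := fun q hq => (Finset.mem_filter.1 hq).2
  -- each affine coordinate has small height
  have hcoord : ∀ j, hgt k (f' j) ≤ (C1 * B0 : ℕ) * χ := by
    intro j
    by_cases hj : j ∈ J0
    · rw [hf0 j hj]
      have h1 : hgt k (0 : E) = 0 := by
        rw [hgt_finset (k := k) (0 : E) ∅ (fun P h => absurd P.ord_zero h)]
        rfl
      rw [h1]
      exact mul_nonneg (Nat.cast_nonneg _) hχ0
    · by_cases hjl : j = l0
      · rw [hjl, hf'l0, hgt_one]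
        exact mul_nonneg (Nat.cast_nonneg _) hχ0
      have hj1 : j ∉ insert l0 J0 := by
        rw [Finset.mem_insert, not_or]
        exact ⟨hjl, hj⟩
      rcases Pool.Agent.W603.LV.dich (insert l0 J0) Q j with ⟨d, c, hd, hc⟩ | ⟨b, hbj, hb0, hbQ⟩
      · have h1 := hgt_le_cst (k := k) hj1 ⟨c, d, hd, hc⟩ hy0
          (fun l hl => by
            rcases Finset.mem_insert.1 hl with rfl | hl
            · simp only [hy, if_neg hl0J, hf'l0]
            · simp only [hy, if_pos hl]) hQB
        have h2 : y j = f' j := by simp only [hy, if_neg hj]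
        rw [h2] at h1
        refine h1.trans ?_
        have h3 : Pool.Agent.W603.LV.cst (insert l0 J0) Q j ≤ C1 := by
          rw [hC1]
          refine le_trans ?_ (Finset.single_le_sum
            (f := fun J0 : Finset (Fin (n + 1)) => ∑ j, ∑ Q ∈ Δ.powerset,
              Pool.Agent.W603.LV.cst J0 Q j)
            (fun _ _ => Nat.zero_le _) (Finset.mem_univ (insert l0 J0)))
          refine le_trans ?_ (Finset.single_le_sum
            (f := fun j => ∑ Q ∈ Δ.powerset, Pool.Agent.W603.LV.cst (insert l0 J0) Q j)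
            (fun _ _ => Nat.zero_le _) (Finset.mem_univ j))
          exact Finset.single_le_sum (f := fun Q => Pool.Agent.W603.LV.cst (insert l0 J0) Q j)
            (fun _ _ => Nat.zero_le _) hQΔ
        have h4 : (Pool.Agent.W603.LV.cst (insert l0 J0) Q j : ℤ) ≤ C1 := by exact_mod_cast h3
        have h5 : (0 : ℤ) ≤ B0 * χ := mul_nonneg (Nat.cast_nonneg _) hχ0
        have h6 := mul_le_mul_of_nonneg_right h4 h5
        refine h6.trans (le_of_eq ?_)
        push_cast; ring
      · exfalso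
        apply hno
        have hfj : f j ≠ 0 := fun h => hf1 j hj ((hf'0 j).2 h)
        refine ⟨b, j, l0, hfj, hl0, ?_, fun i v => ?_⟩
        · rw [hb0 l0 (Finset.mem_insert_self _ _)]
          exact hbj
        · have h1 := wc_small hN2 (hS i) (hf'F i) (b := b) (fun A hA α hα β hβ hα0 hβ0 hz => by
            have h2 := hgt_small hr hA hN (by omega) hz
            have hq : (fun l => (α l : ℤ) - β l) ∈ Q := by
              rw [hQ, Finset.mem_filter]
              refine ⟨Finset.mem_biUnion.2 ⟨i, Finset.mem_univ _,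
                Finset.mem_image₂.2 ⟨α, hα, β, hβ, rfl⟩⟩, ?_⟩
              have h3 : mon y (fun l => (α l : ℤ) - β l) =
                  (∏ j, f' j ^ α j) / ∏ j, f' j ^ β j := by
                rw [hmon α hα0, hmon β hβ0]
                unfold mon
                rw [← Finset.prod_div_distrib]
                exact Finset.prod_congr rfl fun j _ => zpow_sub₀ (hy0 j) _ _
              rw [h3, hB0]
              exact h2
            have h4 := hbQ _ hq
            simp only [mul_sub, Finset.sum_sub_distrib] at h4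
            rw [sub_eq_zero] at h4
            calc ∑ j, (α j : ℤ) * b j = ∑ j, b j * (α j : ℤ) :=
                  Finset.sum_congr rfl fun _ _ => mul_comm _ _
              _ = ∑ j, b j * (β j : ℤ) := h4
              _ = ∑ j, (β j : ℤ) * b j := Finset.sum_congr rfl fun _ _ => mul_comm _ _) v
          obtain ⟨d, hd⟩ := wc_form ⟨e i, he i⟩ b v
          rw [hf', val_smul hd] at h1
          exact (mul_eq_zero.1 h1).resolve_left (pow_ne_zero _ (inv_ne_zero hl0))
  refine (pht_le f hl0).trans ?_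
  have h1 : ∀ j, f j / f l0 = f' j := by
    intro j
    rw [hf']
    simp only
    rw [div_eq_inv_mul]
  rw [Finset.sum_congr rfl fun j _ => congrArg (hgt k) (h1 j)]
  refine (Finset.sum_le_sum fun j _ => hcoord j).trans ?_
  rw [Finset.sum_const, nsmul_eq_mul, Finset.card_univ, Fintype.card_fin]
  push_cast
  exact le_of_eq (by ring)

end Pool.Agent.X333.DC
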