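import Pool.Agent.X333.DC.Key
import Pool.Agent.X333.DC.Ker

/-!
Nested sums of high powers of linear forms: the heights of the points over coverings of bounded
degree which are not moved by linear motions.
-/

set_option autoImplicit false
set_option linter.overlappingInstances false
set_option linter.unusedSectionVars false

open FF MvPolynomial Pool.Agent.W603.LV Pool.Agent.TH710.ND Pool.Agent.X333.DN
  Pool.Agent.W603.GW Pool.Agent.W603.GX Pool.Agent.W603.GY Pool.Agent.W603.GR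

namespace Pool.Agent.X333.DC

open Pool.Agent.W602.GT (tn lin lin_add_smul val val_smul IsForm)
open Pool.Agent.W603.PV (pht pht_le)

variable {k : Type} [Field k] {n : ℕ} {ι : Type}

/-- the linear forms with coefficients in a finite set -/
def LfL (S : Finset (Fin (n + 1) → k)) (p : MvPolynomial (Fin (n + 1)) k) : Prop :=
  ∃ a ∈ S, p = ∑ j, C (a j) * X j

theorem gate_finL (L : List (ℕ × ℕ)) : ∀ p : MvPolynomial (Fin (n + 1)) k, GateL IsLin L p →
    ∃ S : Finset (Fin (n + 1) → k), GateL (LfL S) L p := by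
  classical
  induction L with
  | nil =>
    rintro p ⟨a, rfl⟩
    exact ⟨{a}, a, Finset.mem_singleton_self a, rfl⟩
  | cons ke L ih =>
    rintro p ⟨c, g, hg, hp⟩
    choose S hS using fun i => ih _ (hg i)
    refine ⟨Finset.univ.biUnion S, c, g, fun i => gate_mono ?_ L _ (hS i), hp⟩
    rintro q ⟨α, hα, hq⟩
    exact ⟨α, Finset.mem_biUnion.2 ⟨i, Finset.mem_univ _, hα⟩, hq⟩

theorem nested_finL {s N m : ℕ} {F : MvPolynomial (Fin (n + 1)) k}
    (hF : NestedIn IsLin s N m F) : ∃ S : Finset (Fin (n + 1) → k), NestedIn (LfL S) s N m F := by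
  classical
  obtain ⟨r, e, L, c, g, hr, he, hL1, hL2, hg, hFe⟩ := hF
  choose S hS using fun i => gate_finL L _ (hg i)
  refine ⟨Finset.univ.biUnion S, r, e, L, c, g, hr, he, hL1, hL2,
    fun i => gate_mono ?_ L _ (hS i), hFe⟩
  rintro q ⟨α, hα, hq⟩
  exact ⟨α, Finset.mem_biUnion.2 ⟨i, Finset.mem_univ _, hα⟩, hq⟩

/-- one finite set of leaves for all equations -/
theorem nested_finL' [Finite ι] {s N m : ℕ} {F : ι → MvPolynomial (Fin (n + 1)) k}
    (hF : ∀ i, NestedIn IsLin s N m (F i)) : ∃ S : Finset (Fin (n + 1) → k),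
      ∀ i, NestedIn (LfL S) s N m (F i) := by
  classical
  cases nonempty_fintype ι
  choose S hS using fun i => nested_finL (hF i)
  refine ⟨Finset.univ.biUnion S, fun i => nested_mono ?_ (hS i)⟩
  rintro q ⟨α, hα, hq⟩
  exact ⟨α, Finset.mem_biUnion.2 ⟨i, Finset.mem_univ _, hα⟩, hq⟩

/-- the solutions of the linear equations given by the forms of `S` which vanish at `f` and the
ratios of the pairs in `Q` -/
def Sol (S : Finset (Fin (n + 1) → k)) (Q : Set ((Fin (n + 1) → k) × (Fin (n + 1) → k)))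
    {E : Type} [Field E] [Algebra k E] (f x : Fin (n + 1) → E) : Prop :=
  (∀ a ∈ S, lin a f = 0 → lin a x = 0) ∧
    ∀ p ∈ Q, lin p.1 x * lin p.2 f = lin p.1 f * lin p.2 x

/-- the point `f` moves along a line which is given by linear equations of this kind -/
def LinT (S : Finset (Fin (n + 1) → k)) (F : ι → MvPolynomial (Fin (n + 1)) k)
    (i0 : Fin (n + 1)) {E : Type} [Field E] [Algebra k E] (f : Fin (n + 1) → E) : Prop :=
  ∃ (Q : Set ((Fin (n + 1) → k) × (Fin (n + 1) → k))) (v : Fin (n + 1) → E),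
    (∀ p ∈ Q, p.1 ∈ S ∧ p.2 ∈ S ∧ lin p.1 f ≠ 0 ∧ lin p.2 f ≠ 0) ∧ v i0 = 0 ∧ v ≠ 0 ∧
    Sol S Q f v ∧ ∀ x : Fin (n + 1) → E, Sol S Q f x → ∀ e, val x (F e) = 0

theorem hgt_row [IsAlgClosed k] [CharZero k] {E : Type} [Field E] [Algebra k E] [IsFF k E]
    (a b : k) (g : E) : hgt k (algebraMap k E a - g * algebraMap k E b) ≤ hgt k g := by
  classical
  have h1 := hgt_mvpoly (k := k) (fun _ : Fin 1 => g)
    (C a - C b * X (0 : Fin 1) : MvPolynomial (Fin 1) k)
  have h2 : aeval (fun _ : Fin 1 => g) (C a - C b * X (0 : Fin 1) : MvPolynomial (Fin 1) k) =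
      algebraMap k E a - g * algebraMap k E b := by
    rw [map_sub, map_mul, aeval_C, aeval_C, aeval_X]
    ring
  rw [h2] at h1
  refine h1.trans ?_
  have h3 : (C a - C b * X (0 : Fin 1) : MvPolynomial (Fin 1) k).totalDegree ≤ 1 := by
    refine (totalDegree_sub _ _).trans (max_le ?_ ?_)
    · rw [totalDegree_C]
      exact Nat.zero_le _
    · refine (totalDegree_mul _ _).trans ?_
      rw [totalDegree_C, zero_add, totalDegree_X]
  have h4 : (0 : ℤ) ≤ hgt k g := hgt_nonneg g
  rw [Fin.sum_univ_one]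
  have h5 : (((C a - C b * X (0 : Fin 1) : MvPolynomial (Fin 1) k).totalDegree : ℕ) : ℤ) ≤ 1 := by
    exact_mod_cast h3
  nlinarith

theorem hgt_cst' [IsAlgClosed k] [CharZero k] {E : Type} [Field E] [Algebra k E] [IsFF k E]
    (c : k) : hgt k (algebraMap k E c) = 0 := by
  classical
  rw [hgt_finset (k := k) (algebraMap k E c) ∅ (fun P h => absurd (by
    by_cases h0 : c = 0
    · rw [h0, map_zero, P.ord_zero]
    · exact P.ord_const h0) h)]
  rfl

/-- **Nested sums of linear forms: the dichotomy.** -/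
theorem lin_dich [IsAlgClosed k] [CharZero k] {r s N h : ℕ} (hN2 : 2 ≤ N)
    (hN : 8 * (r * ((h + 1) * (2 * s * (2 * s)) * ((2 * s + 1) * tn (2 * s - 1)))) ≤ N)
    (F : ι → MvPolynomial (Fin (n + 1)) k) {S : Finset (Fin (n + 1) → k)}
    (hF : ∀ i, NestedIn (LfL S) s N h (F i)) :
    ∃ A : ℕ, ∀ (K E : Type) [Field K] [Field E] [Algebra k K] [Algebra k E] [Algebra K E]
      [IsScalarTower k K E] [FiniteDimensional K E] [IsFF k K] [IsFF k E],
      Module.finrank K E ≤ r → ∀ (f : Fin (n + 1) → E) (i0 : Fin (n + 1)), f i0 ≠ 0 →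
      (∀ i, aeval f (F i) = 0) → ¬ LinT S F i0 f → pht k f ≤ A * max (canDeg k K) 0 := by
  classical
  obtain ⟨B0, hB0⟩ : ∃ B0 : ℕ, B0 = Cst r (2 * s) ((h + 1) * (2 * s * (2 * s))) := ⟨_, rfl⟩
  refine ⟨(n + 1) * (2 * (dd k n * (n * n))) * B0, ?_⟩
  intro K E _ _ _ _ _ _ _ _ _ hr f i0 hi0 hfF hno
  set χ : ℤ := max (canDeg k K) 0 with hχ
  have hχ0 : 0 ≤ χ := le_max_right _ _
  have hBχ : (0 : ℤ) ≤ B0 * χ := mul_nonneg (Nat.cast_nonneg _) hχ0
  let Q : Set ((Fin (n + 1) → k) × (Fin (n + 1) → k)) := {p | p.1 ∈ S ∧ p.2 ∈ S ∧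
    lin p.1 f ≠ 0 ∧ lin p.2 f ≠ 0 ∧ hgt k (lin p.1 f / lin p.2 f) ≤ B0 * χ}
  have hx : ∀ x : Fin (n + 1) → E, Sol S Q f x → ∀ e, val x (F e) = 0 := by
    intro x hx e
    change aeval x (F e) = 0
    refine nested_lf (hF e) hN2 (hfF e) ?_ ?_
    · rintro p ⟨a, ha, rfl⟩ h
      rw [aeval_lin] at h ⊢
      exact hx.1 a ha h
    · rintro A hA p q ⟨a, ha, rfl⟩ ⟨b, hb, rfl⟩ hp hq hW
      rw [aeval_lin] at hp hq
      rw [aeval_lin, aeval_lin] at hW
      rw [aeval_lin, aeval_lin, aeval_lin, aeval_lin]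
      have h2 := hgt_small hr hA hN (by omega) hW.1
      exact hx.2 (a, b) ⟨ha, hb, hp, hq, by rw [hB0]; exact h2⟩
  by_cases hv : ∃ v : Fin (n + 1) → E, Sol S Q f v ∧ v i0 = 0 ∧ v ≠ 0
  · exfalso
    obtain ⟨v, hv1, hv2, hv3⟩ := hv
    exact hno ⟨Q, v, fun p hp => ⟨hp.1, hp.2.1, hp.2.2.1, hp.2.2.2.1⟩, hv2, hv3, hv1, hx⟩
  · push Not at hv
    let A : S ⊕ Q → Fin (n + 1) → E := Sum.elim
      (fun a j => if lin a.1 f = 0 then algebraMap k E (a.1 j) else 0)
      (fun p j => algebraMap k E (p.1.1 j) -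
        (lin p.1.1 f / lin p.1.2 f) * algebraMap k E (p.1.2 j))
    have hlin : ∀ (a : Fin (n + 1) → k) (v : Fin (n + 1) → E),
        ∑ j, algebraMap k E (a j) * v j = lin a v := fun _ _ => rfl
    have hA1 : ∀ (a : S) (v : Fin (n + 1) → E),
        ∑ j, A (Sum.inl a) j * v j = if lin a.1 f = 0 then lin a.1 v else 0 := by
      intro a v
      simp only [A, Sum.elim_inl]
      split_ifs
      · rfl
      · simp
    have hA2 : ∀ (p : Q) (v : Fin (n + 1) → E),
        ∑ j, A (Sum.inr p) j * v j = lin p.1.1 v - (lin p.1.1 f / lin p.1.2 f) * lin p.1.2 v := by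
      intro p v
      simp only [A, Sum.elim_inr, sub_mul, Finset.sum_sub_distrib, mul_assoc]
      rw [hlin, ← Finset.mul_sum, hlin]
    have hAh : ∀ i j, hgt k (A i j) ≤ B0 * χ := by
      rintro (a | p) j
      · simp only [A, Sum.elim_inl]
        split_ifs
        · rw [hgt_cst']
          exact hBχ
        · have h1 : hgt k (0 : E) = 0 := by
            rw [hgt_finset (k := k) (0 : E) ∅ (fun P h => absurd P.ord_zero h)]
            rfl
          rw [h1]
          exact hBχ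
      · simp only [A, Sum.elim_inr]
        exact (hgt_row _ _ _).trans p.2.2.2.2.2
    have hiff : ∀ v : Fin (n + 1) → E, (∀ i, ∑ j, A i j * v j = 0) ↔ Sol S Q f v := by
      intro v
      constructor
      · intro h
        refine ⟨fun a ha h0 => ?_, fun p hp => ?_⟩
        · have h1 := h (Sum.inl ⟨a, ha⟩)
          rw [hA1, if_pos h0] at h1
          exact h1
        · have h1 := h (Sum.inr ⟨p, hp⟩)
          rw [hA2] at h1
          have h2 : lin p.2 f ≠ 0 := hp.2.2.2.1
          have h3 : lin p.1 v = lin p.1 f / lin p.2 f * lin p.2 v := sub_eq_zero.1 h1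
          rw [h3]
          field_simp
      · rintro ⟨h1, h2⟩ (a | p)
        · rw [hA1]
          split_ifs with h0
          · exact h1 a.1 a.2 h0
          · rfl
        · rw [hA2, sub_eq_zero]
          have h3 : lin p.1.2 f ≠ 0 := p.2.2.2.2.1
          have h4 := h2 p.1 p.2
          field_simp
          linear_combination h4
    have hf : Sol S Q f f := ⟨fun a _ h0 => h0, fun p _ => rfl⟩
    have h1 := hgt_kernel (k := k) A hBχ hAh hi0 ((hiff f).2 hf) fun v hv1 hv2 => by
      by_contra h0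
      exact h0 (hv v ((hiff v).1 hv1) hv2)
    refine h1.trans (le_of_eq ?_)
    push_cast
    ring

end Pool.Agent.X333.DC
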