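import Pool.Agent.X333.DC.Orb
import Pool.Agent.X333.MC.Seq

/-!
The complements of hypersurfaces in the images of projective varieties given by nested sums of high
powers of monomials: the degrees of curves and log general type.
-/

set_option autoImplicit false
set_option maxHeartbeats 400000
set_option linter.overlappingInstances false
set_option linter.unusedSectionVars false

open FF Pool.Agent.W603.LV

namespace Pool.Agent.X333.DC

open Pool.Agent.W602.GT Pool.Agent.TH466.QG Pool.Agent.Y221.BD Pool.Agent.Y221.AH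
  Pool.Agent.TH710.ND Pool.Agent.X333.DN Pool.Agent.Y221.FQ
open Pool.Agent.TH143.GT (rf rf_zero val_rf Flat Fam)
open Pool.Agent.W603.GR (OffQ)
open Pool.Agent.TH710.NU (zeroInf)
open Pool.Agent.W603.PV (pht pord pht_le pht_scale isFF_of_finite exists_pord pord_le ge_pord)
open Pool.Agent.W603.CX (hgt_le_pht)

variable {k : Type} [Field k] {n M : ℕ} {ι μ : Type}
  {F : ι → MvPolynomial (Fin (n + 1)) k}
  {Φ : μ → MvPolynomial (Fin (M + 1)) k} {G : Fin (M + 1) → MvPolynomial (Fin (n + 1)) k}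
  {Q : MvPolynomial (Fin (M + 1)) k} {q : ℕ} {U : Set (Fin (n + 1))}

/-- The vector `f` of elements of the function field `L` is the vector of homogeneous coordinates of
a morphism from the smooth projective curve with function field `L`, without the points in the
finite set `S`, to the complement of the hypersurface given by the form `Q` of degree `q` in the
projective variety `{Φ = 0}`. -/
def MapQ (Φ : μ → MvPolynomial (Fin (M + 1)) k) (Q : MvPolynomial (Fin (M + 1)) k) (q : ℕ)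
    {L : Type} [Field L] [Algebra k L] (S : Finset (Place k L)) (f : Fin (M + 1) → L) : Prop :=
  (∃ j, f j ≠ 0) ∧ (∀ e, MvPolynomial.aeval f (Φ e) = 0) ∧ MvPolynomial.aeval f Q ≠ 0 ∧
    ∀ P ∉ S, P.ord (MvPolynomial.aeval f Q) = q * pord P f

variable [IsAlgClosed k] [CharZero k]

/-- **Degrees.** -/
theorem opi_deg [Finite ι] (hG : Mor F Φ G) (hon : Onto F Φ G) {ρ r s N h : ℕ}
    (hfib : FibresLe F G r) (hF : ∀ i, IsForm (F i) ∧ NestedIn IsMono s N h (F i)) (hN2 : 2 ≤ N)
    (hN : 8 * (ρ * r * ((h + 1) * (2 * s * (2 * s)) * ((2 * s + 1) * tn (2 * s - 1)))) ≤ N)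
    (hQf : IsForm Q) (hU : ∀ x ∈ Cone F, val (im G x) Q ≠ 0 → ∀ j ∈ U, x j ≠ 0)
    {T : Set (MvPolynomial (Fin (M + 1)) k)} (hTf : ∀ H ∈ T, IsForm H)
    (hT : ∀ x b, DiagCurve U F x b → ∀ H ∈ T, val (im G x) H = 0) :
    ∃ A : ℕ, ∀ (K E : Type) [Field K] [Field E] [Algebra k K] [Algebra k E] [Algebra K E]
      [IsScalarTower k K E] [FiniteDimensional K E] [IsFF k K] [IsFF k E],
      Module.finrank K E ≤ ρ → ∀ f : Fin (M + 1) → E, (∃ j, f j ≠ 0) →
      (∀ e, MvPolynomial.aeval f (Φ e) = 0) → MvPolynomial.aeval f Q ≠ 0 →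
      (∃ H ∈ T, MvPolynomial.aeval f H ≠ 0) → pht k f ≤ A * max (canDeg k K) 0 := by
  obtain ⟨A, hA⟩ := nest_dich (r := ρ * r) hN2 hN F hF
  obtain ⟨eG, heG, hGe⟩ := hG.form
  refine ⟨eG * A, ?_⟩
  intro K0 K _ _ _ _ _ _ _ _ _ hρ f hf0 hf hfQ ⟨H, hH, hfH⟩
  have hf0' : f ≠ 0 := by
    rintro rfl
    obtain ⟨j, hj⟩ := hf0
    exact hj rfl
  obtain ⟨E, i1, i2, i3, i4, i5, u, i0, c, hrk, hu0, huF, hc0, hcz, htop⟩ :=
    lift_point (fun e => (hF e).1) hG hon hfib hf0' hf
  have hff : IsFF k E := isFF_of_finite (F := K)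
  have huex : ∃ j, u j ≠ 0 := ⟨i0, by rw [hu0]; exact one_ne_zero⟩
  have hu : u ≠ 0 := by
    intro h0
    rw [h0] at hu0
    exact zero_ne_one hu0
  let iA : Algebra K0 E := ((algebraMap K E).comp (algebraMap K0 K)).toAlgebra
  have iT1 : IsScalarTower K0 K E := IsScalarTower.of_algebraMap_eq fun _ => rfl
  have iT2 : IsScalarTower k K0 E := IsScalarTower.of_algebraMap_eq fun c => by
    change _ = algebraMap K E (algebraMap K0 K (algebraMap k K0 c))
    rw [← IsScalarTower.algebraMap_apply k K0 K, ← IsScalarTower.algebraMap_apply k K E]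
  have iF : FiniteDimensional K0 E := FiniteDimensional.trans K0 K E
  have hfr : Module.finrank K0 E ≤ ρ * r := by
    rw [← Module.finrank_mul_finrank K0 K E]
    exact Nat.mul_le_mul hρ hrk
  have hQu : val (im G u) Q ≠ 0 := fun h0 => hfQ (val_prop hcz hQf h0)
  have hHu : val (im G u) H ≠ 0 := fun h0 => hfH (val_prop hcz (hTf H hH) h0)
  have hmv : ¬ WtMv F u := by
    intro hmv
    obtain ⟨x, b, hd, hx⟩ := orb_of_wt hU huF hmv hQu hHu
    exact hx (hT x b hd H hH)
  have h2 := hA K0 E hfr u huex huF hmv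
  have hGu := hG.mem hu huF
  have h3 : pht k (fun j => algebraMap K E (f j)) = eG * pht k u := by
    have h4 : (fun j => algebraMap K E (f j)) = fun j => c * im G u j := funext hcz
    rw [h4, pht_scale (Function.ne_iff.1 hGu.1) hc0, pht_im hG hGe (fun e => (hF e).1) huex huF]
  rw [pht_algebraMap hf0] at h3
  have h4 : 0 ≤ pht k u := pht_nonneg huex
  have h5 : 0 ≤ pht k f := pht_nonneg hf0
  have h6 : (1 : ℤ) ≤ Module.finrank K E := by exact_mod_cast Module.finrank_pos
  have h8 : (0 : ℤ) ≤ eG := by positivity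
  have h9 : pht k f ≤ Module.finrank K E * pht k f := by nlinarith
  have h11 := mul_le_mul_of_nonneg_left h2 h8
  push_cast
  rw [mul_assoc]
  linarith

/-- **Subvarieties.** -/
theorem opi_gen (hG : Mor F Φ G) (hon : Onto F Φ G) {r s N h : ℕ}
    (hfib : FibresLe F G r) (hF : ∀ i, IsForm (F i) ∧ NestedIn IsMono s N h (F i))
    (hN : 8 * (r * ((n + 1) * ((h + 1) * (2 * s + 1) ^ 5))) ≤ N) (hQf : IsForm Q)
    (hU : ∀ x ∈ Cone F, val (im G x) Q ≠ 0 → ∀ j ∈ U, x j ≠ 0)
    {T : Set (MvPolynomial (Fin (M + 1)) k)} (hTf : ∀ H ∈ T, IsForm H)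
    (hT : ∀ x b, DiagCurve U F x b → ∀ H ∈ T, val (im G x) H = 0) {K : Type} [Field K]
    [Algebra k K] {w : ℕ} {z : Fin (M + 1) → K} (hw : 1 ≤ w) (hz : SubVar Φ K w z)
    (hzQ : val z Q ≠ 0) (hzT : ∃ H ∈ T, val z H ≠ 0) : GeneralType k K w := by
  by_contra hgt
  obtain ⟨H, hH, hzH⟩ := hzT
  obtain ⟨E, i1, i2, i3, i4, i5, u, i0, c, hrk, hu0, huF, hc0, hcz, htop⟩ :=
    lift_point (fun e => (hF e).1) hG hon hfib hz.ne hz.mem
  have hu : u ≠ 0 := by
    intro h0
    rw [h0] at hu0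
    exact zero_ne_one hu0
  have halg : Algebra.IsAlgebraic (coords k u) E := by
    rw [lift_gen hz.gen hu0 hc0 hcz htop]
    infer_instance
  have htr : Algebra.trdeg k E = w := by rw [trdeg_alg (E := K), hz.dim]
  have hwn : w ≤ n := Pool.Agent.W602.GT.dim_le hu halg htr
  have hr1 : 1 ≤ r := one_le_rank (L := K) (K' := E) hrk
  obtain ⟨hb1, hb2⟩ := bound_le hr1 hwn hN
  have hC : ¬ HasNest k s h N w E := by
    intro hC
    exact hgt (general_below' hw hrk hC hb1)
  obtain ⟨b, i, i', hi, hi', hb, hwc⟩ := sparse_n' (fun e => (hF e).2) hb2 halg htr huF hC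
  have hQu : val (im G u) Q ≠ 0 := fun h0 => hzQ (val_prop hcz hQf h0)
  have hHu : val (im G u) H ≠ 0 := fun h0 => hzH (val_prop hcz (hTf H hH) h0)
  obtain ⟨x, b, hd, hx⟩ := orb_of_wt hU huF ⟨b, i, i', hi, hi', hb, hwc⟩ hQu hHu
  exact hx (hT x b hd H hH)

theorem reg_poly {L : Type} [Field L] [Algebra k L] (P : Place k L) {t : L} (ht : P.ord t = 0)
    (p : Polynomial k) : P.Reg (Polynomial.aeval t p) := by
  induction p using Polynomial.induction_on' with
  | add p q hp hq =>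
    rw [map_add]
    exact P.reg_add hp hq
  | monomial n a =>
    rw [Polynomial.aeval_monomial]
    refine P.reg_mul (P.reg_const a) ?_
    right
    rw [P.ord_pow, ht, mul_zero]

/-- **The images of orbits have unbounded degrees.** -/
theorem opi_unb (hFf : ∀ e, IsForm (F e)) (hG : Mor F Φ G)
    (hU : ∀ x ∈ Cone F, (∀ j ∈ U, x j ≠ 0) → val (im G x) Q ≠ 0) (hQ : Q.IsHomogeneous q)
    {x : Fin (n + 1) → k} {b : Fin (n + 1) → ℤ} (hx : DiagCurve U F x b) (D : ℤ) :
    ∃ f : Fin (M + 1) → RatFunc k, MapQ Φ Q q (zeroInf k) f ∧ D < pht k f ∧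
      ∀ H : MvPolynomial (Fin (M + 1)) k, IsForm H → val (im G x) H ≠ 0 →
        MvPolynomial.aeval f H ≠ 0 := by
  classical
  have hinf : Infinite k := inferInstance
  have hxU : ∀ j ∈ U, x j ≠ 0 := by
    intro j hj
    have h1 := (hx.1 1 one_ne_zero).2.1 j hj
    simpa using h1
  have hwc : ∀ e v, val x (wc b v (F e)) = 0 := fun e v =>
    wc_of_orbit (fun t ht => (hx.1 t ht).2.2 e) v
  obtain ⟨i, i', hi, hi', hb⟩ := hx.2
  have hx0 : x ≠ 0 := fun h => hi (congrFun h i)
  obtain ⟨T, hTd⟩ : ∃ T : RatFunc k, T = RatFunc.X := ⟨_, rfl⟩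
  have hTt : Transcendental k T := hTd ▸ RatFunc.transcendental_X
  have hT0 : T ≠ 0 := by rw [hTd]; exact RatFunc.X_ne_zero
  obtain ⟨m, hm⟩ : ∃ m : ℕ, m = D.toNat + 1 := ⟨_, rfl⟩
  have hm0 : 0 < m := by omega
  obtain ⟨u, hu⟩ : ∃ u : Fin (n + 1) → RatFunc k, u = fun j =>
    (T ^ m) ^ b j * algebraMap k (RatFunc k) (x j) := ⟨_, rfl⟩
  have huj : ∀ j, x j ≠ 0 → u j ≠ 0 := fun j hj => by
    rw [hu]
    exact mul_ne_zero (zpow_ne_zero _ (pow_ne_zero _ hT0)) ((map_ne_zero _).2 hj)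
  have hune : u ≠ 0 := fun h => huj i hi (congrFun h i)
  have huF : ∀ e, val u (F e) = 0 := by
    intro e
    have h1 := orb_mem (k := k) (Ω := RatFunc k) hFf hwc (pow_ne_zero m hT0) 0 e
    rw [hu]
    simpa using h1
  have huU : ∀ j ∈ U, u j ≠ 0 := fun j hj => huj j (hxU j hj)
  obtain ⟨B, hB⟩ := exists_shift b
  obtain ⟨eG, heG, hGe⟩ := hG.form
  have hTm : T ^ m ≠ 0 := pow_ne_zero _ hT0
  have hTB : ((T ^ m) ^ B) ^ eG ≠ 0 := pow_ne_zero _ (pow_ne_zero _ hTm)
  have hev : ∀ (d : ℕ) (H : MvPolynomial (Fin (M + 1)) k), H.IsHomogeneous d →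
      Polynomial.aeval (T ^ m) (MvPolynomial.aeval (imP G b B x) H : Polynomial k) =
      (((T ^ m) ^ B) ^ eG) ^ d * val (im G u) H := by
    intro d H hH
    rw [imP_eval hB x hTm]
    have h1 : (fun j => (T ^ m) ^ B * ((T ^ m) ^ b j * algebraMap k (RatFunc k) (x j))) =
        fun j => (T ^ m) ^ B * u j := by rw [hu]
    rw [h1, im_smul hGe, val_smul hH]
  obtain ⟨hGu, hGuΦ⟩ := hG.mem hune huF
  refine ⟨im G u, ⟨Function.ne_iff.1 hGu, hGuΦ, off_ext hU hune huF huU, fun P hP => ?_⟩, ?_, ?_⟩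
  · -- the orders
    have hPT : P.ord T = 0 := by
      by_contra h
      apply hP
      unfold zeroInf
      rw [Set.Finite.mem_toFinset]
      rw [hTd] at h
      exact h
    have hPm : P.ord (T ^ m) = 0 := by rw [P.ord_pow, hPT, mul_zero]
    have hPB : P.ord (((T ^ m) ^ B) ^ eG) = 0 := by
      rw [P.ord_pow, P.ord_pow, hPm, mul_zero, mul_zero]
    obtain ⟨c, l, hc, hcl⟩ := orb_fam (k := k) hFf hU hB hx0 hxU hwc
    have h1 := hev q Q hQ
    have hQu : val (im G u) Q ≠ 0 := off_ext hU hune huF huU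
    have hc' : algebraMap k (RatFunc k) c ≠ 0 := (map_ne_zero _).2 hc
    have h2 : P.ord (val (im G u) Q) = 0 := by
      have h3 := congrArg P.ord h1
      rw [hcl, map_mul, Polynomial.aeval_C, map_pow, Polynomial.aeval_X,
        P.ord_mul hc' (pow_ne_zero _ hTm), P.ord_const hc, P.ord_pow, hPm,
        P.ord_mul (pow_ne_zero _ hTB) hQu, P.ord_pow, hPB] at h3
      linarith
    have h3 : ∀ a, P.Reg (im G u a) := by
      intro a
      have h4 := hev 1 (MvPolynomial.X a) (MvPolynomial.isHomogeneous_X k a)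
      have h5 : val (im G u) (MvPolynomial.X a : MvPolynomial (Fin (M + 1)) k) = im G u a :=
        MvPolynomial.aeval_X _ _
      rw [h5, pow_one, MvPolynomial.aeval_X] at h4
      have h6 := reg_poly P hPm (imP G b B x a)
      rw [h4] at h6
      by_cases h7 : im G u a = 0
      · exact Or.inl h7
      · right
        have h8 := h6.resolve_left (mul_ne_zero hTB h7)
        rw [P.ord_mul hTB h7, hPB, zero_add] at h8
        exact h8
    obtain ⟨a, ha, ha2⟩ := exists_pord P (f := im G u) (Function.ne_iff.1 hGu)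
    have h4 : 0 ≤ pord P (im G u) := by
      rw [← ha2]
      exact (h3 a).resolve_left ha
    have h5 := Pool.Agent.W603.GR.ord_form P ha (fun i hi => by
      rw [ha2]
      exact pord_le P hi) hQ hQu
    rw [ha2, h2] at h5
    have h6 : (0 : ℤ) ≤ q * pord P (im G u) := mul_nonneg (Nat.cast_nonneg _) h4
    change P.ord (val (im G u) Q) = _
    rw [h2]
    linarith
  · -- the height
    rw [pht_im hG hGe hFf (Function.ne_iff.1 hune) huF]
    obtain ⟨i, i', hi, hi', hlt⟩ : ∃ i i', x i ≠ 0 ∧ x i' ≠ 0 ∧ b i' < b i := by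
      rcases lt_or_gt_of_ne hb with h | h
      · exact ⟨i', i, hi', hi, h⟩
      · exact ⟨i, i', hi, hi', h⟩
    obtain ⟨d, hd, hd0⟩ : ∃ d : ℕ, (d : ℤ) = b i - b i' ∧ 0 < d := by
      refine ⟨(b i - b i').toNat, ?_, ?_⟩
      · exact Int.toNat_of_nonneg (by omega)
      · omega
    obtain ⟨c, hc⟩ := IsAlgClosed.exists_pow_nat_eq (x i / x i') hm0
    have hc0 : c ≠ 0 := by
      rintro rfl
      rw [zero_pow hm0.ne'] at hc
      exact div_ne_zero hi hi' hc.symm
    have h1 : u i / u i' = (T ^ d * algebraMap k (RatFunc k) c) ^ m := by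
      rw [hu]
      change (T ^ m) ^ b i * algebraMap k (RatFunc k) (x i) /
        ((T ^ m) ^ b i' * algebraMap k (RatFunc k) (x i')) = _
      rw [mul_div_mul_comm, ← zpow_sub₀ (pow_ne_zero _ hT0), ← map_div₀, ← hc, map_pow, mul_pow,
        ← hd, zpow_natCast, ← pow_mul, ← pow_mul, mul_comm m d]
    have hue : T ^ d * algebraMap k (RatFunc k) c ≠ 0 :=
      mul_ne_zero (pow_ne_zero _ hT0) ((map_ne_zero _).2 hc0)
    have h2 : 1 ≤ hgt k (T ^ d * algebraMap k (RatFunc k) c) := by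
      by_contra hcon
      obtain ⟨c', hc'⟩ := const_of_hgt (k := k) (f := T ^ d * algebraMap k (RatFunc k) c)
        (by omega)
      apply hTt.pow hd0
      have h3 : T ^ d = algebraMap k (RatFunc k) (c' / c) := by
        have hc1 : algebraMap k (RatFunc k) c ≠ 0 := (map_ne_zero _).2 hc0
        rw [map_div₀, ← hc', mul_div_assoc, div_self hc1, mul_one]
      rw [h3]
      exact isAlgebraic_algebraMap _
    have h3 := hgt_le_pht (k := k) u (huj i hi) (huj i' hi')
    rw [h1, hgt_pow hue] at h3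
    have h4 : (m : ℤ) * 1 ≤ (m : ℤ) * hgt k (T ^ d * algebraMap k (RatFunc k) c) :=
      mul_le_mul_of_nonneg_left h2 (by positivity)
    have h5 : D < m := by
      rw [hm]
      push_cast
      omega
    have h6 : (1 : ℤ) ≤ eG := by exact_mod_cast heG
    have h7 : 0 ≤ pht k u := pht_nonneg (Function.ne_iff.1 hune)
    nlinarith
  · rintro H ⟨d, hd⟩ hH h0
    have h1 := hev d H hd
    have h2 : val (im G u) H = 0 := h0
    rw [h2, mul_zero] at h1
    have h3 : (MvPolynomial.aeval (imP G b B x) H : Polynomial k) = 0 := by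
      by_contra hne
      exact (hTt.pow hm0) ⟨_, hne, h1⟩
    have h4 := imP_eval (k := k) (Ω := k) (G := G) hB x (t := 1) one_ne_zero H
    rw [h3, map_zero] at h4
    apply hH
    rw [h4]
    congr 2
    funext j
    simp

end Pool.Agent.X333.DC
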