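import Pool.Agent.X333.DC.FimT
import Pool.Agent.TH143.GT.Sec
import Pool.Agent.TH710.NR.Fin

/-!
Orbits of one-parameter groups of diagonal matrices and their images: families of rational curves in
the complement of a hypersurface.
-/

set_option autoImplicit false
set_option maxHeartbeats 400000
set_option linter.overlappingInstances false
set_option linter.unusedSectionVars false

open FF Pool.Agent.W603.LV

namespace Pool.Agent.X333.DC

open Pool.Agent.W602.GT Pool.Agent.Y221.BD Pool.Agent.Y221.FQ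
open Pool.Agent.TH143.GT (rf rf_zero val_rf Flat Fam)
open Pool.Agent.W603.GR (OffQ)

theorem poly_const' {E : Type} [Field E] [CharZero E] {a b : Polynomial E}
    (h : Polynomial.derivative a * b = a * Polynomial.derivative b) (s t : E) :
    a.eval s * b.eval t = a.eval t * b.eval s := by
  classical
  by_cases hb : b = 0
  · rw [hb, Polynomial.eval_zero, Polynomial.eval_zero, mul_zero, mul_zero]
  set g := gcd a b with hg
  have hg0 : g ≠ 0 := gcd_ne_zero_of_right hb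
  obtain ⟨a0, ha0⟩ : g ∣ a := gcd_dvd_left a b
  obtain ⟨b0, hb0⟩ : g ∣ b := gcd_dvd_right a b
  have hc : IsCoprime a0 b0 := by
    have h1 := isCoprime_div_gcd_div_gcd (p := a) hb
    rw [← hg] at h1
    rwa [ha0, hb0, mul_div_cancel_left₀ _ hg0, mul_div_cancel_left₀ _ hg0] at h1
  have h1 : Polynomial.wronskian a0 b0 = 0 := by
    have h2 : g ^ 2 * Polynomial.wronskian a0 b0 = 0 := by
      unfold Polynomial.wronskian
      rw [ha0, hb0, Polynomial.derivative_mul, Polynomial.derivative_mul] at h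
      linear_combination -h
    exact (mul_eq_zero.1 h2).resolve_left (pow_ne_zero _ hg0)
  rw [hc.wronskian_eq_zero_iff] at h1
  obtain ⟨α, hα⟩ := Polynomial.natDegree_eq_zero.1
    (Polynomial.derivative_eq_zero.1 h1.1)
  obtain ⟨β, hβ⟩ := Polynomial.natDegree_eq_zero.1
    (Polynomial.derivative_eq_zero.1 h1.2)
  rw [ha0, hb0, ← hα, ← hβ]
  simp only [Polynomial.eval_mul, Polynomial.eval_C]
  ring

/-- polynomials without roots other than zero -/
theorem mono_of_roots {E : Type} [Field E] {p : Polynomial E} (hp : p ≠ 0)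
    (h : ∀ t : AlgebraicClosure E, t ≠ 0 → Polynomial.aeval t p ≠ 0) :
    ∃ (c : E) (l : ℕ), c ≠ 0 ∧ p = Polynomial.C c * Polynomial.X ^ l := by
  obtain ⟨q, hq, hq0⟩ := Polynomial.exists_eq_pow_rootMultiplicity_mul_and_not_dvd p hp 0
  rw [Polynomial.C_0, sub_zero] at hq hq0
  rw [Polynomial.X_dvd_iff] at hq0
  have hdeg : q.degree = 0 := by
    by_contra hd
    obtain ⟨t, ht⟩ := IsAlgClosed.exists_aeval_eq_zero (AlgebraicClosure E) q hd
    have ht0 : t ≠ 0 := by
      rintro rfl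
      apply hq0
      rw [Polynomial.aeval_def, Polynomial.eval₂_at_zero, map_eq_zero] at ht
      exact ht
    apply h t ht0
    rw [hq, map_mul, ht, mul_zero]
  obtain ⟨c, hc⟩ : ∃ c, q = Polynomial.C c := ⟨_, Polynomial.eq_C_of_degree_eq_zero hdeg⟩
  refine ⟨c, p.rootMultiplicity 0, ?_, ?_⟩
  · rintro rfl
    apply hq0
    rw [hc, Polynomial.coeff_C_zero]
  · rw [hc] at hq
    conv_lhs => rw [hq]
    ring

variable {k : Type} [Field k] {n M : ℕ} {ι μ : Type}
  {F : ι → MvPolynomial (Fin (n + 1)) k}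
  {Φ : μ → MvPolynomial (Fin (M + 1)) k} {G : Fin (M + 1) → MvPolynomial (Fin (n + 1)) k}
  {Q : MvPolynomial (Fin (M + 1)) k} {q : ℕ} {U : Set (Fin (n + 1))}

/-- the orbit as a polynomial curve -/
noncomputable def orbP {E : Type} [Field E] (b : Fin (n + 1) → ℤ) (B : ℕ)
    (u : Fin (n + 1) → E) : Fin (n + 1) → Polynomial E :=
  fun j => Polynomial.C (u j) * Polynomial.X ^ (b j + B).toNat

theorem exists_shift (b : Fin (n + 1) → ℤ) : ∃ B : ℕ, ∀ j, 0 ≤ b j + B := by
  refine ⟨∑ j, (b j).natAbs, fun j => ?_⟩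
  have h1 := Finset.single_le_sum (f := fun j => (b j).natAbs)
    (fun _ _ => Nat.zero_le _) (Finset.mem_univ j)
  have h2 : (((b j).natAbs : ℕ) : ℤ) ≤ ((∑ j, (b j).natAbs : ℕ) : ℤ) := by
    exact_mod_cast h1
  have h3 := Int.le_natAbs (a := -(b j))
  rw [Int.natAbs_neg] at h3
  linarith

theorem orbP_eval {E Ω : Type} [Field E] [Field Ω] [Algebra E Ω] {b : Fin (n + 1) → ℤ} {B : ℕ}
    (hB : ∀ j, 0 ≤ b j + B) (u : Fin (n + 1) → E) {t : Ω} (ht : t ≠ 0) :
    (fun j => Polynomial.aeval t (orbP b B u j)) =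
      fun j => t ^ B * (t ^ b j * algebraMap E Ω (u j)) := by
  funext j
  simp only [orbP, map_mul, Polynomial.aeval_C, map_pow, Polynomial.aeval_X]
  have h1 : t ^ (b j + B).toNat = t ^ (b j + B) := by
    conv_rhs => rw [← Int.toNat_of_nonneg (hB j)]
    rw [zpow_natCast]
  rw [h1, zpow_add₀ ht, zpow_natCast]
  ring

/-- the image of the orbit -/
noncomputable def imP {E : Type} [Field E] [Algebra k E]
    (G : Fin (M + 1) → MvPolynomial (Fin (n + 1)) k) (b : Fin (n + 1) → ℤ) (B : ℕ)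
    (u : Fin (n + 1) → E) : Fin (M + 1) → Polynomial E :=
  fun a => MvPolynomial.aeval (orbP b B u) (G a)

theorem imP_eval {E Ω : Type} [Field E] [Field Ω] [Algebra k E] [Algebra k Ω] [Algebra E Ω]
    [IsScalarTower k E Ω] {b : Fin (n + 1) → ℤ} {B : ℕ}
    (hB : ∀ j, 0 ≤ b j + B) (u : Fin (n + 1) → E) {t : Ω} (ht : t ≠ 0)
    (H : MvPolynomial (Fin (M + 1)) k) :
    Polynomial.aeval t (MvPolynomial.aeval (imP G b B u) H : Polynomial E) =
      val (im G fun j => t ^ B * (t ^ b j * algebraMap E Ω (u j))) H := by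
  let φ : Polynomial E →ₐ[k] Ω := (Polynomial.aeval t : Polynomial E →ₐ[E] Ω).restrictScalars k
  have h1 : ∀ p, Polynomial.aeval t p = φ p := fun _ => rfl
  rw [h1]
  have h2 := MvPolynomial.comp_aeval_apply (f := imP G b B u) φ H
  rw [h2]
  unfold Pool.Agent.W602.GT.val
  congr 2
  funext a
  unfold imP im Pool.Agent.W602.GT.val
  rw [MvPolynomial.comp_aeval_apply (f := orbP b B u) φ (G a)]
  congr 2
  exact orbP_eval hB u ht

/-- the orbit lies in the variety -/
theorem orb_mem (hFf : ∀ e, IsForm (F e)) {E Ω : Type} [Field E] [Field Ω] [Algebra k E]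
    [Algebra k Ω] [Algebra E Ω] [IsScalarTower k E Ω] {b : Fin (n + 1) → ℤ}
    {u : Fin (n + 1) → E} (hwc : ∀ e v, val u (wc b v (F e)) = 0) {t : Ω} (ht : t ≠ 0) (B : ℕ)
    (e : ι) : val (fun j => t ^ B * (t ^ b j * algebraMap E Ω (u j))) (F e) = 0 := by
  obtain ⟨d, hd⟩ := hFf e
  rw [val_smul hd, val_orbit (L := Ω) (fun j => algebraMap E Ω (u j)) b ht (F e), mul_zero]
  intro v
  have h1 := val_map (IsScalarTower.toAlgHom k E Ω) (wc b v (F e)) u
  rw [hwc, map_zero] at h1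
  exact h1.symm

variable [IsAlgClosed k] [CharZero k]

/-- **The image of the orbit is not a point.** -/
theorem orb_nc (hG : Mor F Φ G) {r : ℕ} (hfib : FibresLe F G r) {E : Type} [Field E]
    [Algebra k E] {b : Fin (n + 1) → ℤ} {u : Fin (n + 1) → E} {i i' : Fin (n + 1)}
    (hi : u i ≠ 0) (hi' : u i' ≠ 0) (hb : b i ≠ b i') (hwc : ∀ e v, val u (wc b v (F e)) = 0)
    (h : ∀ t t' : E, t ≠ 0 → t' ≠ 0 → ∀ a c, im G (fun j => t ^ b j * u j) a *
      im G (fun j => t' ^ b j * u j) c = im G (fun j => t ^ b j * u j) c *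
      im G (fun j => t' ^ b j * u j) a) : False := by
  have hE0 : CharZero E := charZero_of_injective_algebraMap (algebraMap k E).injective
  have h2 : ∀ l : ℕ, (2 : E) ^ l ≠ 0 := fun l => pow_ne_zero _ two_ne_zero
  obtain ⟨l, l', hll, hpr⟩ := fib_ext hfib hG.noBase
    (fun (l : Fin (r + 1)) j => ((2 : E) ^ (l : ℕ)) ^ b j * u j)
    (fun l h0 => mul_ne_zero (zpow_ne_zero _ (h2 l)) hi (congrFun h0 i))
    (fun l e => val_orbit u b (h2 l) (F e) (hwc e))
    (fun l l' a c => h _ _ (h2 l) (h2 l') a c)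
  have h3 := hpr i i'
  have h4 : ((2 : E) ^ (l : ℕ)) ^ b i * ((2 : E) ^ (l' : ℕ)) ^ b i' =
      ((2 : E) ^ (l : ℕ)) ^ b i' * ((2 : E) ^ (l' : ℕ)) ^ b i := by
    have h5 : u i * u i' ≠ 0 := mul_ne_zero hi hi'
    refine mul_right_cancel₀ h5 ?_
    linear_combination h3
  rw [← zpow_natCast, ← zpow_natCast, ← zpow_mul, ← zpow_mul, ← zpow_mul, ← zpow_mul,
    ← zpow_add₀ two_ne_zero, ← zpow_add₀ two_ne_zero] at h4
  have h5 : ((2 : ℚ) ^ ((l : ℕ) * b i + (l' : ℕ) * b i') : ℚ) =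
      (2 : ℚ) ^ ((l : ℕ) * b i' + (l' : ℕ) * b i) := by
    have h6 : (((2 : ℚ) ^ ((l : ℕ) * b i + (l' : ℕ) * b i') : ℚ) : E) =
        (((2 : ℚ) ^ ((l : ℕ) * b i' + (l' : ℕ) * b i) : ℚ) : E) := by
      push_cast
      exact h4
    exact_mod_cast h6
  have h6 := zpow_right_injective₀ (by norm_num) (by norm_num) h5
  have h7 : ((l : ℤ) - (l' : ℤ)) * (b i - b i') = 0 := by
    push_cast at h6
    linear_combination h6
  rcases mul_eq_zero.1 h7 with h8 | h8
  · apply hll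
    apply Fin.ext
    have : ((l : ℕ) : ℤ) = ((l' : ℕ) : ℤ) := by
      linarith
    exact_mod_cast this
  · exact hb (sub_eq_zero.1 h8)

/-- the inverse image of the hypersurface over extension fields -/
theorem off_ext (hU : ∀ x ∈ Cone F, (∀ j ∈ U, x j ≠ 0) → val (im G x) Q ≠ 0) {Ω : Type}
    [Field Ω] [Algebra k Ω] {u : Fin (n + 1) → Ω} (hu : u ≠ 0) (huF : ∀ e, val u (F e) = 0)
    (huU : ∀ j ∈ U, u j ≠ 0) : val (im G u) Q ≠ 0 := by
  classical
  intro h0
  obtain ⟨i0, hi0'⟩ := Function.ne_iff.1 hu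
  have hi0 : u i0 ≠ 0 := hi0'
  obtain ⟨x, hx, hx0⟩ := specialise (k := k) u
    ((∏ j ∈ U.toFinite.toFinset, MvPolynomial.X j) * MvPolynomial.X i0) (by
      rw [map_mul, map_prod, MvPolynomial.aeval_X]
      refine mul_ne_zero (Finset.prod_ne_zero_iff.2 fun j hj => ?_) hi0
      rw [MvPolynomial.aeval_X]
      exact huU j ((Set.Finite.mem_toFinset _).1 hj))
  rw [map_mul, map_prod, MvPolynomial.aeval_X] at hx
  have h1 := left_ne_zero_of_mul hx
  have h2 := right_ne_zero_of_mul hx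
  rw [Finset.prod_ne_zero_iff] at h1
  refine hU x ⟨fun h => h2 (congrFun h i0), fun e => hx0 _ (huF e)⟩ (fun j hj => ?_) ?_
  · have h3 := h1 j ((Set.Finite.mem_toFinset _).2 hj)
    rwa [MvPolynomial.aeval_X] at h3
  · rw [val_im] at h0 ⊢
    exact hx0 _ h0

theorem on_ext (hU : ∀ x ∈ Cone F, val (im G x) Q ≠ 0 → ∀ j ∈ U, x j ≠ 0) {Ω : Type}
    [Field Ω] [Algebra k Ω] {u : Fin (n + 1) → Ω} (hu : u ≠ 0) (huF : ∀ e, val u (F e) = 0)
    (huQ : val (im G u) Q ≠ 0) : ∀ j ∈ U, u j ≠ 0 := by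
  intro j hj h0
  obtain ⟨i0, hi0'⟩ := Function.ne_iff.1 hu
  have hi0 : u i0 ≠ 0 := hi0'
  rw [val_im] at huQ
  obtain ⟨x, hx, hx0⟩ := specialise (k := k) u (MvPolynomial.aeval G Q * MvPolynomial.X i0) (by
    rw [map_mul, MvPolynomial.aeval_X]
    exact mul_ne_zero huQ hi0)
  rw [map_mul, MvPolynomial.aeval_X] at hx
  have h2 := right_ne_zero_of_mul hx
  refine hU x ⟨fun h => h2 (congrFun h i0), fun e => hx0 _ (huF e)⟩ ?_ j hj ?_
  · rw [val_im]
    exact left_ne_zero_of_mul hx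
  · have h3 := hx0 (MvPolynomial.X j) (by rw [MvPolynomial.aeval_X]; exact h0)
    rwa [MvPolynomial.aeval_X] at h3

/-- **Moving points give orbits.** -/
theorem orb_of_wt (hU : ∀ x ∈ Cone F, val (im G x) Q ≠ 0 → ∀ j ∈ U, x j ≠ 0) {E : Type}
    [Field E] [Algebra k E] {u : Fin (n + 1) → E} (huF : ∀ e, val u (F e) = 0) (hW : WtMv F u)
    (hQ : val (im G u) Q ≠ 0) {H : MvPolynomial (Fin (M + 1)) k} (hH : val (im G u) H ≠ 0) :
    ∃ x b, DiagCurve U F x b ∧ val (im G x) H ≠ 0 := by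
  obtain ⟨b, i, i', hi, hi', hb, hwc⟩ := hW
  rw [val_im] at hQ hH
  obtain ⟨x, hx, hx0⟩ := specialise (k := k) u (MvPolynomial.aeval G Q *
      (MvPolynomial.aeval G H * (MvPolynomial.X i * MvPolynomial.X i'))) (by
    rw [map_mul, map_mul, map_mul, MvPolynomial.aeval_X, MvPolynomial.aeval_X]
    exact mul_ne_zero hQ (mul_ne_zero hH (mul_ne_zero hi hi')))
  rw [map_mul, map_mul, map_mul, MvPolynomial.aeval_X, MvPolynomial.aeval_X] at hx
  have h1 := left_ne_zero_of_mul hx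
  have h2 := right_ne_zero_of_mul hx
  have h3 := left_ne_zero_of_mul h2
  have h4 := right_ne_zero_of_mul h2
  have h5 := left_ne_zero_of_mul h4
  have h6 := right_ne_zero_of_mul h4
  refine ⟨x, b, diag_of_wc ?_ (fun e v => hx0 _ (hwc e v)) ⟨i, i', h5, h6, hb⟩, ?_⟩
  · refine hU x ⟨fun h => h5 (congrFun h i), fun e => hx0 _ (huF e)⟩ ?_
    rw [val_im]
    exact h1
  · rw [val_im]
    exact h3

/-- the family of rational curves -/
theorem orb_fam (hFf : ∀ e, IsForm (F e))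
    (hU : ∀ x ∈ Cone F, (∀ j ∈ U, x j ≠ 0) → val (im G x) Q ≠ 0) {E : Type} [Field E]
    [Algebra k E] {b : Fin (n + 1) → ℤ} {B : ℕ} (hB : ∀ j, 0 ≤ b j + B) {u : Fin (n + 1) → E}
    (hu : u ≠ 0) (huU : ∀ j ∈ U, u j ≠ 0) (hwc : ∀ e v, val u (wc b v (F e)) = 0) :
    ∃ (c : E) (l : ℕ), c ≠ 0 ∧
      (MvPolynomial.aeval (imP G b B u) Q : Polynomial E) = Polynomial.C c * Polynomial.X ^ l := by
  obtain ⟨i0, hi0'⟩ := Function.ne_iff.1 hu
  have hi0 : u i0 ≠ 0 := hi0'
  have h1 : ∀ t : AlgebraicClosure E, t ≠ 0 →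
      Polynomial.aeval t (MvPolynomial.aeval (imP G b B u) Q : Polynomial E) ≠ 0 := by
    intro t ht
    rw [imP_eval hB u ht]
    refine off_ext hU ?_ (orb_mem hFf hwc ht B) fun j hj => ?_
    · intro h0
      exact mul_ne_zero (pow_ne_zero _ ht) (mul_ne_zero (zpow_ne_zero _ ht)
        ((map_ne_zero (algebraMap E (AlgebraicClosure E))).2 hi0)) (congrFun h0 i0)
    · exact mul_ne_zero (pow_ne_zero _ ht) (mul_ne_zero (zpow_ne_zero _ ht)
        ((map_ne_zero (algebraMap E (AlgebraicClosure E))).2 (huU j hj)))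
  refine mono_of_roots (fun h0 => ?_) h1
  apply h1 1 one_ne_zero
  rw [h0, map_zero]

/-- **Varieties covered by orbits are not of log general type.** -/
theorem orb_not_lgt (hFf : ∀ e, IsForm (F e)) (hG : Mor F Φ G) {r : ℕ} (hfib : FibresLe F G r)
    (hU : ∀ x ∈ Cone F, (∀ j ∈ U, x j ≠ 0) → val (im G x) Q ≠ 0) (hQ : Q.IsHomogeneous q)
    {E : Type} [Field E] [Algebra k E] {m : ℕ} (hm : Algebra.trdeg k E = m)
    {b : Fin (n + 1) → ℤ} {B : ℕ} (hB : ∀ j, 0 ≤ b j + B) {u : Fin (n + 1) → E}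
    (huU : ∀ j ∈ U, u j ≠ 0) {i i' : Fin (n + 1)} (hi : u i ≠ 0) (hi' : u i' ≠ 0)
    (hb : b i ≠ b i') (hwc : ∀ e v, val u (wc b v (F e)) = 0)
    {K : Type} [Field K] [Algebra k K] {w : ℕ} {z : Fin (M + 1) → K} (hz : z ≠ 0)
    (hgen : coords k z = ⊤)
    (hrel : ∀ H : MvPolynomial (Fin (M + 1)) k, IsForm H →
      (val z H = 0 ↔ (MvPolynomial.aeval (imP G b B u) H : Polynomial E) = 0)) :
    ¬ LogGeneralType k K w (OffQ Q q z) := by
  intro hlgt
  have hE0 : CharZero E := charZero_of_injective_algebraMap (algebraMap k E).injective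
  have hu : u ≠ 0 := fun h => hi (congrFun h i)
  obtain ⟨c0, l, hc0, hcl⟩ := orb_fam hFf hU hB hu huU hwc
  have hfam : Fam z Q (imP G b B u) l := ⟨hrel, c0, hc0, hcl⟩
  obtain ⟨eG, heG, hGe⟩ := hG.form
  have hflat := (Fam.main hlgt.1 hm hz hgen hfam hQ).2.2.1 hlgt
  have hpr : ∀ (a c : Fin (M + 1)) (s t : E), (imP G b B u a).eval s * (imP G b B u c).eval t =
      (imP G b B u a).eval t * (imP G b B u c).eval s := by
    intro a c s t
    by_cases hc : z c = 0
    · have h1 := (hrel (MvPolynomial.X c) ⟨1, MvPolynomial.isHomogeneous_X _ _⟩).1 (by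
        unfold Pool.Agent.W602.GT.val
        rw [MvPolynomial.aeval_X]
        exact hc)
      rw [MvPolynomial.aeval_X] at h1
      rw [h1, Polynomial.eval_zero, Polynomial.eval_zero, mul_zero, mul_zero]
    · have h1 := hflat (z a / z c) 1 (MvPolynomial.X a) (MvPolynomial.X c)
        (MvPolynomial.isHomogeneous_X _ _) (MvPolynomial.isHomogeneous_X _ _) (by
          unfold Pool.Agent.W602.GT.val
          rw [MvPolynomial.aeval_X]
          exact hc) (by
          unfold Pool.Agent.W602.GT.val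
          rw [MvPolynomial.aeval_X, MvPolynomial.aeval_X])
      rw [MvPolynomial.aeval_X, MvPolynomial.aeval_X] at h1
      exact poly_const' h1 s t
  have hev : ∀ (a : Fin (M + 1)) (t : E), t ≠ 0 → (imP G b B u a).eval t =
      (t ^ B) ^ eG * im G (fun j => t ^ b j * u j) a := by
    intro a t ht
    have h1 := imP_eval (G := G) (k := k) (Ω := E) hB u ht (MvPolynomial.X a)
    rw [MvPolynomial.aeval_X] at h1
    have h2 : Polynomial.aeval t (imP G b B u a) = (imP G b B u a).eval t := by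
      rw [Polynomial.coe_aeval_eq_eval]
    rw [← h2, h1]
    unfold Pool.Agent.W602.GT.val
    rw [MvPolynomial.aeval_X, im_smul hGe]
    rfl
  refine orb_nc hG hfib hi hi' hb hwc fun t t' ht ht' a c => ?_
  have h1 := hpr a c t t'
  rw [hev a t ht, hev c t' ht', hev a t' ht', hev c t ht] at h1
  have h2 : ((t ^ B) ^ eG * (t' ^ B) ^ eG) ≠ 0 :=
    mul_ne_zero (pow_ne_zero _ (pow_ne_zero _ ht)) (pow_ne_zero _ (pow_ne_zero _ ht'))
  refine mul_left_cancel₀ h2 ?_
  linear_combination h1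

end Pool.Agent.X333.DC
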