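import Pool.Agent.X333.DC.Ptc

/-!
Pointed morphisms from affine varieties to the complement of a hypersurface in a projective variety.
-/

set_option autoImplicit false
set_option maxHeartbeats 400000
set_option linter.overlappingInstances false
set_option linter.unusedSectionVars false

open FF Pool.Agent.W603.LV
open scoped LinearAlgebra.Projectivization

namespace Pool.Agent.X333.DC

open Pool.Agent.W602.GT Pool.Agent.TH710.ND Pool.Agent.Y221.FQ
open Pool.Agent.W602.RG (PointedMorphisms PointedCurves IsMorphism MapsTo HasValue)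
open Pool.Agent.W348.RG (orb T_ne z_orb orb_ne ev ev_T fin_type orb_inj aeval_orb_zero)
open Pool.Agent.W603.PV (pht)

variable {k : Type} [Field k] {n M : ℕ} {ι μ : Type}
  {F : ι → MvPolynomial (Fin (n + 1)) k}
  {Φ : μ → MvPolynomial (Fin (M + 1)) k} {G : Fin (M + 1) → MvPolynomial (Fin (n + 1)) k}
  {Q : MvPolynomial (Fin (M + 1)) k} {q : ℕ} {U : Set (Fin (n + 1))}

section defs

variable (Φ : μ → MvPolynomial (Fin (M + 1)) k) (Q : MvPolynomial (Fin (M + 1)) k)
  (T : Set (MvPolynomial (Fin (M + 1)) k))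

/-- The vector `f` of elements of the coordinate ring `A` of the affine variety `Y` is the vector of
homogeneous coordinates of a morphism from `Y` to `X = {Φ = 0, Q ≠ 0}`: it is proportional, for
every point `z` of `Y`, to a vector `g` of regular functions on `Y` which is not zero at `z` and
such that `Q (g)` is not zero at `z`. -/
def MorQ {A : Type} [CommRing A] [Algebra k A] (f : Fin (M + 1) → A) : Prop :=
  f ≠ 0 ∧ (∀ e, MvPolynomial.aeval f (Φ e) = 0) ∧ ∀ z : A →ₐ[k] k, ∃ g : Fin (M + 1) → A,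
    (∀ i j, g i * f j = g j * f i) ∧ (∃ j, z (g j) ≠ 0) ∧ z (MvPolynomial.aeval g Q) ≠ 0

/-- The morphisms from the affine variety `Y` with the coordinate ring `A` to `X` that map the point
`y` to the point `x`. -/
def PtdMor {A : Type} [CommRing A] [IsDomain A] [Algebra k A] (y : A →ₐ[k] k)
    (x : Fin (M + 1) → k) : Set (ℙ (FractionRing A) (Fin (M + 1) → FractionRing A)) :=
  {φ | ∃ (f : Fin (M + 1) → A) (hf : (fun j => algebraMap A (FractionRing A) (f j)) ≠ 0),
    MorQ Φ Q f ∧ MapsTo f y x ∧ φ = Projectivization.mk (FractionRing A) _ hf}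

/-- For every affine variety `Y`, every point `y` of `Y` and every point `x` of `X` which is not in
the subset where all forms in `T` vanish there are only finitely many morphisms from `Y` to `X`
which map `y` to `x`. -/
def PtdQ : Prop :=
  ∀ (A : Type) [CommRing A] [IsDomain A] [Algebra k A] [Algebra.FiniteType k A]
    (y : A →ₐ[k] k), ∀ x ∈ Cone Φ, val x Q ≠ 0 → (∃ H ∈ T, val x H ≠ 0) → (PtdMor Φ Q y x).Finite

end defs

/-- **Bounds and pointed morphisms.** -/
theorem ptd_of_cov [IsAlgClosed k] [CharZero k] [Uncountable k] (hΦ : ∀ e, IsForm (Φ e))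
    (hQf : IsForm Q) {T : Set (MvPolynomial (Fin (M + 1)) k)} (hTf : ∀ H ∈ T, IsForm H) {ρ : ℕ}
    (hρ : 1 ≤ ρ) (h : CovQ Φ Q T ρ) : PtdQ Φ Q T := by
  obtain ⟨B, hB⟩ := h
  rintro A _ _ _ _ y x hx hxQ ⟨H, hH, hxH⟩
  have hRf : IsForm (Q * H) := by
    obtain ⟨a, ha⟩ := hQf
    obtain ⟨b, hb⟩ := hTf H hH
    exact ⟨a + b, ha.mul hb⟩
  have hmul : ∀ {L : Type} [Field L] [Algebra k L] (f : Fin (M + 1) → L),
      val f (Q * H) = val f Q * val f H := fun f => map_mul _ _ _
  have hcrv := fun (L : Type) [Field L] [Algebra k L] [IsFF k L] (c : Place k L) =>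
    ptd_curve (F := Φ) hΦ hRf (B := B) (fun L _ _ _ f hf0 hf hfR => by
      rw [hmul] at hfR
      exact hB L L (by rw [Module.finrank_self]; exact hρ) f hf0 hf (left_ne_zero_of_mul hfR)
        ⟨H, hH, right_ne_zero_of_mul hfR⟩) hx.1 (by
      rw [hmul]
      exact mul_ne_zero hxQ hxH) L c
  have hxP : x ∈ Pool.Agent.W603.CX.Pts (∅ : Set (Fin (M + 1))) Φ := by
    refine ⟨hx.1, fun j hj => absurd hj (Set.notMem_empty j), fun e => ?_⟩
    have h1 := hx.2 e
    unfold Pool.Agent.W602.GT.val at h1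
    rwa [MvPolynomial.aeval_eq_eval] at h1
  refine (rst_at hxP (fun L _ _ _ S c _ => (hcrv L c).subset ?_) A y).subset ?_
  · rintro φ ⟨f, hf, hm, hv, rfl⟩
    exact ⟨f, hf, hm.2.1, hv, rfl⟩
  · rintro φ ⟨f, hf, hm, hv, rfl⟩
    refine ⟨f, hf, ⟨hm.1, hm.2.1, fun z => ?_⟩, hv, rfl⟩
    obtain ⟨g, hg1, hg2, -⟩ := hm.2.2 z
    exact ⟨g, hg1, hg2, fun j hj => absurd hj (Set.notMem_empty j)⟩

theorem z_zpow (z : LaurentPolynomial k →ₐ[k] k) (a : ℤ) :
    z (LaurentPolynomial.T a) = z (LaurentPolynomial.T 1) ^ a := by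
  have h1 : ∀ m : ℕ, z (LaurentPolynomial.T (m : ℤ)) = z (LaurentPolynomial.T 1) ^ m := by
    intro m
    rw [← map_pow, LaurentPolynomial.T_pow, mul_one]
  rcases Int.eq_nat_or_neg a with ⟨m, ha | ha⟩
  · rw [ha, h1, zpow_natCast]
  · have h2 : z (LaurentPolynomial.T (-(m : ℤ))) * z (LaurentPolynomial.T (m : ℤ)) = 1 := by
      rw [← map_mul, ← LaurentPolynomial.T_add, neg_add_cancel, LaurentPolynomial.T_zero, map_one]
    rw [ha, zpow_neg, zpow_natCast, ← h1]
    exact eq_inv_of_mul_eq_one_left h2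

variable [IsAlgClosed k] [CharZero k]

/-- **Orbits give infinitely many pointed morphisms.** -/
theorem ptd_orb (hFf : ∀ e, IsForm (F e)) (hG : Mor F Φ G) {r : ℕ} (hfib : FibresLe F G r)
    (hU : ∀ x ∈ Cone F, (∀ j ∈ U, x j ≠ 0) → val (im G x) Q ≠ 0)
    {T : Set (MvPolynomial (Fin (M + 1)) k)} (h : PtdQ Φ Q T) {x : Fin (n + 1) → k}
    {b : Fin (n + 1) → ℤ} (hx : DiagCurve U F x b) {H : MvPolynomial (Fin (M + 1)) k}
    (hH : H ∈ T) : val (im G x) H = 0 := by
  classical
  by_contra hne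
  have hinf : Infinite k := inferInstance
  have hxc : x ∈ Cone F := by
    have h1 := hx.1 1 one_ne_zero
    simp only [one_zpow, one_mul] at h1
    exact ⟨h1.1, h1.2.2⟩
  have hxU : ∀ j ∈ U, x j ≠ 0 := by
    intro j hj
    have h1 := (hx.1 1 one_ne_zero).2.1 j hj
    simpa using h1
  obtain ⟨i, i', hi, hi', hb⟩ := hx.2
  have hcone : ∀ t : k, t ≠ 0 → (fun j => x j * t ^ b j) ∈ Cone F ∧
      ∀ j ∈ U, x j * t ^ b j ≠ 0 := by
    intro t ht
    have h1 := hx.1 t ht
    have h2 : (fun j => t ^ b j * x j) = fun j => x j * t ^ b j := by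
      funext j
      ring
    rw [h2] at h1
    exact ⟨⟨h1.1, h1.2.2⟩, h1.2.1⟩
  have hdom : IsDomain (LaurentPolynomial k) := inferInstance
  have hft : Algebra.FiniteType k (LaurentPolynomial k) := fin_type
  have hfin := h (LaurentPolynomial k) (ev k) (im G x) (hG.maps x hxc) (hU x hxc hxU)
    ⟨H, hH, hne⟩
  -- the morphisms
  let f : ℕ → Fin (M + 1) → LaurentPolynomial k := fun N a =>
    MvPolynomial.aeval (orb x b N) (G a)
  have hpoly : ∀ (N : ℕ) (P : MvPolynomial (Fin (M + 1)) k),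
      MvPolynomial.aeval (f N) P = MvPolynomial.aeval (orb x b N) (MvPolynomial.aeval G P) := by
    intro N P
    have h1 := MvPolynomial.comp_aeval_apply (f := G)
      (MvPolynomial.aeval (orb x b N) : MvPolynomial (Fin (n + 1)) k →ₐ[k] LaurentPolynomial k) P
    exact h1.symm
  have hpt : ∀ (N : ℕ) (z : LaurentPolynomial k →ₐ[k] k),
      (fun j => z (orb x b N j)) = fun j => x j * (z (LaurentPolynomial.T 1) ^ N) ^ b j := by
    intro N z
    funext j
    rw [z_orb, z_zpow, zpow_mul, zpow_natCast]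
  have hz1 : ∀ z : LaurentPolynomial k →ₐ[k] k, z (LaurentPolynomial.T 1) ≠ 0 := fun z => T_ne z 1
  have hzf : ∀ (N : ℕ) (z : LaurentPolynomial k →ₐ[k] k) (a : Fin (M + 1)),
      z (f N a) = im G (fun j => x j * (z (LaurentPolynomial.T 1) ^ N) ^ b j) a := by
    intro N z a
    rw [← hpt N z]
    exact MvPolynomial.comp_aeval_apply (f := orb x b N) z (G a)
  have hzQ : ∀ (N : ℕ) (z : LaurentPolynomial k →ₐ[k] k) (P : MvPolynomial (Fin (M + 1)) k),
      z (MvPolynomial.aeval (f N) P) =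
        val (im G fun j => x j * (z (LaurentPolynomial.T 1) ^ N) ^ b j) P := by
    intro N z P
    have h1 := MvPolynomial.comp_aeval_apply (f := f N) z P
    rw [h1]
    unfold Pool.Agent.W602.GT.val
    congr 2
    funext a
    exact hzf N z a
  have hev1 : ev k (LaurentPolynomial.T 1) = 1 := ev_T 1
  have hevf : ∀ (N : ℕ) (a : Fin (M + 1)), ev k (f N a) = im G x a := by
    intro N a
    rw [hzf, hev1]
    congr 1
    funext j
    simp
  have hfF : ∀ N e, MvPolynomial.aeval (orb x b N) (F e) = 0 := fun N e =>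
    aeval_orb_zero x b (F e) (fun t ht => by
      have h1 := (hcone t ht).1.2 e
      unfold Pool.Agent.W602.GT.val at h1
      rwa [MvPolynomial.aeval_eq_eval] at h1) N
  have hfΦ : ∀ N e, MvPolynomial.aeval (f N) (Φ e) = 0 := by
    intro N e
    rw [hpoly]
    refine aeval_orb_zero x b _ (fun t ht => ?_) N
    have h1 := (hG.maps _ (hcone t ht).1).2 e
    rw [val_im] at h1
    unfold Pool.Agent.W602.GT.val at h1
    rwa [MvPolynomial.aeval_eq_eval] at h1
  obtain ⟨a0, ha0'⟩ := Function.ne_iff.1 (hG.maps x hxc).1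
  have ha0 : im G x a0 ≠ 0 := ha0'
  have hfa : ∀ N, f N a0 ≠ 0 := by
    intro N h0
    apply ha0
    rw [← hevf N, h0, map_zero]
  have hinj := IsFractionRing.injective (LaurentPolynomial k)
    (FractionRing (LaurentPolynomial k))
  have hne' : ∀ N, (fun m => algebraMap (LaurentPolynomial k)
      (FractionRing (LaurentPolynomial k)) (f N m)) ≠ 0 := by
    intro N h
    have h1 := congrFun h a0
    simp only [Pi.zero_apply] at h1
    rw [map_eq_zero_iff _ hinj] at h1
    exact hfa N h1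
  have hmem : ∀ N, Projectivization.mk (FractionRing (LaurentPolynomial k)) _ (hne' N) ∈
      PtdMor Φ Q (ev k) (im G x) := by
    intro N
    refine ⟨f N, hne' N, ⟨fun h0 => hfa N (congrFun h0 a0), hfΦ N, fun z => ?_⟩, ?_, rfl⟩
    · have ht : z (LaurentPolynomial.T 1) ^ N ≠ 0 := pow_ne_zero _ (hz1 z)
      refine ⟨f N, fun i j => mul_comm _ _, ?_, ?_⟩
      · obtain ⟨a, ha⟩ := Function.ne_iff.1 (hG.maps _ (hcone _ ht).1).1
        exact ⟨a, by rw [hzf]; exact ha⟩
      · rw [hzQ]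
        exact hU _ (hcone _ ht).1 (hcone _ ht).2
    · exact ⟨f N, fun i j => mul_comm _ _, fun j => hevf N j⟩
  -- an infinite fibre
  let S := PtdMor Φ Q (ev k) (im G x)
  have hSfin : Finite S := hfin
  obtain ⟨φ, hφ⟩ := Finite.exists_infinite_fiber (fun N : ℕ => (⟨_, hmem N⟩ : S))
  let w := Infinite.natEmbedding ((fun N : ℕ => (⟨_, hmem N⟩ : S)) ⁻¹' {φ})
  have hw : ∀ l l' : ℕ, Projectivization.mk (FractionRing (LaurentPolynomial k)) _
      (hne' (w l : ℕ)) = Projectivization.mk (FractionRing (LaurentPolynomial k)) _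
      (hne' (w l' : ℕ)) := by
    intro l l'
    have h1 : (⟨_, hmem (w l : ℕ)⟩ : S) = φ := (w l).2
    have h2 : (⟨_, hmem (w l' : ℕ)⟩ : S) = φ := (w l').2
    exact congrArg Subtype.val (h1.trans h2.symm)
  let Ω := FractionRing (LaurentPolynomial k)
  let ψ : LaurentPolynomial k →ₐ[k] Ω := IsScalarTower.toAlgHom k (LaurentPolynomial k) Ω
  have hψ : ∀ p, ψ p = algebraMap (LaurentPolynomial k) Ω p := fun _ => rfl
  have hfψ : ∀ N a, im G (fun j => ψ (orb x b N j)) a = ψ (f N a) := by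
    intro N a
    exact (MvPolynomial.comp_aeval_apply (f := orb x b N) ψ (G a)).symm
  obtain ⟨l, l', hll, hpr⟩ := fib_ext hfib hG.noBase (K := Ω)
    (fun (l : Fin (r + 1)) j => ψ (orb x b (w (l : ℕ) : ℕ) j))
    (fun l h0 => by
      have h1 := congrFun h0 i
      have h2 : ψ (orb x b (w (l : ℕ) : ℕ) i) = 0 := h1
      rw [hψ, map_eq_zero_iff _ hinj] at h2
      exact orb_ne x b _ i hi h2)
    (fun l e => by
      have h1 := MvPolynomial.comp_aeval_apply (f := orb x b (w (l : ℕ) : ℕ)) ψ (F e)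
      rw [hfF, map_zero] at h1
      exact h1.symm)
    (fun l l' a c => by
      rw [hfψ, hfψ, hfψ, hfψ]
      exact Pool.Agent.W883.RG.of_mk_eq (hne' _) (hne' _) (hw l l') a c)
  apply hll
  have h1 := hpr i i'
  have h2 : orb x b (w (l : ℕ) : ℕ) i * orb x b (w (l' : ℕ) : ℕ) i' =
      orb x b (w (l' : ℕ) : ℕ) i * orb x b (w (l : ℕ) : ℕ) i' := by
    apply hinj
    rw [map_mul, map_mul]
    have h3 : ψ (orb x b (w (l : ℕ) : ℕ) i) * ψ (orb x b (w (l' : ℕ) : ℕ) i') =
      ψ (orb x b (w (l : ℕ) : ℕ) i') * ψ (orb x b (w (l' : ℕ) : ℕ) i) := h1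
    rw [hψ, hψ, hψ, hψ] at h3
    rw [h3]
    ring
  have h3 := orb_inj x b _ _ i i' hi hi' hb h2
  have h4 : w (l : ℕ) = w (l' : ℕ) := Subtype.ext h3
  exact Fin.ext (w.injective h4)

end Pool.Agent.X333.DC
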