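import Pool.Agent.TH466.QG.Lang
import Pool.Agent.Y221.FQ.Defs
import Pool.Agent.W603.GR.Main

/-!
Morphisms from open parts of projective varieties, and open varieties which are strongly of log
general type: definitions.
-/

set_option autoImplicit false
set_option linter.unusedSectionVars false

open FF

namespace Pool.Agent.X333.DC

open Pool.Agent.W602.GT Pool.Agent.TH466.QG Pool.Agent.Y221.FQ
open Pool.Agent.W603.GR (OffQ)

/-- Let `V` be the projective variety with the generic point `y` and let `V°` be the complement in
`V` of the coordinate hyperplanes `x_j = 0`, `j` in `U`. Let `X` be the projective variety with the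
generic point `x`, whose function field `L` is contained in the function field `K` of `V`, and let
`X°` be the complement in `X` of the hypersurface `Q = 0`. The rational map from `V` to `X` is a
morphism from `V°` to `X°`: for every point `p` of `V°` it is given, near `p`, by forms `G` of the
same degree, not all zero at `p`, and `Q (G (p)) ≠ 0`. -/
def RegMap {k : Type} [Field k] {n M : ℕ} {K L : Type} [Field K] [Field L] [Algebra k K]
    [Algebra k L] [Algebra L K] (U : Set (Fin (n + 1))) (y : Fin (n + 1) → K) (x : Fin (M + 1) → L)
    (Q : MvPolynomial (Fin (M + 1)) k) : Prop :=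
  ∀ p : Fin (n + 1) → k, p ≠ 0 →
    (∀ H : MvPolynomial (Fin (n + 1)) k, IsForm H → val y H = 0 → val p H = 0) →
    (∀ j ∈ U, p j ≠ 0) → ∃ (e : ℕ) (G : Fin (M + 1) → MvPolynomial (Fin (n + 1)) k),
      (∀ a, (G a).IsHomogeneous e) ∧
      (∀ a c, algebraMap L K (x a) * val y (G c) = algebraMap L K (x c) * val y (G a)) ∧
      im G p ≠ 0 ∧ val (im G p) Q ≠ 0

/-- Let `X` be the projective variety with the generic point `x`. The complement `X°` in `X` of the
hypersurface `Q = 0`, with `Q` a form of degree `q`, is strongly of log general type: off the zero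
set of a form `R` which does not vanish at the generic point, all closed subvarieties of positive
dimension of `X°` are of log general type. -/
def StronglyLogQ (k : Type) [Field k] {M : ℕ} {L : Type} [Field L] [Algebra k L]
    (x : Fin (M + 1) → L) (Q : MvPolynomial (Fin (M + 1)) k) (q : ℕ) : Prop :=
  ∃ R : MvPolynomial (Fin (M + 1)) k, IsForm R ∧ val x R ≠ 0 ∧
    ∀ (E : Type) [Field E] [Algebra k E] (w : ℕ) (z : Fin (M + 1) → E), SubOf k x z →
      val z Q ≠ 0 → val z R ≠ 0 → 1 ≤ w → Algebra.trdeg k E = w →
        LogGeneralType k E w (OffQ Q q z)

end Pool.Agent.X333.DC
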