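import Pool.Agent.X333.DC.RgT

/-!
Varieties dominated by the complement of coordinate hyperplanes in a variety which is covered by
orbits: nonconstant morphisms from the multiplicative group through general points.
-/

set_option autoImplicit false
set_option maxHeartbeats 400000
set_option linter.overlappingInstances false
set_option linter.unusedSectionVars false

open FF Pool.Agent.W603.LV

namespace Pool.Agent.X333.DC

open Pool.Agent.W602.GT Pool.Agent.TH466.QG Pool.Agent.Y221.BD Pool.Agent.Y221.AH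
  Pool.Agent.TH710.ND Pool.Agent.X333.DN Pool.Agent.Y221.FQ
open Pool.Agent.TH143.GT (rf rf_zero rf_mul val_rf Flat Fam exists_frac)
open Pool.Agent.W603.GR (OffQ)
open Pool.Agent.TH710.NU (zeroInf)
open Pool.Agent.W603.PV (pht pord pht_le pht_scale isFF_of_finite exists_pord pord_le ge_pord)
open Pool.Agent.W603.CX (hgt_le_pht)

variable {k : Type} [Field k] {n M : ℕ} {ι : Type} {F : ι → MvPolynomial (Fin (n + 1)) k}
  {Q : MvPolynomial (Fin (M + 1)) k} {q : ℕ} {U : Set (Fin (n + 1))}
  {K L : Type} [Field K] [Field L] [Algebra k K] [Algebra k L] [Algebra L K]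
  [IsScalarTower k L K] [IsAlgClosed k] [CharZero k]

/-- representatives are proportional -/
theorem prop_rep {y : Fin (n + 1) → K} {x : Fin (M + 1) → L} (hx : x ≠ 0) {e e' : ℕ}
    {G G' : Fin (M + 1) → MvPolynomial (Fin (n + 1)) k} (hG : ∀ a, (G a).IsHomogeneous e)
    (hG' : ∀ a, (G' a).IsHomogeneous e')
    (hGx : ∀ a c, algebraMap L K (x a) * val y (G c) = algebraMap L K (x c) * val y (G a))
    (hGx' : ∀ a c, algebraMap L K (x a) * val y (G' c) = algebraMap L K (x c) * val y (G' a))
    (a m : Fin (M + 1)) : IsForm (G a * G' m - G m * G' a) ∧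
      val y (G a * G' m - G m * G' a) = 0 := by
  refine ⟨⟨e + e', ((hG a).mul (hG' m)).sub ((hG m).mul (hG' a))⟩, ?_⟩
  obtain ⟨a1, ha1'⟩ := Function.ne_iff.1 hx
  have ha1 : algebraMap L K (x a1) ≠ 0 := (map_ne_zero (algebraMap L K)).2 ha1'
  have h3 : val y (G a) * val y (G' m) = val y (G m) * val y (G' a) := by
    apply mul_left_cancel₀ (mul_ne_zero ha1 ha1)
    have e1 := hGx a1 a
    have e2 := hGx a1 m
    have e3 := hGx' a1 a
    have e4 := hGx' a1 m
    calc algebraMap L K (x a1) * algebraMap L K (x a1) * (val y (G a) * val y (G' m)) =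
          (algebraMap L K (x a1) * val y (G a)) * (algebraMap L K (x a1) * val y (G' m)) := by ring
      _ = (algebraMap L K (x a1) * val y (G m)) * (algebraMap L K (x a1) * val y (G' a)) := by
          rw [e1, e2, e3, e4]
          ring
      _ = _ := by ring
  unfold Pool.Agent.W602.GT.val at h3 ⊢
  rw [map_sub, map_mul, map_mul, h3, sub_self]

/-- **Primitive representatives along the orbits.** -/
theorem bd_gen {E : Type} [Field E] [Algebra k E] {b : Fin (n + 1) → ℤ} {B : ℕ}
    (hB : ∀ j, 0 ≤ b j + B) {v : Fin (n + 1) → E} {y : Fin (n + 1) → K} {x : Fin (M + 1) → L}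
    (hx : x ≠ 0) (hfam : ∀ H : MvPolynomial (Fin (n + 1)) k, IsForm H → val y H = 0 →
      (MvPolynomial.aeval (orbP b B v) H : Polynomial E) = 0) {i : Fin (n + 1)} (hi : v i ≠ 0)
    (hvU : ∀ j ∈ U, v j ≠ 0) (hQ : Q.IsHomogeneous q) (hreg : RegMap (k := k) U y x Q) {e : ℕ}
    {G : Fin (M + 1) → MvPolynomial (Fin (n + 1)) k} (hG : ∀ a, (G a).IsHomogeneous e)
    (hGx : ∀ a c, algebraMap L K (x a) * val y (G c) = algebraMap L K (x c) * val y (G a))
    (hG0 : ∃ a, val v (G a) ≠ 0) :
    ∃ (g : Polynomial E) (P c' : Fin (M + 1) → Polynomial E) (c : E) (l : ℕ), g ≠ 0 ∧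
      (∀ a, imP G b B v a = g * P a) ∧ ∑ a, c' a * P a = 1 ∧ c ≠ 0 ∧
      (MvPolynomial.aeval P Q : Polynomial E) = Polynomial.C c * Polynomial.X ^ l := by
  obtain ⟨a0, ha0⟩ := hG0
  have hW0 : imP G b B v a0 ≠ 0 := by
    intro h0
    apply ha0
    rw [← orbP_one hB v (G a0)]
    change Polynomial.aeval 1 (imP G b B v a0) = 0
    rw [h0, map_zero]
  obtain ⟨g, P, c', hg, hWP, hc'⟩ := prim (imP G b B v) ⟨a0, hW0⟩
  have h1 : ∀ t : AlgebraicClosure E, t ≠ 0 →
      Polynomial.aeval t (MvPolynomial.aeval P Q : Polynomial E) ≠ 0 := by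
    intro t ht h0
    obtain ⟨u, hu⟩ : ∃ u : Fin (n + 1) → AlgebraicClosure E,
      u = fun j => t ^ B * (t ^ b j * algebraMap E (AlgebraicClosure E) (v j)) := ⟨_, rfl⟩
    have hune : ∀ j, v j ≠ 0 → u j ≠ 0 := by
      intro j hj
      rw [hu]
      exact mul_ne_zero (pow_ne_zero _ ht) (mul_ne_zero (zpow_ne_zero _ ht)
        ((map_ne_zero (algebraMap E (AlgebraicClosure E))).2 hj))
    have huv : ∀ H : MvPolynomial (Fin (n + 1)) k, Polynomial.aeval t
        (MvPolynomial.aeval (orbP b B v) H : Polynomial E) = val u H := by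
      intro H
      rw [hu]
      exact orbP_val hB v ht H
    obtain ⟨e2, G2, hG2, hG2x, -, hG2Q⟩ := reg_at hreg (hune i hi)
      (fun H hH h0 => by
        rw [← huv, hfam H hH h0, map_zero]) fun j hj => hune j (hvU j hj)
    have hprop : ∀ a m, P a * imP G2 b B v m = P m * imP G2 b B v a := by
      intro a m
      apply mul_left_cancel₀ hg
      rw [← mul_assoc, ← mul_assoc, ← hWP, ← hWP]
      obtain ⟨hf, h2⟩ := prop_rep hx hG hG2 hGx hG2x a m
      have h3 := hfam _ hf h2
      rw [map_sub, map_mul, map_mul, sub_eq_zero] at h3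
      exact h3
    obtain ⟨hh, hhdef⟩ : ∃ hh : Polynomial E, hh = ∑ a, c' a * imP G2 b B v a := ⟨_, rfl⟩
    have hW2 : ∀ a, imP G2 b B v a = hh * P a := by
      intro a
      calc imP G2 b B v a = (∑ c, c' c * P c) * imP G2 b B v a := by rw [hc', one_mul]
        _ = ∑ c, c' c * (P c * imP G2 b B v a) := by
            rw [Finset.sum_mul]
            exact Finset.sum_congr rfl fun c _ => by ring
        _ = ∑ c, c' c * (P a * imP G2 b B v c) := by
            exact Finset.sum_congr rfl fun c _ => by rw [hprop a c]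
        _ = hh * P a := by
            rw [hhdef, Finset.sum_mul]
            exact Finset.sum_congr rfl fun c _ => by ring
    apply hG2Q
    have h3 : im G2 u = fun a => Polynomial.aeval t hh * Polynomial.aeval t (P a) := by
      funext a
      have h4 := huv (G2 a)
      change Polynomial.aeval t (imP G2 b B v a) = im G2 u a at h4
      rw [← h4, hW2, map_mul]
    rw [h3, val_smul hQ]
    let φ : Polynomial E →ₐ[k] AlgebraicClosure E :=
      (Polynomial.aeval t : Polynomial E →ₐ[E] AlgebraicClosure E).restrictScalars k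
    have h4 : Polynomial.aeval t (MvPolynomial.aeval P Q : Polynomial E) =
        val (fun a => Polynomial.aeval t (P a)) Q := MvPolynomial.comp_aeval_apply (f := P) φ Q
    rw [← h4, h0, mul_zero]
  obtain ⟨c, l, hc, hcl⟩ := mono_of_roots (fun h0 => by
    apply h1 1 one_ne_zero
    rw [h0, map_zero]) h1
  exact ⟨g, P, c', c, l, hg, hWP, hc', hc, hcl⟩

/-- substitution of a point of the one-parameter group -/
noncomputable def sub1 (b : Fin (n + 1) → ℤ) (B : ℕ) (t : k) (H : MvPolynomial (Fin (n + 1)) k) :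
    MvPolynomial (Fin (n + 1)) k :=
  MvPolynomial.aeval (fun j => MvPolynomial.C (t ^ (b j + B).toNat) * MvPolynomial.X j) H

theorem val_sub1 {E : Type} [Field E] [Algebra k E] (b : Fin (n + 1) → ℤ) (B : ℕ) (t : k)
    (v : Fin (n + 1) → E) (H : MvPolynomial (Fin (n + 1)) k) :
    val v (sub1 b B t H) = (MvPolynomial.aeval (orbP b B v) H : Polynomial E).eval
      (algebraMap k E t) := by
  unfold sub1 Pool.Agent.W602.GT.val
  have h1 := MvPolynomial.comp_aeval_apply
    (f := fun j => MvPolynomial.C (t ^ (b j + B).toNat) * (MvPolynomial.X j :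
      MvPolynomial (Fin (n + 1)) k)) (MvPolynomial.aeval v : MvPolynomial (Fin (n + 1)) k →ₐ[k] E) H
  rw [h1]
  let φ : Polynomial E →ₐ[k] E :=
    (Polynomial.aeval (algebraMap k E t) : Polynomial E →ₐ[E] E).restrictScalars k
  have h2 : ∀ p : Polynomial E, p.eval (algebraMap k E t) = φ p := fun p => by
    change _ = Polynomial.aeval (algebraMap k E t) p
    rw [Polynomial.coe_aeval_eq_eval]
  rw [h2, MvPolynomial.comp_aeval_apply (f := orbP b B v) φ H]
  congr 2
  funext j
  rw [← h2]
  unfold orbP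
  rw [map_mul, MvPolynomial.aeval_C, MvPolynomial.aeval_X, Polynomial.eval_mul, Polynomial.eval_C,
    Polynomial.eval_pow, Polynomial.eval_X, map_pow, mul_comm]

/-- **Morphisms from the multiplicative group through general points.** -/
theorem gm_spec [Algebra.IsAlgebraic L K] (hFf : ∀ e, IsForm (F e)) {y : Fin (n + 1) → K}
    (hygen : coords k y = ⊤) (hcomp : IsComponent F y) (hW : WtMv F y)
    (hyU : ∀ j ∈ U, y j ≠ 0) {x : Fin (M + 1) → L} (hx : x ≠ 0) (hgen : coords k x = ⊤)
    (hQ : Q.IsHomogeneous q) (hreg : RegMap (k := k) U y x Q)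
    {R : MvPolynomial (Fin (M + 1)) k} (hR : IsForm R) (hxR : val x R ≠ 0) :
    ∃ (P c' : Fin (M + 1) → Polynomial k) (c : k) (l : ℕ), ∑ a, c' a * P a = 1 ∧ c ≠ 0 ∧
      (MvPolynomial.aeval P Q : Polynomial k) = Polynomial.C c * Polynomial.X ^ l ∧
      (∀ H : MvPolynomial (Fin (M + 1)) k, IsForm H → val x H = 0 →
        (MvPolynomial.aeval P H : Polynomial k) = 0) ∧
      (∃ (a m : Fin (M + 1)) (t0 : k), t0 ≠ 0 ∧
        (P a).eval t0 * (P m).eval 1 ≠ (P m).eval t0 * (P a).eval 1) ∧
      val (fun a => (P a).eval 1) R ≠ 0 := by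
  classical
  have hinf : Infinite k := inferInstance
  have hE0 : CharZero K := charZero_of_injective_algebraMap (algebraMap k K).injective
  obtain ⟨b, i, i', hi, hi', hb, hwc⟩ := hW
  obtain ⟨B, hB⟩ := exists_shift b
  have hrel : ∀ H : MvPolynomial (Fin (n + 1)) k, IsForm H →
      (val y H = 0 ↔ (MvPolynomial.aeval (orbP b B y) H : Polynomial K) = 0) := fun H hH =>
    rel_orb hFf hB hcomp hi hwc hH
  obtain ⟨e, G, hG, hGx, hG0, hGQ⟩ := reg_at hreg hi (fun H _ h => h) hyU
  obtain ⟨a0, ha0'⟩ := Function.ne_iff.1 hG0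
  have ha0 : val y (G a0) ≠ 0 := ha0'
  -- generic point
  have hGne : ∀ c, x c ≠ 0 → val y (G c) ≠ 0 := by
    intro c hc h0
    have h1 := hGx c a0
    rw [h0, mul_zero] at h1
    exact mul_ne_zero ((map_ne_zero (algebraMap L K)).2 hc) ha0 h1
  have hz0 : algebraMap L K (x a0) ≠ 0 := by
    intro h0
    obtain ⟨a1, ha1'⟩ := Function.ne_iff.1 hx
    have h1 := hGx a1 a0
    rw [h0, zero_mul] at h1
    exact mul_ne_zero ((map_ne_zero (algebraMap L K)).2 ha1') ha0 h1
  have hGc : im G y = fun a => (val y (G a0) / algebraMap L K (x a0)) * algebraMap L K (x a) := by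
    funext a
    have h1 := hGx a a0
    change val y (G a) = _
    field_simp
    linear_combination -h1
  have hcne : val y (G a0) / algebraMap L K (x a0) ≠ 0 := div_ne_zero ha0 hz0
  have hxy : ∀ H : MvPolynomial (Fin (M + 1)) k, IsForm H →
      (val x H = 0 ↔ val y (MvPolynomial.aeval G H) = 0) := by
    rintro H ⟨d, hd⟩
    rw [← val_im, hGc, val_smul hd]
    have h2 := val_map (IsScalarTower.toAlgHom k L K) H x
    have h3 : (fun i => (IsScalarTower.toAlgHom k L K) (x i)) = fun i => algebraMap L K (x i) :=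
      rfl
    rw [h3] at h2
    rw [← h2]
    constructor
    · intro h
      rw [h, map_zero, mul_zero]
    · intro h
      exact (map_eq_zero_iff _ (algebraMap L K).injective).1
        ((mul_eq_zero.1 h).resolve_left (pow_ne_zero _ hcne))
  -- the images of the orbits are not points
  obtain ⟨g0, P0, c0', cc0, l0, hg0, hWP0, hc0', -, -⟩ := bd_gen hB hx
    (fun H hH h => (hrel H hH).1 h) hi hyU hQ hreg hG hGx ⟨a0, ha0⟩
  have hone : ∀ a, (imP G b B y a).eval 1 = val y (G a) := by
    intro a
    rw [← orbP_one hB y (G a), Polynomial.coe_aeval_eq_eval]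
    rfl
  obtain ⟨t0, ht0, a, m, ham⟩ : ∃ (t0 : k) (_ : t0 ≠ 0) (a m : Fin (M + 1)),
      (imP G b B y a).eval (algebraMap k K t0) * val y (G m) ≠
        (imP G b B y m).eval (algebraMap k K t0) * val y (G a) := by
    by_contra hcon
    push Not at hcon
    refine flat_false hFf hB hygen hcomp hi hi' hb hwc hx hgen hG hGx ⟨a0, ha0⟩ hg0 hWP0
      fun a c hc => ?_
    have h1 : imP G b B y a * Polynomial.C (val y (G c)) =
        Polynomial.C (val y (G a)) * imP G b B y c := by
      refine Polynomial.eq_of_infinite_eval_eq _ _ ?_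
      refine Set.Infinite.mono (s := algebraMap k K '' {t : k | t ≠ 0}) ?_ ?_
      · rintro _ ⟨t, ht, rfl⟩
        change Polynomial.eval _ _ = Polynomial.eval _ _
        rw [Polynomial.eval_mul, Polynomial.eval_mul, Polynomial.eval_C, Polynomial.eval_C,
          hcon t ht a c]
        ring
      · refine Set.Infinite.image (algebraMap k K).injective.injOn ?_
        exact (Set.finite_singleton (0 : k)).infinite_compl
    rw [hWP0, hWP0] at h1
    have h2 : P0 a * Polynomial.C (val y (G c)) = Polynomial.C (val y (G a)) * P0 c := by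
      apply mul_left_cancel₀ hg0
      linear_combination h1
    have h3 := hGne c hc
    have h4 : P0 a = Polynomial.C (val y (G a) / val y (G c)) * P0 c := by
      have h5 : Polynomial.C (val y (G c)) ≠ 0 := by rwa [Ne, Polynomial.C_eq_zero]
      apply mul_right_cancel₀ h5
      rw [h2, mul_right_comm, ← Polynomial.C_mul, div_mul_cancel₀ _ h3]
    rw [h4, Polynomial.derivative_C_mul]
    ring
  -- specialisation
  obtain ⟨p, hp, hp0⟩ := specialise (k := k) y
    ((∏ j ∈ U.toFinite.toFinset, MvPolynomial.X j) * (MvPolynomial.X i *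
      (MvPolynomial.aeval G R * (sub1 b B t0 (G a) * G m - sub1 b B t0 (G m) * G a)))) (by
      rw [map_mul, map_prod, map_mul, map_mul, map_sub, map_mul, map_mul, MvPolynomial.aeval_X]
      refine mul_ne_zero (Finset.prod_ne_zero_iff.2 fun j hj => ?_) (mul_ne_zero hi
        (mul_ne_zero ?_ ?_))
      · rw [MvPolynomial.aeval_X]
        exact hyU j ((Set.Finite.mem_toFinset _).1 hj)
      · exact fun h => hxR ((hxy R hR).2 h)
      · rw [sub_ne_zero]
        have h1 := val_sub1 b B t0 y (G a)
        have h2 := val_sub1 b B t0 y (G m)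
        unfold Pool.Agent.W602.GT.val at h1 h2
        rw [h1, h2]
        exact ham)
  rw [map_mul, map_prod, map_mul, map_mul, map_sub, map_mul, map_mul, MvPolynomial.aeval_X] at hp
  have hpU := left_ne_zero_of_mul hp
  rw [Finset.prod_ne_zero_iff] at hpU
  have hp' := right_ne_zero_of_mul hp
  have hpi := left_ne_zero_of_mul hp'
  have hp'' := right_ne_zero_of_mul hp'
  have hpR := left_ne_zero_of_mul hp''
  have hpD := right_ne_zero_of_mul hp''
  have hpU' : ∀ j ∈ U, p j ≠ 0 := fun j hj => by
    have h3 := hpU j ((Set.Finite.mem_toFinset _).2 hj)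
    rwa [MvPolynomial.aeval_X] at h3
  have hfam : ∀ H : MvPolynomial (Fin (n + 1)) k, IsForm H → val y H = 0 →
      (MvPolynomial.aeval (orbP b B p) H : Polynomial k) = 0 := by
    intro H hH h0
    refine Polynomial.eq_zero_of_infinite_isRoot _ ?_
    refine Set.Infinite.mono (s := {t : k | t ≠ 0}) ?_
      (Set.finite_singleton (0 : k)).infinite_compl
    intro t ht
    change Polynomial.eval t _ = 0
    have h1 := val_sub1 b B t p H
    rw [Algebra.algebraMap_self, RingHom.id_apply] at h1
    rw [← h1]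
    apply hp0
    have h2 := val_sub1 b B t y H
    rw [(hrel H hH).1 h0, Polynomial.eval_zero] at h2
    exact h2
  have hGp : ∃ a, val p (G a) ≠ 0 := by
    by_contra hcon
    push Not at hcon
    apply hpD
    have h1 : MvPolynomial.aeval p (G m) = 0 := hcon m
    have h2 : MvPolynomial.aeval p (G a) = 0 := hcon a
    rw [h1, h2]
    ring
  obtain ⟨g, P, c', c, l, hg, hWP, hc', hc, hcl⟩ := bd_gen hB hx hfam hpi hpU' hQ hreg hG hGx hGp
  have hev1 : ∀ a, (imP G b B p a).eval 1 = val p (G a) := by
    intro a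
    rw [← orbP_one hB p (G a), Polynomial.coe_aeval_eq_eval]
    rfl
  refine ⟨P, c', c, l, hc', hc, hcl, ?_, ⟨a, m, t0, ht0, ?_⟩, ?_⟩
  · intro H hH h0
    have h1 : (MvPolynomial.aeval (imP G b B p) H : Polynomial k) = 0 := by
      have h2 := hfam (MvPolynomial.aeval G H) (by
        obtain ⟨d, hd⟩ := hH
        exact ⟨_, hd.aeval _ hG⟩) ((hxy H hH).1 h0)
      rw [← h2]
      exact (MvPolynomial.comp_aeval_apply (f := G)
        (MvPolynomial.aeval (orbP b B p) : MvPolynomial (Fin (n + 1)) k →ₐ[k] Polynomial k) H).symm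
    obtain ⟨d, hd⟩ := hH
    have hrfW : (fun a => rf (imP G b B p a)) = fun a => rf g * rf (P a) := by
      funext a
      rw [hWP, rf_mul]
    have hrg : rf g ≠ 0 := by rwa [Ne, rf_zero]
    rw [← rf_zero, ← val_rf, hrfW, val_smul hd, val_rf] at h1
    exact rf_zero.1 ((mul_eq_zero.1 h1).resolve_left (pow_ne_zero _ hrg))
  · intro h0
    apply hpD
    have h1 := val_sub1 b B t0 p (G a)
    have h2 := val_sub1 b B t0 p (G m)
    rw [Algebra.algebraMap_self, RingHom.id_apply] at h1 h2
    have h3 : (MvPolynomial.aeval p (sub1 b B t0 (G a)) : k) = (imP G b B p a).eval t0 := h1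
    have h4 : (MvPolynomial.aeval p (sub1 b B t0 (G m)) : k) = (imP G b B p m).eval t0 := h2
    have h5 : (MvPolynomial.aeval p (G a) : k) = (imP G b B p a).eval 1 := (hev1 a).symm
    have h6 : (MvPolynomial.aeval p (G m) : k) = (imP G b B p m).eval 1 := (hev1 m).symm
    rw [h3, h4, h5, h6, hWP, hWP, Polynomial.eval_mul, Polynomial.eval_mul, Polynomial.eval_mul,
      Polynomial.eval_mul]
    linear_combination g.eval t0 * g.eval 1 * h0
  · intro h0
    apply hpR
    change val p (MvPolynomial.aeval G R) = 0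
    rw [← val_im]
    have h1 : im G p = fun a => g.eval 1 * (P a).eval 1 := by
      funext a
      have h2 := hev1 a
      rw [hWP, Polynomial.eval_mul] at h2
      exact h2.symm
    obtain ⟨d, hd⟩ := hR
    rw [h1, val_smul hd, h0, mul_zero]

end Pool.Agent.X333.DC
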