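import Pool.Agent.X333.DC.OpiT
import Pool.Agent.X333.DC.RgD
import Pool.Agent.X333.DC.Dom
import Pool.Agent.X333.DN.Open

/-!
Varieties dominated by the complement of coordinate hyperplanes in a variety which is covered by
orbits of one-parameter groups of diagonal matrices.
-/

set_option autoImplicit false
set_option maxHeartbeats 400000
set_option linter.overlappingInstances false
set_option linter.unusedSectionVars false

open FF Pool.Agent.W603.LV

namespace Pool.Agent.X333.DC

open Pool.Agent.W602.GT Pool.Agent.TH466.QG Pool.Agent.Y221.BD Pool.Agent.Y221.AH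
  Pool.Agent.TH710.ND Pool.Agent.X333.DN Pool.Agent.Y221.FQ
open Pool.Agent.TH143.GT (rf rf_zero rf_mul val_rf Flat Fam exists_frac)
open Pool.Agent.W603.GR (OffQ)

variable {k : Type} [Field k] {n M : ℕ} {ι : Type} {F : ι → MvPolynomial (Fin (n + 1)) k}
  {Q : MvPolynomial (Fin (M + 1)) k} {q : ℕ} {U : Set (Fin (n + 1))}
  {K L : Type} [Field K] [Field L] [Algebra k K] [Algebra k L] [Algebra L K]
  [IsScalarTower k L K]

/-- **Primitive representatives.** -/
theorem prim {E : Type} [Field E] (W : Fin (M + 1) → Polynomial E) (hW : ∃ a, W a ≠ 0) :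
    ∃ (g : Polynomial E) (P c : Fin (M + 1) → Polynomial E), g ≠ 0 ∧ (∀ a, W a = g * P a) ∧
      ∑ a, c a * P a = 1 := by
  obtain ⟨a0, ha0⟩ := hW
  obtain ⟨g, hg⟩ : ∃ g, g = Submodule.IsPrincipal.generator (Ideal.span (Set.range W)) := ⟨_, rfl⟩
  have hspan : Ideal.span (Set.range W) = Ideal.span {g} := by
    rw [hg, Ideal.span_singleton_generator]
  have hdvd : ∀ a, g ∣ W a := by
    intro a
    rw [← Ideal.mem_span_singleton, ← hspan]
    exact Ideal.subset_span ⟨a, rfl⟩
  choose P hP using hdvd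
  have hg0 : g ≠ 0 := by
    rintro rfl
    apply ha0
    rw [hP a0, zero_mul]
  have hmem : g ∈ Ideal.span (Set.range W) := by
    rw [hspan]
    exact Ideal.mem_span_singleton_self g
  rw [Ideal.mem_span_range_iff_exists_fun] at hmem
  obtain ⟨c, hc⟩ := hmem
  refine ⟨g, P, c, hg0, hP, ?_⟩
  apply mul_left_cancel₀ hg0
  rw [mul_one, Finset.mul_sum]
  conv_rhs => rw [← hc]
  refine Finset.sum_congr rfl fun a _ => ?_
  rw [hP a]
  ring

/-- the value at one -/
theorem orbP_one {b : Fin (n + 1) → ℤ} {B : ℕ} (hB : ∀ j, 0 ≤ b j + B) (y : Fin (n + 1) → K)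
    (H : MvPolynomial (Fin (n + 1)) k) :
    Polynomial.aeval (1 : K) (MvPolynomial.aeval (orbP b B y) H : Polynomial K) = val y H := by
  let φ : Polynomial K →ₐ[k] K := (Polynomial.aeval (1 : K) : Polynomial K →ₐ[K] K).restrictScalars k
  have h1 : ∀ p, Polynomial.aeval (1 : K) p = φ p := fun _ => rfl
  rw [h1, MvPolynomial.comp_aeval_apply (f := orbP b B y) φ H]
  unfold Pool.Agent.W602.GT.val
  congr 2
  funext j
  have h2 := congrFun (orbP_eval (Ω := K) hB y (t := 1) one_ne_zero) j
  change Polynomial.aeval (1 : K) (orbP b B y j) = y j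
  rw [h2]
  simp

/-- the value at a point -/
theorem orbP_val {Ω : Type} [Field Ω] [Algebra k Ω] [Algebra K Ω] [IsScalarTower k K Ω]
    {b : Fin (n + 1) → ℤ} {B : ℕ} (hB : ∀ j, 0 ≤ b j + B) (y : Fin (n + 1) → K) {t : Ω}
    (ht : t ≠ 0) (H : MvPolynomial (Fin (n + 1)) k) :
    Polynomial.aeval t (MvPolynomial.aeval (orbP b B y) H : Polynomial K) =
      val (fun j => t ^ B * (t ^ b j * algebraMap K Ω (y j))) H := by
  let φ : Polynomial K →ₐ[k] Ω := (Polynomial.aeval t : Polynomial K →ₐ[K] Ω).restrictScalars k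
  have h1 : ∀ p, Polynomial.aeval t p = φ p := fun _ => rfl
  rw [h1, MvPolynomial.comp_aeval_apply (f := orbP b B y) φ H]
  unfold Pool.Agent.W602.GT.val
  congr 2
  exact orbP_eval hB y ht

variable [IsAlgClosed k] [CharZero k]

/-- **The family of orbits is dense.** -/
theorem rel_orb (hFf : ∀ e, IsForm (F e)) {b : Fin (n + 1) → ℤ} {B : ℕ}
    (hB : ∀ j, 0 ≤ b j + B) {y : Fin (n + 1) → K} (hcomp : IsComponent F y) {i : Fin (n + 1)}
    (hi : y i ≠ 0) (hwc : ∀ e v, val y (wc b v (F e)) = 0) {H : MvPolynomial (Fin (n + 1)) k}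
    (hH : IsForm H) :
    val y H = 0 ↔ (MvPolynomial.aeval (orbP b B y) H : Polynomial K) = 0 := by
  have hback : ∀ H : MvPolynomial (Fin (n + 1)) k,
      (MvPolynomial.aeval (orbP b B y) H : Polynomial K) = 0 → val y H = 0 := by
    intro H h0
    rw [← orbP_one hB y H, h0, map_zero]
  refine ⟨fun h0 => ?_, hback H⟩
  obtain ⟨H0, hH0f, hH0z, hH0⟩ := hcomp
  have hX0 : (RatFunc.X : RatFunc K) ≠ 0 := RatFunc.X_ne_zero
  have hXr : ∀ p : Polynomial K, Polynomial.aeval (RatFunc.X : RatFunc K) p =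
      algebraMap (Polynomial K) (RatFunc K) p := by
    intro p
    have h1 : (RatFunc.X : RatFunc K) = algebraMap (Polynomial K) (RatFunc K) Polynomial.X :=
      RatFunc.algebraMap_X.symm
    rw [h1, Polynomial.aeval_algebraMap_apply, Polynomial.aeval_X_left_apply]
  obtain ⟨v, hv⟩ : ∃ v : Fin (n + 1) → RatFunc K, v = fun j => (RatFunc.X : RatFunc K) ^ B *
    ((RatFunc.X : RatFunc K) ^ b j * algebraMap K (RatFunc K) (y j)) := ⟨_, rfl⟩
  have hvF : ∀ e, val v (F e) = 0 := by
    intro e
    rw [hv]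
    exact orb_mem (k := k) (E := K) (Ω := RatFunc K) hFf hwc hX0 B e
  have hv0 : v ≠ 0 := by
    intro h1
    have h2 := congrFun h1 i
    rw [hv] at h2
    exact mul_ne_zero (pow_ne_zero _ hX0) (mul_ne_zero (zpow_ne_zero _ hX0)
      ((map_ne_zero (algebraMap K (RatFunc K))).2 hi)) h2
  have h1 : val v (H0 * H) = 0 := by
    refine van_of_cone hv0 hvF fun x hx => ?_
    change MvPolynomial.aeval x (H0 * H) = 0
    rw [map_mul]
    by_cases h2 : val x H0 = 0
    · have h3 : MvPolynomial.aeval x H0 = 0 := h2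
      rw [h3, zero_mul]
    · have h3 : MvPolynomial.aeval x H = 0 := (hH0 x hx h2).2 H hH h0
      rw [h3, mul_zero]
  have h2 := orbP_val (k := k) (Ω := RatFunc K) hB y hX0 (H0 * H)
  rw [← hv, h1, hXr, map_mul] at h2
  have h3 := (map_eq_zero_iff _ (RatFunc.algebraMap_injective K)).1 h2
  exact (mul_eq_zero.1 h3).resolve_left fun h4 => hH0z (hback H0 h4)

/-- representatives near the points of the orbits -/
theorem reg_at {y : Fin (n + 1) → K} {x : Fin (M + 1) → L}
    (hreg : RegMap (k := k) U y x Q) {Ω : Type} [Field Ω] [Algebra k Ω] {u : Fin (n + 1) → Ω}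
    {i : Fin (n + 1)} (hi : u i ≠ 0)
    (hu : ∀ H : MvPolynomial (Fin (n + 1)) k, IsForm H → val y H = 0 → val u H = 0)
    (huU : ∀ j ∈ U, u j ≠ 0) : ∃ (e : ℕ) (G : Fin (M + 1) → MvPolynomial (Fin (n + 1)) k),
      (∀ a, (G a).IsHomogeneous e) ∧
      (∀ a c, algebraMap L K (x a) * val y (G c) = algebraMap L K (x c) * val y (G a)) ∧
      im G u ≠ 0 ∧ val (im G u) Q ≠ 0 := by
  classical
  by_contra hcon
  push Not at hcon
  obtain ⟨p, hp, hp0⟩ := specialise (k := k) u
    ((∏ j ∈ U.toFinite.toFinset, MvPolynomial.X j) * MvPolynomial.X i) (by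
      rw [map_mul, map_prod, MvPolynomial.aeval_X]
      refine mul_ne_zero (Finset.prod_ne_zero_iff.2 fun j hj => ?_) hi
      rw [MvPolynomial.aeval_X]
      exact huU j ((Set.Finite.mem_toFinset _).1 hj))
  rw [map_mul, map_prod, MvPolynomial.aeval_X] at hp
  have h1 := left_ne_zero_of_mul hp
  have h2 := right_ne_zero_of_mul hp
  rw [Finset.prod_ne_zero_iff] at h1
  obtain ⟨e, G, hG, hGx, hG0, hGQ⟩ := hreg p (fun h => h2 (congrFun h i))
    (fun H hH h0 => hp0 _ (hu H hH h0)) fun j hj => by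
      have h3 := h1 j ((Set.Finite.mem_toFinset _).2 hj)
      rwa [MvPolynomial.aeval_X] at h3
  by_cases h4 : im G u = 0
  · apply hG0
    funext a
    exact hp0 _ (congrFun h4 a)
  · apply hGQ
    have h3 := hcon e G hG hGx h4
    rw [val_im] at h3 ⊢
    exact hp0 _ h3

/-- **The family of the images of the orbits.** -/
theorem reg_fam (hFf : ∀ e, IsForm (F e)) {b : Fin (n + 1) → ℤ} {B : ℕ}
    (hB : ∀ j, 0 ≤ b j + B) {y : Fin (n + 1) → K} (hcomp : IsComponent F y) {i : Fin (n + 1)}
    (hi : y i ≠ 0) (hwc : ∀ e v, val y (wc b v (F e)) = 0) (hyU : ∀ j ∈ U, y j ≠ 0)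
    {x : Fin (M + 1) → L} (hx : x ≠ 0) (hQ : Q.IsHomogeneous q) (hreg : RegMap (k := k) U y x Q) :
    ∃ (e : ℕ) (G : Fin (M + 1) → MvPolynomial (Fin (n + 1)) k) (g : Polynomial K)
      (P : Fin (M + 1) → Polynomial K) (l : ℕ), (∀ a, (G a).IsHomogeneous e) ∧
      (∀ a c, algebraMap L K (x a) * val y (G c) = algebraMap L K (x c) * val y (G a)) ∧
      g ≠ 0 ∧ (∀ a, imP G b B y a = g * P a) ∧ Fam x Q P l := by
  have hrel : ∀ H : MvPolynomial (Fin (n + 1)) k, IsForm H →
      (val y H = 0 ↔ (MvPolynomial.aeval (orbP b B y) H : Polynomial K) = 0) := fun H hH =>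
    rel_orb hFf hB hcomp hi hwc hH
  obtain ⟨e, G, hG, hGx, hG0, -⟩ := reg_at hreg hi (fun H _ h => h) hyU
  obtain ⟨a0, ha0'⟩ := Function.ne_iff.1 hG0
  have ha0 : val y (G a0) ≠ 0 := ha0'
  obtain ⟨a1, ha1'⟩ := Function.ne_iff.1 hx
  have ha1 : algebraMap L K (x a1) ≠ 0 := (map_ne_zero (algebraMap L K)).2 ha1'
  have hz0 : algebraMap L K (x a0) ≠ 0 := by
    intro h0
    have h1 := hGx a1 a0
    rw [h0, zero_mul] at h1
    exact mul_ne_zero ha1 ha0 h1
  obtain ⟨c, hc⟩ : ∃ c : K, c = val y (G a0) / algebraMap L K (x a0) := ⟨_, rfl⟩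
  have hc0 : c ≠ 0 := by
    rw [hc]
    exact div_ne_zero ha0 hz0
  have hGc : im G y = fun a => c * algebraMap L K (x a) := by
    funext a
    rw [hc]
    have h1 := hGx a a0
    change val y (G a) = _
    field_simp
    linear_combination -h1
  have hW0 : imP G b B y a0 ≠ 0 := by
    intro h0
    apply ha0
    rw [← orbP_one hB y (G a0)]
    change Polynomial.aeval 1 (imP G b B y a0) = 0
    rw [h0, map_zero]
  obtain ⟨g, P, c', hg, hWP, hc'⟩ := prim (imP G b B y) ⟨a0, hW0⟩
  have hrfW : (fun a => rf (imP G b B y a)) = fun a => rf g * rf (P a) := by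
    funext a
    rw [hWP, rf_mul]
  have hrg : rf g ≠ 0 := by rwa [Ne, rf_zero]
  refine ⟨e, G, g, P, ?_⟩
  -- the relations
  have hrelP : ∀ H : MvPolynomial (Fin (M + 1)) k, IsForm H →
      (val x H = 0 ↔ (MvPolynomial.aeval P H : Polynomial K) = 0) := by
    intro H hH
    obtain ⟨d, hd⟩ := hH
    have h1 : val x H = 0 ↔ val (im G y) H = 0 := by
      rw [hGc, val_smul hd]
      have h2 := val_map (IsScalarTower.toAlgHom k L K) H x
      have h3 : (fun i => (IsScalarTower.toAlgHom k L K) (x i)) = fun i => algebraMap L K (x i) :=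
        rfl
      rw [h3] at h2
      rw [← h2]
      constructor
      · intro h
        rw [h, map_zero, mul_zero]
      · intro h
        have h4 := (mul_eq_zero.1 h).resolve_left (pow_ne_zero _ hc0)
        exact (map_eq_zero_iff _ (algebraMap L K).injective).1 h4
    rw [h1, val_im, hrel _ ⟨_, hd.aeval _ hG⟩]
    have h2 : (MvPolynomial.aeval (orbP b B y) (MvPolynomial.aeval G H) : Polynomial K) =
        MvPolynomial.aeval (imP G b B y) H :=
      MvPolynomial.comp_aeval_apply (f := G)
        (MvPolynomial.aeval (orbP b B y) : MvPolynomial (Fin (n + 1)) k →ₐ[k] Polynomial K) H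
    rw [h2, ← rf_zero, ← val_rf, hrfW, val_smul hd, val_rf]
    constructor
    · intro h
      exact rf_zero.1 ((mul_eq_zero.1 h).resolve_left (pow_ne_zero _ hrg))
    · intro h
      rw [h, rf_zero.2 rfl, mul_zero]
  -- the boundary
  obtain ⟨c1, l, hc1, hcl⟩ : ∃ (c : K) (l : ℕ), c ≠ 0 ∧
      (MvPolynomial.aeval P Q : Polynomial K) = Polynomial.C c * Polynomial.X ^ l := by
    have h1 : ∀ t : AlgebraicClosure K, t ≠ 0 →
        Polynomial.aeval t (MvPolynomial.aeval P Q : Polynomial K) ≠ 0 := by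
      intro t ht h0
      obtain ⟨u, hu⟩ : ∃ u : Fin (n + 1) → AlgebraicClosure K,
        u = fun j => t ^ B * (t ^ b j * algebraMap K (AlgebraicClosure K) (y j)) := ⟨_, rfl⟩
      have hune : ∀ j, y j ≠ 0 → u j ≠ 0 := by
        intro j hj
        rw [hu]
        exact mul_ne_zero (pow_ne_zero _ ht) (mul_ne_zero (zpow_ne_zero _ ht)
          ((map_ne_zero (algebraMap K (AlgebraicClosure K))).2 hj))
      have huv : ∀ H : MvPolynomial (Fin (n + 1)) k, Polynomial.aeval t
          (MvPolynomial.aeval (orbP b B y) H : Polynomial K) = val u H := by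
        intro H
        rw [hu]
        exact orbP_val hB y ht H
      obtain ⟨e2, G2, hG2, hG2x, -, hG2Q⟩ := reg_at hreg (hune i hi)
        (fun H hH h0 => by
          rw [← huv, (hrel H hH).1 h0, map_zero]) fun j hj => hune j (hyU j hj)
      -- proportionality
      have hprop : ∀ a m, P a * imP G2 b B y m = P m * imP G2 b B y a := by
        intro a m
        apply mul_left_cancel₀ hg
        rw [← mul_assoc, ← mul_assoc, ← hWP, ← hWP]
        have h2 : val y (G a * G2 m - G m * G2 a) = 0 := by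
          have h3 : val y (G a) * val y (G2 m) = val y (G m) * val y (G2 a) := by
            have h4 := congrFun hGc a
            have h5 := congrFun hGc m
            change val y (G a) = _ at h4
            change val y (G m) = _ at h5
            rw [h4, h5]
            linear_combination c * hG2x a m
          unfold Pool.Agent.W602.GT.val at h3 ⊢
          rw [map_sub, map_mul, map_mul, h3, sub_self]
        have h3 := (hrel _ ⟨e + e2, ((hG a).mul (hG2 m)).sub ((hG m).mul (hG2 a))⟩).1 h2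
        rw [map_sub, map_mul, map_mul, sub_eq_zero] at h3
        exact h3
      obtain ⟨hh, hhdef⟩ : ∃ hh : Polynomial K, hh = ∑ a, c' a * imP G2 b B y a := ⟨_, rfl⟩
      have hW2 : ∀ a, imP G2 b B y a = hh * P a := by
        intro a
        calc imP G2 b B y a = (∑ c, c' c * P c) * imP G2 b B y a := by rw [hc', one_mul]
          _ = ∑ c, c' c * (P c * imP G2 b B y a) := by
              rw [Finset.sum_mul]
              exact Finset.sum_congr rfl fun c _ => by ring
          _ = ∑ c, c' c * (P a * imP G2 b B y c) := by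
              exact Finset.sum_congr rfl fun c _ => by rw [hprop a c]
          _ = hh * P a := by
              rw [hhdef, Finset.sum_mul]
              exact Finset.sum_congr rfl fun c _ => by ring
      apply hG2Q
      have h3 : im G2 u = fun a => Polynomial.aeval t hh * Polynomial.aeval t (P a) := by
        funext a
        have h4 := huv (G2 a)
        change Polynomial.aeval t (imP G2 b B y a) = im G2 u a at h4
        rw [← h4, hW2, map_mul]
      rw [h3, val_smul hQ]
      let φ : Polynomial K →ₐ[k] AlgebraicClosure K :=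
        (Polynomial.aeval t : Polynomial K →ₐ[K] AlgebraicClosure K).restrictScalars k
      have h4 : Polynomial.aeval t (MvPolynomial.aeval P Q : Polynomial K) =
          val (fun a => Polynomial.aeval t (P a)) Q := MvPolynomial.comp_aeval_apply (f := P) φ Q
      rw [← h4, h0, mul_zero]
    refine mono_of_roots (fun h0 => ?_) h1
    apply h1 1 one_ne_zero
    rw [h0, map_zero]
  exact ⟨l, hG, hGx, hg, hWP, ⟨hrelP, c1, hc1, hcl⟩⟩

end Pool.Agent.X333.DC
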