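import Pool.Agent.X333.DC.Rgm

/-!
Varieties dominated by the complement of coordinate hyperplanes in a variety which is covered by
orbits: they are not of log general type.
-/

set_option autoImplicit false
set_option maxHeartbeats 400000
set_option linter.overlappingInstances false
set_option linter.unusedSectionVars false

open FF Pool.Agent.W603.LV

namespace Pool.Agent.X333.DC

open Pool.Agent.W602.GT Pool.Agent.TH466.QG Pool.Agent.Y221.BD Pool.Agent.Y221.AH
  Pool.Agent.TH710.ND Pool.Agent.X333.DN Pool.Agent.Y221.FQ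
open Pool.Agent.TH143.GT (rf rf_zero rf_mul val_rf Flat Fam exists_frac)
open Pool.Agent.W603.GR (OffQ)

/-- powers of the variable -/
theorem pow_alg {E : Type} [Field E] {m m' : ℕ} (hm : m ≠ m') {f : E} (hf : f ≠ 0)
    (h : IsAlgebraic E (algebraMap E (RatFunc E) f *
      ((RatFunc.X : RatFunc E) ^ m / (RatFunc.X : RatFunc E) ^ m'))) : False := by
  have hX : (RatFunc.X : RatFunc E) ≠ 0 := RatFunc.X_ne_zero
  have hf' : algebraMap E (RatFunc E) f ≠ 0 := (map_ne_zero _).2 hf
  have h1 : IsAlgebraic E ((RatFunc.X : RatFunc E) ^ m / (RatFunc.X : RatFunc E) ^ m') := by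
    have h2 : ((RatFunc.X : RatFunc E) ^ m / (RatFunc.X : RatFunc E) ^ m') =
        (algebraMap E (RatFunc E) f * ((RatFunc.X : RatFunc E) ^ m / (RatFunc.X : RatFunc E) ^ m')) *
          (algebraMap E (RatFunc E) f)⁻¹ := by
      field_simp
    rw [h2]
    exact h.mul (isAlgebraic_algebraMap f).inv
  rcases lt_or_gt_of_ne hm with h2 | h2
  · have h3 : (RatFunc.X : RatFunc E) ^ (m' - m) =
        ((RatFunc.X : RatFunc E) ^ m / (RatFunc.X : RatFunc E) ^ m')⁻¹ := by
      rw [inv_div, eq_div_iff (pow_ne_zero _ hX), ← pow_add, Nat.sub_add_cancel h2.le]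
    have h4 : IsAlgebraic E ((RatFunc.X : RatFunc E) ^ (m' - m)) := by
      rw [h3]
      exact h1.inv
    exact (RatFunc.transcendental_X (K := E)).pow (by omega) h4
  · have h3 : (RatFunc.X : RatFunc E) ^ (m - m') =
        ((RatFunc.X : RatFunc E) ^ m / (RatFunc.X : RatFunc E) ^ m') := by
      rw [eq_div_iff (pow_ne_zero _ hX), ← pow_add, Nat.sub_add_cancel h2.le]
    have h4 : IsAlgebraic E ((RatFunc.X : RatFunc E) ^ (m - m')) := by
      rw [h3]
      exact h1
    exact (RatFunc.transcendental_X (K := E)).pow (by omega) h4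

variable {k : Type} [Field k] {n M : ℕ} {ι : Type} {F : ι → MvPolynomial (Fin (n + 1)) k}
  {Q : MvPolynomial (Fin (M + 1)) k} {q : ℕ} {U : Set (Fin (n + 1))}
  {K L : Type} [Field K] [Field L] [Algebra k K] [Algebra k L] [Algebra L K]
  [IsScalarTower k L K] [IsAlgClosed k] [CharZero k]

/-- **The images of the orbits are not points.** -/
theorem flat_false [Algebra.IsAlgebraic L K] (hFf : ∀ e, IsForm (F e)) {b : Fin (n + 1) → ℤ}
    {B : ℕ} (hB : ∀ j, 0 ≤ b j + B) {y : Fin (n + 1) → K} (hygen : coords k y = ⊤)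
    (hcomp : IsComponent F y)
    {i i' : Fin (n + 1)} (hi : y i ≠ 0) (hi' : y i' ≠ 0) (hb : b i ≠ b i')
    (hwc : ∀ e v, val y (wc b v (F e)) = 0) {x : Fin (M + 1) → L} (hx : x ≠ 0)
    (hgen : coords k x = ⊤) {e : ℕ} {G : Fin (M + 1) → MvPolynomial (Fin (n + 1)) k}
    {g : Polynomial K} {P : Fin (M + 1) → Polynomial K} (hG : ∀ a, (G a).IsHomogeneous e)
    (hGx : ∀ a c, algebraMap L K (x a) * val y (G c) = algebraMap L K (x c) * val y (G a))
    (hG0 : ∃ a, val y (G a) ≠ 0)
    (hg : g ≠ 0) (hW : ∀ a, imP G b B y a = g * P a)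
    (hflat : ∀ a c, x c ≠ 0 →
      Polynomial.derivative (P a) * P c = P a * Polynomial.derivative (P c)) : False := by
  have hE0 : CharZero K := charZero_of_injective_algebraMap (algebraMap k K).injective
  have hrel : ∀ H : MvPolynomial (Fin (n + 1)) k, IsForm H →
      (val y H = 0 ↔ (MvPolynomial.aeval (orbP b B y) H : Polynomial K) = 0) := fun H hH =>
    rel_orb hFf hB hcomp hi hwc hH
  have hy : y ≠ 0 := fun h => hi (congrFun h i)
  have hfamy : Fam y (1 : MvPolynomial (Fin (n + 1)) k) (orbP b B y) 0 :=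
    ⟨hrel, 1, one_ne_zero, by simp⟩
  obtain ⟨φ, hφ⟩ := Fam.emb hy hygen hfamy
  have hrg : rf g ≠ 0 := by rwa [Ne, rf_zero]
  obtain ⟨a0, ha0⟩ := hG0
  -- values of the representative
  have hGne : ∀ c, x c ≠ 0 → val y (G c) ≠ 0 := by
    intro c hc h0
    have h1 := hGx c a0
    rw [h0, mul_zero] at h1
    exact mul_ne_zero ((map_ne_zero (algebraMap L K)).2 hc) ha0 h1
  have hone : ∀ a, (imP G b B y a).eval 1 = val y (G a) := by
    intro a
    rw [← orbP_one hB y (G a), Polynomial.coe_aeval_eq_eval]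
    rfl
  have hratio : ∀ a c, x c ≠ 0 → algebraMap L K (x a / x c) = val y (G a) / val y (G c) := by
    intro a c hc
    have hc' : algebraMap L K (x c) ≠ 0 := (map_ne_zero (algebraMap L K)).2 hc
    have h1 := hGne c hc
    rw [map_div₀, div_eq_div_iff hc' h1, hGx a c]
    ring
  have hφr : ∀ a c, x c ≠ 0 → φ (algebraMap L K (x a / x c)) =
      algebraMap K (RatFunc K) (algebraMap L K (x a / x c)) := by
    intro a c hc
    rw [hratio a c hc, hφ e (G a) (G c) (hG a) (hG c) (hGne c hc)]
    change rf (imP G b B y a) / rf (imP G b B y c) = _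
    have h1 := hGne c hc
    rw [← hone, ← hone, hW, hW, Polynomial.eval_mul, Polynomial.eval_mul]
    have h2 : (g * P c).eval 1 ≠ 0 := by
      rw [← hW, hone]
      exact h1
    rw [Polynomial.eval_mul] at h2
    have h3 := left_ne_zero_of_mul h2
    have h4 := right_ne_zero_of_mul h2
    rw [mul_div_mul_left _ _ h3, rf_mul, rf_mul, mul_div_mul_left _ _ hrg]
    have h5 : P c ≠ 0 := by
      intro h0
      apply h4
      rw [h0, Polynomial.eval_zero]
    have h6 : rf (P c) ≠ 0 := by rwa [Ne, rf_zero]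
    have h7 : P a * Polynomial.C ((P c).eval 1) = Polynomial.C ((P a).eval 1) * P c := by
      apply Polynomial.funext
      intro s
      rw [Polynomial.eval_mul, Polynomial.eval_mul, Polynomial.eval_C, Polynomial.eval_C]
      exact poly_const' (hflat a c hc) s 1
    have h8 : rf (P a) * algebraMap K (RatFunc K) ((P c).eval 1) =
        algebraMap K (RatFunc K) ((P a).eval 1) * rf (P c) := by
      have h9 : ∀ z : K, rf (Polynomial.C z) = algebraMap K (RatFunc K) z := by
        intro z
        unfold rf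
        rw [RatFunc.algebraMap_C]
        rfl
      rw [← h9, ← h9, ← rf_mul, ← rf_mul, h7]
    have h10 : algebraMap K (RatFunc K) ((P c).eval 1) ≠ 0 := (map_ne_zero _).2 h4
    rw [map_div₀, div_eq_div_iff h6 h10, h8]
  -- the embedding is the identity on `L`
  have hφL : ∀ l : L, φ (algebraMap L K l) = algebraMap K (RatFunc K) (algebraMap L K l) := by
    let φ1 : L →ₐ[k] RatFunc K := φ.comp (IsScalarTower.toAlgHom k L K)
    let φ2 : L →ₐ[k] RatFunc K :=
      (IsScalarTower.toAlgHom k K (RatFunc K)).comp (IsScalarTower.toAlgHom k L K)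
    have h1 : coords k x ≤ eqF φ1 φ2 := by
      unfold coords
      rw [IntermediateField.adjoin_le_iff]
      rintro _ ⟨a, c, hc, rfl⟩
      exact hφr a c hc
    intro l
    have h2 : l ∈ coords k x := by
      rw [hgen]
      exact IntermediateField.mem_top
    exact h1 h2
  -- algebraicity
  obtain ⟨p, hp0, hp⟩ := Algebra.IsAlgebraic.isAlgebraic (R := L) (y i / y i')
  have hval : y i / y i' = val y (MvPolynomial.X i : MvPolynomial (Fin (n + 1)) k) /
      val y (MvPolynomial.X i' : MvPolynomial (Fin (n + 1)) k) := by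
    unfold Pool.Agent.W602.GT.val
    rw [MvPolynomial.aeval_X, MvPolynomial.aeval_X]
  have h1 : φ (y i / y i') = algebraMap K (RatFunc K) (y i / y i') *
      ((RatFunc.X : RatFunc K) ^ (b i + B).toNat / (RatFunc.X : RatFunc K) ^ (b i' + B).toNat) := by
    conv_lhs => rw [hval]
    rw [hφ 1 _ _ (MvPolynomial.isHomogeneous_X _ _) (MvPolynomial.isHomogeneous_X _ _) (by
      unfold Pool.Agent.W602.GT.val
      rw [MvPolynomial.aeval_X]
      exact hi'), MvPolynomial.aeval_X, MvPolynomial.aeval_X]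
    have h9 : ∀ z : K, rf (Polynomial.C z) = algebraMap K (RatFunc K) z := by
      intro z
      unfold rf
      rw [RatFunc.algebraMap_C]
      rfl
    have h10 : ∀ j, rf (orbP b B y j) = algebraMap K (RatFunc K) (y j) *
        (RatFunc.X : RatFunc K) ^ (b j + B).toNat := by
      intro j
      unfold orbP
      rw [rf_mul, h9]
      unfold rf
      rw [map_pow, RatFunc.algebraMap_X]
    rw [h10, h10, map_div₀, mul_div_mul_comm]
  have h2 : IsAlgebraic K (φ (y i / y i')) := by
    refine ⟨p.map (algebraMap L K), ?_, ?_⟩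
    · rwa [Polynomial.map_ne_zero_iff (algebraMap L K).injective]
    · have h3 : (Polynomial.aeval (φ (y i / y i'))) (p.map (algebraMap L K)) =
          φ (Polynomial.aeval (y i / y i') p) := by
        rw [Polynomial.aeval_def, Polynomial.eval₂_map, Polynomial.aeval_def,
          Polynomial.eval₂_eq_sum_range, Polynomial.eval₂_eq_sum_range, map_sum]
        refine Finset.sum_congr rfl fun m _ => ?_
        rw [map_mul, map_pow, hφL]
        rfl
      rw [h3, hp, map_zero]
  rw [h1] at h2
  refine pow_alg (fun h => hb ?_) (div_ne_zero hi hi') h2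
  have h3 := congrArg (Nat.cast : ℕ → ℤ) h
  rw [Int.toNat_of_nonneg (hB i), Int.toNat_of_nonneg (hB i')] at h3
  linarith

/-- **Varieties dominated by open varieties covered by orbits are not of log general type.** -/
theorem reg_not_lgt [Algebra.IsAlgebraic L K] (hFf : ∀ e, IsForm (F e)) {y : Fin (n + 1) → K}
    (hygen : coords k y = ⊤) (hcomp : IsComponent F y) (hW : WtMv F y)
    (hyU : ∀ j ∈ U, y j ≠ 0) {x : Fin (M + 1) → L} (hx : x ≠ 0) (hgen : coords k x = ⊤)
    (hQ : Q.IsHomogeneous q) (hreg : RegMap (k := k) U y x Q) {w m : ℕ}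
    (hm : Algebra.trdeg k K = m) : ¬ LogGeneralType k L w (OffQ Q q x) := by
  intro hlgt
  obtain ⟨b, i, i', hi, hi', hb, hwc⟩ := hW
  obtain ⟨B, hB⟩ := exists_shift b
  obtain ⟨e, G, g, P, l, hG, hGx, hg, hWP, hfam⟩ := reg_fam hFf hB hcomp hi hwc hyU hx hQ hreg
  have hflat := (Fam.main hlgt.1 hm hx hgen hfam hQ).2.2.1 hlgt
  obtain ⟨a1, ha1'⟩ := Function.ne_iff.1 hx
  have ha1 : x a1 ≠ 0 := ha1'
  have hG0 : ∃ a, val y (G a) ≠ 0 := by
    by_contra hcon
    push Not at hcon
    have h1 := (rel_orb (H := G a1) hFf hB hcomp hi hwc ⟨e, hG a1⟩).1 (hcon a1)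
    have h2 : imP G b B y a1 = 0 := h1
    rw [hWP] at h2
    have h3 := (mul_eq_zero.1 h2).resolve_left hg
    exact (hfam.ne a1).1 ha1 h3
  refine flat_false hFf hB hygen hcomp hi hi' hb hwc hx hgen hG hGx hG0 hg hWP fun a c hc => ?_
  have h1 := hflat (x a / x c) 1 (MvPolynomial.X a) (MvPolynomial.X c)
    (MvPolynomial.isHomogeneous_X _ _) (MvPolynomial.isHomogeneous_X _ _) (by
      unfold Pool.Agent.W602.GT.val
      rw [MvPolynomial.aeval_X]
      exact hc) (by
      unfold Pool.Agent.W602.GT.val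
      rw [MvPolynomial.aeval_X, MvPolynomial.aeval_X])
  rw [MvPolynomial.aeval_X, MvPolynomial.aeval_X] at h1
  exact h1

end Pool.Agent.X333.DC
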