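import Pool.Agent.X333.DC.OpiT
import Pool.Agent.W602.RG.TA

/-!
Pointed morphisms to projective varieties, for one point of the variety.
-/

set_option autoImplicit false

open FF MvPolynomial Pool.Agent.W603.LV Pool.Agent.W603.PV Pool.Agent.W603.CX
open scoped LinearAlgebra.Projectivization

namespace Pool.Agent.X333.DC

open Pool.Agent.W602.RG
open Pool.Agent.W883.RG (mk_eq of_mk_eq pord_of ord_of)

/-- **Restriction of morphisms to curves**, for one point. -/
theorem rst_at {k : Type} [Field k] [IsAlgClosed k] [CharZero k] [Uncountable k] {n : ℕ} {ι : Type}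
    {U : Set (Fin (n + 1))} {F : ι → MvPolynomial (Fin (n + 1)) k} {x : Fin (n + 1) → k}
    (hx : x ∈ Pool.Agent.W603.CX.Pts U F)
    (hfin : ∀ (L : Type) [Field L] [Algebra k L] [IsFF k L] (S : Finset (Place k L))
      (c : Place k L), c ∉ S → (PointedCurves U F S c x).Finite)
    (A : Type) [CommRing A] [IsDomain A] [Algebra k A] [Algebra.FiniteType k A]
    (y : A →ₐ[k] k) : (PointedMorphisms U F y x).Finite := by
  classical
  have h1 := Pool.Agent.W40.RG.SEL.main
  have h2 := Pool.Agent.W585.RG.DOM.main
  by_contra hinf
  have hinf' : (PointedMorphisms U F y x).Infinite := hinf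
  by_cases htr : ∃ t : A, Transcendental k t
  swap
  · -- all elements algebraic
    have hint : Algebra.IsIntegral k A := by
      constructor
      intro a
      by_contra hc
      apply htr
      exact ⟨a, fun h => hc h.isIntegral⟩
    have hsurj : Function.Surjective (algebraMap k A) :=
      (IsAlgClosed.algebraMap_bijective_of_isIntegral (k := k) (K := A)).2
    apply hinf
    have hx0 : x ≠ 0 := hx.1
    have hv : (fun j => algebraMap A (FractionRing A) (algebraMap k A (x j))) ≠ 0 := by
      intro h
      apply hx0
      funext j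
      have h3 := congrFun h j
      simp only [Pi.zero_apply] at h3
      have h4 : algebraMap k A (x j) = 0 :=
        (IsFractionRing.injective A (FractionRing A)) (by rw [h3, map_zero])
      exact (algebraMap k A).injective (by rw [h4, Pi.zero_apply, map_zero])
    refine (Set.finite_singleton (Projectivization.mk (FractionRing A) _ hv)).subset ?_
    rintro φ ⟨f, hf, -, ⟨g, hg1, hg2⟩, rfl⟩
    rw [Set.mem_singleton_iff]
    apply mk_eq
    intro i j
    have hgx : ∀ j, g j = algebraMap k A (x j) := by
      intro j
      obtain ⟨a, ha⟩ := hsurj (g j)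
      have h3 := hg2 j
      rw [← ha, AlgHom.commutes] at h3
      rw [← ha, ← h3]
      rfl
    rw [← map_mul, ← map_mul]
    congr 1
    have h3 := hg1 i j
    rw [hgx, hgx] at h3
    rw [mul_comm, mul_comm (f j)]
    exact h3.symm
  · -- sequence of morphisms
    have hΦ : ∀ m : ℕ, ∃ (f : Fin (n + 1) → A)
        (hf : (fun j => algebraMap A (FractionRing A) (f j)) ≠ 0),
        IsMorphism U F f ∧ MapsTo f y x ∧
        ((hinf'.natEmbedding _ m : PointedMorphisms U F y x) :
          ℙ (FractionRing A) (Fin (n + 1) → FractionRing A)) =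
            Projectivization.mk (FractionRing A) _ hf :=
      fun m => (hinf'.natEmbedding _ m).2
    choose f hf hmor hmap heq using hΦ
    have hdiff : ∀ m m', m ≠ m' → ∃ i j, f m i * f m' j - f m j * f m' i ≠ 0 := by
      intro m m' hmm
      by_contra hcon
      push Not at hcon
      apply hmm
      apply (hinf'.natEmbedding _).injective
      apply Subtype.ext
      rw [heq m, heq m']
      apply mk_eq
      intro i j
      rw [← map_mul, ← map_mul]
      congr 1
      exact sub_eq_zero.1 (hcon i j)
    -- the countable family
    let T : Type := (ℕ × ℕ × Fin (n + 1) × Fin (n + 1)) ⊕ (ℕ × Fin (n + 1))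
    let val : T → A := Sum.elim
      (fun q => f q.1 q.2.2.1 * f q.2.1 q.2.2.2 - f q.1 q.2.2.2 * f q.2.1 q.2.2.1)
      (fun q => f q.1 q.2)
    have : Nonempty T := ⟨Sum.inr (0, 0)⟩
    obtain ⟨e, he⟩ := exists_surjective_nat T
    obtain ⟨P, hP, hPy, hPg, hFF⟩ := h1 k A y (fun l => if val (e l) = 0 then 1 else val (e l))
      (by intro m; split_ifs with h
          · exact one_ne_zero
          · exact h) htr
    have hval : ∀ τ : T, val τ ≠ 0 → val τ ∉ P := by
      intro τ hτ
      obtain ⟨l, rfl⟩ := he τ
      have := hPg l
      rwa [if_neg hτ] at this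
    have hfP : ∀ m j, f m j ≠ 0 → f m j ∉ P := fun m j h => hval (Sum.inr (m, j)) h
    have hdP : ∀ m m' i j, f m i * f m' j - f m j * f m' i ≠ 0 →
        f m i * f m' j - f m j * f m' i ∉ P :=
      fun m m' i j h => hval (Sum.inl (m, m', i, j)) h
    -- the projection
    let π : A →ₐ[k] FractionRing (A ⧸ P) :=
      (IsScalarTower.toAlgHom k (A ⧸ P) (FractionRing (A ⧸ P))).comp (Ideal.Quotient.mkₐ k P)
    have hπ : ∀ a, π a = algebraMap (A ⧸ P) (FractionRing (A ⧸ P)) (Ideal.Quotient.mk P a) :=
      fun a => rfl
    have hπ0 : ∀ a, π a = 0 ↔ a ∈ P := by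
      intro a
      rw [hπ, ← Ideal.Quotient.eq_zero_iff_mem]
      exact map_eq_zero_iff _ (IsFractionRing.injective (A ⧸ P) (FractionRing (A ⧸ P)))
    obtain ⟨hc, hS, hz⟩ := h2 k (A ⧸ P) hFF
    let y' : (A ⧸ P) →ₐ[k] k := Ideal.Quotient.liftₐ P y hPy
    obtain ⟨c, hc⟩ := hc y'
    have hy' : ∀ a, y' (Ideal.Quotient.mk P a) = y a := fun a => rfl
    have hcS : c ∉ hS.toFinset := by
      rw [Set.Finite.mem_toFinset]
      intro h
      exact h fun b => (hc b).1
    have hfin' := hfin (FractionRing (A ⧸ P)) hS.toFinset c hcS
    have hne : ∀ m, ∃ j, π (f m j) ≠ 0 := by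
      intro m
      obtain ⟨j, hj⟩ := Function.ne_iff.1 (hmor m).1
      exact ⟨j, fun h => hfP m j hj ((hπ0 _).1 h)⟩
    have hne' : ∀ m, (fun j => π (f m j)) ≠ 0 := by
      intro m h
      obtain ⟨j, hj⟩ := hne m
      exact hj (congrFun h j)
    refine (Set.infinite_of_injective_forall_mem (s := PointedCurves U F hS.toFinset c x)
      (f := fun m : ℕ => Projectivization.mk (FractionRing (A ⧸ P)) _ (hne' m)) ?_ ?_) hfin'
    · intro m m' hmm
      by_contra hcon
      obtain ⟨i, j, hij⟩ := hdiff m m' hcon
      apply hdP m m' i j hij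
      rw [← hπ0, map_sub, map_mul, map_mul, sub_eq_zero]
      exact of_mk_eq (hne' m) (hne' m') hmm i j
    · intro m
      refine ⟨_, hne' m, ?_, ?_, rfl⟩
      · refine ⟨hne m, ?_, ?_⟩
        · intro i
          have h3 := (hmor m).2.1 i
          have h4 : aeval (fun j => π (f m j)) (F i) = π (aeval (f m) (F i)) := by
            rw [← AlgHom.comp_apply, comp_aeval]
          rw [h4, h3, map_zero]
        · intro j hj
          obtain ⟨g, hg1, hg2⟩ := hmap m
          have hfj : f m j ≠ 0 := by
            intro h
            apply (hmor m).1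
            funext i
            have h3 := hg1 i j
            rw [h, mul_zero] at h3
            have h4 : g j ≠ 0 := by
              intro h4
              have h5 := hg2 j
              rw [h4, map_zero] at h5
              exact hx.2.1 j hj h5.symm
            exact (mul_eq_zero.1 h3.symm).resolve_left h4
          refine ⟨fun h => hfP m j hfj ((hπ0 _).1 h), ?_⟩
          intro P' hP'
          have hreg : ∀ b : A ⧸ P, P'.Reg (algebraMap (A ⧸ P) (FractionRing (A ⧸ P)) b) := by
            by_contra hcon
            exact hP' (hS.mem_toFinset.2 hcon)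
          obtain ⟨z, hz⟩ := hz P' hreg
          obtain ⟨g, hg1, -, hgU⟩ := (hmor m).2.2 (z.comp (Ideal.Quotient.mkₐ k P))
          have hg1' : ∀ i j, π (g i) * π (f m j) = π (g j) * π (f m i) := by
            intro i j
            rw [← map_mul, hg1, map_mul]
          have hnz : ∀ a : A, (z.comp (Ideal.Quotient.mkₐ k P)) a ≠ 0 →
              π a ≠ 0 ∧ P'.ord (π a) = 0 := by
            intro a ha
            refine ⟨?_, hz _ ha⟩
            intro h
            apply ha
            have h3 : Ideal.Quotient.mk P a = 0 :=
              Ideal.Quotient.eq_zero_iff_mem.2 ((hπ0 a).1 h)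
            change z (Ideal.Quotient.mk P a) = 0
            rw [h3, map_zero]
          exact ord_of P' (f := fun j => π (f m j)) (g := fun j => π (g j)) hg1'
            (fun j => hreg _) (hne m) (hnz _ (hgU j hj)).1
            (hnz _ (hgU j hj)).2
      · obtain ⟨g, hg1, hg2⟩ := hmap m
        obtain ⟨j0, hj0⟩ := Function.ne_iff.1 hx.1
        have hj0' : x j0 ≠ 0 := hj0
        have hg1' : ∀ i j, π (g i) * π (f m j) = π (g j) * π (f m i) := by
          intro i j
          rw [← map_mul, hg1, map_mul]
        have hyn : ∀ a : A, y a = 0 → π a = 0 ∨ 0 < c.ord (π a) := by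
          intro a ha
          rcases (hc (Ideal.Quotient.mk P a)).2 ha with h | h
          · left
            rw [hπ, h, map_zero]
          · exact Or.inr h
        have hg0 : π (g j0) ≠ 0 ∧ c.ord (π (g j0)) = 0 := by
          have h3 := hyn (g j0 - algebraMap k A (x j0)) (by
            rw [map_sub, hg2, AlgHom.commutes]
            simp)
          rw [map_sub, AlgHom.commutes] at h3
          have h5 : algebraMap k (FractionRing (A ⧸ P)) (x j0) ≠ 0 := by
            intro h
            exact hj0' ((map_eq_zero _).1 h)
          have h6 := c.ord_const hj0'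
          rcases h3 with h3 | h3
          · rw [sub_eq_zero.1 h3]
            exact ⟨h5, h6⟩
          · have h7 : π (g j0) - algebraMap k (FractionRing (A ⧸ P)) (x j0) ≠ 0 := by
              intro h
              rw [h, c.ord_zero] at h3
              exact lt_irrefl _ h3
            have h8 := c.ord_add_eq h5 h7 (by rw [h6]; exact h3)
            rw [add_sub_cancel] at h8
            exact ⟨h8.1, h8.2.trans h6⟩
        obtain ⟨hf0, hpord⟩ := pord_of c (f := fun j => π (f m j)) (g := fun j => π (g j)) hg1'
          (fun j => (hc _).1) hg0.1 hg0.2 (hne m)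
        intro i j
        rw [hpord]
        set D := algebraMap k (FractionRing (A ⧸ P)) (x i) * π (f m j) -
          algebraMap k (FractionRing (A ⧸ P)) (x j) * π (f m i) with hD
        have hE := hyn (algebraMap k A (x i) * g j - algebraMap k A (x j) * g i) (by
          rw [map_sub, map_mul, map_mul, AlgHom.commutes, AlgHom.commutes, hg2, hg2]
          simp only [Algebra.algebraMap_self, RingHom.id_apply]
          ring)
        rw [map_sub, map_mul, map_mul, AlgHom.commutes, AlgHom.commutes] at hE
        set E := algebraMap k (FractionRing (A ⧸ P)) (x i) * π (g j) -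
          algebraMap k (FractionRing (A ⧸ P)) (x j) * π (g i) with hEd
        have hDE : π (g j0) * D = π (f m j0) * E := by
          rw [hD, hEd]
          have e1 := hg1' j0 j
          have e2 := hg1' j0 i
          linear_combination algebraMap k (FractionRing (A ⧸ P)) (x i) * e1 -
            algebraMap k (FractionRing (A ⧸ P)) (x j) * e2
        by_cases hD0 : D = 0
        · exact Or.inl hD0
        · right
          have hE0 : E ≠ 0 := by
            intro h
            rw [h, mul_zero] at hDE
            exact mul_ne_zero hg0.1 hD0 hDE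
          have h3 := congrArg c.ord hDE
          rw [c.ord_mul hg0.1 hD0, c.ord_mul hf0 hE0, hg0.2] at h3
          have h4 := hE.resolve_left hE0
          change c.ord (π (f m j0)) < c.ord D
          omega


end Pool.Agent.X333.DC
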